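import Pool.Agent.Lib.MP_1c11af_pr.High


/-!
Asymptotics: the diameter exponent.
-/

namespace Pool.Agent.Lib.MP_1c11af_pr

open Finset MeasureTheory Real Filter Topology
open scoped Classical

set_option linter.unusedSectionVars false

lemma ev_exp {a : ℝ} (ha : 0 < a) (K : ℝ) (i j : ℕ) :
    ∀ᶠ L : ℝ in atTop, K * (L ^ 2 + 2) ^ j * L ^ i ≤ exp (a * L) := by
  have h := (isLittleO_pow_exp_pos_mul_atTop (2 * j + i) ha).bound
    (show 0 < 1 / (|K| * 3 ^ j + 1) by positivity)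
  filter_upwards [h, eventually_ge_atTop 1] with L h1 h2
  rw [Real.norm_eq_abs, Real.norm_eq_abs, abs_of_nonneg (by positivity),
    abs_of_pos (exp_pos _), one_div, ← div_eq_inv_mul, le_div_iff₀ (by positivity)] at h1
  have a1 : (L ^ 2 + 2) ^ j ≤ (3 * L ^ 2) ^ j :=
    pow_le_pow_left₀ (by positivity) (by nlinarith) j
  calc K * (L ^ 2 + 2) ^ j * L ^ i ≤ |K| * (3 * L ^ 2) ^ j * L ^ i := by
        gcongr; exact le_abs_self K
    _ = L ^ (2 * j + i) * (|K| * 3 ^ j) := by rw [mul_pow, ← pow_mul, pow_add]; ring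
    _ ≤ L ^ (2 * j + i) * (|K| * 3 ^ j + 1) := by gcongr; linarith
    _ ≤ _ := h1

lemma cond_ev {γ c : ℝ} {J : ℕ} (γ0 : 0 < γ) (c0 : 0 < c) (hc : 8 * c ≤ (1 - 3 * γ) / 2)
    (hJ : 242 ≤ γ * c * (2 * J - 1)) : ∀ᶠ L : ℝ in atTop,
      Cond γ c L (exp (γ * L)) (exp (c * L)) (exp ((1 - γ) / 2 * L)) J := by
  filter_upwards [eventually_ge_atTop (600 * (2 * (J : ℝ) + 1)),
    eventually_ge_atTop (2000000 / c ^ 3), eventually_ge_atTop 0,
    ev_exp γ0 (100 * ((2 * J + 1) * c)) 1 0, ev_exp (show 0 < γ / 5 by positivity) 66 1 0,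
    ev_exp c0 (128 * (2 * J + 1) / c) 1 J, ev_exp c0 (4800 * (2 * J + 1)) 4 3]
    with L h1 h2 h3 h4 h5 h6 h7
  refine ⟨γ0, by linarith, c0, by linarith, hJ, h1, ?_, rfl, rfl, exp_pos _, ?_, ?_, ?_, ?_, ?_, h7⟩
  · rwa [div_le_iff₀' (by positivity)] at h2
  · rw [← exp_nat_mul, ← exp_add]; congr 1; push_cast; ring
  · rw [← exp_nat_mul, ← exp_add]
    exact exp_le_exp.2 (by push_cast; nlinarith)
  · linarith
  · rw [show γ * L / 5 = γ / 5 * L by ring]; linarith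
  · have := mul_le_mul_of_nonneg_left h6 c0.le
    refine le_trans (le_of_eq ?_) this
    field_simp

variable {V : Type*} [DecidableEq V] [Fintype V]

/-- averaged probability of an event of the tree -/
noncomputable def Pr (γ : ℝ) (B : Finset (Sym2 V) → Prop) : ℝ :=
  ∫ U, Pq (fun e => wg γ (U e)) B ∂(mu (Sym2 V))

lemma meas_Pq (γ : ℝ) (B : Finset (Sym2 V) → Prop) :
    Measurable (fun U : Sym2 V → ℝ => Pq (fun e => wg γ (U e)) B) :=
  measurable_Pq (wg_meas γ) (fun _ => B) (fun _ => MeasurableSet.const _)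

lemma int_Pq (γ : ℝ) (B : Finset (Sym2 V) → Prop) :
    Integrable (fun U : Sym2 V → ℝ => Pq (fun e => wg γ (U e)) B) (mu (Sym2 V)) :=
  Integrable.of_bound (meas_Pq γ B).aestronglyMeasurable 1 (Eventually.of_forall (fun U => by
    rw [Real.norm_eq_abs, abs_of_nonneg (Pq_nonneg (fun _ => wg_pos _ _) _)]
    exact Pq_le_one (fun _ => wg_pos _ _) _))

lemma Pr_nonneg (γ : ℝ) (B : Finset (Sym2 V) → Prop) : 0 ≤ Pr γ B :=
  integral_nonneg (fun _ => Pq_nonneg (fun _ => wg_pos _ _) _)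

lemma Pr_mono (γ : ℝ) {B C : Finset (Sym2 V) → Prop} (h : ∀ S, IsT S → B S → C S) :
    Pr γ B ≤ Pr γ C :=
  integral_mono (int_Pq γ B) (int_Pq γ C) (fun _ => Pq_mono (fun _ => wg_pos _ _) _ _ h)

lemma Pr_le_of_Ph {γ x : ℝ} {B : Finset (Sym2 V) → Prop} (hx : 0 ≤ x)
    (h : Ph (wg γ) (fun _ => B) ≤ ENNReal.ofReal x) : Pr γ B ≤ x := by
  rw [Pr, integral_eq_lintegral_of_nonneg_ae (Eventually.of_forall
    (fun _ => Pq_nonneg (fun _ => wg_pos _ _) _)) (meas_Pq γ B).aestronglyMeasurable]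
  exact ENNReal.toReal_le_of_le_ofReal hx h

lemma Pr_le_of_Sm {γ x : ℝ} {B : Finset (Sym2 V) → Prop} (hx : 0 ≤ x)
    (h : Sm γ (fun _ => B) x) : Pr γ B ≤ x := by
  refine Pr_le_of_Ph hx ((Ph_le_of_Sm (B' := fun _ _ => False) h
    (fun _ _ _ h => Or.inl h)).trans (le_of_eq ?_))
  have : Ph (wg γ) (fun (_ : Sym2 V → ℝ) _ => False) = 0 := by
    simp [Ph, Pq_eq_zero (fun _ => False) (fun _ _ h => h)]
  rw [this, add_zero]

lemma Pq_add_le {W : Sym2 V → ℝ} (hW : ∀ e, 0 < W e) {B C : Finset (Sym2 V) → Prop}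
    (h : ∀ S, B S → ¬ C S) : Pq W B + Pq W C ≤ 1 := by
  unfold Pq
  rw [← add_div, ← Finset.sum_add_distrib]
  refine div_le_one_of_le₀ (Finset.sum_le_sum (fun S _ => ?_)) (Zf_nonneg hW)
  have := Wt_pos hW S
  by_cases hB : B S
  · rw [ind_pos hB, ind_neg (h S hB)]; linarith
  · rw [ind_neg hB]
    nlinarith [ind_le_one (C S)]

lemma Pr_add_le (γ : ℝ) {B C : Finset (Sym2 V) → Prop} (h : ∀ S, B S → ¬ C S) :
    Pr γ B + Pr γ C ≤ 1 := by
  unfold Pr
  rw [← integral_add (int_Pq γ B) (int_Pq γ C)]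
  exact (integral_mono ((int_Pq γ B).add (int_Pq γ C)) (integrable_const 1)
    (fun _ => Pq_add_le (fun _ => wg_pos _ _) h)).trans (by simp)

lemma one_le_Pr [Nonempty V] (γ : ℝ) {A B C : Finset (Sym2 V) → Prop}
    (h : ∀ S, IsT S → A S ∨ B S ∨ C S) : 1 ≤ Pr γ A + (Pr γ B + Pr γ C) := by
  unfold Pr
  have hi : Integrable (fun U : Sym2 V → ℝ => Pq (fun e => wg γ (U e)) B +
      Pq (fun e => wg γ (U e)) C) (mu (Sym2 V)) := (int_Pq γ B).add (int_Pq γ C)
  rw [← integral_add (int_Pq γ B) (int_Pq γ C), ← integral_add (int_Pq γ A) hi]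
  refine le_trans (by simp) (integral_mono (integrable_const 1)
    ((int_Pq γ A).add hi) (fun U => ?_))
  have hW : ∀ e, 0 < wg γ (U e) := fun _ => wg_pos _ _
  have h1 : Pq (fun e => wg γ (U e)) (fun _ => True) = 1 := by
    unfold Pq
    simp only [ind_pos trivial, one_mul]
    exact div_self (Zf_pos hW).ne'
  exact h1.ge.trans ((Pq_le_add hW _ A (fun S => B S ∨ C S) (fun S hS _ => h S hS)).trans
    (add_le_add le_rfl (Pq_le_add hW _ B C (fun _ _ h => h))))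

lemma tend_log : Tendsto (fun n : ℕ => log n) atTop atTop :=
  tendsto_log_atTop.comp tendsto_natCast_atTop_atTop

lemma card_fin {n : ℕ} (hn : 1 ≤ n) : (Fintype.card (Fin n) : ℝ) = exp (log n) := by
  rw [Fintype.card_fin, exp_log (by exact_mod_cast hn)]

lemma tend_exp {a : ℝ} (ha : 0 < a) : Tendsto (fun L : ℝ => exp (-(a * L))) atTop (𝓝 0) :=
  tendsto_exp_neg_atTop_nhds_zero.comp (tendsto_id.const_mul_atTop ha)

lemma exists_J {γ c : ℝ} (γ0 : 0 < γ) (c0 : 0 < c) : ∃ J : ℕ, 242 ≤ γ * c * (2 * J - 1) := by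
  obtain ⟨J, hJ⟩ := exists_nat_ge (242 / (γ * c) + 1)
  refine ⟨J, ?_⟩
  have h0 : 0 < γ * c := mul_pos γ0 c0
  have h1 : 0 < 242 / (γ * c) := by positivity
  rw [← div_le_iff₀' h0]
  linarith

theorem tend_upper {γ δ : ℝ} (γ0 : 0 < γ) (δ0 : 0 < δ) :
    Tendsto (fun n : ℕ => Pr γ (fun S : Finset (Sym2 (Fin n)) => ∃ k P, PathIn S P k ∧
      (n : ℝ) ^ (max (1 / 3) ((1 - γ) / 2) + δ) < k)) atTop (𝓝 0) := by
  have key : ∀ (n : ℕ) (K : ℕ) (x : ℝ), 1 ≤ n →
      (K : ℝ) ≤ exp ((max (1 / 3) ((1 - γ) / 2) + δ) * log n) →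
      Pr γ (fun S : Finset (Sym2 (Fin n)) => ∃ P, PathIn S P K) ≤ x →
      Pr γ (fun S : Finset (Sym2 (Fin n)) => ∃ k P, PathIn S P k ∧
        (n : ℝ) ^ (max (1 / 3) ((1 - γ) / 2) + δ) < k) ≤ x := by
    intro n K x hn hK h
    refine le_trans (Pr_mono γ ?_) h
    rintro S _ ⟨k, P, hP, hk⟩
    rw [rpow_def_of_pos (by exact_mod_cast hn), mul_comm] at hk
    exact ⟨P, hP.trunc K (by exact_mod_cast (hK.trans hk.le))⟩
  rcases le_or_gt (1 / 3) γ with hγ | hγ
  · have t1 : Tendsto (fun L : ℝ => exp (-(0.08 * L)) + 8 * exp (-L) + 620 / L) atTop (𝓝 0) := by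
      simpa using ((tend_exp (a := 0.08) (by norm_num)).add
        (tendsto_exp_neg_atTop_nhds_zero.const_mul 8)).add (tendsto_id.const_div_atTop 620)
    refine squeeze_zero' (Eventually.of_forall (fun _ => Pr_nonneg _ _)) ?_ (t1.comp tend_log)
    filter_upwards [eventually_ge_atTop 1, tend_log.eventually (eventually_ge_atTop 30000),
      tend_log.eventually (ev_exp δ0 1 6 0)] with n h1 h2 h3
    obtain ⟨K, hK, hs⟩ := high_upper (card_fin h1) hγ h2
    refine key n K _ h1 (hK.trans ?_) (Pr_le_of_Sm (by rw [Function.comp_apply]; positivity) hs)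
    simp only [pow_zero, mul_one, one_mul] at h3
    refine (mul_le_mul_of_nonneg_right h3 (exp_pos _).le).trans ?_
    rw [← exp_add]
    exact exp_le_exp.2 (by nlinarith [le_max_left (1 / 3 : ℝ) ((1 - γ) / 2)])
  · set c := min δ ((1 - 3 * γ) / 2) / 8 with hc
    have c0 : 0 < c := by have := lt_min δ0 (show 0 < (1 - 3 * γ) / 2 by linarith); linarith
    have c1 : 8 * c ≤ δ := by linarith [min_le_left δ ((1 - 3 * γ) / 2)]
    have c2 : 8 * c ≤ (1 - 3 * γ) / 2 := by linarith [min_le_right δ ((1 - 3 * γ) / 2)]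
    obtain ⟨J, hJ⟩ := exists_J γ0 c0
    obtain ⟨r, hr⟩ := exists_nat_ge (3 / (4 * c))
    rw [div_le_iff₀' (by positivity)] at hr
    have t1 : Tendsto (fun L : ℝ => exp (-(0.08 * L)) + (6 * J + 20) * exp (-L) +
        32 * (2 * J + 1) / L) atTop (𝓝 0) := by
      simpa using ((tend_exp (a := 0.08) (by norm_num)).add
        (tendsto_exp_neg_atTop_nhds_zero.const_mul (6 * (J : ℝ) + 20))).add
          (tendsto_id.const_div_atTop (32 * (2 * (J : ℝ) + 1)))
    refine squeeze_zero' (Eventually.of_forall (fun _ => Pr_nonneg _ _)) ?_ (t1.comp tend_log)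
    filter_upwards [eventually_ge_atTop 1, tend_log.eventually (eventually_ge_atTop 0),
      tend_log.eventually (cond_ev γ0 c0 c2 hJ),
      tend_log.eventually (ev_exp c0 (2 * r * (J + 1) + 240 / c) 0 0)] with n h1 h2 h3 h4
    obtain ⟨K, hK, hs⟩ := low_upper (card_fin h1) h3 r hr (by simpa using h4)
    refine key n K _ h1 (hK.trans ?_) (Pr_le_of_Ph (by rw [Function.comp_apply]; positivity) hs)
    rw [← exp_nat_mul, ← exp_add]
    exact exp_le_exp.2 (by push_cast; nlinarith [le_max_right (1 / 3 : ℝ) ((1 - γ) / 2)])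

theorem tend_lower {γ δ : ℝ} (γ0 : 0 < γ) (δ0 : 0 < δ) :
    Tendsto (fun n : ℕ => Pr γ (fun S : Finset (Sym2 (Fin n)) => ∃ D : ℕ,
      (D : ℝ) < (n : ℝ) ^ (max (1 / 3) ((1 - γ) / 2) - δ) ∧ ∀ u v, Wd S D u v)) atTop (𝓝 0) := by
  have key : ∀ (n : ℕ) (x : ℝ), 1 ≤ n →
      (∀ D : ℕ, (D : ℝ) ≤ exp ((max (1 / 3) ((1 - γ) / 2) - δ) * log n) →
        Pr γ (fun S : Finset (Sym2 (Fin n)) => ∀ u v, Wd S D u v) ≤ x) →
      Pr γ (fun S : Finset (Sym2 (Fin n)) => ∃ D : ℕ,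
        (D : ℝ) < (n : ℝ) ^ (max (1 / 3) ((1 - γ) / 2) - δ) ∧ ∀ u v, Wd S D u v) ≤ x := by
    intro n x hn h
    refine le_trans (Pr_mono γ ?_) (h _ (Nat.floor_le (exp_pos _).le))
    rintro S _ ⟨D, hD, hW⟩ u v
    rw [rpow_def_of_pos (by exact_mod_cast hn), mul_comm] at hD
    exact (hW u v).mono (Finset.Subset.refl _) (Nat.le_floor hD.le)
  rcases le_or_gt (1 / 3) γ with hγ | hγ
  · have t1 : Tendsto (fun L : ℝ => 4 * exp (-L) + 320000 / L ^ 6) atTop (𝓝 0) := by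
      simpa using (tendsto_exp_neg_atTop_nhds_zero.const_mul 4).add
        ((tendsto_pow_atTop (n := 6) (by norm_num)).const_div_atTop (320000 : ℝ))
    refine squeeze_zero' (Eventually.of_forall (fun _ => Pr_nonneg _ _)) ?_ (t1.comp tend_log)
    filter_upwards [eventually_ge_atTop 1, tend_log.eventually (eventually_ge_atTop 30000),
      tend_log.eventually (ev_exp δ0 1 2 0)] with n h1 h2 h3
    refine key n _ h1 (fun D hD => Pr_le_of_Sm (by rw [Function.comp_apply]; positivity)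
      (high_lower (card_fin h1) hγ h2 D (hD.trans ?_)))
    simp only [pow_zero, mul_one, one_mul] at h3
    rw [le_div_iff₀ (by positivity), max_eq_left (by linarith)]
    refine (mul_le_mul_of_nonneg_left h3 (exp_pos _).le).trans ?_
    rw [← exp_add]
    exact exp_le_exp.2 (by linarith)
  · set c := min δ ((1 - 3 * γ) / 2) / 8 with hc
    have c0 : 0 < c := by have := lt_min δ0 (show 0 < (1 - 3 * γ) / 2 by linarith); linarith
    have c1 : 8 * c ≤ δ := by linarith [min_le_left δ ((1 - 3 * γ) / 2)]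
    have c2 : 8 * c ≤ (1 - 3 * γ) / 2 := by linarith [min_le_right δ ((1 - 3 * γ) / 2)]
    obtain ⟨J, hJ⟩ := exists_J γ0 c0
    have t1 : Tendsto (fun L : ℝ => (6 * J + 12) * exp (-L) + 32 * (2 * J + 1) / L +
        exp (-(c * L))) atTop (𝓝 0) := by
      simpa using ((tendsto_exp_neg_atTop_nhds_zero.const_mul (6 * (J : ℝ) + 12)).add
        (tendsto_id.const_div_atTop (32 * (2 * (J : ℝ) + 1)))).add (tend_exp c0)
    refine squeeze_zero' (Eventually.of_forall (fun _ => Pr_nonneg _ _)) ?_ (t1.comp tend_log)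
    filter_upwards [eventually_ge_atTop 1, tend_log.eventually (eventually_ge_atTop 0),
      tend_log.eventually (cond_ev γ0 c0 c2 hJ)] with n h1 h2 h3
    refine key n _ h1 (fun D hD => Pr_le_of_Ph (by rw [Function.comp_apply]; positivity) (low_lower (card_fin h1) h3 D ?_))
    refine (mul_le_mul_of_nonneg_right hD (by positivity)).trans ?_
    rw [← exp_nat_mul, ← exp_add, max_eq_right (by linarith)]
    exact exp_le_exp.2 (by push_cast; nlinarith)

theorem tend_main {γ δ : ℝ} (γ0 : 0 < γ) (δ0 : 0 < δ) :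
    Tendsto (fun n : ℕ => Pr γ (fun S : Finset (Sym2 (Fin n)) =>
      (n : ℝ) ^ (max (1 / 3) ((1 - γ) / 2) - δ) ≤ (gr S).diam ∧
        ((gr S).diam : ℝ) ≤ (n : ℝ) ^ (max (1 / 3) ((1 - γ) / 2) + δ))) atTop (𝓝 1) := by
  have t1 := (tendsto_const_nhds (x := (1 : ℝ))).sub ((tend_upper γ0 δ0).add (tend_lower γ0 δ0))
  rw [add_zero, sub_zero] at t1
  refine tendsto_of_tendsto_of_tendsto_of_le_of_le' t1 tendsto_const_nhds ?_
    (Eventually.of_forall (fun n => ?_))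
  · filter_upwards [eventually_ge_atTop 1] with n hn
    have : Nonempty (Fin n) := ⟨⟨0, hn⟩⟩
    rw [sub_le_iff_le_add]
    refine one_le_Pr γ (fun S hS => ?_)
    by_contra hcon
    push Not at hcon
    obtain ⟨c1, c2, c3⟩ := hcon
    have hc : (gr S).Connected := ⟨hS.1⟩
    refine absurd (c1 ?_) (not_lt.2 ?_)
    · by_contra h1
      obtain ⟨u, v, h2⟩ := c3 _ (not_le.1 h1)
      refine h2 ?_
      unfold Wd
      rw [← SimpleGraph.Reachable.coe_dist_eq_edist (hS.1 u v)]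
      exact_mod_cast SimpleGraph.dist_le_diam (SimpleGraph.connected_iff_ediam_ne_top.1 hc)
    · obtain ⟨u, v, h2⟩ := (gr S).exists_dist_eq_diam
      obtain ⟨P, hP, _⟩ := (hS.1 u v).exists_path
      rw [h2] at hP
      exact c2 _ P hP
  · have := Pr_add_le (V := Fin n) γ (B := fun S =>
      (n : ℝ) ^ (max (1 / 3) ((1 - γ) / 2) - δ) ≤ (gr S).diam ∧
        ((gr S).diam : ℝ) ≤ (n : ℝ) ^ (max (1 / 3) ((1 - γ) / 2) + δ)) (C := fun _ => False)
      (fun _ _ h => h)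
    linarith [Pr_nonneg (V := Fin n) γ (fun _ => False)]

end Pool.Agent.Lib.MP_1c11af_pr
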