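import Pool.Agent.Lib.MP_1c11af_pr.Graph

-- part Pool.Agent.Lib.MP_1c11af_pr.Ex
section

/-!
Expectation over a Bernoulli random subset of a finite set, and exploration bounds for the
closure of a vertex set.
-/

namespace Pool.Agent.Lib.MP_1c11af_pr

open Finset
open scoped Classical

set_option linter.unusedSectionVars false

section Ex

variable {E : Type*} [DecidableEq E]

/-- expectation of `g` at a random subset of `F` keeping each element with probability `p` -/
noncomputable def Ex (p : ℝ) (F : Finset E) (g : Finset E → ℝ) : ℝ :=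
  ∑ S ∈ F.powerset, p ^ S.card * (1 - p) ^ (F.card - S.card) * g S

lemma Ex_empty (p : ℝ) (g : Finset E → ℝ) : Ex p ∅ g = g ∅ := by simp [Ex]

lemma Ex_insert (p : ℝ) {F : Finset E} {e : E} (he : e ∉ F) (g : Finset E → ℝ) :
    Ex p (insert e F) g = p * Ex p F (fun S => g (insert e S)) + (1 - p) * Ex p F g := by
  unfold Ex
  rw [Finset.sum_powerset_insert he, Finset.mul_sum, Finset.mul_sum, add_comm]
  congr 1
  · refine Finset.sum_congr rfl ?_
    intro S hS
    have hsub := Finset.mem_powerset.1 hS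
    have heS : e ∉ S := fun h => he (hsub h)
    have hc := Finset.card_le_card hsub
    rw [Finset.card_insert_of_notMem heS, Finset.card_insert_of_notMem he,
      Nat.add_sub_add_right, pow_succ]
    ring
  · refine Finset.sum_congr rfl ?_
    intro S hS
    have hsub := Finset.mem_powerset.1 hS
    have hc := Finset.card_le_card hsub
    rw [Finset.card_insert_of_notMem he, Nat.succ_sub hc, pow_succ]
    ring

lemma Ex_congr (p : ℝ) {F : Finset E} {g g' : Finset E → ℝ} (h : ∀ S ⊆ F, g S = g' S) :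
    Ex p F g = Ex p F g' := by
  unfold Ex
  refine Finset.sum_congr rfl ?_
  intro S hS
  rw [h S (Finset.mem_powerset.1 hS)]

lemma Ex_mono {p : ℝ} (hp0 : 0 ≤ p) (hp1 : p ≤ 1) {F : Finset E} {g g' : Finset E → ℝ}
    (h : ∀ S ⊆ F, g S ≤ g' S) : Ex p F g ≤ Ex p F g' := by
  unfold Ex
  refine Finset.sum_le_sum ?_
  intro S hS
  have h1 : 0 ≤ 1 - p := by linarith
  exact mul_le_mul_of_nonneg_left (h S (Finset.mem_powerset.1 hS)) (by positivity)

lemma Ex_const (p : ℝ) (F : Finset E) (c : ℝ) : Ex p F (fun _ => c) = c := by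
  induction F using Finset.induction_on with
  | empty => rw [Ex_empty]
  | insert e F he ih => rw [Ex_insert p he, ih]; ring

lemma Ex_add (p : ℝ) (F : Finset E) (g g' : Finset E → ℝ) :
    Ex p F (fun S => g S + g' S) = Ex p F g + Ex p F g' := by
  unfold Ex
  rw [← Finset.sum_add_distrib]
  refine Finset.sum_congr rfl (fun S _ => by ring)

lemma Ex_mul (p : ℝ) (F : Finset E) (c : ℝ) (g : Finset E → ℝ) :
    Ex p F (fun S => c * g S) = c * Ex p F g := by
  unfold Ex
  rw [Finset.mul_sum]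
  refine Finset.sum_congr rfl (fun S _ => by ring)

lemma Ex_neg (p : ℝ) (F : Finset E) (g : Finset E → ℝ) :
    Ex p F (fun S => - g S) = - Ex p F g := by
  have := Ex_mul p F (-1) g
  simpa using this

lemma Ex_sum {ι : Type*} (p : ℝ) (F : Finset E) (I : Finset ι) (g : ι → Finset E → ℝ) :
    Ex p F (fun S => ∑ i ∈ I, g i S) = ∑ i ∈ I, Ex p F (g i) := by
  unfold Ex
  rw [Finset.sum_comm]
  refine Finset.sum_congr rfl (fun S _ => ?_)
  rw [Finset.mul_sum]

lemma Ex_nonneg {p : ℝ} (hp0 : 0 ≤ p) (hp1 : p ≤ 1) {F : Finset E} {g : Finset E → ℝ}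
    (h : ∀ S ⊆ F, 0 ≤ g S) : 0 ≤ Ex p F g := by
  have := Ex_mono hp0 hp1 (F := F) (g := fun _ => 0) (g' := g) h
  rwa [Ex_const] at this

lemma Ex_union (p : ℝ) {F₁ F₂ : Finset E} (h : Disjoint F₁ F₂) (g : Finset E → ℝ) :
    Ex p (F₁ ∪ F₂) g = Ex p F₁ (fun S₁ => Ex p F₂ (fun S₂ => g (S₁ ∪ S₂))) := by
  induction F₁ using Finset.induction_on generalizing g with
  | empty => simp [Ex_empty]
  | insert e F he ih =>
    have h1 : e ∉ F₂ := Finset.disjoint_left.1 h (Finset.mem_insert_self _ _)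
    have h2 : Disjoint F F₂ := Finset.disjoint_of_subset_left (Finset.subset_insert _ _) h
    have h3 : e ∉ F ∪ F₂ := by simp [he, h1]
    rw [Finset.insert_union, Ex_insert p h3, Ex_insert p he, ih h2, ih h2]
    simp only [Finset.insert_union]

lemma Ex_ite_empty (p : ℝ) (F : Finset E) (a b : ℝ) :
    Ex p F (fun S => if S = ∅ then a else b) = b + (a - b) * (1 - p) ^ F.card := by
  induction F using Finset.induction_on with
  | empty => simp [Ex_empty]
  | insert e F he ih =>
    rw [Ex_insert p he, ih, Finset.card_insert_of_notMem he]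
    have : Ex p F (fun S => if insert e S = ∅ then a else b) = b := by
      rw [← Ex_const p F b]
      refine Ex_congr p (fun S _ => ?_)
      rw [if_neg (Finset.insert_ne_empty _ _), Ex_const]
    rw [this]; ring

end Ex

variable {V : Type*} [DecidableEq V] [Fintype V]

/-- all vertices reachable from `A` -/
noncomputable def cl (S : Finset (Sym2 V)) (A : Finset V) : Finset V :=
  univ.filter (fun w => ∃ v ∈ A, Rc S v w)

lemma mem_cl {S : Finset (Sym2 V)} {A : Finset V} {w : V} :
    w ∈ cl S A ↔ ∃ v ∈ A, Rc S v w := by simp [cl]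

lemma cl_mono {S S' : Finset (Sym2 V)} {A A' : Finset V} (hS : S ⊆ S') (hA : A ⊆ A') :
    cl S A ⊆ cl S' A' := by
  intro w hw
  obtain ⟨v, hv, h⟩ := mem_cl.1 hw
  exact mem_cl.2 ⟨v, hA hv, h.mono hS⟩

lemma subset_cl (S : Finset (Sym2 V)) (A : Finset V) : A ⊆ cl S A :=
  fun v hv => mem_cl.2 ⟨v, hv, Rc.refl _ _⟩

lemma cl_insert_edge {S : Finset (Sym2 V)} {R : Finset V} {v c : V} (hv : v ∈ R) :
    cl (insert s(v, c) S) R = cl S (insert c R) := by
  ext w
  rw [mem_cl, mem_cl]
  constructor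
  · rintro ⟨a, ha, h⟩
    rcases rc_insert.1 h with h | ⟨_, h⟩ | ⟨_, h⟩
    · exact ⟨a, Finset.mem_insert_of_mem ha, h⟩
    · exact ⟨c, Finset.mem_insert_self _ _, h⟩
    · exact ⟨v, Finset.mem_insert_of_mem hv, h⟩
  · rintro ⟨a, ha, h⟩
    rcases Finset.mem_insert.1 ha with rfl | ha
    · exact ⟨v, hv, rc_insert.2 (Or.inr (Or.inl ⟨Rc.refl _ _, h⟩))⟩
    · exact ⟨a, ha, h.mono (Finset.subset_insert _ _)⟩

lemma cl_eq_self {S : Finset (Sym2 V)} {R : Finset V}
    (h : ∀ v ∈ R, ∀ c, c ∉ R → s(v, c) ∉ S) : cl S R = R := by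
  refine Finset.Subset.antisymm ?_ (subset_cl _ _)
  intro w hw
  obtain ⟨v, hv, hr⟩ := mem_cl.1 hw
  refine hr.induct (fun x => x ∈ R) hv ?_
  intro c d hc hcd
  by_contra hd
  exact h c hc d hd hcd

/-- comparison with a supersolution of the exploration recursion -/
lemma ex_cl_le {p : ℝ} (hp0 : 0 ≤ p) (hp1 : p ≤ 1) (φ : Finset V → ℝ)
    (Ψ : Finset V → Finset (Sym2 V) → ℝ) (Inv : Finset V → Finset (Sym2 V) → Prop)
    (hterm : ∀ R F, Inv R F → (∀ v ∈ R, ∀ c, c ∉ R → s(v, c) ∉ F) → φ R ≤ Ψ R F)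
    (hstep : ∀ R F v c, Inv R F → v ∈ R → c ∉ R → s(v, c) ∈ F →
      Inv (insert c R) (F.erase s(v, c)) ∧ Inv R (F.erase s(v, c)) ∧
      p * Ψ (insert c R) (F.erase s(v, c)) + (1 - p) * Ψ R (F.erase s(v, c)) ≤ Ψ R F) :
    ∀ F R, Inv R F → Ex p F (fun S => φ (cl S R)) ≤ Ψ R F := by
  intro F
  induction hm : F.card using Nat.strong_induction_on generalizing F with
  | _ m ih =>
    intro R hI
    by_cases hex : ∃ v ∈ R, ∃ c, c ∉ R ∧ s(v, c) ∈ F
    · obtain ⟨v, hv, c, hc, hvc⟩ := hex
      obtain ⟨h1, h2, h3⟩ := hstep R F v c hI hv hc hvc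
      have hcard : (F.erase s(v, c)).card < m := by
        have := Finset.card_erase_add_one hvc
        omega
      have e1 := ih _ hcard (F.erase s(v, c)) rfl _ h1
      have e2 := ih _ hcard (F.erase s(v, c)) rfl _ h2
      conv_lhs => rw [← Finset.insert_erase hvc]
      rw [Ex_insert p (Finset.notMem_erase _ _)]
      simp only [cl_insert_edge hv]
      have h4 : 0 ≤ 1 - p := by linarith
      nlinarith [mul_le_mul_of_nonneg_left e1 hp0, mul_le_mul_of_nonneg_left e2 h4]
    · push Not at hex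
      refine le_trans (le_of_eq ?_) (hterm R F hI hex)
      rw [← Ex_const p F (φ R)]
      refine Ex_congr p (fun S hS => ?_)
      rw [cl_eq_self (fun v hv c hc hm => hex v hv c hc (hS hm))]

/-- the pairs of `F` going out of `R` -/
noncomputable def bd (R : Finset V) (F : Finset (Sym2 V)) : Finset (V × V) :=
  (R ×ˢ Rᶜ).filter (fun x => s(x.1, x.2) ∈ F)

lemma mem_bd {R : Finset V} {F : Finset (Sym2 V)} {x : V × V} :
    x ∈ bd R F ↔ x.1 ∈ R ∧ x.2 ∉ R ∧ s(x.1, x.2) ∈ F := by
  simp [bd, and_assoc]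

lemma bd_erase {R : Finset V} {F : Finset (Sym2 V)} {v c : V} (hv : v ∈ R) (hc : c ∉ R)
    (hvc : s(v, c) ∈ F) : (bd R (F.erase s(v, c))).card + 1 = (bd R F).card := by
  have h1 : bd R (F.erase s(v, c)) = (bd R F).erase (v, c) := by
    ext ⟨a, b⟩
    rw [Finset.mem_erase, mem_bd, mem_bd, Finset.mem_erase]
    constructor
    · rintro ⟨ha, hb, hne, hm⟩
      refine ⟨?_, ha, hb, hm⟩
      intro h
      obtain ⟨rfl, rfl⟩ := Prod.mk.inj h
      exact hne rfl
    · rintro ⟨hne, ha, hb, hm⟩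
      refine ⟨ha, hb, ?_, hm⟩
      intro h
      rcases Sym2.eq_iff.1 h with ⟨h1, h2⟩ | ⟨h1, h2⟩
      · exact hne (Prod.ext h1 h2)
      · exact hc (h1 ▸ ha)
  rw [h1]
  exact Finset.card_erase_add_one (mem_bd.2 ⟨hv, hc, hvc⟩)

lemma bd_insert {R : Finset V} {F : Finset (Sym2 V)} {v c : V} (hv : v ∈ R) (hc : c ∉ R) :
    (bd (insert c R) (F.erase s(v, c))).card =
      (univ.filter (fun c' => c' ∉ insert c R ∧ s(c, c') ∈ F)).card +
        ((bd R F).filter (fun x => x.2 ≠ c)).card := by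
  have h1 : bd (insert c R) (F.erase s(v, c)) =
      (univ.filter (fun c' => c' ∉ insert c R ∧ s(c, c') ∈ F)).image (fun c' => (c, c')) ∪
        (bd R F).filter (fun x => x.2 ≠ c) := by
    ext ⟨a, b⟩
    simp only [mem_bd, Finset.mem_union, Finset.mem_image, Finset.mem_filter, Finset.mem_univ,
      true_and, Finset.mem_erase, Finset.mem_insert, Prod.mk.injEq, not_or]
    constructor
    · rintro ⟨ha | ha, ⟨hb1, hb2⟩, _, hm⟩
      · subst ha
        exact Or.inl ⟨b, ⟨⟨hb1, hb2⟩, hm⟩, rfl, rfl⟩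
      · exact Or.inr ⟨⟨ha, hb2, hm⟩, hb1⟩
    · have key : ∀ a b : V, b ≠ c → b ∉ R → s(a, b) ≠ s(v, c) := by
        intro a b hb1 hb2 h
        rcases Sym2.eq_iff.1 h with ⟨_, h2⟩ | ⟨_, h2⟩
        · exact hb1 h2
        · exact hb2 (h2 ▸ hv)
      rintro (⟨b', ⟨⟨hb1, hb2⟩, hm⟩, rfl, rfl⟩ | ⟨⟨ha, hb2, hm⟩, hb1⟩)
      · exact ⟨Or.inl rfl, ⟨hb1, hb2⟩, key _ _ hb1 hb2, hm⟩
      · exact ⟨Or.inr ha, ⟨hb1, hb2⟩, key _ _ hb1 hb2, hm⟩
  rw [h1, Finset.card_union_of_disjoint, Finset.card_image_of_injective]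
  · intro x y h
    exact (Prod.mk.inj h).2
  · rw [Finset.disjoint_left]
    rintro ⟨a, b⟩ h2 h3
    simp only [Finset.mem_image, Prod.mk.injEq] at h2
    obtain ⟨_, _, rfl, _⟩ := h2
    exact hc (mem_bd.1 (Finset.mem_filter.1 h3).1).1

lemma bd_filter_ge (R : Finset V) (F : Finset (Sym2 V)) (c : V) :
    (bd R F).card ≤ ((bd R F).filter (fun x => x.2 ≠ c)).card + R.card := by
  have h1 := Finset.card_filter_add_card_filter_not (s := bd R F) (fun x => x.2 ≠ c)
  have h2 : ((bd R F).filter (fun x => ¬ x.2 ≠ c)).card ≤ R.card := by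
    refine Finset.card_le_card_of_injOn (fun x => x.1) ?_ ?_
    · intro x hx
      exact (mem_bd.1 (Finset.mem_filter.1 hx).1).1
    · intro x hx y hy hxy
      have a1 := (Finset.mem_filter.1 hx).2
      have a2 := (Finset.mem_filter.1 hy).2
      push Not at a1 a2
      exact Prod.ext hxy (a1.trans a2.symm)
  omega

lemma bd_card_eq (R : Finset V) (F : Finset (Sym2 V)) :
    (bd R F).card = ∑ v ∈ R, (Rᶜ.filter (fun c => s(v, c) ∈ F)).card := by
  unfold bd
  rw [Finset.card_filter, Finset.sum_product]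
  refine Finset.sum_congr rfl (fun v _ => ?_)
  rw [Finset.card_filter]

lemma bd_card_le (R : Finset V) (F : Finset (Sym2 V)) :
    (bd R F).card ≤ R.card * Fintype.card V := by
  rw [bd_card_eq]
  refine (Finset.sum_le_card_nsmul _ _ (Fintype.card V) ?_).trans (by simp)
  intro v _
  exact Finset.card_le_univ _

lemma bd_empty {R : Finset V} {F : Finset (Sym2 V)}
    (h : ∀ v ∈ R, ∀ c, c ∉ R → s(v, c) ∉ F) : (bd R F).card = 0 := by
  rw [Finset.card_eq_zero, Finset.eq_empty_iff_forall_notMem]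
  intro x hx
  obtain ⟨h1, h2, h3⟩ := mem_bd.1 hx
  exact h _ h1 _ h2 h3

/-- the closure of `A` is unlikely to stay small -/
lemma ex_cl_upper {p z q : ℝ} (hp0 : 0 ≤ p) (hp1 : p < 1) (hz : 0 ≤ z) (hq0 : 0 ≤ q)
    (hq1 : q ≤ 1) (τ m n0 : ℕ) (hm : m + 2 * τ ≤ n0)
    (hcond : z * Real.exp (-(p * m * (1 - q))) ≤ q) (F : Finset (Sym2 V))
    (hF : ∀ c, n0 ≤ (univ.filter (fun c' => c' ≠ c ∧ s(c, c') ∈ F)).card) (A : Finset V) :
    Ex p F (fun S => if (cl S A).card ≤ τ then z ^ (cl S A).card else 0) ≤ q ^ A.card := by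
  have hpq : 0 < 1 - p * q := by nlinarith
  set g : ℝ := (1 - p) / (1 - p * q) with hg
  have hg0 : 0 ≤ g := div_nonneg (by linarith) hpq.le
  have hgm : g * (1 - p * q) = 1 - p := div_mul_cancel₀ _ hpq.ne'
  have hg1' : g ≤ 1 - p * (1 - q) := by
    rw [hg, div_le_iff₀ hpq]
    have : 0 ≤ p * p * q * (1 - q) := by
      have : 0 ≤ 1 - q := by linarith
      positivity
    nlinarith
  have hg1 : g ≤ 1 := by nlinarith
  have hgexp : g ^ m ≤ Real.exp (-(p * m * (1 - q))) := by
    have h1 : g ≤ Real.exp (-(p * (1 - q))) := by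
      have := Real.add_one_le_exp (-(p * (1 - q)))
      linarith
    calc g ^ m ≤ (Real.exp (-(p * (1 - q)))) ^ m := pow_le_pow_left₀ hg0 h1 m
      _ = _ := by rw [← Real.exp_nat_mul]; congr 1; ring
  have hzg : z * g ^ m ≤ q := (mul_le_mul_of_nonneg_left hgexp hz).trans hcond
  have hdeg : ∀ (R : Finset V) (F' : Finset (Sym2 V)) (c : V),
      (∀ c', c' ∉ R → s(c, c') ∈ F → s(c, c') ∈ F') →
      n0 ≤ (univ.filter (fun c' => c' ∉ insert c R ∧ s(c, c') ∈ F')).card + R.card := by
    intro R F' c h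
    refine (hF c).trans ((Finset.card_le_card ?_).trans (Finset.card_union_le _ _))
    intro c' hc'
    simp only [Finset.mem_filter, Finset.mem_univ, true_and, Finset.mem_union,
      Finset.mem_insert, not_or] at hc' ⊢
    by_cases hR : c' ∈ R
    · exact Or.inr hR
    · exact Or.inl ⟨⟨hc'.1, hR⟩, h c' hR hc'.2⟩
  have main := ex_cl_le hp0 hp1.le (fun R => if R.card ≤ τ then z ^ R.card else 0)
    (fun R F' => if R.card ≤ τ then z ^ R.card * g ^ (bd R F').card else 0)
    (fun R F' => ∀ c, c ∉ R → ∀ c', c' ∉ R → s(c, c') ∈ F → s(c, c') ∈ F')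
    (by
      intro R F' _ h
      simp only [bd_empty h, pow_zero, mul_one, le_refl])
    (by
      intro R F' v c hI hv hc hvc
      have key : ∀ a b : V, a ∉ R → b ∉ R → s(a, b) ≠ s(v, c) := by
        intro a b ha hb h
        rcases Sym2.eq_iff.1 h with ⟨h1, _⟩ | ⟨_, h2⟩
        · exact ha (h1 ▸ hv)
        · exact hb (h2 ▸ hv)
      refine ⟨?_, ?_, ?_⟩
      · intro a ha b hb hab
        have ha' : a ∉ R := fun h => ha (Finset.mem_insert_of_mem h)
        have hb' : b ∉ R := fun h => hb (Finset.mem_insert_of_mem h)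
        exact Finset.mem_erase.2 ⟨key a b ha' hb', hI a ha' b hb' hab⟩
      · intro a ha b hb hab
        exact Finset.mem_erase.2 ⟨key a b ha hb, hI a ha b hb hab⟩
      · rw [Finset.card_insert_of_notMem hc]
        have e1 := bd_erase hv hc hvc
        have e2 := bd_insert (F := F') hv hc
        have e3 := bd_filter_ge R F' c
        have e4 := hdeg R F' c (hI c hc)
        by_cases hR : R.card ≤ τ
        · rw [if_pos hR, if_pos hR, ← e1]
          set N := (bd R (F'.erase s(v, c))).card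
          have hzR : 0 ≤ z ^ R.card := pow_nonneg hz _
          have hgN : 0 ≤ g ^ N := pow_nonneg hg0 _
          have h5 : (if R.card + 1 ≤ τ then
              z ^ (R.card + 1) * g ^ (bd (insert c R) (F'.erase s(v, c))).card else 0) ≤
              z ^ R.card * g ^ (N + 1) * q := by
            split_ifs with h6
            · have h7 : g ^ (bd (insert c R) (F'.erase s(v, c))).card ≤ g ^ (N + 1 + m) :=
                pow_le_pow_of_le_one hg0 hg1 (by omega)
              calc z ^ (R.card + 1) * g ^ (bd (insert c R) (F'.erase s(v, c))).card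
                  ≤ z ^ (R.card + 1) * g ^ (N + 1 + m) :=
                    mul_le_mul_of_nonneg_left h7 (pow_nonneg hz _)
                _ = z ^ R.card * g ^ (N + 1) * (z * g ^ m) := by ring
                _ ≤ _ := mul_le_mul_of_nonneg_left hzg (by positivity)
            · positivity
          have h8 : (1 - p) * (z ^ R.card * g ^ N) =
              z ^ R.card * g ^ (N + 1) * (1 - p * q) := by
            rw [← hgm]; ring
          rw [h8]
          nlinarith [mul_le_mul_of_nonneg_left h5 hp0]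
        · rw [if_neg hR, if_neg hR, if_neg (by omega)]
          simp)
    F A (fun _ _ _ _ h => h)
  refine main.trans ?_
  split_ifs with hA
  · have h1 : A.card * m ≤ (bd A F).card := by
      rw [bd_card_eq]
      refine le_trans (by simp) (Finset.card_nsmul_le_sum A _ m ?_)
      intro v hv
      have e4 := hdeg A F v (fun _ _ h => h)
      have e5 : (univ.filter (fun c' => c' ∉ insert v A ∧ s(v, c') ∈ F)).card ≤
          (Aᶜ.filter (fun c => s(v, c) ∈ F)).card := by
        refine Finset.card_le_card ?_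
        intro c hc
        simp only [Finset.mem_filter, Finset.mem_univ, true_and, Finset.mem_insert, not_or,
          Finset.mem_compl] at hc ⊢
        exact ⟨hc.1.2, hc.2⟩
      omega
    calc z ^ A.card * g ^ (bd A F).card ≤ z ^ A.card * g ^ (A.card * m) :=
          mul_le_mul_of_nonneg_left (pow_le_pow_of_le_one hg0 hg1 h1) (pow_nonneg hz _)
      _ = (z * g ^ m) ^ A.card := by rw [mul_pow, ← pow_mul, mul_comm m]
      _ ≤ q ^ A.card := pow_le_pow_left₀ (by positivity) hzg _
  · positivity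

/-- domination by a branching process: exponential moment -/
lemma ex_cl_dom_upper {p z q g : ℝ} (hp0 : 0 ≤ p) (hp1 : p ≤ 1) (hz : 0 ≤ z) (hg1 : 1 ≤ g)
    (hgm : g * (1 - p * q) = 1 - p) (hcond : z * g ^ Fintype.card V ≤ q)
    (F : Finset (Sym2 V)) (A : Finset V) :
    Ex p F (fun S => z ^ (cl S A).card) ≤ q ^ A.card := by
  have hg0 : 0 ≤ g := by linarith
  have main := ex_cl_le hp0 hp1 (fun R => z ^ R.card)
    (fun R F' => z ^ R.card * g ^ (bd R F').card) (fun _ _ => True)
    (by
      intro R F' _ h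
      simp only [bd_empty h, pow_zero, mul_one, le_refl])
    (by
      intro R F' v c _ hv hc hvc
      refine ⟨trivial, trivial, ?_⟩
      rw [Finset.card_insert_of_notMem hc]
      have e1 := bd_erase hv hc hvc
      have e2 := bd_insert (F := F') hv hc
      have e3 : ((bd R F').filter (fun x => x.2 ≠ c)).card ≤ (bd R F').card :=
        Finset.card_filter_le _ _
      have e4 : (univ.filter (fun c' => c' ∉ insert c R ∧ s(c, c') ∈ F')).card ≤
        Fintype.card V := Finset.card_le_univ _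
      rw [← e1]
      set N := (bd R (F'.erase s(v, c))).card
      have h7 : g ^ (bd (insert c R) (F'.erase s(v, c))).card ≤ g ^ (N + 1 + Fintype.card V) :=
        pow_le_pow_right₀ hg1 (by omega)
      have h5 : z ^ (R.card + 1) * g ^ (bd (insert c R) (F'.erase s(v, c))).card ≤
          z ^ R.card * g ^ (N + 1) * q := by
        calc z ^ (R.card + 1) * g ^ (bd (insert c R) (F'.erase s(v, c))).card
            ≤ z ^ (R.card + 1) * g ^ (N + 1 + Fintype.card V) :=
              mul_le_mul_of_nonneg_left h7 (pow_nonneg hz _)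
          _ = z ^ R.card * g ^ (N + 1) * (z * g ^ Fintype.card V) := by ring
          _ ≤ _ := mul_le_mul_of_nonneg_left hcond (by positivity)
      have h8 : (1 - p) * (z ^ R.card * g ^ N) =
          z ^ R.card * g ^ (N + 1) * (1 - p * q) := by
        rw [← hgm]; ring
      rw [h8]
      nlinarith [mul_le_mul_of_nonneg_left h5 hp0])
    F A trivial
  refine main.trans ?_
  calc z ^ A.card * g ^ (bd A F).card ≤ z ^ A.card * g ^ (A.card * Fintype.card V) :=
        mul_le_mul_of_nonneg_left (pow_le_pow_right₀ hg1 (bd_card_le _ _)) (pow_nonneg hz _)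
    _ = (z * g ^ Fintype.card V) ^ A.card := by
        rw [mul_pow, ← pow_mul, mul_comm (Fintype.card V)]
    _ ≤ q ^ A.card := pow_le_pow_left₀ (by positivity) hcond _

/-- domination by a branching process: Laplace transform -/
lemma ex_cl_dom_lower {p z q g : ℝ} (hp0 : 0 ≤ p) (hp1 : p ≤ 1) (hz : 0 ≤ z) (hg0 : 0 ≤ g)
    (hg1 : g ≤ 1) (hq0 : 0 ≤ q)
    (hgm : g * (1 - p * q) = 1 - p) (hcond : q ≤ z * g ^ Fintype.card V)
    (F : Finset (Sym2 V)) (A : Finset V) :
    q ^ A.card ≤ Ex p F (fun S => z ^ (cl S A).card) := by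
  have main := ex_cl_le hp0 hp1 (fun R => - z ^ R.card)
    (fun R F' => - (z ^ R.card * g ^ (bd R F').card)) (fun _ _ => True)
    (by
      intro R F' _ h
      simp only [bd_empty h, pow_zero, mul_one, le_refl])
    (by
      intro R F' v c _ hv hc hvc
      refine ⟨trivial, trivial, ?_⟩
      rw [Finset.card_insert_of_notMem hc]
      have e1 := bd_erase hv hc hvc
      have e2 := bd_insert (F := F') hv hc
      have e3 : ((bd R F').filter (fun x => x.2 ≠ c)).card ≤ (bd R F').card :=
        Finset.card_filter_le _ _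
      have e4 : (univ.filter (fun c' => c' ∉ insert c R ∧ s(c, c') ∈ F')).card ≤
        Fintype.card V := Finset.card_le_univ _
      rw [← e1]
      set N := (bd R (F'.erase s(v, c))).card
      have h7 : g ^ (N + 1 + Fintype.card V) ≤ g ^ (bd (insert c R) (F'.erase s(v, c))).card :=
        pow_le_pow_of_le_one hg0 hg1 (by omega)
      have h5 : z ^ R.card * g ^ (N + 1) * q ≤
          z ^ (R.card + 1) * g ^ (bd (insert c R) (F'.erase s(v, c))).card := by
        calc z ^ R.card * g ^ (N + 1) * q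
            ≤ z ^ R.card * g ^ (N + 1) * (z * g ^ Fintype.card V) :=
              mul_le_mul_of_nonneg_left hcond (by positivity)
          _ = z ^ (R.card + 1) * g ^ (N + 1 + Fintype.card V) := by ring
          _ ≤ _ := mul_le_mul_of_nonneg_left h7 (pow_nonneg hz _)
      have h8 : (1 - p) * (z ^ R.card * g ^ N) =
          z ^ R.card * g ^ (N + 1) * (1 - p * q) := by
        rw [← hgm]; ring
      rw [mul_neg, mul_neg, h8]
      nlinarith [mul_le_mul_of_nonneg_left h5 hp0])
    F A trivial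
  rw [Ex_neg] at main
  refine le_trans ?_ (neg_le_neg_iff.1 main)
  calc q ^ A.card ≤ (z * g ^ Fintype.card V) ^ A.card := pow_le_pow_left₀ hq0 hcond _
    _ = z ^ A.card * g ^ (A.card * Fintype.card V) := by
        rw [mul_pow, ← pow_mul, mul_comm (Fintype.card V)]
    _ ≤ z ^ A.card * g ^ (bd A F).card :=
        mul_le_mul_of_nonneg_left (pow_le_pow_of_le_one hg0 hg1 (bd_card_le _ _))
          (pow_nonneg hz _)

end Pool.Agent.Lib.MP_1c11af_pr
end

-- part Pool.Agent.Lib.MP_1c11af_pr.Ball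
section

/-!
Growth of balls in a Bernoulli random graph, generation by generation.
-/

namespace Pool.Agent.Lib.MP_1c11af_pr

open Finset
open scoped Classical

set_option linter.unusedSectionVars false

variable {V : Type*} [DecidableEq V] [Fintype V]

/-- all vertices within distance `r` of `A` -/
noncomputable def ball (S : Finset (Sym2 V)) (r : ℕ) (A : Finset V) : Finset V :=
  univ.filter (fun w => ∃ v ∈ A, Wd S r v w)

lemma mem_ball {S : Finset (Sym2 V)} {r : ℕ} {A : Finset V} {w : V} :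
    w ∈ ball S r A ↔ ∃ v ∈ A, Wd S r v w := by simp [ball]

lemma ball_mono {S S' : Finset (Sym2 V)} {r r' : ℕ} {A A' : Finset V} (hS : S ⊆ S')
    (hr : r ≤ r') (hA : A ⊆ A') : ball S r A ⊆ ball S' r' A' := by
  intro w hw
  obtain ⟨v, hv, h⟩ := mem_ball.1 hw
  exact mem_ball.2 ⟨v, hA hv, h.mono hS hr⟩

lemma subset_ball (S : Finset (Sym2 V)) (r : ℕ) (A : Finset V) : A ⊆ ball S r A :=
  fun v hv => mem_ball.2 ⟨v, hv, Wd.refl _ _ _⟩

/-- all pairs between `A` and `C` -/
noncomputable def cross (A C : Finset V) : Finset (Sym2 V) :=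
  C.biUnion (fun c => A.image (fun a => s(a, c)))

lemma mem_cross {A C : Finset V} {e : Sym2 V} :
    e ∈ cross A C ↔ ∃ a ∈ A, ∃ c ∈ C, s(a, c) = e := by
  simp only [cross, Finset.mem_biUnion, Finset.mem_image]
  constructor
  · rintro ⟨c, hc, a, ha, h⟩; exact ⟨a, ha, c, hc, h⟩
  · rintro ⟨a, ha, c, hc, h⟩; exact ⟨c, hc, a, ha, h⟩

lemma card_star {A : Finset V} {c : V} : (A.image (fun a => s(a, c))).card = A.card := by
  refine Finset.card_image_of_injective _ ?_
  intro a b h
  exact Sym2.congr_left.1 h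

lemma card_cross {A C : Finset V} (h : Disjoint A C) : (cross A C).card = A.card * C.card := by
  unfold cross
  rw [Finset.card_biUnion]
  · simp only [card_star]
    rw [Finset.sum_const, smul_eq_mul, mul_comm]
  · intro c hc c' hc' hne
    rw [Function.onFun, Finset.disjoint_left]
    intro e he he'
    obtain ⟨a, ha, rfl⟩ := Finset.mem_image.1 he
    obtain ⟨a', ha', h'⟩ := Finset.mem_image.1 he'
    rcases Sym2.eq_iff.1 h' with ⟨_, h2⟩ | ⟨h1, _⟩
    · exact hne h2.symm
    · exact Finset.disjoint_left.1 h ha' (h1 ▸ hc)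

lemma ex_hits (p ρ : ℝ) (A C : Finset V) (h : Disjoint A C) :
    Ex p (cross A C) (fun S => ρ ^ (C.filter (fun c => ∃ a ∈ A, s(a, c) ∈ S)).card) =
      (ρ + (1 - ρ) * (1 - p) ^ A.card) ^ C.card := by
  induction C using Finset.induction_on with
  | empty => simp [cross, Ex_empty]
  | insert c C hc ih =>
    have hAC : Disjoint A C := Finset.disjoint_of_subset_right (Finset.subset_insert _ _) h
    have hcA : c ∉ A := fun hA => Finset.disjoint_left.1 h hA (Finset.mem_insert_self _ _)
    have e1 : cross A (insert c C) = A.image (fun a => s(a, c)) ∪ cross A C := by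
      unfold cross; rw [Finset.biUnion_insert]
    have key : ∀ a ∈ A, ∀ a' ∈ A, ∀ c' ∈ C, s(a, c) ≠ s(a', c') := by
      intro a ha a' ha' c' hc' h'
      rcases Sym2.eq_iff.1 h' with ⟨_, h2⟩ | ⟨_, h2⟩
      · exact hc (h2 ▸ hc')
      · exact hcA (h2 ▸ ha')
    have e2 : Disjoint (A.image (fun a => s(a, c))) (cross A C) := by
      rw [Finset.disjoint_left]
      intro e he he'
      obtain ⟨a, ha, rfl⟩ := Finset.mem_image.1 he
      obtain ⟨a', ha', c', hc', h'⟩ := mem_cross.1 he'
      exact key a ha a' ha' c' hc' h'.symm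
    rw [e1, Ex_union p e2, Finset.card_insert_of_notMem hc, pow_succ, ← ih hAC]
    have e3 := Ex_ite_empty p (A.image (fun a => s(a, c))) 1 ρ
    rw [card_star] at e3
    rw [← e3, ← Ex_mul]
    refine Ex_congr p (fun S₁ hS₁ => ?_)
    rw [mul_comm, ← Ex_mul]
    refine Ex_congr p (fun S₂ hS₂ => ?_)
    have e4 : C.filter (fun c' => ∃ a ∈ A, s(a, c') ∈ S₁ ∪ S₂) =
        C.filter (fun c' => ∃ a ∈ A, s(a, c') ∈ S₂) := by
      refine Finset.filter_congr (fun c' hc' => ?_)
      constructor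
      · rintro ⟨a, ha, hm⟩
        rcases Finset.mem_union.1 hm with hm | hm
        · obtain ⟨a', ha', h'⟩ := Finset.mem_image.1 (hS₁ hm)
          exact absurd h' (key a' ha' a ha c' hc')
        · exact ⟨a, ha, hm⟩
      · rintro ⟨a, ha, hm⟩
        exact ⟨a, ha, Finset.mem_union_right _ hm⟩
    rw [Finset.filter_insert, e4]
    by_cases hS : S₁ = ∅
    · rw [if_pos hS, if_neg, one_mul]
      rintro ⟨a, ha, hm⟩
      rw [hS, Finset.empty_union] at hm
      obtain ⟨a', ha', c', hc', h'⟩ := mem_cross.1 (hS₂ hm)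
      exact key a ha a' ha' c' hc' h'.symm
    · rw [if_neg hS, if_pos, Finset.card_insert_of_notMem, pow_succ, mul_comm]
      · intro hm; exact hc (Finset.mem_filter.1 hm).1
      · obtain ⟨e, he⟩ := Finset.nonempty_iff_ne_empty.2 hS
        obtain ⟨a, ha, rfl⟩ := Finset.mem_image.1 (hS₁ he)
        exact ⟨a, ha, Finset.mem_union_left _ he⟩

lemma one_sub_pow_ge {p : ℝ} (hp0 : 0 ≤ p) (hp1 : p ≤ 1) (a : ℕ) :
    p * a * (1 - p * a) ≤ 1 - (1 - p) ^ a := by
  have h1 : (1 - p) ^ a * (1 + p * a) ≤ 1 := by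
    have h2 : 1 + (a : ℝ) * p ≤ (1 + p) ^ a := one_add_mul_le_pow (by linarith) a
    have h3 : 0 ≤ (1 - p) ^ a := pow_nonneg (by linarith) _
    calc (1 - p) ^ a * (1 + p * a) ≤ (1 - p) ^ a * (1 + p) ^ a := by
          refine mul_le_mul_of_nonneg_left (by linarith) h3
      _ = (1 - p * p) ^ a := by rw [← mul_pow]; congr 1; ring
      _ ≤ 1 := pow_le_one₀ (by nlinarith) (by nlinarith)
  have h4 : 0 ≤ p * a := by positivity
  have h5 : 0 < 1 + p * a := by linarith
  have h6 : (1 - p) ^ a ≤ 1 / (1 + p * a) := by rwa [le_div_iff₀ h5]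
  have h7 : 1 / (1 + p * a) ≤ 1 - p * a * (1 - p * a) := by
    rw [div_le_iff₀ h5]
    nlinarith [mul_nonneg h4 (mul_nonneg h4 h4)]
  linarith

lemma ex_ball_le {p θ lam : ℝ} (hp0 : 0 ≤ p) (hp1 : p ≤ 1) (hθ0 : 0 ≤ θ) (hθ1 : θ ≤ 1)
    (s : ℕ) (hps : p * s ≤ 1) (hsn : s ≤ Fintype.card V)
    (hlam : lam ≤ p * ((Fintype.card V : ℝ) - s) * (1 - p * s))
    (φ ψ : ℕ → ℝ) (hφ0 : φ 0 = 1) (hφ : ∀ t, φ (t + 1) = Real.exp (-(lam * ψ t)))
    (hψ : ∀ t, θ * φ t ≤ 1 - ψ t) (hψ0 : ∀ t, 0 ≤ ψ t) :
    ∀ (t : ℕ) (R A : Finset V) (F : Finset (Sym2 V)), A ⊆ R →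
      (∀ a ∈ A, ∀ c, c ∉ R → s(a, c) ∈ F) → (∀ c, c ∉ R → ∀ c', c' ∉ R → c ≠ c' → s(c, c') ∈ F) →
      Ex p F (fun S => if (R ∪ ball S t A).card < s then θ ^ (ball S t A \ R).card else 0) ≤
        φ t ^ A.card := by
  have hφpos : ∀ t, 0 ≤ φ t := by
    intro t
    cases t with
    | zero => rw [hφ0]; norm_num
    | succ t => rw [hφ]; exact (Real.exp_pos _).le
  intro t
  induction t with
  | zero =>
    intro R A F _ _ _
    rw [hφ0, one_pow, ← Ex_const p F 1]
    refine Ex_mono hp0 hp1 (fun S _ => ?_)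
    split_ifs
    · exact pow_le_one₀ hθ0 hθ1
    · norm_num
  | succ t ih =>
    intro R A F hAR hF1 hF2
    by_cases hR : s ≤ R.card
    · refine le_trans (le_of_eq ?_) (pow_nonneg (hφpos _) _)
      refine (Ex_congr p (fun S _ => ?_)).trans (Ex_const p F 0)
      rw [if_neg]
      exact not_lt.2 (hR.trans (Finset.card_le_card Finset.subset_union_left))
    push Not at hR
    have hdisj : Disjoint A Rᶜ := by
      rw [Finset.disjoint_left]
      intro a ha hc
      exact (Finset.mem_compl.1 hc) (hAR ha)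
    have hsub : cross A Rᶜ ⊆ F := by
      intro e he
      obtain ⟨a, ha, c, hc, rfl⟩ := mem_cross.1 he
      exact hF1 a ha c (Finset.mem_compl.1 hc)
    have hFeq : F = cross A Rᶜ ∪ (F \ cross A Rᶜ) := (Finset.union_sdiff_of_subset hsub).symm
    rw [hFeq, Ex_union p Finset.disjoint_sdiff]
    clear hFeq
    have hnot : ∀ c, c ∉ R → ∀ c', c' ∉ R → s(c, c') ∉ cross A Rᶜ := by
      intro c hc c' hc' hm
      obtain ⟨a, ha, d, _, h'⟩ := mem_cross.1 hm
      rcases Sym2.eq_iff.1 h' with ⟨h1, _⟩ | ⟨h1, _⟩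
      · exact hc (h1 ▸ hAR ha)
      · exact hc' (h1 ▸ hAR ha)
    have step : ∀ S₁ ⊆ cross A Rᶜ,
        Ex p (F \ cross A Rᶜ) (fun S₂ => if (R ∪ ball (S₁ ∪ S₂) (t + 1) A).card < s then
          θ ^ (ball (S₁ ∪ S₂) (t + 1) A \ R).card else 0) ≤
        (1 - ψ t) ^ (Rᶜ.filter (fun c => ∃ a ∈ A, s(a, c) ∈ S₁)).card := by
      intro S₁ _
      set A' := Rᶜ.filter (fun c => ∃ a ∈ A, s(a, c) ∈ S₁) with hA'
      have hA'R : ∀ c ∈ A', c ∉ R := fun c hc => Finset.mem_compl.1 (Finset.mem_filter.1 hc).1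
      have h1 := ih (R ∪ A') A' (F \ cross A Rᶜ) Finset.subset_union_right
        (by
          intro a ha c hc
          rw [Finset.mem_union, not_or] at hc
          refine Finset.mem_sdiff.2 ⟨hF2 a (hA'R a ha) c hc.1 ?_, hnot a (hA'R a ha) c hc.1⟩
          rintro rfl; exact hc.2 ha)
        (by
          intro c hc c' hc' hne
          rw [Finset.mem_union, not_or] at hc hc'
          exact Finset.mem_sdiff.2 ⟨hF2 c hc.1 c' hc'.1 hne, hnot c hc.1 c' hc'.1⟩)
      calc _ ≤ Ex p (F \ cross A Rᶜ) (fun S₂ => θ ^ A'.card *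
            (if (R ∪ A' ∪ ball S₂ t A').card < s then θ ^ (ball S₂ t A' \ (R ∪ A')).card
              else 0)) := by
            refine Ex_mono hp0 hp1 (fun S₂ _ => ?_)
            have hb : ball S₂ t A' ⊆ ball (S₁ ∪ S₂) (t + 1) A := by
              intro w hw
              obtain ⟨v, hv, hvw⟩ := mem_ball.1 hw
              obtain ⟨a, ha, hm⟩ := (Finset.mem_filter.1 hv).2
              refine mem_ball.2 ⟨a, ha, ?_⟩
              have := (Wd.of_mem (Finset.mem_union_left S₂ hm)).trans
                (hvw.mono Finset.subset_union_right le_rfl)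
              rwa [add_comm] at this
            have hb' : A' ⊆ ball (S₁ ∪ S₂) (t + 1) A := (subset_ball S₂ t A').trans hb
            split_ifs with h2 h3
            · rw [← pow_add]
              refine pow_le_pow_of_le_one hθ0 hθ1 ?_
              rw [← Finset.card_union_of_disjoint]
              · refine Finset.card_le_card ?_
                intro w hw
                rcases Finset.mem_union.1 hw with hw | hw
                · exact Finset.mem_sdiff.2 ⟨hb' hw, hA'R w hw⟩
                · rw [Finset.mem_sdiff, Finset.mem_union, not_or] at hw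
                  exact Finset.mem_sdiff.2 ⟨hb hw.1, hw.2.1⟩
              · rw [Finset.disjoint_left]
                intro w hw hw'
                exact (Finset.mem_sdiff.1 hw').2 (Finset.mem_union_right _ hw)
            · exfalso
              refine h3 (lt_of_le_of_lt (Finset.card_le_card ?_) h2)
              rw [Finset.union_assoc]
              exact Finset.union_subset_union_right (Finset.union_subset hb' hb)
            · positivity
            · simp
        _ ≤ θ ^ A'.card * φ t ^ A'.card := by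
            rw [Ex_mul]
            exact mul_le_mul_of_nonneg_left h1 (pow_nonneg hθ0 _)
        _ ≤ (1 - ψ t) ^ A'.card := by
            rw [← mul_pow]
            exact pow_le_pow_left₀ (mul_nonneg hθ0 (hφpos t)) (hψ t) _
    refine (Ex_mono hp0 hp1 step).trans ?_
    rw [ex_hits p (1 - ψ t) A Rᶜ hdisj, hφ]
    have ha : A.card ≤ s := (Finset.card_le_card hAR).trans hR.le
    have ha' : (A.card : ℝ) ≤ s := Nat.cast_le.2 ha
    have h1 := one_sub_pow_ge hp0 hp1 A.card
    have hψ1 : ψ t ≤ 1 := by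
      have := mul_nonneg hθ0 (hφpos t)
      linarith [hψ t]
    have h2 : p * A.card * (1 - p * s) ≤ 1 - (1 - p) ^ A.card := by
      refine le_trans ?_ h1
      refine mul_le_mul_of_nonneg_left ?_ (by positivity)
      nlinarith
    have h3 : 1 - ψ t + (1 - (1 - ψ t)) * (1 - p) ^ A.card ≤
        Real.exp (-(ψ t * (p * A.card * (1 - p * s)))) := by
      have := Real.add_one_le_exp (-(ψ t * (p * A.card * (1 - p * s))))
      nlinarith [mul_le_mul_of_nonneg_left h2 (hψ0 t)]
    have h4 : 0 ≤ 1 - ψ t + (1 - (1 - ψ t)) * (1 - p) ^ A.card := by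
      have : 0 ≤ (1 - p) ^ A.card := pow_nonneg (by linarith) _
      nlinarith [hψ0 t]
    refine (pow_le_pow_left₀ h4 h3 _).trans ?_
    rw [← Real.exp_nat_mul, ← Real.exp_nat_mul, Real.exp_le_exp]
    have h5 : (Fintype.card V : ℝ) - s ≤ (Rᶜ.card : ℝ) := by
      rw [Finset.card_compl, Nat.cast_sub (Finset.card_le_univ _)]
      have : (R.card : ℝ) ≤ s := Nat.cast_le.2 hR.le
      linarith
    have h6 : 0 ≤ 1 - p * s := by linarith
    have h7 : lam ≤ p * (Rᶜ.card : ℝ) * (1 - p * s) :=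
      hlam.trans (mul_le_mul_of_nonneg_right (mul_le_mul_of_nonneg_left h5 hp0) h6)
    have h8 : 0 ≤ ψ t * (A.card : ℝ) := mul_nonneg (hψ0 t) (by positivity)
    nlinarith [mul_le_mul_of_nonneg_left h7 h8]

end Pool.Agent.Lib.MP_1c11af_pr
end
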