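import Pool.Agent.Lib.MP_1c11af_pr.Trees

-- part Pool.Agent.Lib.MP_1c11af_pr.Upper
section

/-!
The repeated switching that shortens a long tree path.
-/

namespace Pool.Agent.Lib.MP_1c11af_pr

open Finset MeasureTheory
open scoped Classical

set_option linter.unusedSectionVars false

variable {V : Type*} [DecidableEq V] [Fintype V]

/-- the transposition attached to a triple -/
def sw (d : V × V × V) : Equiv.Perm (Sym2 V) := Equiv.swap s(d.1, d.2.1) s(d.2.2, d.2.1)

/-- what is known after one switch -/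
def PV (M C : ℕ) (u v : V) (d : V × V × V) (H Y S : Finset (Sym2 V)) : Prop :=
  IsT S ∧ s(d.2.2, d.2.1) ∈ S ∧ s(d.2.2, d.2.1) ∉ H ∧
    Rc (S.erase s(d.2.2, d.2.1)) u d.1 ∧ Rc (S.erase s(d.2.2, d.2.1)) d.2.1 v ∧
    Rc (S.erase s(d.2.2, d.2.1)) u d.2.2 ∧
    (∀ g ∈ S.erase s(d.2.2, d.2.1), g ∉ H →
      Rc ((S.erase s(d.2.2, d.2.1)).erase g) d.2.2 u ∨
      Rc ((S.erase s(d.2.2, d.2.1)).erase g) d.2.2 d.1) ∧
    d.1 ∈ big Y M ∧ (big Y M).card ≤ C

lemma PV_unique {M C : ℕ} {u v x y₁ z₁ y₂ z₂ : V} {H Y S : Finset (Sym2 V)}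
    (h₁ : PV M C u v (x, y₁, z₁) H Y S) (h₂ : PV M C u v (x, y₂, z₂) H Y S) :
    y₁ = y₂ ∧ z₁ = z₂ := by
  obtain ⟨hS, a1, a2, a3, a4, a5, a6, _⟩ := h₁
  obtain ⟨_, b1, b2, b3, b4, b5, b6, _⟩ := h₂
  dsimp only at a1 a2 a3 a4 a5 a6 b1 b2 b3 b4 b5 b6
  have na : ¬ Rc (S.erase s(z₁, y₁)) u v := fun h =>
    hS.bridge a1 ((a5.symm.trans h).trans a4.symm)
  have nb : ¬ Rc (S.erase s(z₂, y₂)) u v := fun h =>
    hS.bridge b1 ((b5.symm.trans h).trans b4.symm)
  by_cases hf : s(z₁, y₁) = s(z₂, y₂)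
  · rcases Sym2.eq_iff.1 hf with ⟨h1, h2⟩ | ⟨h1, h2⟩
    · exact ⟨h2, h1⟩
    · exfalso
      rw [← hf] at b4
      rw [h1] at a5
      rw [h1] at na b4
      exact na (a5.trans b4)
  · exfalso
    have s12 : (S.erase s(z₁, y₁)).erase s(z₂, y₂) ⊆ S.erase s(z₂, y₂) :=
      Finset.erase_subset_erase _ (Finset.erase_subset _ _)
    have s21 : (S.erase s(z₂, y₂)).erase s(z₁, y₁) ⊆ S.erase s(z₁, y₁) :=
      Finset.erase_subset_erase _ (Finset.erase_subset _ _)
    have m2 : s(z₂, y₂) ∈ S.erase s(z₁, y₁) := Finset.mem_erase.2 ⟨Ne.symm hf, b1⟩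
    have m1 : s(z₁, y₁) ∈ S.erase s(z₂, y₂) := Finset.mem_erase.2 ⟨hf, a1⟩
    have c1 : Rc (S.erase s(z₂, y₂)) u z₁ := by
      rcases a6 _ m2 b2 with h | h
      · exact (h.mono s12).symm
      · exact b3.trans (h.mono s12).symm
    have c2 : Rc (S.erase s(z₁, y₁)) u z₂ := by
      rcases b6 _ m1 a2 with h | h
      · exact (h.mono s21).symm
      · exact a3.trans (h.mono s21).symm
    have c3 : Rc (S.erase s(z₂, y₂)) u y₁ := c1.trans (Rc.of_mem m1)
    have c4 : ¬ Rc ((S.erase s(z₁, y₁)).erase s(z₂, y₂)) y₁ v := fun h =>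
      nb (c3.trans (h.mono s12))
    have c5 : Rc (S.erase s(z₁, y₁)) y₁ z₂ := rc_of_not_erase a4 c4
    exact na ((c2.trans c5.symm).trans a4)

lemma PV_count (M C : ℕ) (u v : V) (H Y S : Finset (Sym2 V)) :
    (univ.filter (fun d => PV M C u v d H Y S)).card ≤ C := by
  rcases Finset.eq_empty_or_nonempty (univ.filter (fun d => PV M C u v d H Y S)) with h | ⟨d, hd⟩
  · rw [h]; simp
  · refine le_trans ?_ (Finset.mem_filter.1 hd).2.2.2.2.2.2.2.2.2
    refine Finset.card_le_card_of_injOn (fun d => d.1) ?_ ?_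
    · intro d hd
      exact (Finset.mem_filter.1 hd).2.2.2.2.2.2.2.2.1
    · rintro ⟨x, y, z⟩ h1 ⟨x', y', z'⟩ h2 hx
      dsimp only at hx
      subst hx
      obtain ⟨rfl, rfl⟩ := PV_unique (Finset.mem_filter.1 h1).2 (Finset.mem_filter.1 h2).2
      rfl

/-- all lists of a given length -/
def lists (D : Type*) [Fintype D] [DecidableEq D] : ℕ → Finset (List D)
  | 0 => {[]}
  | r + 1 => (univ ×ˢ lists D r).image (fun x => x.1 :: x.2)

/-- the permutation attached to a list of switches, the last switch coming first -/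
def swl : List (V × V × V) → Equiv.Perm (Sym2 V)
  | [] => 1
  | d :: ds => swl ds * sw d

/-- validity of a list of switches, read on the final configuration -/
def VR (M C : ℕ) (u v : V) : List (V × V × V) → Finset (Sym2 V) → Finset (Sym2 V) →
    Finset (Sym2 V) → Prop
  | [], _, _, _ => True
  | d :: ds, H, Y, S => PV M C u v d H Y S ∧
      VR M C u v ds (actS (sw d) H) (actS (sw d) Y) (actS (sw d) S)

lemma VR_count (M C : ℕ) (u v : V) (r : ℕ) : ∀ H Y S : Finset (Sym2 V),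
    ((lists (V × V × V) r).filter (fun ds => VR M C u v ds H Y S)).card ≤ C ^ r := by
  induction r with
  | zero =>
    intro H Y S
    exact (Finset.card_filter_le _ _).trans (by simp [lists])
  | succ r ih =>
    intro H Y S
    have h1 : (lists (V × V × V) (r + 1)).filter (fun ds => VR M C u v ds H Y S) ⊆
        (univ.filter (fun d => PV M C u v d H Y S)).biUnion (fun d =>
          ((lists (V × V × V) r).filter (fun ds => VR M C u v ds (actS (sw d) H) (actS (sw d) Y)
            (actS (sw d) S))).image (fun ds => d :: ds)) := by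
      intro l hl
      obtain ⟨h2, h3⟩ := Finset.mem_filter.1 hl
      obtain ⟨⟨d, ds⟩, h4, rfl⟩ := Finset.mem_image.1 h2
      refine Finset.mem_biUnion.2 ⟨d, Finset.mem_filter.2 ⟨Finset.mem_univ _, h3.1⟩, ?_⟩
      exact Finset.mem_image.2 ⟨ds, Finset.mem_filter.2 ⟨(Finset.mem_product.1 h4).2, h3.2⟩, rfl⟩
    refine (Finset.card_le_card h1).trans (Finset.card_biUnion_le.trans ?_)
    refine (Finset.sum_le_card_nsmul _ _ (C ^ r)
      (fun d _ => Finset.card_image_le.trans (ih _ _ _))).trans ?_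
    rw [smul_eq_mul, pow_succ, mul_comm]
    exact Nat.mul_le_mul_left _ (PV_count M C u v H Y S)

lemma actS_mul (σ τ : Equiv.Perm (Sym2 V)) (S : Finset (Sym2 V)) :
    actS (σ * τ) S = actS τ (actS σ S) := by
  ext e; simp [mem_actS]

lemma actS_one (S : Finset (Sym2 V)) : actS 1 S = S := by
  ext e; simp [mem_actS]

lemma actS_sw_sw (d : V × V × V) (S : Finset (Sym2 V)) : actS (sw d) (actS (sw d) S) = S := by
  ext e; simp [mem_actS, sw]

lemma actS_swap_of_notMem {S : Finset (Sym2 V)} {f f' : Sym2 V} (hf : f ∉ S) (hf' : f' ∉ S) :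
    actS (Equiv.swap f f') S = S := by
  ext e
  rw [mem_actS]
  by_cases h1 : e = f
  · subst h1; simp [hf, hf']
  · by_cases h2 : e = f'
    · subst h2; simp [hf, hf']
    · rw [Equiv.swap_apply_of_ne_of_ne h1 h2]

/-- the invariant carried along the switches -/
structure Inv (w : ℝ → ℝ) (p0 pY L : ℝ) (U0 : Sym2 V → ℝ) (S0 : Finset (Sym2 V)) (P : ℕ → V)
    (k pos : ℕ) (U : Sym2 V → ℝ) (S : Finset (Sym2 V)) : Prop where
  tree : IsT S
  heavy : lev U p0 = lev U0 p0
  keep : S0 ∩ lev U0 p0 ⊆ S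
  suffix_mem : ∀ l, pos ≤ l → l < k → pe P l ∈ S
  suffix_rc : ∀ l, pos ≤ l → l < k → Rc (S.erase (pe P l)) (P 0) (P l)
  same : ∀ l, pos < l → l ≤ k → ∀ a, U s(a, P l) = U0 s(a, P l)
  comp : ∀ a b, Rc (lev U pY) a b ↔ Rc (lev U0 pY) a b
  zf : ∃ W : Sym2 V → ℝ, (∀ e, w (U e) ≤ W e) ∧ (∀ e, w (U0 e) ≤ W e) ∧
    Zf W ≤ L * Zf (fun e => w (U0 e))

/-- an admissible choice -/
structure Adm (w : ℝ → ℝ) (p0 pY Λ : ℝ) (M : ℕ) (U0 : Sym2 V → ℝ) (S0 : Finset (Sym2 V))
    (P : ℕ → V) (pos pos' j : ℕ) (z : V) : Prop where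
  lt : j + 1 ≤ pos'
  att : ∃ a, pos ≤ a ∧ a ≤ j ∧ Rc (S0 ∩ lev U0 p0) (P a) z
  light : p0 < U0 (pe P j)
  far : pY < U0 s(z, P (j + 1))
  res : ∃ (Q : ℕ → V) (m : ℕ), Q 0 = z ∧ Q m = P (j + 1) ∧
    1 + w (U0 (pe P j)) * ∑ l ∈ range m, (w (U0 (pe Q l)))⁻¹ ≤ Λ
  big : P j ∈ big (lev U0 pY) M

lemma big_congr {X X' : Finset (Sym2 V)} (h : ∀ a b, Rc X a b ↔ Rc X' a b) (M : ℕ) :
    big X M = big X' M := by
  ext v; rw [mem_big, mem_big, csz_congr h]

lemma Inv.step {w : ℝ → ℝ} (hw0 : ∀ x, 0 < w x) (hanti : ∀ a b, 0 < a → a ≤ b → w b ≤ w a)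
    {p0 pY L Λ : ℝ} (hp0 : 0 ≤ p0) (hp : p0 ≤ pY) {M C : ℕ} {U0 : Sym2 V → ℝ}
    {S0 : Finset (Sym2 V)} {P : ℕ → V} {k pos pos' j : ℕ} {z : V}
    (hP : PathIn (lev U0 pY) P k) (hC : (big (lev U0 pY) M).card ≤ C) (hk : pos' ≤ k)
    {U : Sym2 V → ℝ} {S : Finset (Sym2 V)} (hI : Inv w p0 pY L U0 S0 P k pos U S)
    (hA : Adm w p0 pY Λ M U0 S0 P pos pos' j z) :
    PV M C (P 0) (P k) (P j, P (j + 1), z) (actS (sw (P j, P (j + 1), z)) (lev U p0))
        (actS (sw (P j, P (j + 1), z)) (lev U pY)) (actS (sw (P j, P (j + 1), z)) S) ∧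
      Inv w p0 pY (Λ * L) U0 S0 P k pos' (fun e => U (sw (P j, P (j + 1), z) e))
        (actS (sw (P j, P (j + 1), z)) S) := by
  obtain ⟨a, ha1, ha2, haz0⟩ := hA.att
  have hlt := hA.lt
  have hjk : j < k := by omega
  have hsw : sw (P j, P (j + 1), z) = Equiv.swap (pe P j) s(z, P (j + 1)) := rfl
  set f := pe P j with hf
  set f' := s(z, P (j + 1)) with hf'
  have hUf : U f = U0 f := hI.same (j + 1) (by omega) (by omega) _
  have hUf' : U f' = U0 f' := hI.same (j + 1) (by omega) (by omega) _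
  have hfY0 : U0 f ≤ pY := mem_lev.1 (hP.2 j hjk)
  have hlight : p0 < U0 f := hA.light
  have hfar : pY < U0 f' := hA.far
  have hfS : f ∈ S := hI.suffix_mem j (by omega) hjk
  have hux : Rc (S.erase f) (P 0) (P j) := hI.suffix_rc j (by omega) hjk
  have hne : ∀ l, l < k → l ≠ j → pe P l ≠ f := fun l hl hlj h => hlj (hP.pe_inj hl hjk h)
  have hmem : ∀ l, pos ≤ l → l < k → l ≠ j → pe P l ∈ S.erase f := fun l h1 h2 h3 =>
    Finset.mem_erase.2 ⟨hne l h2 h3, hI.suffix_mem l h1 h2⟩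
  have hyl : ∀ l, j + 1 ≤ l → l ≤ k → Rc (S.erase f) (P (j + 1)) (P l) := fun l h1 h2 =>
    rc_of_steps h1 (fun m h3 h4 => hmem m (by omega) (by omega) (by omega))
  have hbr : ¬ Rc (S.erase f) (P j) (P (j + 1)) := hI.tree.bridge hfS
  have hfH : f ∉ lev U0 p0 := fun h => absurd (mem_lev.1 h) (not_le.2 hlight)
  have hf'H : f' ∉ lev U0 p0 := fun h => absurd ((mem_lev.1 h).trans hp) (not_le.2 hfar)
  have hheavy : S0 ∩ lev U0 p0 ⊆ S.erase f := fun e he =>
    Finset.mem_erase.2 ⟨fun h => hfH (h ▸ (Finset.mem_inter.1 he).2), hI.keep he⟩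
  have haz : Rc (S.erase f) (P a) z := haz0.mono hheavy
  have hax : Rc (S.erase f) (P a) (P j) :=
    rc_of_steps ha2 (fun m h3 h4 => hmem m (by omega) (by omega) (by omega))
  have huz : Rc (S.erase f) (P 0) z := (hux.trans hax.symm).trans haz
  have hzy : ¬ Rc (S.erase f) z (P (j + 1)) := fun h => hbr ((hux.symm.trans huz).trans h)
  have hf'S' : f' ∉ S.erase f := notMem_of_not_rc hzy
  have hff' : f' ≠ f := fun h => by rw [h] at hfar; linarith
  have hf'S : f' ∉ S := fun h => hf'S' (Finset.mem_erase.2 ⟨hff', h⟩)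
  have eS : actS (sw (P j, P (j + 1), z)) S = insert f' (S.erase f) := by
    rw [hsw]; exact actS_swap hfS hf'S
  have eS' : (insert f' (S.erase f)).erase f' = S.erase f := Finset.erase_insert hf'S'
  have eH : actS (sw (P j, P (j + 1), z)) (lev U p0) = lev U0 p0 := by
    rw [hsw, hI.heavy]; exact actS_swap_of_notMem hfH hf'H
  have hfY : f ∈ lev U pY := mem_lev.2 (by rw [hUf]; exact hfY0)
  have hf'Y : f' ∉ lev U pY := fun h => by
    have := mem_lev.1 h
    rw [hUf'] at this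
    linarith
  have eY : actS (sw (P j, P (j + 1), z)) (lev U pY) = insert f' ((lev U pY).erase f) := by
    rw [hsw]; exact actS_swap hfY hf'Y
  have hzx : Rc ((lev U pY).erase f) z (P j) := by
    refine (haz0.mono ?_).symm.trans (rc_of_steps ha2 (fun m h3 h4 => ?_))
    · intro e he
      have he2 := (Finset.mem_inter.1 he).2
      refine Finset.mem_erase.2 ⟨fun h => hfH (h ▸ he2), ?_⟩
      rw [← hI.heavy] at he2
      exact lev_mono U hp he2
    · refine Finset.mem_erase.2 ⟨hne m (by omega) (by omega), mem_lev.2 ?_⟩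
      have := hI.same (m + 1) (by omega) (by omega) (P m)
      unfold pe
      rw [this]
      exact mem_lev.1 (hP.2 m (by omega))
  have hcomp : ∀ a b, Rc (insert f' ((lev U pY).erase f)) a b ↔ Rc (lev U0 pY) a b :=
    fun a b => (rc_swap_iff hfY hzx a b).trans (hI.comp a b)
  have htree : IsT (insert f' (S.erase f)) := hI.tree.exchange hfS hzy
  refine ⟨?_, ?_⟩
  · rw [eS, eH, eY]
    refine ⟨htree, Finset.mem_insert_self _ _, hf'H, ?_, ?_, ?_, ?_, ?_, ?_⟩
    · dsimp only; rw [eS']; exact hux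
    · dsimp only; rw [eS']; exact hyl k (by omega) le_rfl
    · dsimp only; rw [eS']; exact huz
    · dsimp only; rw [eS']
      intro g hg hgH
      have hazg : Rc ((S.erase f).erase g) (P a) z := haz0.mono (fun e he =>
        Finset.mem_erase.2 ⟨fun h => hgH (h ▸ (Finset.mem_inter.1 he).2), hheavy he⟩)
      by_cases hex : ∃ l, a ≤ l ∧ l < j ∧ pe P l = g
      · obtain ⟨l, h1, h2, rfl⟩ := hex
        left
        refine hazg.symm.trans (Rc.symm ?_)
        refine hI.tree.rc_erase_two (hux.trans hax.symm) ?_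
        refine (hI.suffix_rc l (by omega) (by omega)).trans (Rc.symm ?_)
        refine rc_of_steps h1 (fun m h3 h4 => Finset.mem_erase.2 ⟨fun h => ?_,
          hI.suffix_mem m (by omega) (by omega)⟩)
        have := hP.pe_inj (by omega) (by omega) h
        omega
      · right
        push Not at hex
        refine hazg.symm.trans (rc_of_steps ha2 (fun m h3 h4 => ?_))
        exact Finset.mem_erase.2 ⟨hex m h3 h4, hmem m (by omega) (by omega) (by omega)⟩
    · dsimp only; rw [big_congr hcomp]; exact hA.big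
    · rw [big_congr hcomp]; exact hC
  · rw [eS]
    refine ⟨htree, ?_, hheavy.trans (Finset.subset_insert _ _), ?_, ?_, ?_, ?_, ?_⟩
    · rw [lev_comp, eH]
    · intro l h1 h2
      exact Finset.mem_insert_of_mem (hmem l (by omega) h2 (by omega))
    · intro l h1 h2
      have hl := hmem l (by omega) h2 (by omega)
      have hsub : (S.erase f).erase (pe P l) ⊆ (insert f' (S.erase f)).erase (pe P l) :=
        Finset.erase_subset_erase _ (Finset.subset_insert _ _)
      have c1 : Rc ((S.erase f).erase (pe P l)) (P 0) z := by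
        by_contra hn
        have := rc_of_not_erase huz hn
        exact hbr ((hux.symm.trans this).trans (hyl l (by omega) (by omega)).symm)
      have c2 : f' ∈ (insert f' (S.erase f)).erase (pe P l) :=
        Finset.mem_erase.2 ⟨fun h => hf'S' (h ▸ hl), Finset.mem_insert_self _ _⟩
      have c3 : Rc ((S.erase f).erase (pe P l)) (P (j + 1)) (P l) := by
        refine rc_of_steps (by omega) (fun m h3 h4 => Finset.mem_erase.2 ⟨fun h => ?_,
          hmem m (by omega) (by omega) (by omega)⟩)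
        have := hP.pe_inj (by omega) (by omega) h
        omega
      exact ((c1.mono hsub).trans (Rc.of_mem c2)).trans (c3.mono hsub)
    · intro l h1 h2 b
      have c1 : P l ≠ P j := fun h => by have := hP.1 l h2 j (by omega) h; omega
      have c2 : P l ≠ P (j + 1) := fun h => by have := hP.1 l h2 (j + 1) (by omega) h; omega
      have c3 : P l ≠ z := fun h => hzy (h ▸ (hyl l (by omega) h2).symm)
      rw [hsw, Equiv.swap_apply_of_ne_of_ne]
      · exact hI.same l (by omega) h2 b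
      · intro h
        rcases Sym2.eq_iff.1 h with ⟨_, h3⟩ | ⟨_, h3⟩
        · exact c2 h3
        · exact c1 h3
      · intro h
        rcases Sym2.eq_iff.1 h with ⟨_, h3⟩ | ⟨_, h3⟩
        · exact c2 h3
        · exact c3 h3
    · intro a b
      rw [lev_comp, eY]; exact hcomp a b
    · obtain ⟨W, hW1, hW2, hW3⟩ := hI.zf
      obtain ⟨Q, m, hQ0, hQm, hres⟩ := hA.res
      have hWpos : ∀ e, 0 < W e := fun e => (hw0 _).trans_le (hW1 e)
      have hc : 0 ≤ w (U0 f) := (hw0 _).le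
      refine ⟨fun e => W e + if e = s(Q 0, Q m) then w (U0 f) else 0, ?_, ?_, ?_⟩
      · intro e
        rw [hQ0, hQm, hsw, ← hf']
        dsimp only
        by_cases h1 : e = f'
        · rw [h1, Equiv.swap_apply_right, if_pos rfl, hUf]
          linarith [hWpos f']
        · rw [if_neg h1, add_zero]
          by_cases h2 : e = f
          · rw [h2, Equiv.swap_apply_left]
            refine le_trans (hanti _ _ ?_ ?_) (hW1 f)
            · rw [hUf]; linarith
            · rw [hUf, hUf']; linarith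
          · rw [Equiv.swap_apply_of_ne_of_ne h2 h1]
            exact hW1 e
      · intro e
        have : 0 ≤ (if e = s(Q 0, Q m) then w (U0 f) else 0) := by
          split_ifs
          · exact hc
          · exact le_rfl
        linarith [hW2 e]
      · refine (Zf_raise hWpos hc Q m).trans ?_
        have h1 : ∑ l ∈ range m, (W (pe Q l))⁻¹ ≤ ∑ l ∈ range m, (w (U0 (pe Q l)))⁻¹ :=
          Finset.sum_le_sum (fun l _ => inv_anti₀ (hw0 _) (hW2 _))
        have h2 : 1 + w (U0 f) * ∑ l ∈ range m, (W (pe Q l))⁻¹ ≤ Λ :=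
          le_trans (by nlinarith [mul_le_mul_of_nonneg_left h1 hc]) hres
        have h3 : 0 ≤ 1 + w (U0 f) * ∑ l ∈ range m, (W (pe Q l))⁻¹ :=
          add_nonneg zero_le_one (mul_nonneg hc
            (Finset.sum_nonneg (fun l _ => (inv_pos.2 (hWpos _)).le)))
        calc Zf W * (1 + w (U0 f) * ∑ l ∈ range m, (W (pe Q l))⁻¹)
            ≤ Zf W * Λ := mul_le_mul_of_nonneg_left h2 (Zf_nonneg hWpos)
          _ ≤ L * Zf (fun e => w (U0 e)) * Λ := mul_le_mul_of_nonneg_right hW3 (h3.trans h2)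
          _ = _ := by ring

lemma forward_count {w : ℝ → ℝ} (hw0 : ∀ x, 0 < w x)
    (hanti : ∀ a b, 0 < a → a ≤ b → w b ≤ w a)
    {p0 pY Λ : ℝ} (hp0 : 0 ≤ p0) (hp : p0 ≤ pY) {M C F : ℕ} {U0 : Sym2 V → ℝ}
    {S0 : Finset (Sym2 V)} (hS0 : IsT S0) {P : ℕ → V} {k : ℕ} (hPS : PathIn S0 P k)
    (hP : PathIn (lev U0 pY) P k) (hC : (big (lev U0 pY) M).card ≤ C) (r : ℕ) (pos : ℕ → ℕ)
    (hk : ∀ t ≤ r, pos t ≤ k) (Ch : ℕ → Finset (ℕ × V)) (hF : ∀ t < r, F ≤ (Ch t).card)
    (hCh : ∀ t < r, ∀ c ∈ Ch t, Adm w p0 pY Λ M U0 S0 P (pos t) (pos (t + 1)) c.1 c.2) :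
    F ^ r ≤ ((lists (V × V × V) r).filter (fun ds =>
      VR M C (P 0) (P k) ds (lev (fun e => U0 (swl ds e)) p0) (lev (fun e => U0 (swl ds e)) pY)
        (actS (swl ds) S0) ∧ IsT (actS (swl ds) S0) ∧
      Zf (fun e => w (U0 (swl ds e))) ≤ Λ ^ r * Zf (fun e => w (U0 e)))).card := by
  have key : ∀ t ≤ r, F ^ t ≤ ((lists (V × V × V) t).filter (fun ds =>
      VR M C (P 0) (P k) ds (lev (fun e => U0 (swl ds e)) p0) (lev (fun e => U0 (swl ds e)) pY)
        (actS (swl ds) S0) ∧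
      Inv w p0 pY (Λ ^ t) U0 S0 P k (pos t) (fun e => U0 (swl ds e)) (actS (swl ds) S0))).card := by
    intro t ht
    induction t with
    | zero =>
      rw [pow_zero, Nat.one_le_iff_ne_zero, Finset.card_ne_zero]
      refine ⟨[], Finset.mem_filter.2 ⟨by simp [lists], trivial, ?_⟩⟩
      simp only [swl, actS_one, Equiv.Perm.coe_one, id_eq, pow_zero]
      refine ⟨hS0, rfl, Finset.inter_subset_left, fun l _ hl => hPS.2 l hl, ?_, fun _ _ _ _ => rfl,
        fun _ _ => Iff.rfl, ⟨fun e => w (U0 e), fun _ => le_rfl, fun _ => le_rfl, by simp⟩⟩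
      intro l _ hl
      exact hPS.rc_erase (Nat.zero_le _) hl.le hl (Or.inr le_rfl)
    | succ t ih =>
      have ih' := ih (by omega)
      set G := (lists (V × V × V) t).filter (fun ds =>
        VR M C (P 0) (P k) ds (lev (fun e => U0 (swl ds e)) p0) (lev (fun e => U0 (swl ds e)) pY)
          (actS (swl ds) S0) ∧
        Inv w p0 pY (Λ ^ t) U0 S0 P k (pos t) (fun e => U0 (swl ds e)) (actS (swl ds) S0))
      calc F ^ (t + 1) ≤ (Ch t).card * G.card := by
            rw [pow_succ, mul_comm]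
            exact Nat.mul_le_mul (hF t (by omega)) ih'
        _ = (Ch t ×ˢ G).card := (Finset.card_product _ _).symm
        _ ≤ _ := by
            refine Finset.card_le_card_of_injOn
              (fun x => (P x.1.1, P (x.1.1 + 1), x.1.2) :: x.2) ?_ ?_
            · rintro ⟨⟨j, z⟩, ds⟩ hx
              obtain ⟨h1, h2⟩ := Finset.mem_product.1 hx
              obtain ⟨h3, h4, h5⟩ := Finset.mem_filter.1 h2
              obtain ⟨h6, h7⟩ := Inv.step hw0 hanti hp0 hp hP hC (hk (t + 1) ht) h5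
                (hCh t (by omega) _ h1)
              refine Finset.mem_coe.2 (Finset.mem_filter.2 ⟨?_, ?_, ?_⟩)
              · exact Finset.mem_image.2 ⟨((P j, P (j + 1), z), ds),
                  Finset.mem_product.2 ⟨Finset.mem_univ _, h3⟩, rfl⟩
              · simp only [swl, VR, lev_comp, actS_mul, actS_sw_sw]
                simp only [lev_comp] at h4 h6
                exact ⟨h6, h4⟩
              · simp only [swl, actS_mul, pow_succ']
                exact h7
            · rintro ⟨⟨j, z⟩, ds⟩ hx ⟨⟨j', z'⟩, ds'⟩ hx' h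
              obtain ⟨h1, _⟩ := Finset.mem_product.1 hx
              obtain ⟨h1', _⟩ := Finset.mem_product.1 hx'
              have a1 := (hCh t (by omega) _ h1).lt
              have a2 := (hCh t (by omega) _ h1').lt
              have a3 := hk (t + 1) ht
              simp only [List.cons.injEq, Prod.mk.injEq] at h
              obtain ⟨⟨b1, _, b3⟩, b4⟩ := h
              have := hP.1 j (by dsimp only at a1; omega) j' (by dsimp only at a2; omega) b1
              subst this b3 b4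
              rfl
  refine (key r le_rfl).trans (Finset.card_le_card ?_)
  intro ds hds
  obtain ⟨h1, h2, h3⟩ := Finset.mem_filter.1 hds
  refine Finset.mem_filter.2 ⟨h1, h2, h3.tree, ?_⟩
  obtain ⟨W, hW1, _, hW3⟩ := h3.zf
  exact (Zf_mono (fun _ => hw0 _) hW1).trans hW3

/-- probability of having many admissible choices along a tree path -/
lemma upper_switch [Nonempty V] {w : ℝ → ℝ} (hw : Measurable w) (hw0 : ∀ x, 0 < w x)
    (hanti : ∀ a b, 0 < a → a ≤ b → w b ≤ w a)
    {p0 pY Λ : ℝ} (hp0 : 0 ≤ p0) (hp : p0 ≤ pY) (hΛ : 0 ≤ Λ) (M C F r : ℕ) (hF : 0 < F) :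
    Ph w (fun (U : Sym2 V → ℝ) S => (big (lev U pY) M).card ≤ C ∧ ∃ (P : ℕ → V) (k : ℕ)
      (pos : ℕ → ℕ) (Ch : ℕ → Finset (ℕ × V)), PathIn S P k ∧ PathIn (lev U pY) P k ∧
      (∀ t ≤ r, pos t ≤ k) ∧ (∀ t < r, F ≤ (Ch t).card) ∧
      ∀ t < r, ∀ c ∈ Ch t, Adm w p0 pY Λ M U S P (pos t) (pos (t + 1)) c.1 c.2) ≤
    ENNReal.ofReal ((Fintype.card V : ℝ) ^ 2 * (Λ * C / F) ^ r) := by
  have := switching (V := V) hw hw0 ((univ : Finset (V × V)) ×ˢ lists (V × V × V) r)
    (fun d => swl d.2) (fun d U S => VR M C d.1.1 d.1.2 d.2 (lev U p0) (lev U pY) S)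
    (fun d S => measurableSet_lev (ι := Bool) (fun b => if b then p0 else pY)
      (fun L => VR M C d.1.1 d.1.2 d.2 (L true) (L false) S))
    (fun (U : Sym2 V → ℝ) S => (big (lev U pY) M).card ≤ C ∧ ∃ (P : ℕ → V) (k : ℕ)
      (pos : ℕ → ℕ) (Ch : ℕ → Finset (ℕ × V)), PathIn S P k ∧ PathIn (lev U pY) P k ∧
      (∀ t ≤ r, pos t ≤ k) ∧ (∀ t < r, F ≤ (Ch t).card) ∧
      ∀ t < r, ∀ c ∈ Ch t, Adm w p0 pY Λ M U S P (pos t) (pos (t + 1)) c.1 c.2)
    (F := (F : ℝ) ^ r) (Λ := Λ ^ r) (C := (Fintype.card V : ℝ) ^ 2 * (C : ℝ) ^ r)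
    (by positivity) (by positivity) ?_ ?_
  · refine this.trans (le_of_eq ?_)
    congr 1
    rw [div_pow, mul_pow]; ring
  · rintro U S hS ⟨hC, P, k, pos, Ch, h1, h2, h3, h4, h5⟩
    have h6 := forward_count hw0 hanti hp0 hp hS h1 h2 hC r pos h3 Ch h4 h5
    have h7 := h6.trans (Finset.card_le_card_of_injOn (fun ds => ((P 0, P k), ds))
      (t := ((univ : Finset (V × V)) ×ˢ lists (V × V × V) r).filter (fun d =>
        VR M C d.1.1 d.1.2 d.2 (lev (fun e => U (swl d.2 e)) p0) (lev (fun e => U (swl d.2 e)) pY)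
          (actS (swl d.2) S) ∧ IsT (actS (swl d.2) S) ∧
        Zf (fun e => w (U (swl d.2 e))) ≤ Λ ^ r * Zf (fun e => w (U e)))) (by
        intro ds hds
        obtain ⟨a1, a2⟩ := Finset.mem_filter.1 hds
        exact Finset.mem_coe.2 (Finset.mem_filter.2
          ⟨Finset.mem_product.2 ⟨Finset.mem_univ _, a1⟩, a2⟩)) (by
        intro ds _ ds' _ h
        exact (Prod.mk.inj h).2))
    exact_mod_cast h7
  · intro U S _
    have h1 : (((univ : Finset (V × V)) ×ˢ lists (V × V × V) r).filter (fun d =>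
        VR M C d.1.1 d.1.2 d.2 (lev U p0) (lev U pY) S)).card ≤ Fintype.card V ^ 2 * C ^ r := by
      rw [Finset.card_filter, Finset.sum_product]
      refine (Finset.sum_le_card_nsmul _ _ (C ^ r) (fun x _ => ?_)).trans (by simp [sq])
      rw [← Finset.card_filter]
      exact VR_count M C x.1 x.2 r _ _ _
    exact_mod_cast h1

end Pool.Agent.Lib.MP_1c11af_pr
end

-- part Pool.Agent.Lib.MP_1c11af_pr.Lower
section

/-!
The switching that lengthens a tree path.
-/

namespace Pool.Agent.Lib.MP_1c11af_pr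

open Finset MeasureTheory
open scoped Classical

set_option linter.unusedSectionVars false

variable {V : Type*} [DecidableEq V] [Fintype V]

/-- the edges outside `H` on the tree path from `u` to `v` -/
noncomputable def Light (H S : Finset (Sym2 V)) (u v : V) : Finset (Sym2 V) :=
  S.filter (fun e => e ∉ H ∧ ¬ Rc (S.erase e) u v)

lemma mem_Light {H S : Finset (Sym2 V)} {u v : V} {e : Sym2 V} :
    e ∈ Light H S u v ↔ e ∈ S ∧ e ∉ H ∧ ¬ Rc (S.erase e) u v := by simp [Light]

/-- ordered pairs spanning a member of `L` -/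
noncomputable def dar (L : Finset (Sym2 V)) : Finset (V × V) := univ.filter (fun x => s(x.1, x.2) ∈ L)

lemma card_dar (L : Finset (Sym2 V)) : (dar L).card ≤ 2 * L.card := by
  have h1 : dar L ⊆ L.biUnion (fun e => univ.filter (fun x : V × V => s(x.1, x.2) = e)) := by
    intro x hx
    exact Finset.mem_biUnion.2 ⟨_, (Finset.mem_filter.1 hx).2,
      Finset.mem_filter.2 ⟨Finset.mem_univ _, rfl⟩⟩
  refine (Finset.card_le_card h1).trans (Finset.card_biUnion_le.trans ?_)
  refine (Finset.sum_le_card_nsmul _ _ 2 (fun e _ => ?_)).trans (by simp [mul_comm])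
  induction e using Sym2.ind with
  | _ a b =>
    refine (Finset.card_le_card (t := {(a, b), (b, a)}) ?_).trans Finset.card_le_two
    rintro ⟨c, d⟩ h
    rcases Sym2.eq_iff.1 (Finset.mem_filter.1 h).2 with ⟨h1, h2⟩ | ⟨h1, h2⟩
    · dsimp only at h1 h2; simp [h1, h2]
    · dsimp only at h1 h2; simp [h1, h2]

/-- anchors: the start and the ends of the light edges -/
noncomputable def Anch (H S : Finset (Sym2 V)) (u v : V) : Finset V :=
  insert u ((dar (Light H S u v)).image (fun x => x.2))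

lemma card_Anch (H S : Finset (Sym2 V)) (u v : V) :
    (Anch H S u v).card ≤ 2 * (Light H S u v).card + 1 :=
  (Finset.card_insert_le _ _).trans
    (Nat.add_le_add_right (Finset.card_image_le.trans (card_dar _)) 1)

/-- the union of the small components of a set of vertices -/
noncomputable def smallcl (X : Finset (Sym2 V)) (Sz : ℕ) (A : Finset V) : Finset V :=
  (A.filter (fun a => csz X a < Sz)).biUnion (fun a => cl X {a})

lemma mem_smallcl {X : Finset (Sym2 V)} {Sz : ℕ} {A : Finset V} {z : V} :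
    z ∈ smallcl X Sz A ↔ ∃ a ∈ A, csz X a < Sz ∧ Rc X a z := by
  simp [smallcl, mem_cl_single, and_assoc]

lemma card_smallcl (X : Finset (Sym2 V)) (Sz : ℕ) (A : Finset V) :
    (smallcl X Sz A).card ≤ A.card * Sz := by
  refine Finset.card_biUnion_le.trans ?_
  refine (Finset.sum_le_card_nsmul _ _ Sz
    (fun a ha => (Finset.mem_filter.1 ha).2.le)).trans ?_
  exact Nat.mul_le_mul_right _ (Finset.card_filter_le _ _)

/-- what is known after the switch -/
def TV (M C B Sz : ℕ) (d : (V × V) × (V × V × V)) (H X Y S : Finset (Sym2 V)) : Prop :=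
  d.1.1 ∈ big Y M ∧ d.1.2 ∈ big Y M ∧ (big Y M).card ≤ C ∧
    s(d.2.1, d.2.2.1) ∈ Light H S d.1.1 d.1.2 ∧ (Light H S d.1.1 d.1.2).card ≤ B ∧
    d.2.2.2 ∈ smallcl X Sz (Anch H S d.1.1 d.1.2)

lemma TV_count (M C B Sz : ℕ) (H X Y S : Finset (Sym2 V)) :
    (univ.filter (fun d => TV M C B Sz d H X Y S)).card ≤
      C * C * (2 * B * ((2 * B + 1) * Sz)) := by
  rcases Finset.eq_empty_or_nonempty (univ.filter (fun d => TV M C B Sz d H X Y S)) with h | ⟨d, hd⟩
  · rw [h]; simp
  have hC := (Finset.mem_filter.1 hd).2.2.2.1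
  have h1 : univ.filter (fun d => TV M C B Sz d H X Y S) ⊆
      ((big Y M ×ˢ big Y M).filter (fun x => (Light H S x.1 x.2).card ≤ B)).biUnion (fun x =>
        (dar (Light H S x.1 x.2) ×ˢ smallcl X Sz (Anch H S x.1 x.2)).image
          (fun y => (x, (y.1.1, y.1.2, y.2)))) := by
    rintro ⟨⟨u, v⟩, x, y, z⟩ h
    obtain ⟨a1, a2, _, a4, a5, a6⟩ := (Finset.mem_filter.1 h).2
    refine Finset.mem_biUnion.2 ⟨(u, v), Finset.mem_filter.2
      ⟨Finset.mem_product.2 ⟨a1, a2⟩, a5⟩, Finset.mem_image.2 ⟨((x, y), z), ?_, rfl⟩⟩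
    exact Finset.mem_product.2 ⟨Finset.mem_filter.2 ⟨Finset.mem_univ _, a4⟩, a6⟩
  refine (Finset.card_le_card h1).trans (Finset.card_biUnion_le.trans ?_)
  refine (Finset.sum_le_card_nsmul _ _ (2 * B * ((2 * B + 1) * Sz)) (fun x hx => ?_)).trans ?_
  · have hB := (Finset.mem_filter.1 hx).2
    refine Finset.card_image_le.trans ?_
    rw [Finset.card_product]
    refine Nat.mul_le_mul ((card_dar _).trans (by omega)) ((card_smallcl _ _ _).trans ?_)
    exact Nat.mul_le_mul_right _ ((card_Anch _ _ _ _).trans (by omega))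
  · rw [smul_eq_mul]
    refine Nat.mul_le_mul_right _ ((Finset.card_filter_le _ _).trans ?_)
    rw [Finset.card_product]
    exact Nat.mul_le_mul hC hC

/-- a triple for which the switch is available -/
def GoodT (w : ℝ → ℝ) (p : ℕ → ℝ) (J : ℕ) (Λ : ℝ) (M C B Sz : ℕ) (U : Sym2 V → ℝ)
    (S : Finset (Sym2 V)) (t : (V × V) × V) : Prop :=
  ∃ i < J, ∃ y z : V, TV M C B Sz (t.1, (t.2, y, z)) (lev (fun e => U (sw (t.2, y, z) e)) (p 0))
      (lev (fun e => U (sw (t.2, y, z) e)) (p i)) (lev (fun e => U (sw (t.2, y, z) e)) (p J))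
      (actS (sw (t.2, y, z)) S) ∧ IsT (actS (sw (t.2, y, z)) S) ∧
    Zf (fun e => w (U (sw (t.2, y, z) e))) ≤ Λ * Zf (fun e => w (U e))

lemma lower_switch [Nonempty V] {w : ℝ → ℝ} (hw : Measurable w) (hw0 : ∀ x, 0 < w x)
    (p : ℕ → ℝ) (J : ℕ) {Λ F : ℝ} (hΛ : 0 ≤ Λ) (hF : 0 < F) (M C B Sz : ℕ) :
    Ph w (fun (U : Sym2 V → ℝ) S =>
      F ≤ ((univ.filter (GoodT w p J Λ M C B Sz U S)).card : ℝ)) ≤
    ENNReal.ofReal (Λ * (J * (C * C * (2 * B * ((2 * B + 1) * Sz))) : ℕ) / F) := by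
  refine switching (V := V) hw hw0
    (range J ×ˢ (univ : Finset ((V × V) × (V × V × V)))) (fun d => sw d.2.2)
    (fun d U S => TV M C B Sz d.2 (lev U (p 0)) (lev U (p d.1)) (lev U (p J)) S)
    (fun d S => measurableSet_lev (ι := Fin 3) ![p 0, p d.1, p J]
      (fun L => TV M C B Sz d.2 (L 0) (L 1) (L 2) S)) _ hF hΛ ?_ ?_
  · intro U S _ hB
    refine hB.trans (Nat.cast_le.2 ?_)
    refine Finset.card_le_card_of_surjOn (fun d => (d.2.1, d.2.2.1)) ?_
    rintro ⟨x, t⟩ ht
    obtain ⟨i, hi, y, z, h1, h2, h3⟩ := (Finset.mem_filter.1 ht).2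
    exact ⟨(i, (x, (t, y, z))), Finset.mem_coe.2 (Finset.mem_filter.2
      ⟨Finset.mem_product.2 ⟨Finset.mem_range.2 hi, Finset.mem_univ _⟩, h1, h2, h3⟩), rfl⟩
  · intro U S _
    refine Nat.cast_le.2 ?_
    rw [Finset.card_filter, Finset.sum_product]
    refine (Finset.sum_le_card_nsmul _ _ (C * C * (2 * B * ((2 * B + 1) * Sz)))
      (fun i _ => ?_)).trans (by simp)
    rw [← Finset.card_filter]
    exact TV_count M C B Sz (lev U (p 0)) (lev U (p i)) (lev U (p J)) S

lemma goodT_of_path {w : ℝ → ℝ} (hw0 : ∀ x, 0 < w x) (hanti : ∀ a b, 0 < a → a ≤ b → w b ≤ w a)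
    {p : ℕ → ℝ} {J : ℕ} {Λ : ℝ} {M C B Sz : ℕ} {U : Sym2 V → ℝ} {S : Finset (Sym2 V)}
    (hS : IsT S) {P : ℕ → V} {k a i : ℕ} {x : V} (hi : i < J) (hp0 : 0 < p 0) (hp1 : p 0 ≤ p i)
    (hp2 : p i ≤ p J) (hPS : PathIn S P k) (hP : PathIn (lev U (p J)) P k) (hak : a ≤ k)
    (hA1 : ∀ l, a ≤ l → l < k → Rc (S.erase (pe P l)) x (P l))
    (hA2 : ∀ l < a, Rc (S.erase (pe P l)) x (P (l + 1)))
    (hnv : ¬ Rc (lev U (p i)) (P a) (P k)) (hsm : csz (lev U (p i)) (P a) < Sz)
    (hux : ∀ e ∈ S, ¬ Rc (S.erase e) (P 0) x → e ∈ lev U (p J))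
    (hfar : ∀ l ≤ k, p J < U s(x, P l))
    (hres : ∀ z, Rc (lev U (p i)) (P a) z → ∃ (Q : ℕ → V) (m : ℕ), Q 0 = x ∧ Q m = z ∧
      2 + w (p i) * ∑ l ∈ range m, (w (U (pe Q l)))⁻¹ ≤ Λ)
    (hB : (Light (lev U (p 0)) S (P 0) x).card + (Light (lev U (p 0)) S (P 0) (P k)).card + 1 ≤ B)
    (hu : P 0 ∈ big (lev U (p J)) M) (hv : P k ∈ big (lev U (p J)) M)
    (hC : (big (lev U (p J)) M).card ≤ C) :
    GoodT w p J Λ M C B Sz U S ((P 0, P k), x) := by
  have hex : ∃ j, a ≤ j ∧ j < k ∧ p i < U (pe P j) := by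
    by_contra hcon
    push Not at hcon
    exact hnv (rc_of_steps hak (fun l h1 h2 => mem_lev.2 (hcon l h1 h2)))
  obtain ⟨haj, hjk, hlight⟩ := Nat.find_spec hex
  have hmin : ∀ l, a ≤ l → l < Nat.find hex → U (pe P l) ≤ p i := by
    intro l h1 h2
    have := Nat.find_min hex h2
    push Not at this
    exact this h1 (by omega)
  set j := Nat.find hex with hj
  refine ⟨i, hi, P (j + 1), P j, ?_⟩
  have hsw : sw (x, P (j + 1), P j) = Equiv.swap (pe P j) s(x, P (j + 1)) :=
    Equiv.swap_comm _ _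
  dsimp only
  rw [hsw]
  set f' := pe P j with hf'
  set f := s(x, P (j + 1)) with hf
  have hf'S : f' ∈ S := hPS.2 j hjk
  have hf'Y : U f' ≤ p J := mem_lev.1 (hP.2 j hjk)
  have hfY : p J < U f := hfar (j + 1) (by omega)
  have hxz : Rc (S.erase f') x (P j) := hA1 j haj hjk
  have hbr : ¬ Rc (S.erase f') (P j) (P (j + 1)) := hS.bridge hf'S
  have hxy : ¬ Rc (S.erase f') x (P (j + 1)) := fun h => hbr (hxz.symm.trans h)
  have hfS' : f ∉ S.erase f' := notMem_of_not_rc hxy
  have hff' : f ≠ f' := fun h => by rw [h] at hfY; linarith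
  have hfS : f ∉ S := fun h => hfS' (Finset.mem_erase.2 ⟨hff', h⟩)
  have eS : actS (Equiv.swap f' f) S = insert f (S.erase f') := actS_swap hf'S hfS
  have eS' : (insert f (S.erase f')).erase f = S.erase f' := Finset.erase_insert hfS'
  have eX : ∀ t, t ≤ p i → lev (fun e => U (Equiv.swap f' f e)) t = lev U t := by
    intro t ht
    rw [lev_comp]
    refine actS_swap_of_notMem (fun h => ?_) (fun h => ?_)
    · have := mem_lev.1 h; linarith
    · have := mem_lev.1 h; linarith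
  have eY : lev (fun e => U (Equiv.swap f' f e)) (p J) = insert f ((lev U (p J)).erase f') := by
    rw [lev_comp]
    exact actS_swap (mem_lev.2 hf'Y) (fun h => by have := mem_lev.1 h; linarith)
  have huz : Rc (S.erase f') (P 0) (P j) :=
    hPS.rc_erase (Nat.zero_le _) hjk.le hjk (Or.inr le_rfl)
  have hyv : Rc (S.erase f') (P (j + 1)) (P k) :=
    hPS.rc_erase (by omega) le_rfl hjk (Or.inl (by omega))
  have hnuv : ¬ Rc (S.erase f') (P 0) (P k) := hPS.sep hS (Nat.zero_le _) hjk le_rfl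
  have hxzY : Rc ((lev U (p J)).erase f') x (P j) := by
    refine hS.rc_of_sep (fun e he hn => Finset.mem_erase.2 ⟨fun h => hn (h ▸ hxz), ?_⟩)
    by_cases h1 : Rc (S.erase e) (P 0) x
    · obtain ⟨l, _, h3, rfl⟩ := hPS.exists_pe (Nat.zero_le j) hjk.le
        (fun h => hn (h1.symm.trans h))
      exact hP.2 l (by omega)
    · exact hux e he h1
  have hcomp : ∀ a b, Rc (insert f ((lev U (p J)).erase f')) a b ↔ Rc (lev U (p J)) a b :=
    rc_swap_iff (mem_lev.2 hf'Y) hxzY
  have htree : IsT (insert f (S.erase f')) := hS.exchange hf'S hxy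
  rw [eS, eX _ hp1, eX _ le_rfl, eY]
  refine ⟨⟨?_, ?_, ?_, ?_, ?_, ?_⟩, htree, ?_⟩
  · dsimp only; rw [big_congr hcomp]; exact hu
  · dsimp only; rw [big_congr hcomp]; exact hv
  · rw [big_congr hcomp]; exact hC
  · dsimp only
    refine mem_Light.2 ⟨Finset.mem_insert_self _ _, fun h => ?_, by rw [eS']; exact hnuv⟩
    have := mem_lev.1 h; linarith
  · dsimp only
    refine le_trans (Finset.card_le_card (t := insert f (Light (lev U (p 0)) S (P 0) x ∪
      Light (lev U (p 0)) S (P 0) (P k))) ?_) ((Finset.card_insert_le _ _).trans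
        (le_trans (Nat.add_le_add_right (Finset.card_union_le _ _) 1) hB))
    intro e he
    obtain ⟨h1, h2, h3⟩ := mem_Light.1 he
    rw [Finset.mem_insert]
    by_cases hef : e = f
    · exact Or.inl hef
    right
    have h4 : e ∈ S.erase f' := (Finset.mem_insert.1 h1).resolve_left hef
    have h5 : e ∈ S := Finset.mem_of_mem_erase h4
    rw [Finset.mem_union, mem_Light, mem_Light]
    by_contra hcon
    push Not at hcon
    have c1 := hcon.1 h5 h2
    have c2 := hcon.2 h5 h2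
    have hsub : (S.erase f').erase e ⊆ (insert f (S.erase f')).erase e :=
      Finset.erase_subset_erase _ (Finset.subset_insert _ _)
    have hsub2 : (S.erase e).erase f' ⊆ S.erase f' :=
      Finset.erase_subset_erase _ (Finset.erase_subset _ _)
    have c3 : Rc ((S.erase f').erase e) (P 0) x := hS.rc_erase_two (huz.trans hxz.symm) c1
    have c4 : Rc ((S.erase f').erase e) (P (j + 1)) (P k) := by
      rcases rc_erase_cases (P j) (P (j + 1)) c2 with h | ⟨_, ⟨_, h⟩ | ⟨h, _⟩⟩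
      · exact absurd (h.mono hsub2) hnuv
      · rw [Finset.erase_right_comm]; exact h
      · exact absurd ((h.mono hsub2).trans hyv) hnuv
    have c5 : f ∈ (insert f (S.erase f')).erase e :=
      Finset.mem_erase.2 ⟨Ne.symm hef, Finset.mem_insert_self _ _⟩
    exact h3 (((c3.mono hsub).trans (Rc.of_mem c5)).trans (c4.mono hsub))
  · dsimp only
    have hanch : ∀ l ≤ a, ∃ b ∈ Anch (lev U (p 0)) (insert f (S.erase f')) (P 0) (P k),
        Rc (lev U (p 0)) b (P l) := by
      intro l hl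
      induction l with
      | zero => exact ⟨P 0, Finset.mem_insert_self _ _, Rc.refl _ _⟩
      | succ l ih =>
        by_cases h1 : pe P l ∈ lev U (p 0)
        · obtain ⟨b, hb, h2⟩ := ih (by omega)
          exact ⟨b, hb, h2.trans (Rc.of_mem h1)⟩
        · refine ⟨P (l + 1), Finset.mem_insert_of_mem (Finset.mem_image.2 ⟨(P l, P (l + 1)),
            Finset.mem_filter.2 ⟨Finset.mem_univ _, mem_Light.2 ⟨?_, h1, ?_⟩⟩, rfl⟩), Rc.refl _ _⟩
          · refine Finset.mem_insert_of_mem (Finset.mem_erase.2 ⟨fun h => ?_, hPS.2 l (by omega)⟩)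
            have := hPS.pe_inj (by omega) hjk h
            omega
          · intro h
            have hsub : (insert f (S.erase f')).erase (pe P l) ⊆ insert f (S.erase (pe P l)) := by
              intro e he
              rw [Finset.mem_erase, Finset.mem_insert] at he
              rcases he with ⟨h2, h3 | h3⟩
              · exact h3 ▸ Finset.mem_insert_self _ _
              · exact Finset.mem_insert_of_mem
                  (Finset.mem_erase.2 ⟨h2, Finset.mem_of_mem_erase h3⟩)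
            refine hPS.sep hS (Nat.zero_le l) (by omega) le_rfl
              (rc_insert_far (fun h2 => ?_) ?_ (Rc.mono hsub h))
            · exact hPS.sep hS (Nat.zero_le l) (Nat.lt_succ_self l) (by omega)
                (h2.trans (hA2 l (by omega)))
            · exact hPS.sep hS (Nat.zero_le l) (by omega) (by omega)
    obtain ⟨b, hb, h1⟩ := hanch a le_rfl
    have h2 : Rc (lev U (p i)) b (P a) := h1.mono (lev_mono U hp1)
    refine mem_smallcl.2 ⟨b, hb, by rw [csz_eq h2]; exact hsm, h2.trans ?_⟩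
    exact rc_of_steps haj (fun l h3 h4 => mem_lev.2 (hmin l h3 h4))
  · obtain ⟨Q, m, hQ0, hQm, hres'⟩ := hres (P j)
      (rc_of_steps haj (fun l h3 h4 => mem_lev.2 (hmin l h3 h4)))
    set Q' : ℕ → V := fun l => if l ≤ m then Q l else P (j + 1) with hQ'
    have hc : 0 < w (U f') := hw0 _
    have h1 := Zf_raise (W := fun e => w (U e)) (fun _ => hw0 _) hc.le Q' (m + 1)
    have e1 : s(Q' 0, Q' (m + 1)) = f := by simp [hQ', hQ0, hf]
    have e2 : ∑ l ∈ range (m + 1), (w (U (pe Q' l)))⁻¹ =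
        ∑ l ∈ range m, (w (U (pe Q l)))⁻¹ + (w (U f'))⁻¹ := by
      rw [Finset.sum_range_succ]
      congr 1
      · refine Finset.sum_congr rfl (fun l hl => ?_)
        have := Finset.mem_range.1 hl
        simp only [pe, hQ']
        rw [if_pos (by omega), if_pos (by omega)]
      · simp only [pe, hQ', hf']
        rw [if_pos le_rfl, if_neg (by omega), hQm]
    rw [e1, e2] at h1
    have h2 : Zf (fun e => w (U (Equiv.swap f' f e))) ≤
        Zf (fun e => w (U e) + if e = f then w (U f') else 0) := by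
      refine Zf_mono (fun _ => hw0 _) (fun e => ?_)
      by_cases h3 : e = f
      · rw [h3, Equiv.swap_apply_right, if_pos rfl]
        linarith [hw0 (U f)]
      · rw [if_neg h3, add_zero]
        by_cases h4 : e = f'
        · rw [h4, Equiv.swap_apply_left]
          exact hanti _ _ (by linarith) (by linarith)
        · rw [Equiv.swap_apply_of_ne_of_ne h4 h3]
    refine h2.trans (h1.trans ?_)
    rw [mul_comm]
    refine mul_le_mul_of_nonneg_right (le_trans ?_ hres') (Zf_nonneg (fun _ => hw0 _))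
    have h3 : w (U f') ≤ w (p i) := hanti _ _ (by linarith) hlight.le
    have h4 : 0 ≤ ∑ l ∈ range m, (w (U (pe Q l)))⁻¹ :=
      Finset.sum_nonneg (fun l _ => (inv_pos.2 (hw0 _)).le)
    rw [mul_add, mul_inv_cancel₀ hc.ne']
    nlinarith [mul_le_mul_of_nonneg_right h3 h4]

/-- the point of a tree path closest to a vertex -/
lemma exists_median {S : Finset (Sym2 V)} (hS : IsT S) {P : ℕ → V} {k : ℕ} (hP : PathIn S P k)
    (x : V) : ∃ a ≤ k, (∀ l, a ≤ l → l < k → Rc (S.erase (pe P l)) x (P l)) ∧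
      (∀ l < a, Rc (S.erase (pe P l)) x (P (l + 1))) := by
  have hex : ∃ a, k ≤ a ∨ Rc (S.erase (pe P a)) x (P a) := ⟨k, Or.inl le_rfl⟩
  have hak : Nat.find hex ≤ k := Nat.find_min' hex (Or.inl le_rfl)
  refine ⟨Nat.find hex, hak, ?_, ?_⟩
  · intro l h1 h2
    have h3 : Rc (S.erase (pe P (Nat.find hex))) x (P (Nat.find hex)) :=
      (Nat.find_spec hex).resolve_left (by omega)
    set a := Nat.find hex
    rcases Nat.eq_or_lt_of_le h1 with h4 | h4
    · rw [← h4]; exact h3
    · have h5 : Rc (S.erase (pe P l)) x (P a) := by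
        by_contra hn
        have h6 : ¬ Rc ((S.erase (pe P a)).erase (pe P l)) x (P a) := fun h =>
          hn (h.mono (Finset.erase_subset_erase _ (Finset.erase_subset _ _)))
        have h7 : Rc (S.erase (pe P a)) x (P l) := rc_of_not_erase h3 h6
        exact hP.sep hS le_rfl h4 h2.le (h3.symm.trans h7)
      exact h5.trans (hP.rc_erase h1 h2.le h2 (Or.inr le_rfl))
  · intro l hl
    have := Nat.find_min hex hl
    push Not at this
    exact (hS.side (P l) (P (l + 1)) x).resolve_left this.2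

lemma pe_rev (P : ℕ → V) {k l : ℕ} (hl : l < k) :
    pe (fun j => P (k - j)) l = pe P (k - 1 - l) := by
  show s(P (k - l), P (k - (l + 1))) = s(P (k - 1 - l), P (k - 1 - l + 1))
  rw [Sym2.eq_swap, show k - (l + 1) = k - 1 - l by omega, show k - 1 - l + 1 = k - l by omega]

lemma PathIn.rev {S : Finset (Sym2 V)} {P : ℕ → V} {k : ℕ} (h : PathIn S P k) :
    PathIn S (fun j => P (k - j)) k := by
  refine ⟨fun i hi j hj hij => ?_, fun j hj => ?_⟩
  · have := h.1 (k - i) (by omega) (k - j) (by omega) hij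
    omega
  · rw [pe_rev P hj]
    exact h.2 _ (by omega)

end Pool.Agent.Lib.MP_1c11af_pr
end

-- part Pool.Agent.Lib.MP_1c11af_pr.Det
section

/-!
Deterministic lemmas: what the good events imply.
-/

namespace Pool.Agent.Lib.MP_1c11af_pr

open Finset MeasureTheory
open scoped Classical

set_option linter.unusedSectionVars false

variable {V : Type*} [DecidableEq V] [Fintype V]

/-- one step of the geometric scheme -/
lemma ds_step {S X0 X1 X2 X3 : Finset (Sym2 V)} {M k D : ℕ} (hS : IsT S)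
    (h1 : ∀ P, PathIn X3 P k → ∃ j ≤ k, M ≤ csz X0 (P j))
    (h2 : ∀ u v, M ≤ csz X0 u → M ≤ csz X0 v → Rc X1 u v) (h3 : AM S X1 X2)
    (hD : ∀ P, ¬ PathIn (S ∩ X2) P D) : ∀ P, ¬ PathIn (S ∩ X3) P (D + 2 * k) := by
  intro P hP
  have hPS := hP.mono Finset.inter_subset_left
  have hP3 := hP.mono Finset.inter_subset_right
  obtain ⟨a, ha, ha'⟩ := h1 P (hP3.trunc k (by omega))
  obtain ⟨b, hb, hb'⟩ := h1 _ (hP3.sub (D + k) k (by omega))
  have huv := h2 _ _ ha' hb'
  refine hD (fun j => P (k + j)) (hP.shift k D (by omega) (fun j hj => ?_))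
  have he := hPS.2 (k + j) (by omega)
  exact Finset.mem_inter.2 ⟨he, h3.rc huv he (hPS.sep hS (by omega) (by omega) (by omega))⟩

lemma ds_iter {S : Finset (Sym2 V)} (hS : IsT S) (X : ℕ → Finset (Sym2 V)) (M k : ℕ → ℕ)
    (m D : ℕ)
    (h1 : ∀ i < m, ∀ P, PathIn (X (i + 3)) P (k i) → ∃ j ≤ k i, M i ≤ csz (X i) (P j))
    (h1' : ∀ v, M m ≤ csz (X m) v)
    (h2 : ∀ i ≤ m, ∀ u v, M i ≤ csz (X i) u → M i ≤ csz (X i) v → Rc (X (i + 1)) u v)
    (h3 : ∀ i ≤ m, AM S (X (i + 1)) (X (i + 2)))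
    (hD : ∀ P, ¬ PathIn (S ∩ X 2) P D) :
    ∀ P, ¬ PathIn S P (D + 2 * ∑ i ∈ range m, k i) := by
  have key : ∀ i ≤ m, ∀ P, ¬ PathIn (S ∩ X (i + 2)) P (D + 2 * ∑ j ∈ range i, k j) := by
    intro i hi
    induction i with
    | zero => simpa using hD
    | succ i ih =>
      have := ds_step hS (h1 i (by omega)) (h2 i (by omega)) (h3 i (by omega)) (ih (by omega))
      rw [Finset.sum_range_succ, mul_add, ← add_assoc]
      exact this
  have := ds_step (X3 := univ) (k := 0) hS (fun P _ => ⟨0, le_rfl, h1' _⟩) (h2 m le_rfl)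
    (h3 m le_rfl) (key m le_rfl)
  simpa using this

/-- the starts of the segments cut out by marks -/
noncomputable def starts (Mk : ℕ → Prop) (b : ℕ) : Finset ℕ :=
  insert 0 (((range b).filter Mk).image (fun l => l + 1))

lemma card_starts (Mk : ℕ → Prop) [DecidablePred Mk] (b : ℕ) :
    (starts Mk b).card ≤ ((range b).filter Mk).card + 1 := by
  refine (Finset.card_insert_le _ _).trans (Nat.add_le_add_right
    (Finset.card_image_le.trans (le_of_eq ?_)) 1)
  congr

lemma exists_start (Mk : ℕ → Prop) {b l : ℕ} (hl : l ≤ b) :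
    ∃ s ∈ starts Mk b, s ≤ l ∧ ∀ m, s ≤ m → m < l → ¬ Mk m := by
  induction l with
  | zero => exact ⟨0, Finset.mem_insert_self _ _, le_rfl, fun m _ h => by omega⟩
  | succ l ih =>
    by_cases h : Mk l
    · exact ⟨l + 1, Finset.mem_insert_of_mem (Finset.mem_image.2 ⟨l, Finset.mem_filter.2
        ⟨Finset.mem_range.2 (by omega), h⟩, rfl⟩), le_rfl, fun m h1 h2 => by omega⟩
    · obtain ⟨s, h1, h2, h3⟩ := ih (by omega)
      refine ⟨s, h1, by omega, fun m h4 h5 => ?_⟩
      rcases Nat.lt_succ_iff_lt_or_eq.1 h5 with h6 | h6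
      · exact h3 m h4 h6
      · rw [h6]; exact h

lemma mem_starts {Mk : ℕ → Prop} {b s : ℕ} (h : s ∈ starts Mk b) :
    s = 0 ∨ (0 < s ∧ Mk (s - 1)) := by
  rcases Finset.mem_insert.1 h with h | h
  · exact Or.inl h
  · obtain ⟨l, hl, rfl⟩ := Finset.mem_image.1 h
    exact Or.inr ⟨by omega, by simpa using (Finset.mem_filter.1 hl).2⟩

lemma marks_lower {X Y : Finset (Sym2 V)} {k b : ℕ} (g4 : ∀ P, ¬ PathIn X P k) {Q : ℕ → V}
    (hQ : PathIn Y Q b) :
    b + 1 ≤ (((range b).filter (fun l => pe Q l ∉ X)).card + 1) * k := by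
  have h1 : range (b + 1) ⊆ (starts (fun l => pe Q l ∉ X) b).biUnion (fun s => Ico s (s + k)) := by
    intro l hl
    have hl' : l ≤ b := by have := Finset.mem_range.1 hl; omega
    obtain ⟨s, h1, h2, h3⟩ := exists_start (fun l => pe Q l ∉ X) hl'
    refine Finset.mem_biUnion.2 ⟨s, h1, Finset.mem_Ico.2 ⟨h2, ?_⟩⟩
    by_contra hn
    refine g4 _ (hQ.shift s k (by omega) (fun j hj => ?_))
    exact not_not.1 (h3 (s + j) (by omega) (by omega))
  have h2 := (Finset.card_le_card h1).trans Finset.card_biUnion_le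
  rw [Finset.card_range] at h2
  refine h2.trans ((Finset.sum_le_card_nsmul _ _ k (fun s _ => by simp)).trans ?_)
  exact Nat.mul_le_mul_right _ (card_starts _ _)

lemma out_count {X Xm Y : Finset (Sym2 V)} {M h b : ℕ}
    (g1 : ∀ P m, PathIn X P m → csz X (P m) < M →
      ((range m).filter (fun l => pe P l ∉ Xm)).card < h)
    {Q : ℕ → V} (hQ : PathIn Y Q b) :
    ((range (b + 1)).filter (fun a => csz X (Q a) < M ∧
      (a = 0 ∨ (0 < a ∧ pe Q (a - 1) ∉ Xm)))).card ≤
      (((range b).filter (fun l => pe Q l ∉ X)).card + 1) * h := by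
  set Fib : ℕ → Finset ℕ := fun s => (range (b + 1)).filter (fun a => s ≤ a ∧
    (∀ m, s ≤ m → m < a → pe Q m ∈ X) ∧ csz X (Q a) < M ∧
      (a = s ∨ (s < a ∧ pe Q (a - 1) ∉ Xm))) with hFib
  have h1 : (range (b + 1)).filter (fun a => csz X (Q a) < M ∧
      (a = 0 ∨ (0 < a ∧ pe Q (a - 1) ∉ Xm))) ⊆
      (starts (fun l => pe Q l ∉ X) b).biUnion Fib := by
    intro a ha
    obtain ⟨a1, a2, a3⟩ := Finset.mem_filter.1 ha
    have hl' : a ≤ b := by have := Finset.mem_range.1 a1; omega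
    obtain ⟨s, h1, h2, h3⟩ := exists_start (fun l => pe Q l ∉ X) hl'
    refine Finset.mem_biUnion.2 ⟨s, h1, Finset.mem_filter.2
      ⟨a1, h2, fun m h4 h5 => not_not.1 (h3 m h4 h5), a2, ?_⟩⟩
    rcases Nat.eq_or_lt_of_le h2 with h4 | h4
    · exact Or.inl h4.symm
    · rcases a3 with a3 | a3
      · omega
      · exact Or.inr ⟨h4, a3.2⟩
  refine ((Finset.card_le_card h1).trans Finset.card_biUnion_le).trans ?_
  refine (Finset.sum_le_card_nsmul _ _ h (fun s _ => ?_)).trans
    (Nat.mul_le_mul_right _ (card_starts _ _))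
  rcases Finset.eq_empty_or_nonempty (Fib s) with he | hne
  · rw [he]; simp
  obtain ⟨l, hl, hmax⟩ := Finset.exists_max_image (Fib s) id hne
  obtain ⟨l1, l2, l3, l4, _⟩ := Finset.mem_filter.1 hl
  have l5 : l ≤ b := by have := Finset.mem_range.1 l1; omega
  have h2 := g1 (fun j => Q (s + j)) (l - s)
    (hQ.shift s (l - s) (by omega) (fun j hj => l3 _ (by omega) (by omega)))
    (by rw [show s + (l - s) = l by omega]; exact l4)
  have h3 : Fib s ⊆ insert s (((range (l - s)).filter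
      (fun j => pe (fun j => Q (s + j)) j ∉ Xm)).image (fun j => s + j + 1)) := by
    intro a ha
    have a0 : a ≤ l := hmax a ha
    obtain ⟨_, _, _, _, a5⟩ := Finset.mem_filter.1 ha
    rcases a5 with a5 | ⟨a5, a6⟩
    · rw [a5]; exact Finset.mem_insert_self _ _
    · refine Finset.mem_insert_of_mem (Finset.mem_image.2 ⟨a - 1 - s, Finset.mem_filter.2
        ⟨Finset.mem_range.2 (by omega), ?_⟩, by omega⟩)
      have e : pe (fun j => Q (s + j)) (a - 1 - s) = pe Q (a - 1) := by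
        show s(Q (s + (a - 1 - s)), Q (s + (a - 1 - s + 1))) = s(Q (a - 1), Q (a - 1 + 1))
        rw [show s + (a - 1 - s) = a - 1 by omega, show s + (a - 1 - s + 1) = a - 1 + 1 by omega]
      rw [e]; exact a6
  have h4 := (Finset.card_le_card h3).trans ((Finset.card_insert_le _ _).trans
    (Nat.add_le_add_right Finset.card_image_le 1))
  omega

lemma block {X : ℕ → Finset (Sym2 V)} {Xm : Finset (Sym2 V)} {J M k h Sz τ b f ζ : ℕ}
    (θ : ℕ → ℕ) (hm : ∀ i, Xm ⊆ X i)
    (g1 : ∀ i < J, ∀ P m, PathIn (X (i + 1)) P m → csz (X (i + 1)) (P m) < M →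
      ((range m).filter (fun l => pe P l ∉ Xm)).card < h)
    (g4 : ∀ P, ¬ PathIn (X 0) P k) (g5 : ∀ v, csz Xm v ≤ Sz)
    (hθ0 : θ 0 * k ≤ b) (hθJ : 0 < θ J) (hf : ∀ i < J, f + θ (i + 1) * h ≤ θ i)
    (hζ : ∀ i < J, ζ + θ (i + 1) * h * Sz ≤ τ)
    {Q : ℕ → V} (hQ : PathIn (X J) Q b) (g7 : τ ≤ (cl Xm (vs Q b)).card) :
    ∃ i < J, f ≤ ((range b).filter
        (fun l => pe Q l ∉ X i ∧ M ≤ csz (X (i + 1)) (Q (l + 1)))).card ∧
      ζ ≤ ((cl Xm (vs Q b)).filter (fun z => M ≤ csz (X (i + 1)) z)).card := by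
  set nn : ℕ → ℕ := fun j => ((range b).filter (fun l => pe Q l ∉ X j)).card with hnn
  have h0 : θ 0 ≤ nn 0 := by
    have h1 := marks_lower g4 hQ
    by_contra hcon
    have h2 : (nn 0 + 1) * k ≤ θ 0 * k := Nat.mul_le_mul_right _ (by omega)
    have h3 : b + 1 ≤ (nn 0 + 1) * k := h1
    omega
  have hJ : nn J < θ J := by
    have : nn J = 0 := by
      simp only [hnn]
      rw [Finset.card_eq_zero, Finset.filter_eq_empty_iff]
      intro l hl
      exact not_not.2 (hQ.2 l (Finset.mem_range.1 hl))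
    omega
  have hex : ∃ j, nn j < θ j := ⟨J, hJ⟩
  obtain ⟨i, hi⟩ : ∃ i, Nat.find hex = i + 1 := by
    refine Nat.exists_eq_succ_of_ne_zero (fun h => ?_)
    have := Nat.find_spec hex
    rw [h] at this
    omega
  have i1 : nn (i + 1) < θ (i + 1) := hi ▸ Nat.find_spec hex
  have i2 : θ i ≤ nn i := not_lt.1 (Nat.find_min hex (by omega))
  have i3 : i < J := by have := Nat.find_min' hex hJ; omega
  set A := (range (b + 1)).filter (fun a => csz (X (i + 1)) (Q a) < M ∧
      (a = 0 ∨ (0 < a ∧ pe Q (a - 1) ∉ Xm))) with hA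
  have hAc : A.card ≤ θ (i + 1) * h :=
    (out_count (g1 i i3) hQ).trans (Nat.mul_le_mul_right _ i1)
  refine ⟨i, i3, ?_, ?_⟩
  · have h1 : (range b).filter (fun l => pe Q l ∉ X i) ⊆ (range b).filter
        (fun l => pe Q l ∉ X i ∧ M ≤ csz (X (i + 1)) (Q (l + 1))) ∪ A.image (fun a => a - 1) := by
      intro l hl
      obtain ⟨l1, l2⟩ := Finset.mem_filter.1 hl
      by_cases h2 : M ≤ csz (X (i + 1)) (Q (l + 1))
      · exact Finset.mem_union_left _ (Finset.mem_filter.2 ⟨l1, l2, h2⟩)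
      · refine Finset.mem_union_right _ (Finset.mem_image.2 ⟨l + 1, Finset.mem_filter.2
          ⟨Finset.mem_range.2 (by have := Finset.mem_range.1 l1; omega), not_le.1 h2,
            Or.inr ⟨by omega, fun h3 => l2 (hm i (by simpa using h3))⟩⟩, by omega⟩)
    have h2 := (Finset.card_le_card h1).trans ((Finset.card_union_le _ _).trans
      (Nat.add_le_add_left Finset.card_image_le _))
    have h3 := hf i i3
    have h4 : nn i = ((range b).filter (fun l => pe Q l ∉ X i)).card := rfl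
    omega
  · have h1 : cl Xm (vs Q b) ⊆ (cl Xm (vs Q b)).filter (fun z => M ≤ csz (X (i + 1)) z) ∪
        A.biUnion (fun a => cl Xm {Q a}) := by
      intro z hz
      by_cases h2 : M ≤ csz (X (i + 1)) z
      · exact Finset.mem_union_left _ (Finset.mem_filter.2 ⟨hz, h2⟩)
      · obtain ⟨v, hv, hvz⟩ := mem_cl.1 hz
        obtain ⟨l, hl, rfl⟩ := mem_vs.1 hv
        obtain ⟨s, s1, s2, s3⟩ := exists_start (fun l => pe Q l ∉ Xm) hl
        have s4 : Rc Xm (Q s) z :=
          (rc_of_steps s2 (fun m h3 h4 => not_not.1 (s3 m h3 h4))).trans hvz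
        refine Finset.mem_union_right _ (Finset.mem_biUnion.2 ⟨s, Finset.mem_filter.2
          ⟨Finset.mem_range.2 (by omega), ?_, mem_starts s1⟩, mem_cl_single.2 s4⟩)
        rw [csz_eq (s4.mono (hm _))]
        exact not_le.1 h2
    have h2 := (Finset.card_le_card h1).trans ((Finset.card_union_le _ _).trans
      (Nat.add_le_add_left (Finset.card_biUnion_le.trans
        (Finset.sum_le_card_nsmul _ _ Sz (fun a _ => g5 (Q a)))) _))
    have h3 := hζ i i3
    have h4 : A.card * Sz ≤ θ (i + 1) * h * Sz := Nat.mul_le_mul_right _ hAc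
    rw [smul_eq_mul] at h2
    omega

end Pool.Agent.Lib.MP_1c11af_pr
end
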