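import Pool.Agent.Lib.MP_1c11af_pr.Law

/-!
Probability bounds for the level graphs, with free parameters.
-/

namespace Pool.Agent.Lib.MP_1c11af_pr

open Finset MeasureTheory
open scoped Classical

set_option linter.unusedSectionVars false

lemma mreal_mono {Ω : Type*} [MeasurableSpace Ω] {μ : Measure Ω} [IsProbabilityMeasure μ]
    {s t : Set Ω} (h : s ⊆ t) : μ.real s ≤ μ.real t :=
  measureReal_mono h (measure_ne_top _ _)

variable {V : Type*} [DecidableEq V] [Fintype V]

/-- size of the component of `v` -/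
noncomputable def csz (S : Finset (Sym2 V)) (v : V) : ℕ := (cl S {v}).card

lemma mem_cl_single {S : Finset (Sym2 V)} {v w : V} : w ∈ cl S {v} ↔ Rc S v w := by
  simp [mem_cl]

lemma csz_mono {S S' : Finset (Sym2 V)} (h : S ⊆ S') (v : V) : csz S v ≤ csz S' v :=
  Finset.card_le_card (cl_mono h (Finset.Subset.refl _))

lemma cl_single_eq {S : Finset (Sym2 V)} {v w : V} (h : Rc S v w) : cl S {v} = cl S {w} := by
  ext x
  rw [mem_cl_single, mem_cl_single]
  exact ⟨fun h' => h.symm.trans h', fun h' => h.trans h'⟩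

lemma csz_eq {S : Finset (Sym2 V)} {v w : V} (h : Rc S v w) : csz S v = csz S w := by
  unfold csz; rw [cl_single_eq h]

lemma csz_congr {S S' : Finset (Sym2 V)} (h : ∀ a b, Rc S a b ↔ Rc S' a b) (v : V) :
    csz S v = csz S' v := by
  unfold csz
  congr 1
  ext w
  rw [mem_cl_single, mem_cl_single, h]

lemma no_path (k : ℕ) {p : ℝ} (hp0 : 0 ≤ p) (hp1 : p ≤ 1) :
    (mu (Sym2 V)).real {U | ∃ P, PathIn (lev U p) P k} ≤
      (Fintype.card V : ℝ) ^ (k + 1) * p ^ k := by
  have := path_bound (V := V) k (p := p) (p' := p) (β := 1) hp0 hp1 hp0 hp1 (fun _ _ => True)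
    (fun A _ => by simp [ind_pos, Ex_const]) zero_le_one
  simpa using this

lemma path_cl_small (k τ m : ℕ) {p p' z q : ℝ} (hp0 : 0 ≤ p) (hp1 : p < 1) (hp0' : 0 ≤ p')
    (hp1' : p' ≤ 1) (hz : 0 < z) (hz1 : z ≤ 1) (hq0 : 0 ≤ q) (hq1 : q ≤ 1)
    (hm : m + 2 * τ + k + 2 ≤ Fintype.card V)
    (hcond : z * Real.exp (-(p * m * (1 - q))) ≤ q) :
    (mu (Sym2 V)).real {U | ∃ P, PathIn (lev U p') P k ∧ (cl (lev U p) (vs P k)).card ≤ τ} ≤
      (Fintype.card V : ℝ) ^ (k + 1) * (p' ^ k * (q ^ (k + 1) / z ^ τ)) := by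
  refine le_trans (mreal_mono ?_) (path_bound k hp0 hp1.le hp0' hp1'
    (fun A S => (cl S A).card ≤ τ) ?_ (by positivity))
  · rintro U ⟨P, h1, h2⟩
    exact ⟨P, h1, (Finset.card_le_card
      (cl_mono Finset.inter_subset_left (Finset.Subset.refl _))).trans h2⟩
  · intro A hA
    have h1 := ex_cl_upper hp0 hp1 hz.le hq0 hq1 τ m (Fintype.card V - A.card - 1) (by omega)
      hcond (out A) (out_deg A) A
    rw [hA] at h1
    have hzτ : 0 < z ^ τ := pow_pos hz _
    rw [le_div_iff₀ hzτ, mul_comm, ← Ex_mul]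
    refine le_trans (Ex_mono hp0 hp1.le (fun S _ => ?_)) h1
    split_ifs with h
    · rw [ind_pos h, mul_one]
      exact pow_le_pow_of_le_one hz.le hz1 h
    · rw [ind_neg h, mul_zero]

lemma cl_union (S : Finset (Sym2 V)) (A B : Finset V) : cl S (A ∪ B) ⊆ cl S A ∪ cl S B := by
  intro w hw
  obtain ⟨v, hv, h⟩ := mem_cl.1 hw
  rcases Finset.mem_union.1 hv with hv | hv
  · exact Finset.mem_union_left _ (mem_cl.2 ⟨v, hv, h⟩)
  · exact Finset.mem_union_right _ (mem_cl.2 ⟨v, hv, h⟩)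

lemma exists_segment (S : Finset (Sym2 V)) (A : Finset V) (M : ℕ)
    (hsmall : ∀ v ∈ A, csz S v < M) (hbig : 2 * M < (cl S A).card) :
    ∃ t ∈ range (Fintype.card V + 1),
      M < (cl S (A.filter (fun v => (Fintype.equivFin V v : ℕ) < t))).card ∧
      (cl S (A.filter (fun v => (Fintype.equivFin V v : ℕ) < t))).card ≤ 2 * M := by
  set f : ℕ → ℕ := fun t => (cl S (A.filter (fun v => (Fintype.equivFin V v : ℕ) < t))).card
    with hf
  have hN : M < f (Fintype.card V) := by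
    have : A.filter (fun v => (Fintype.equivFin V v : ℕ) < Fintype.card V) = A :=
      Finset.filter_true_of_mem (fun v _ => (Fintype.equivFin V v).2)
    simp only [hf, this]
    omega
  have hex : ∃ t, M < f t := ⟨_, hN⟩
  have h0 : ¬ M < f 0 := by
    have : cl S (∅ : Finset V) = ∅ := by
      ext w; simp [mem_cl]
    simp [hf, this]
  obtain ⟨t, ht⟩ : ∃ t, Nat.find hex = t + 1 := by
    refine Nat.exists_eq_succ_of_ne_zero ?_
    intro h
    exact h0 (h ▸ Nat.find_spec hex)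
  have h1 : M < f (t + 1) := ht ▸ Nat.find_spec hex
  have h2 : ¬ M < f t := Nat.find_min hex (by omega)
  have h3 : Nat.find hex ≤ Fintype.card V := Nat.find_min' hex hN
  refine ⟨t + 1, Finset.mem_range.2 (by omega), h1, ?_⟩
  have h4 : A.filter (fun v => (Fintype.equivFin V v : ℕ) < t + 1) ⊆
      A.filter (fun v => (Fintype.equivFin V v : ℕ) < t) ∪
        A.filter (fun v => (Fintype.equivFin V v : ℕ) = t) := by
    intro v hv
    rw [Finset.mem_filter] at hv
    rw [Finset.mem_union, Finset.mem_filter, Finset.mem_filter]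
    by_cases h : (Fintype.equivFin V v : ℕ) = t
    · exact Or.inr ⟨hv.1, h⟩
    · exact Or.inl ⟨hv.1, by omega⟩
  have h5 : (cl S (A.filter (fun v => (Fintype.equivFin V v : ℕ) = t))).card ≤ M := by
    rcases Finset.eq_empty_or_nonempty
      (A.filter (fun v => (Fintype.equivFin V v : ℕ) = t)) with h | ⟨v, hv⟩
    · have : cl S (∅ : Finset V) = ∅ := by
        ext w; simp [mem_cl]
      rw [h, this]; simp
    · have hv' := Finset.mem_filter.1 hv
      refine le_trans (Finset.card_le_card (cl_mono (Finset.Subset.refl _) ?_))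
        (hsmall v hv'.1).le
      intro w hw
      have hw' := Finset.mem_filter.1 hw
      rw [Finset.mem_singleton]
      exact (Fintype.equivFin V).injective (Fin.ext (hw'.2.trans hv'.2.symm))
  have h6 := (Finset.card_le_card ((cl_mono (Finset.Subset.refl S) h4).trans
    (cl_union S _ _))).trans (Finset.card_union_le _ _)
  simp only [hf] at h2
  omega

lemma ex_all_small (M m : ℕ) {p z q q₂ : ℝ} (hp0 : 0 ≤ p) (hp1 : p < 1) (hz : 1 ≤ z)
    (hq0 : 0 ≤ q) (hq1 : q ≤ 1) (hq0' : 0 ≤ q₂) (hq1' : q₂ ≤ 1) (A : Finset V)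
    (hm : m + 4 * M + A.card + 1 ≤ Fintype.card V)
    (hcond : Real.exp (-(p * m * (1 - q))) ≤ q)
    (hcond' : z * Real.exp (-(p * m * (1 - q₂))) ≤ q₂) :
    Ex p (out A) (fun S => ind (∀ v ∈ A, csz S v < M)) ≤
      q ^ A.card + (Fintype.card V + 1) / z ^ M := by
  have hz0 : 0 < z := by linarith
  have hzM : 0 < z ^ M := pow_pos hz0 _
  have h1 := ex_cl_upper (z := 1) hp0 hp1 zero_le_one hq0 hq1 (2 * M) m
    (Fintype.card V - A.card - 1) (by omega) (by simpa using hcond) (out A) (out_deg A) A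
  have h2 : ∀ B : Finset V, Ex p (out A) (fun S => if (cl S B).card ≤ 2 * M then
      z ^ (cl S B).card else 0) ≤ 1 := fun B =>
    (ex_cl_upper hp0 hp1 hz0.le hq0' hq1' (2 * M) m
      (Fintype.card V - A.card - 1) (by omega) hcond' (out A) (out_deg A) B).trans
      (pow_le_one₀ hq0' hq1')
  set seg : ℕ → Finset V := fun t => A.filter (fun v => (Fintype.equivFin V v : ℕ) < t)
  calc Ex p (out A) (fun S => ind (∀ v ∈ A, csz S v < M))
      ≤ Ex p (out A) (fun S => (if (cl S A).card ≤ 2 * M then (1 : ℝ) ^ (cl S A).card else 0) +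
          ∑ t ∈ range (Fintype.card V + 1), (z ^ M)⁻¹ *
            (if (cl S (seg t)).card ≤ 2 * M then z ^ (cl S (seg t)).card else 0)) := by
        refine Ex_mono hp0 hp1.le (fun S _ => ?_)
        have hnn : ∀ t ∈ range (Fintype.card V + 1), 0 ≤ (z ^ M)⁻¹ *
            (if (cl S (seg t)).card ≤ 2 * M then z ^ (cl S (seg t)).card else 0) := by
          intro t _
          refine mul_nonneg (by positivity) ?_
          split_ifs
          · positivity
          · exact le_rfl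
        have hsum := Finset.sum_nonneg hnn
        refine ind_le ?_ (fun hs => ?_)
        · refine add_nonneg ?_ hsum
          split_ifs
          · positivity
          · exact le_rfl
        · split_ifs with h
          · rw [one_pow]; linarith
          · obtain ⟨t, ht, h3, h4⟩ := exists_segment S A M hs (not_le.1 h)
            rw [zero_add]
            refine le_trans ?_ (Finset.single_le_sum hnn ht)
            rw [if_pos h4, ← div_eq_inv_mul, le_div_iff₀ hzM, one_mul]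
            exact pow_le_pow_right₀ hz h3.le
    _ ≤ q ^ A.card + ∑ t ∈ range (Fintype.card V + 1), (z ^ M)⁻¹ := by
        rw [Ex_add, Ex_sum]
        refine add_le_add h1 (Finset.sum_le_sum (fun t _ => ?_))
        rw [Ex_mul]
        exact mul_le_of_le_one_right (by positivity) (h2 _)
    _ = _ := by
        rw [Finset.sum_const, Finset.card_range, nsmul_eq_mul, div_eq_mul_inv]
        push_cast; ring

lemma path_all_small (k M m : ℕ) {p p' z q q₂ : ℝ} (hp0 : 0 ≤ p) (hp1 : p < 1) (hp0' : 0 ≤ p')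
    (hp1' : p' ≤ 1) (hz : 1 ≤ z)
    (hq0 : 0 ≤ q) (hq1 : q ≤ 1) (hq0' : 0 ≤ q₂) (hq1' : q₂ ≤ 1)
    (hm : m + 4 * M + k + 2 ≤ Fintype.card V)
    (hcond : Real.exp (-(p * m * (1 - q))) ≤ q)
    (hcond' : z * Real.exp (-(p * m * (1 - q₂))) ≤ q₂) :
    (mu (Sym2 V)).real {U | ∃ P, PathIn (lev U p') P k ∧ ∀ j ≤ k, csz (lev U p) (P j) < M} ≤
      (Fintype.card V : ℝ) ^ (k + 1) *
        (p' ^ k * (q ^ (k + 1) + (Fintype.card V + 1) / z ^ M)) := by
  refine le_trans (mreal_mono ?_) (path_bound k hp0 hp1.le hp0' hp1'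
    (fun A S => ∀ v ∈ A, csz S v < M) ?_ (by positivity))
  · rintro U ⟨P, h1, h2⟩
    refine ⟨P, h1, ?_⟩
    intro v hv
    obtain ⟨j, hj, rfl⟩ := mem_vs.1 hv
    exact lt_of_le_of_lt (csz_mono Finset.inter_subset_left _) (h2 j hj)
  · intro A hA
    have := ex_all_small M m hp0 hp1 hz hq0 hq1 hq0' hq1' A (by omega) hcond hcond'
    rwa [hA] at this

lemma none_large (a M m : ℕ) {p z q q₂ : ℝ} (hp0 : 0 ≤ p) (hp1 : p < 1) (hz : 1 ≤ z)
    (hq0 : 0 ≤ q) (hq1 : q ≤ 1) (hq0' : 0 ≤ q₂) (hq1' : q₂ ≤ 1)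
    (hm : m + 4 * M + a + 1 ≤ Fintype.card V)
    (hcond : Real.exp (-(p * m * (1 - q))) ≤ q)
    (hcond' : z * Real.exp (-(p * m * (1 - q₂))) ≤ q₂) :
    (mu (Sym2 V)).real {U | ∀ v, csz (lev U p) v < M} ≤
      q ^ a + (Fintype.card V + 1) / z ^ M := by
  obtain ⟨A, _, hA⟩ := Finset.exists_subset_card_eq (s := (univ : Finset V)) (n := a)
    (by rw [Finset.card_univ]; omega)
  have h1 := ex_all_small M m hp0 hp1 hz hq0 hq1 hq0' hq1' A (by omega) hcond hcond'
  rw [← law0 hp0 hp1.le (out A) (fun S => ∀ v ∈ A, csz S v < M), hA] at h1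
  refine le_trans (mreal_mono ?_) h1
  intro U hU v _
  exact lt_of_le_of_lt (csz_mono Finset.inter_subset_left _) (hU v)

lemma no_middle (S τ m : ℕ) {p z q : ℝ} (hp0 : 0 ≤ p) (hp1 : p < 1) (hz : 1 ≤ z)
    (hq0 : 0 ≤ q) (hq1 : q ≤ 1) (hm : m + 2 * τ + 1 ≤ Fintype.card V)
    (hcond : z * Real.exp (-(p * m * (1 - q))) ≤ q) :
    (mu (Sym2 V)).real {U | ∃ v, S ≤ csz (lev U p) v ∧ csz (lev U p) v ≤ τ} ≤
      Fintype.card V / z ^ S := by
  have hz0 : 0 < z := by linarith
  have hzS : 0 < z ^ S := pow_pos hz0 _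
  have h0 : {U : Sym2 V → ℝ | ∃ v, S ≤ csz (lev U p) v ∧ csz (lev U p) v ≤ τ} =
      ⋃ v, {U | S ≤ csz (lev U p) v ∧ csz (lev U p) v ≤ τ} := by ext U; simp
  rw [h0]
  refine (measureReal_iUnion_fintype_le _).trans ?_
  refine (Finset.sum_le_card_nsmul _ _ (z ^ S)⁻¹ (fun v _ => ?_)).trans
    (le_of_eq (by simp [div_eq_mul_inv]))
  rw [law1 hp0 hp1.le (fun X => S ≤ csz X v ∧ csz X v ≤ τ)]
  have h1 := ex_cl_upper hp0 hp1 hz0.le hq0 hq1 τ m (Fintype.card V - 1) (by omega) hcond univ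
    (by
      intro c
      have : univ.filter (fun c' => c' ≠ c ∧ s(c, c') ∈ (univ : Finset (Sym2 V))) =
          univ.erase c := by ext; simp
      rw [this, Finset.card_erase_of_mem (Finset.mem_univ _), Finset.card_univ]) {v}
  rw [Finset.card_singleton, pow_one] at h1
  rw [← one_div, le_div_iff₀ hzS, mul_comm, ← Ex_mul]
  refine le_trans (Ex_mono hp0 hp1.le (fun X _ => ?_)) (h1.trans hq1)
  by_cases h : S ≤ csz X v ∧ csz X v ≤ τ
  · rw [ind_pos h, mul_one, if_pos (show (cl X {v}).card ≤ τ from h.2)]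
    exact pow_le_pow_right₀ hz h.1
  · rw [ind_neg h, mul_zero]
    split_ifs
    · positivity
    · exact le_rfl

lemma no_big_sub (S : ℕ) {p z q g : ℝ} (hp0 : 0 ≤ p) (hp1 : p ≤ 1) (hz : 1 ≤ z) (hg1 : 1 ≤ g)
    (hgm : g * (1 - p * q) = 1 - p) (hcond : z * g ^ Fintype.card V ≤ q) :
    (mu (Sym2 V)).real {U | ∃ v, S ≤ csz (lev U p) v} ≤ Fintype.card V * (q / z ^ S) := by
  have hz0 : 0 < z := by linarith
  have hzS : 0 < z ^ S := pow_pos hz0 _
  have h0 : {U : Sym2 V → ℝ | ∃ v, S ≤ csz (lev U p) v} =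
      ⋃ v, {U | S ≤ csz (lev U p) v} := by ext U; simp
  rw [h0]
  refine (measureReal_iUnion_fintype_le _).trans ?_
  refine (Finset.sum_le_card_nsmul _ _ (q / z ^ S) (fun v _ => ?_)).trans (le_of_eq (by simp))
  rw [law1 hp0 hp1 (fun X => S ≤ csz X v)]
  have h1 := ex_cl_dom_upper hp0 hp1 hz0.le hg1 hgm hcond univ {v}
  rw [Finset.card_singleton, pow_one] at h1
  rw [le_div_iff₀ hzS, mul_comm, ← Ex_mul]
  refine le_trans (Ex_mono hp0 hp1 (fun X _ => ?_)) h1
  by_cases h : S ≤ csz X v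
  · rw [ind_pos h, mul_one]
    exact pow_le_pow_right₀ hz h
  · rw [ind_neg h, mul_zero]
    positivity

/-- the vertices in components of size at least `M` -/
noncomputable def big (X : Finset (Sym2 V)) (M : ℕ) : Finset V := univ.filter (fun v => M ≤ csz X v)

lemma mem_big {X : Finset (Sym2 V)} {M : ℕ} {v : V} : v ∈ big X M ↔ M ≤ csz X v := by simp [big]

lemma few_big (M : ℕ) {p z q g c : ℝ} (hp0 : 0 ≤ p) (hp1 : p ≤ 1) (hz : 0 ≤ z) (hz1 : z ≤ 1)
    (hg0 : 0 ≤ g) (hg1 : g ≤ 1) (hq0 : 0 ≤ q)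
    (hgm : g * (1 - p * q) = 1 - p) (hcond : q ≤ z * g ^ Fintype.card V)
    (hM : z ^ M ≤ 1 / 2) :
    c * (mu (Sym2 V)).real {U | c ≤ ((big (lev U p) M).card : ℝ)} ≤
      Fintype.card V * (2 * (1 - q)) := by
  have h1 := markov_count (mu (Sym2 V)) univ (fun v : V => {U | M ≤ csz (lev U p) v})
    (fun v => measurableSet_lev1 p (fun X => M ≤ csz X v)) c
  refine le_trans (le_of_eq ?_) (h1.trans ((Finset.sum_le_card_nsmul univ
    (fun v : V => (mu (Sym2 V)).real {U | M ≤ csz (lev U p) v}) (2 * (1 - q))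
    (fun v _ => ?_)).trans (le_of_eq (by simp))))
  · congr 2
    ext U
    simp only [Set.mem_ofPred_eq, big]
  rw [law1 hp0 hp1 (fun X => M ≤ csz X v)]
  have h2 := ex_cl_dom_lower hp0 hp1 hz hg0 hg1 hq0 hgm hcond univ {v}
  rw [Finset.card_singleton, pow_one] at h2
  have h3 : Ex p univ (fun X => z ^ (cl X {v}).card) ≤
      Ex p univ (fun X => 1 + (-(1 / 2)) * ind (M ≤ csz X v)) := by
    refine Ex_mono hp0 hp1 (fun X _ => ?_)
    by_cases h : M ≤ csz X v
    · rw [ind_pos h]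
      have := pow_le_pow_of_le_one hz hz1 h
      unfold csz at this
      linarith
    · rw [ind_neg h]
      have := pow_le_one₀ (n := (cl X {v}).card) hz hz1
      linarith
  rw [Ex_add, Ex_const, Ex_mul] at h3
  linarith

lemma path_ball_small (k l s : ℕ) {p θ lam : ℝ} (hp0 : 0 ≤ p) (hp1 : p ≤ 1) (hθ0 : 0 < θ)
    (hθ1 : θ ≤ 1) (hps : p * s ≤ 1) (hsn : s ≤ Fintype.card V)
    (hlam : lam ≤ p * ((Fintype.card V : ℝ) - s) * (1 - p * s))
    (φ ψ : ℕ → ℝ) (hφ0 : φ 0 = 1) (hφ : ∀ t, φ (t + 1) = Real.exp (-(lam * ψ t)))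
    (hψ : ∀ t, θ * φ t ≤ 1 - ψ t) (hψ0 : ∀ t, 0 ≤ ψ t) :
    (mu (Sym2 V)).real {U | ∃ P, PathIn (lev U p) P k ∧ (ball (lev U p) l (vs P k)).card < s} ≤
      (Fintype.card V : ℝ) ^ (k + 1) * (p ^ k * (φ l ^ (k + 1) / θ ^ s)) := by
  have hφpos : 0 ≤ φ l := by
    cases l with
    | zero => rw [hφ0]; norm_num
    | succ t => rw [hφ]; exact (Real.exp_pos _).le
  refine le_trans (mreal_mono ?_) (path_bound k hp0 hp1 hp0 hp1
    (fun A S => (ball S l A).card < s) ?_ (by positivity))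
  · rintro U ⟨P, h1, h2⟩
    exact ⟨P, h1, lt_of_le_of_lt (Finset.card_le_card
      (ball_mono Finset.inter_subset_left le_rfl (Finset.Subset.refl _))) h2⟩
  · intro A hA
    have h1 := ex_ball_le hp0 hp1 hθ0.le hθ1 s hps hsn hlam φ ψ hφ0 hφ hψ hψ0 l A A (out A)
      (Finset.Subset.refl _) (fun a _ c hc => mk_mem_out.2 (Or.inr hc))
      (fun c hc c' _ _ => mk_mem_out.2 (Or.inl hc))
    rw [hA] at h1
    have hθs : 0 < θ ^ s := pow_pos hθ0 _
    rw [le_div_iff₀ hθs, mul_comm, ← Ex_mul]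
    refine le_trans (Ex_mono hp0 hp1 (fun S _ => ?_)) h1
    rw [Finset.union_eq_right.2 (subset_ball S l A)]
    split_ifs with h
    · rw [ind_pos h, mul_one]
      exact pow_le_pow_of_le_one hθ0.le hθ1
        ((Finset.card_le_card Finset.sdiff_subset).trans h.le)
    · rw [ind_neg h, mul_zero]

lemma sprinkle (Γ : V → Finset (Sym2 V) → Finset V) (s : ℕ) {p p' : ℝ} (hp0 : 0 ≤ p)
    (hpp : p ≤ p') (hp1 : p' ≤ 1) :
    (mu (Sym2 V)).real {U | ∃ u v, s ≤ (Γ u (lev U p)).card ∧ s ≤ (Γ v (lev U p)).card ∧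
        Disjoint (Γ u (lev U p)) (Γ v (lev U p)) ∧
        ∀ a ∈ Γ u (lev U p), ∀ b ∈ Γ v (lev U p), p' < U s(a, b)} ≤
      (Fintype.card V : ℝ) ^ 2 * Real.exp (-((p' - p) * s ^ 2)) := by
  have hp1' : p ≤ 1 := hpp.trans hp1
  have hp0' : 0 ≤ p' := hp0.trans hpp
  have h0 : {U : Sym2 V → ℝ | ∃ u v, s ≤ (Γ u (lev U p)).card ∧ s ≤ (Γ v (lev U p)).card ∧
        Disjoint (Γ u (lev U p)) (Γ v (lev U p)) ∧
        ∀ a ∈ Γ u (lev U p), ∀ b ∈ Γ v (lev U p), p' < U s(a, b)} =
      ⋃ x : V × V, {U | s ≤ (Γ x.1 (lev U p)).card ∧ s ≤ (Γ x.2 (lev U p)).card ∧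
        Disjoint (Γ x.1 (lev U p)) (Γ x.2 (lev U p)) ∧
        ∀ a ∈ Γ x.1 (lev U p), ∀ b ∈ Γ x.2 (lev U p), p' < U s(a, b)} := by
    ext U; simp
  rw [h0]
  refine (measureReal_iUnion_fintype_le _).trans ?_
  refine (Finset.sum_le_card_nsmul _ _ (Real.exp (-((p' - p) * s ^ 2))) (fun x _ => ?_)).trans
    (le_of_eq (by simp [sq]))
  obtain ⟨u, v⟩ := x
  set I : Finset (Finset V × Finset V) :=
    univ.filter (fun y => s ≤ y.1.card ∧ s ≤ y.2.card ∧ Disjoint y.1 y.2) with hI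
  set Ev : ℝ → Finset V × Finset V → Set (Sym2 V → ℝ) := fun t y =>
    {U | (∀ e ∈ cross y.1 y.2, U e ∈ Set.Ioi t) ∧
      (Γ u (lev U p ∩ (cross y.1 y.2)ᶜ) = y.1 ∧ Γ v (lev U p ∩ (cross y.1 y.2)ᶜ) = y.2)} with hEv
  have hint : ∀ (U : Sym2 V → ℝ) (D : Finset (Sym2 V)), (∀ e ∈ D, U e ∈ Set.Ioi p) →
      lev U p ∩ Dᶜ = lev U p := by
    intro U D h
    rw [Finset.inter_eq_left]
    intro e he
    rw [Finset.mem_compl]
    intro hD
    exact absurd (mem_lev.1 he) (not_le.2 (h e hD))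
  have h1 : {U : Sym2 V → ℝ | s ≤ (Γ u (lev U p)).card ∧ s ≤ (Γ v (lev U p)).card ∧
        Disjoint (Γ u (lev U p)) (Γ v (lev U p)) ∧
        ∀ a ∈ Γ u (lev U p), ∀ b ∈ Γ v (lev U p), p' < U s(a, b)} ⊆ ⋃ y ∈ I, Ev p' y := by
    rintro U ⟨a1, a2, a3, a4⟩
    simp only [Set.mem_iUnion, exists_prop]
    have a5 : ∀ e ∈ cross (Γ u (lev U p)) (Γ v (lev U p)), U e ∈ Set.Ioi p' := by
      intro e he
      obtain ⟨a, ha, b, hb, rfl⟩ := mem_cross.1 he
      exact a4 a ha b hb
    refine ⟨(Γ u (lev U p), Γ v (lev U p)), by simp [hI, a1, a2, a3], a5, ?_⟩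
    rw [hint U _ (fun e he => lt_of_le_of_lt hpp (a5 e he))]
    exact ⟨rfl, rfl⟩
  have h2 : ∀ y ∈ I, (mu (Sym2 V)).real (Ev p' y) ≤
      Real.exp (-((p' - p) * s ^ 2)) * (mu (Sym2 V)).real (Ev p y) := by
    intro y hy
    simp only [hI, Finset.mem_filter, Finset.mem_univ, true_and] at hy
    have e1 := law (cross y.1 y.2) (cross y.1 y.2)ᶜ disjoint_compl_right (fun _ => Set.Ioi p')
      (fun _ => measurableSet_Ioi) hp0 hp1' (fun Y => Γ u Y = y.1 ∧ Γ v Y = y.2)
    have e2 := law (cross y.1 y.2) (cross y.1 y.2)ᶜ disjoint_compl_right (fun _ => Set.Ioi p)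
      (fun _ => measurableSet_Ioi) hp0 hp1' (fun Y => Γ u Y = y.1 ∧ Γ v Y = y.2)
    simp only [hEv]
    rw [e1, e2, Finset.prod_const, Finset.prod_const, unif_Ioi hp0' hp1, unif_Ioi hp0 hp1',
      ← mul_assoc]
    refine mul_le_mul_of_nonneg_right ?_ (Ex_nonneg hp0 hp1' (fun _ _ => ind_nonneg _))
    have e3 : 1 - p' ≤ Real.exp (-(p' - p)) * (1 - p) := by
      have := Real.add_one_le_exp (-(p' - p))
      nlinarith
    refine (pow_le_pow_left₀ (by linarith) e3 _).trans ?_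
    rw [mul_pow, ← Real.exp_nat_mul]
    refine mul_le_mul_of_nonneg_right (Real.exp_le_exp.2 ?_) (pow_nonneg (by linarith) _)
    rw [card_cross hy.2.2]
    have e4 : (s : ℝ) ^ 2 ≤ ((y.1.card * y.2.card : ℕ) : ℝ) := by
      rw [sq]; exact_mod_cast Nat.mul_le_mul hy.1 hy.2.1
    nlinarith
  refine (mreal_mono h1).trans ((measureReal_biUnion_finset_le _ _).trans
    ((Finset.sum_le_sum h2).trans ?_))
  rw [← Finset.mul_sum]
  refine mul_le_of_le_one_right (Real.exp_pos _).le ?_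
  rw [← measureReal_biUnion_finset]
  · exact measureReal_le_one
  · intro y _ y' _ hne
    rw [Function.onFun, Set.disjoint_left]
    rintro U ⟨a1, a2⟩ ⟨b1, b2⟩
    rw [hint U _ a1] at a2
    rw [hint U _ b1] at b2
    exact hne (Prod.ext (a2.1.symm.trans b2.1) (a2.2.symm.trans b2.2))
  · intro y _
    have : Ev p y = {U | (∀ e ∈ cross y.1 y.2, e ∉ lev U p) ∧
      (Γ u (lev U p ∩ (cross y.1 y.2)ᶜ) = y.1 ∧ Γ v (lev U p ∩ (cross y.1 y.2)ᶜ) = y.2)} := by
      ext U; simp [hEv, mem_lev]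
    rw [this]
    exact measurableSet_lev1 p (fun X => (∀ e ∈ cross y.1 y.2, e ∉ X) ∧
      (Γ u (X ∩ (cross y.1 y.2)ᶜ) = y.1 ∧ Γ v (X ∩ (cross y.1 y.2)ᶜ) = y.2))

lemma window_count (k h : ℕ) {a b : ℝ} (hab : a ≤ b) (hb0 : 0 ≤ b) (hb1 : b ≤ 1) :
    (mu (Sym2 V)).real {U | ∃ P, PathIn (lev U b) P k ∧
        h ≤ ((range k).filter (fun j => a < U (pe P j))).card} ≤
      (Fintype.card V : ℝ) ^ (k + 1) * (k.choose h * (b ^ (k - h) * (b - a) ^ h)) := by
  have hba : 0 ≤ b - a := by linarith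
  have h0 : {U : Sym2 V → ℝ | ∃ P, PathIn (lev U b) P k ∧
        h ≤ ((range k).filter (fun j => a < U (pe P j))).card} =
      ⋃ P, {U | PathIn (lev U b) P k ∧
        h ≤ ((range k).filter (fun j => a < U (pe P j))).card} := by ext U; simp
  rw [h0]
  refine seq_union _ k _ ?_ ?_
  · rintro P P' hPP U ⟨h1, h2⟩
    refine ⟨h1.congr hPP, h2.trans (le_of_eq ?_)⟩
    congr 1
    refine Finset.filter_congr (fun j hj => ?_)
    have := Finset.mem_range.1 hj
    unfold pe
    rw [hPP j (by omega), hPP (j + 1) (by omega)]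
  · intro P
    by_cases hP : PathIn univ P k
    · have hinj : Set.InjOn (pe P) (range k : Set ℕ) := fun i hi j hj hij =>
        hP.pe_inj (by simpa using hi) (by simpa using hj) hij
      have h2 : {U : Sym2 V → ℝ | PathIn (lev U b) P k ∧
          h ≤ ((range k).filter (fun j => a < U (pe P j))).card} ⊆
          ⋃ H ∈ (range k).powersetCard h, {U | ∀ e ∈ (range k).image (pe P),
            U e ∈ (if e ∈ H.image (pe P) then Set.Ioc a b else Set.Iic b)} := by
        rintro U ⟨h1, h2⟩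
        obtain ⟨H, hH, hc⟩ := Finset.exists_subset_card_eq h2
        simp only [Set.mem_iUnion, exists_prop]
        refine ⟨H, Finset.mem_powersetCard.2 ⟨hH.trans (Finset.filter_subset _ _), hc⟩, ?_⟩
        intro e he
        obtain ⟨j, hj, rfl⟩ := Finset.mem_image.1 he
        have hb := mem_lev.1 (h1.2 j (Finset.mem_range.1 hj))
        split_ifs with h3
        · obtain ⟨i, hi, h4⟩ := Finset.mem_image.1 h3
          exact ⟨h4 ▸ (Finset.mem_filter.1 (hH hi)).2, hb⟩
        · exact hb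
      refine (mreal_mono h2).trans ((measureReal_biUnion_finset_le _ _).trans ?_)
      refine (Finset.sum_le_card_nsmul _ _ (b ^ (k - h) * (b - a) ^ h) (fun H hH => ?_)).trans
        (le_of_eq (by simp))
      obtain ⟨hH1, hH2⟩ := Finset.mem_powersetCard.1 hH
      rw [law_box _ (fun e => if e ∈ H.image (pe P) then Set.Ioc a b else Set.Iic b)
        (fun e => by split_ifs; exacts [measurableSet_Ioc, measurableSet_Iic]),
        Finset.prod_image hinj]
      have h3 : ∀ j ∈ range k, unif.real (if pe P j ∈ H.image (pe P) then Set.Ioc a b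
          else Set.Iic b) ≤ (if j ∈ H then b - a else b) := by
        intro j hj
        by_cases hjH : j ∈ H
        · rw [if_pos (Finset.mem_image_of_mem _ hjH), if_pos hjH]
          exact unif_Ioc hab
        · rw [if_neg, if_neg hjH, unif_Iic hb0 hb1]
          intro h4
          obtain ⟨i, hi, h5⟩ := Finset.mem_image.1 h4
          exact hjH (hinj (by simpa using hH1 hi) (by simpa using hj) h5 ▸ hi)
      refine (Finset.prod_le_prod (fun _ _ => measureReal_nonneg) h3).trans (le_of_eq ?_)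
      rw [Finset.prod_ite, Finset.prod_const, Finset.prod_const, mul_comm]
      have e1 : (range k).filter (fun j => j ∈ H) = H := by
        ext j; simp only [Finset.mem_filter]
        exact ⟨fun x => x.2, fun x => ⟨hH1 x, x⟩⟩
      have e2 : ((range k).filter (fun j => ¬ j ∈ H)).card = k - h := by
        have := Finset.card_filter_add_card_filter_not (s := range k) (fun j => j ∈ H)
        rw [e1, Finset.card_range] at this
        omega
      rw [e1, e2, hH2]
    · have : {U : Sym2 V → ℝ | PathIn (lev U b) P k ∧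
          h ≤ ((range k).filter (fun j => a < U (pe P j))).card} = ∅ := by
        ext U
        simp only [Set.mem_ofPred_eq, Set.mem_empty_iff_false, iff_false, not_and]
        intro h
        exact absurd (h.mono (Finset.subset_univ _)) hP
      rw [this, measureReal_empty]
      positivity

lemma degree_bound (h : ℕ) {p : ℝ} (hp0 : 0 ≤ p) (hp1 : p ≤ 1) :
    (mu (Sym2 V)).real {U | ∃ v, h ≤ (univ.filter (fun w => U s(w, v) ≤ p)).card} ≤
      Fintype.card V * ((Fintype.card V).choose h * p ^ h) := by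
  have h0 : {U : Sym2 V → ℝ | ∃ v, h ≤ (univ.filter (fun w => U s(w, v) ≤ p)).card} ⊆
      ⋃ v, ⋃ H ∈ (univ : Finset V).powersetCard h,
        {U | ∀ e ∈ H.image (fun w => s(w, v)), U e ∈ Set.Iic p} := by
    rintro U ⟨v, hv⟩
    obtain ⟨H, hH, hc⟩ := Finset.exists_subset_card_eq hv
    simp only [Set.mem_iUnion, exists_prop]
    refine ⟨v, H, Finset.mem_powersetCard.2 ⟨Finset.subset_univ _, hc⟩, ?_⟩
    intro e he
    obtain ⟨w, hw, rfl⟩ := Finset.mem_image.1 he
    exact (Finset.mem_filter.1 (hH hw)).2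
  refine (mreal_mono h0).trans ((measureReal_iUnion_fintype_le _).trans ?_)
  refine (Finset.sum_le_card_nsmul _ _ ((Fintype.card V).choose h * p ^ h)
    (fun v _ => ?_)).trans (le_of_eq (by simp))
  refine (measureReal_biUnion_finset_le _ _).trans ?_
  refine (Finset.sum_le_card_nsmul _ _ (p ^ h) (fun H hH => ?_)).trans (le_of_eq (by simp))
  rw [law_box _ (fun _ => Set.Iic p) (fun _ => measurableSet_Iic), Finset.prod_const,
    unif_Iic hp0 hp1, card_star, (Finset.mem_powersetCard.1 hH).2]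

lemma close_pairs (D : ℕ) {p c : ℝ} (hp0 : 0 ≤ p) (hp1 : p ≤ 1) :
    c * (mu (Sym2 V)).real {U | c ≤
        ((univ.filter (fun x : V × V => Wd (lev U p) D x.1 x.2)).card : ℝ)} ≤
      ∑ j ∈ range (D + 1), (Fintype.card V : ℝ) ^ (j + 1) * p ^ j := by
  have h1 := markov_count (mu (Sym2 V)) univ (fun x : V × V => {U | Wd (lev U p) D x.1 x.2})
    (fun x => measurableSet_lev1 p (fun X => Wd X D x.1 x.2)) c
  refine le_trans h1 ?_
  have h2 : ∀ x : V × V, (mu (Sym2 V)).real {U | Wd (lev U p) D x.1 x.2} ≤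
      ∑ j ∈ range (D + 1), ∑ Q : Fin (j + 1) → V,
        (if (Q 0, Q (Fin.last j)) = x then p ^ j else 0) := by
    intro x
    have h3 : {U : Sym2 V → ℝ | Wd (lev U p) D x.1 x.2} ⊆ ⋃ j ∈ range (D + 1),
        ⋃ Q : Fin (j + 1) → V, {U | (Q 0, Q (Fin.last j)) = x ∧
          PathIn (lev U p) (fun i => Q ⟨min i j, by omega⟩) j} := by
      intro U hU
      obtain ⟨j, hj, P, a1, a2, a3⟩ := Wd.exists_path hU
      simp only [Set.mem_iUnion, exists_prop]
      refine ⟨j, Finset.mem_range.2 (by omega), fun i => P i, ?_, a1.congr ?_⟩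
      · simp [a2, a3]
      · intro i hi
        simp [min_eq_left hi]
    refine (mreal_mono h3).trans ((measureReal_biUnion_finset_le _ _).trans
      (Finset.sum_le_sum (fun j _ => ?_)))
    refine (measureReal_iUnion_fintype_le _).trans (Finset.sum_le_sum (fun Q _ => ?_))
    split_ifs with hQ
    · set P : ℕ → V := fun i => Q ⟨min i j, by omega⟩
      by_cases hP : PathIn univ P j
      · have h4 : {U : Sym2 V → ℝ | (Q 0, Q (Fin.last j)) = x ∧ PathIn (lev U p) P j} ⊆
            {U | ∀ e ∈ (range j).image (pe P), U e ∈ Set.Iic p} := by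
          intro U hU e he
          obtain ⟨i, hi, rfl⟩ := Finset.mem_image.1 he
          exact mem_lev.1 (hU.2.2 i (Finset.mem_range.1 hi))
        refine (mreal_mono h4).trans (le_of_eq ?_)
        rw [law_box _ (fun _ => Set.Iic p) (fun _ => measurableSet_Iic), Finset.prod_const,
          unif_Iic hp0 hp1, Finset.card_image_of_injOn, Finset.card_range]
        intro i hi i' hi' h
        exact hP.pe_inj (by simpa using hi) (by simpa using hi') h
      · have : {U : Sym2 V → ℝ | (Q 0, Q (Fin.last j)) = x ∧ PathIn (lev U p) P j} = ∅ := by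
          ext U
          simp only [Set.mem_ofPred_eq, Set.mem_empty_iff_false, iff_false, not_and]
          intro _ h
          exact absurd (h.mono (Finset.subset_univ _)) hP
        rw [this, measureReal_empty]
        positivity
    · simp [hQ]
  refine (Finset.sum_le_sum (fun x _ => h2 x)).trans (le_of_eq ?_)
  rw [Finset.sum_comm]
  refine Finset.sum_congr rfl (fun j _ => ?_)
  rw [Finset.sum_comm]
  simp

end Pool.Agent.Lib.MP_1c11af_pr
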