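import Mathlib

/-!
Graphs given by finite edge sets: reachability, spanning trees, paths.
-/

namespace Pool.Agent.Lib.MP_1c11af_pr

open Finset
open scoped Classical

set_option linter.unusedSectionVars false

variable {V : Type*} [DecidableEq V]

/-- the simple graph of a finite set of unordered pairs -/
def gr (S : Finset (Sym2 V)) : SimpleGraph V := SimpleGraph.fromEdgeSet (S : Set (Sym2 V))

/-- reachability using the pairs of `S` -/
def Rc (S : Finset (Sym2 V)) (a b : V) : Prop := (gr S).Reachable a b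

omit [DecidableEq V] in
lemma gr_adj {S : Finset (Sym2 V)} {a b : V} : (gr S).Adj a b ↔ s(a, b) ∈ S ∧ a ≠ b := by
  simp [gr, SimpleGraph.fromEdgeSet_adj]

omit [DecidableEq V] in
lemma gr_mono {S S' : Finset (Sym2 V)} (h : S ⊆ S') : gr S ≤ gr S' := by
  intro a b hab
  rw [gr_adj] at hab ⊢
  exact ⟨h hab.1, hab.2⟩

omit [DecidableEq V] in
lemma Rc.refl (S : Finset (Sym2 V)) (a : V) : Rc S a a := SimpleGraph.Reachable.refl a

omit [DecidableEq V] in
lemma Rc.symm {S : Finset (Sym2 V)} {a b : V} (h : Rc S a b) : Rc S b a :=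
  SimpleGraph.Reachable.symm h

omit [DecidableEq V] in
lemma Rc.trans {S : Finset (Sym2 V)} {a b c : V} (h : Rc S a b) (h' : Rc S b c) : Rc S a c :=
  SimpleGraph.Reachable.trans h h'

omit [DecidableEq V] in
lemma Rc.mono {S S' : Finset (Sym2 V)} {a b : V} (hS : S ⊆ S') (h : Rc S a b) : Rc S' a b :=
  SimpleGraph.Reachable.mono (gr_mono hS) h

omit [DecidableEq V] in
lemma Rc.of_mem {S : Finset (Sym2 V)} {a b : V} (h : s(a, b) ∈ S) : Rc S a b := by
  by_cases hab : a = b
  · subst hab; exact Rc.refl _ _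
  · exact SimpleGraph.Adj.reachable (gr_adj.2 ⟨h, hab⟩)

omit [DecidableEq V] in
lemma Rc.induct {S : Finset (Sym2 V)} {a b : V} (h : Rc S a b) (Q : V → Prop) (ha : Q a)
    (hstep : ∀ c d, Q c → s(c, d) ∈ S → Q d) : Q b := by
  obtain ⟨p⟩ := h
  induction p with
  | nil => exact ha
  | cons hadj _ ih => exact ih (hstep _ _ ha (gr_adj.1 hadj).1)

lemma rc_insert {S : Finset (Sym2 V)} {a b c d : V} :
    Rc (insert s(c, d) S) a b ↔
      Rc S a b ∨ (Rc S a c ∧ Rc S d b) ∨ (Rc S a d ∧ Rc S c b) := by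
  constructor
  · intro h
    refine h.induct (fun w => Rc S a w ∨ (Rc S a c ∧ Rc S d w) ∨ (Rc S a d ∧ Rc S c w))
      (Or.inl (Rc.refl _ _)) ?_
    intro x y hx hxy
    rw [Finset.mem_insert] at hxy
    rcases hxy with hxy | hxy
    · rcases Sym2.eq_iff.1 hxy with ⟨rfl, rfl⟩ | ⟨rfl, rfl⟩
      · rcases hx with hx | ⟨h1, _⟩ | ⟨h1, _⟩
        · exact Or.inr (Or.inl ⟨hx, Rc.refl _ _⟩)
        · exact Or.inr (Or.inl ⟨h1, Rc.refl _ _⟩)
        · exact Or.inl h1
      · rcases hx with hx | ⟨h1, _⟩ | ⟨h1, _⟩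
        · exact Or.inr (Or.inr ⟨hx, Rc.refl _ _⟩)
        · exact Or.inl h1
        · exact Or.inr (Or.inr ⟨h1, Rc.refl _ _⟩)
    · have hxy' := Rc.of_mem hxy
      rcases hx with hx | ⟨h1, h2⟩ | ⟨h1, h2⟩
      · exact Or.inl (hx.trans hxy')
      · exact Or.inr (Or.inl ⟨h1, h2.trans hxy'⟩)
      · exact Or.inr (Or.inr ⟨h1, h2.trans hxy'⟩)
  · have hsub : S ⊆ insert s(c, d) S := Finset.subset_insert _ _
    have hcd : Rc (insert s(c, d) S) c d := Rc.of_mem (Finset.mem_insert_self _ _)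
    rintro (h | ⟨h1, h2⟩ | ⟨h1, h2⟩)
    · exact h.mono hsub
    · exact ((h1.mono hsub).trans hcd).trans (h2.mono hsub)
    · exact ((h1.mono hsub).trans hcd.symm).trans (h2.mono hsub)

/-- decomposition of a connection along one pair -/
lemma rc_erase_cases {S : Finset (Sym2 V)} {a b : V} (c d : V) (h : Rc S a b) :
    Rc (S.erase s(c, d)) a b ∨
      (s(c, d) ∈ S ∧ ((Rc (S.erase s(c, d)) a c ∧ Rc (S.erase s(c, d)) d b) ∨
        (Rc (S.erase s(c, d)) a d ∧ Rc (S.erase s(c, d)) c b))) := by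
  by_cases hm : s(c, d) ∈ S
  · have : S = insert s(c, d) (S.erase s(c, d)) := (Finset.insert_erase hm).symm
    rw [this, rc_insert] at h
    rcases h with h | h | h
    · exact Or.inl h
    · exact Or.inr ⟨hm, Or.inl h⟩
    · exact Or.inr ⟨hm, Or.inr h⟩
  · rw [Finset.erase_eq_of_notMem hm]; exact Or.inl h

/-- if a connection needs the pair `s(c,d)` then the start is connected to `c` -/
lemma rc_of_not_erase {S : Finset (Sym2 V)} {a b c d : V} (h : Rc S a b)
    (hn : ¬ Rc (S.erase s(c, d)) a b) : Rc S a c := by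
  rcases rc_erase_cases c d h with h1 | ⟨hm, ⟨h1, _⟩ | ⟨h1, _⟩⟩
  · exact absurd h1 hn
  · exact h1.mono (Finset.erase_subset _ _)
  · exact (h1.mono (Finset.erase_subset _ _)).trans (Rc.of_mem hm).symm

lemma mem_of_not_erase {S : Finset (Sym2 V)} {a b : V} {e : Sym2 V} (h : Rc S a b)
    (hn : ¬ Rc (S.erase e) a b) : e ∈ S := by
  by_contra hm
  rw [Finset.erase_eq_of_notMem hm] at hn
  exact hn h

lemma rc_insert_far {S : Finset (Sym2 V)} {u w c d : V} (hc : ¬ Rc S u c) (hd : ¬ Rc S u d)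
    (h : Rc (insert s(c, d) S) u w) : Rc S u w := by
  rcases rc_insert.1 h with h | ⟨h, _⟩ | ⟨h, _⟩
  · exact h
  · exact absurd h hc
  · exact absurd h hd

/-- replacing the pair `s(z,y)` by `s(x,y)` does not change reachability when `x` and `z`
are connected without it -/
lemma rc_swap_iff {X : Finset (Sym2 V)} {x y z : V} (hm : s(z, y) ∈ X)
    (hxz : Rc (X.erase s(z, y)) x z) (a b : V) :
    Rc (insert s(x, y) (X.erase s(z, y))) a b ↔ Rc X a b := by
  conv_rhs => rw [← Finset.insert_erase hm]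
  rw [rc_insert, rc_insert]
  constructor
  · rintro (h | ⟨h1, h2⟩ | ⟨h1, h2⟩)
    · exact Or.inl h
    · exact Or.inr (Or.inl ⟨h1.trans hxz, h2⟩)
    · exact Or.inr (Or.inr ⟨h1, hxz.symm.trans h2⟩)
  · rintro (h | ⟨h1, h2⟩ | ⟨h1, h2⟩)
    · exact Or.inl h
    · exact Or.inr (Or.inl ⟨h1.trans hxz.symm, h2⟩)
    · exact Or.inr (Or.inr ⟨h1, hxz.trans h2⟩)

section Tree

variable [Fintype V]

/-- `S` is the edge set of a spanning tree -/
def IsT (S : Finset (Sym2 V)) : Prop := (∀ a b, Rc S a b) ∧ S.card + 1 = Fintype.card V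

omit [DecidableEq V] in
lemma card_le_of_conn {S : Finset (Sym2 V)} (h : ∀ a b, Rc S a b) :
    Fintype.card V ≤ S.card + 1 := by
  rcases isEmpty_or_nonempty V with hV | hV
  · simp
  have hc : (gr S).Connected := ⟨h⟩
  have h1 := hc.card_vert_le_card_edgeSet_add_one
  rw [Nat.card_eq_fintype_card] at h1
  have h2 : Nat.card (gr S).edgeSet ≤ S.card := by
    have hsub : (gr S).edgeSet ⊆ (S : Set (Sym2 V)) := by
      rw [gr, SimpleGraph.edgeSet_fromEdgeSet]; exact Set.sdiff_subset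
    have := Nat.card_mono (S.finite_toSet) hsub
    simpa using this
  omega

lemma IsT.bridge {S : Finset (Sym2 V)} (hS : IsT S) {c d : V} (hm : s(c, d) ∈ S) :
    ¬ Rc (S.erase s(c, d)) c d := by
  intro hcd
  have hconn : ∀ a b, Rc (S.erase s(c, d)) a b := by
    intro a b
    rcases rc_erase_cases c d (hS.1 a b) with h | ⟨_, ⟨h1, h2⟩ | ⟨h1, h2⟩⟩
    · exact h
    · exact (h1.trans hcd).trans h2
    · exact (h1.trans hcd.symm).trans h2
  have h1 := card_le_of_conn hconn
  have h2 := Finset.card_erase_add_one hm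
  have h3 := hS.2
  omega

lemma IsT.ne {S : Finset (Sym2 V)} (hS : IsT S) {c d : V} (hm : s(c, d) ∈ S) : c ≠ d := by
  rintro rfl
  exact hS.bridge hm (Rc.refl _ _)

lemma IsT.side {S : Finset (Sym2 V)} (hS : IsT S) (c d w : V) :
    Rc (S.erase s(c, d)) w c ∨ Rc (S.erase s(c, d)) w d := by
  rcases rc_erase_cases c d (hS.1 w c) with h | ⟨_, ⟨h1, _⟩ | ⟨h1, _⟩⟩
  · exact Or.inl h
  · exact Or.inl h1
  · exact Or.inr h1

lemma notMem_of_not_rc {S : Finset (Sym2 V)} {c d : V} (h : ¬ Rc S c d) : s(c, d) ∉ S :=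
  fun hm => h (Rc.of_mem hm)

/-- the exchange property -/
lemma IsT.exchange {S : Finset (Sym2 V)} (hS : IsT S) {f : Sym2 V} (hf : f ∈ S) {c d : V}
    (hcd : ¬ Rc (S.erase f) c d) : IsT (insert s(c, d) (S.erase f)) := by
  refine ⟨?_, ?_⟩
  · induction f using Sym2.ind with
    | _ x y =>
      have key : ∀ w, Rc (S.erase s(x, y)) w c ∨ Rc (S.erase s(x, y)) w d := by
        intro w
        rcases hS.side x y w with hw | hw <;> rcases hS.side x y c with hc | hc <;>
          rcases hS.side x y d with hd | hd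
        · exact Or.inl (hw.trans hc.symm)
        · exact Or.inl (hw.trans hc.symm)
        · exact Or.inr (hw.trans hd.symm)
        · exact absurd (hc.trans hd.symm) hcd
        · exact absurd (hc.trans hd.symm) hcd
        · exact Or.inr (hw.trans hd.symm)
        · exact Or.inl (hw.trans hc.symm)
        · exact Or.inl (hw.trans hc.symm)
      intro a b
      rw [rc_insert]
      rcases key a with ha | ha <;> rcases key b with hb | hb
      · exact Or.inl (ha.trans hb.symm)
      · exact Or.inr (Or.inl ⟨ha, hb.symm⟩)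
      · exact Or.inr (Or.inr ⟨ha, hb.symm⟩)
      · exact Or.inl (ha.trans hb.symm)
  · rw [Finset.card_insert_of_notMem (notMem_of_not_rc hcd), Finset.card_erase_add_one hf]
    exact hS.2

/-- two vertices of a tree are joined by the edges that separate them -/
lemma IsT.rc_sep {S : Finset (Sym2 V)} (hS : IsT S) (a b : V) :
    Rc (S.filter (fun e => ¬ Rc (S.erase e) a b)) a b := by
  have key : ∀ m : ℕ, ∀ S' : Finset (Sym2 V), S'.card = m → S' ⊆ S → Rc S' a b →
      Rc (S.filter (fun e => ¬ Rc (S.erase e) a b)) a b := by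
    intro m
    induction m using Nat.strong_induction_on with
    | _ m ih =>
      intro S' hm hsub hab
      by_cases hex : ∃ e ∈ S', Rc (S'.erase e) a b
      · obtain ⟨e, he, hr⟩ := hex
        refine ih _ ?_ (S'.erase e) rfl ((Finset.erase_subset _ _).trans hsub) hr
        have := Finset.card_erase_add_one he
        omega
      · push Not at hex
        refine hab.mono ?_
        intro e he
        rw [Finset.mem_filter]
        refine ⟨hsub he, ?_⟩
        induction e using Sym2.ind with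
        | _ c d =>
          intro hr
          have hmono : S'.erase s(c, d) ⊆ S.erase s(c, d) := Finset.erase_subset_erase _ hsub
          rcases rc_erase_cases c d hab with h | ⟨_, ⟨h1, h2⟩ | ⟨h1, h2⟩⟩
          · exact hex _ he h
          · exact hS.bridge (hsub he)
              (((h1.mono hmono).symm.trans hr).trans (h2.mono hmono).symm)
          · exact hS.bridge (hsub he)
              (((h2.mono hmono).trans hr.symm).trans (h1.mono hmono))
  exact key _ S rfl (Finset.Subset.refl _) (hS.1 a b)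

/-- if every separating edge lies in `X`, the two vertices are joined inside `X` -/
lemma IsT.rc_of_sep {S X : Finset (Sym2 V)} (hS : IsT S) {a b : V}
    (h : ∀ e ∈ S, ¬ Rc (S.erase e) a b → e ∈ X) : Rc X a b := by
  refine (hS.rc_sep a b).mono ?_
  intro e he
  rw [Finset.mem_filter] at he
  exact h e he.1 he.2

lemma IsT.rc_erase_two {S : Finset (Sym2 V)} (hS : IsT S) {a b : V} {e₁ e₂ : Sym2 V}
    (h₁ : Rc (S.erase e₁) a b) (h₂ : Rc (S.erase e₂) a b) : Rc ((S.erase e₁).erase e₂) a b := by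
  refine hS.rc_of_sep ?_
  intro e he hn
  rw [Finset.mem_erase, Finset.mem_erase]
  refine ⟨?_, ?_, he⟩
  · rintro rfl; exact hn h₂
  · rintro rfl; exact hn h₁

end Tree

/-- the `j`-th step of a sequence of vertices -/
def pe (P : ℕ → V) (j : ℕ) : Sym2 V := s(P j, P (j + 1))

/-- `P 0, ..., P k` is a path with `k` edges in `S` -/
def PathIn (S : Finset (Sym2 V)) (P : ℕ → V) (k : ℕ) : Prop :=
  (∀ i ≤ k, ∀ j ≤ k, P i = P j → i = j) ∧ ∀ j < k, pe P j ∈ S

omit [DecidableEq V] in
lemma PathIn.mono {S S' : Finset (Sym2 V)} {P : ℕ → V} {k : ℕ} (h : PathIn S P k)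
    (hS : S ⊆ S') : PathIn S' P k :=
  ⟨h.1, fun j hj => hS (h.2 j hj)⟩

omit [DecidableEq V] in
lemma PathIn.shift {S S' : Finset (Sym2 V)} {P : ℕ → V} {k : ℕ} (h : PathIn S P k) (i m : ℕ)
    (him : i + m ≤ k) (hS : ∀ j < m, pe P (i + j) ∈ S') : PathIn S' (fun j => P (i + j)) m := by
  refine ⟨?_, ?_⟩
  · intro a ha b hb hab
    have := h.1 (i + a) (by omega) (i + b) (by omega) hab
    omega
  · intro j hj
    have := hS j hj
    simpa [pe, Nat.add_assoc] using this

omit [DecidableEq V] in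
lemma PathIn.sub {S : Finset (Sym2 V)} {P : ℕ → V} {k : ℕ} (h : PathIn S P k) (i m : ℕ)
    (him : i + m ≤ k) : PathIn S (fun j => P (i + j)) m :=
  h.shift i m him (fun j hj => h.2 _ (by omega))

omit [DecidableEq V] in
lemma PathIn.trunc {S : Finset (Sym2 V)} {P : ℕ → V} {k : ℕ} (h : PathIn S P k) (m : ℕ)
    (hm : m ≤ k) : PathIn S P m :=
  ⟨fun i hi j hj => h.1 i (by omega) j (by omega), fun j hj => h.2 j (by omega)⟩

omit [DecidableEq V] in
lemma PathIn.pe_inj {S : Finset (Sym2 V)} {P : ℕ → V} {k : ℕ} (h : PathIn S P k) {i j : ℕ}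
    (hi : i < k) (hj : j < k) (hij : pe P i = pe P j) : i = j := by
  rcases Sym2.eq_iff.1 hij with ⟨h1, _⟩ | ⟨h1, h2⟩
  · exact h.1 i (by omega) j (by omega) h1
  · have a1 := h.1 i (by omega) (j + 1) (by omega) h1
    have a2 := h.1 (i + 1) (by omega) j (by omega) h2
    omega

omit [DecidableEq V] in
lemma rc_of_steps {X : Finset (Sym2 V)} {P : ℕ → V} {i j : ℕ} (hij : i ≤ j)
    (h : ∀ l, i ≤ l → l < j → pe P l ∈ X) : Rc X (P i) (P j) := by
  induction j, hij using Nat.le_induction with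
  | base => exact Rc.refl _ _
  | succ j hij ih =>
    exact (ih (fun l h1 h2 => h l h1 (by omega))).trans (Rc.of_mem (h j hij (by omega)))

/-- along a path, one can avoid a step outside the range -/
lemma PathIn.rc_erase {S : Finset (Sym2 V)} {P : ℕ → V} {k : ℕ} (h : PathIn S P k)
    {i j l : ℕ} (hij : i ≤ j) (hj : j ≤ k) (hl : l < k) (hout : l < i ∨ j ≤ l) :
    Rc (S.erase (pe P l)) (P i) (P j) := by
  refine rc_of_steps hij ?_
  intro m h1 h2
  rw [Finset.mem_erase]
  refine ⟨fun he => ?_, h.2 m (by omega)⟩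
  have := h.pe_inj (by omega) hl he
  omega

/-- a step of a path in a tree separates the earlier from the later vertices -/
lemma PathIn.sep [Fintype V] {S : Finset (Sym2 V)} (hS : IsT S) {P : ℕ → V} {k : ℕ}
    (h : PathIn S P k) {i j l : ℕ} (hil : i ≤ l) (hlj : l < j) (hj : j ≤ k) :
    ¬ Rc (S.erase (pe P l)) (P i) (P j) := by
  intro hr
  have h1 : Rc (S.erase (pe P l)) (P i) (P l) :=
    h.rc_erase hil (by omega) (by omega) (Or.inr le_rfl)
  have h2 : Rc (S.erase (pe P l)) (P (l + 1)) (P j) :=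
    h.rc_erase (by omega) hj (by omega) (Or.inl (by omega))
  exact hS.bridge (h.2 l (by omega)) ((h1.symm.trans hr).trans h2.symm)

/-- an edge separating the two ends of a path is a step of the path -/
lemma PathIn.exists_pe {S : Finset (Sym2 V)} {P : ℕ → V} {k : ℕ} (h : PathIn S P k)
    {i j : ℕ} (hij : i ≤ j) (hj : j ≤ k) {e : Sym2 V}
    (hn : ¬ Rc (S.erase e) (P i) (P j)) : ∃ l, i ≤ l ∧ l < j ∧ pe P l = e := by
  by_contra hcon
  push Not at hcon
  refine hn (rc_of_steps hij ?_)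
  intro l h1 h2
  rw [Finset.mem_erase]
  exact ⟨hcon l h1 h2, h.2 l (by omega)⟩

/-- `a` and `b` are at distance at most `r` in `S` -/
def Wd (S : Finset (Sym2 V)) (r : ℕ) (a b : V) : Prop := (gr S).edist a b ≤ (r : ℕ∞)

omit [DecidableEq V] in
lemma Wd.refl (S : Finset (Sym2 V)) (r : ℕ) (a : V) : Wd S r a a := by
  simp [Wd]

omit [DecidableEq V] in
lemma Wd.symm {S : Finset (Sym2 V)} {r : ℕ} {a b : V} (h : Wd S r a b) : Wd S r b a := by
  unfold Wd at *; rwa [SimpleGraph.edist_comm]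

omit [DecidableEq V] in
lemma Wd.mono {S S' : Finset (Sym2 V)} {r r' : ℕ} {a b : V} (h : Wd S r a b) (hS : S ⊆ S')
    (hr : r ≤ r') : Wd S' r' a b := by
  unfold Wd at *
  exact ((SimpleGraph.edist_anti (gr_mono hS)).trans h).trans (by exact_mod_cast hr)

omit [DecidableEq V] in
lemma Wd.trans {S : Finset (Sym2 V)} {r r' : ℕ} {a b c : V} (h : Wd S r a b)
    (h' : Wd S r' b c) : Wd S (r + r') a c := by
  unfold Wd at *
  refine (SimpleGraph.edist_triangle (v := b)).trans ?_
  push_cast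
  exact add_le_add h h'

omit [DecidableEq V] in
lemma Wd.of_mem {S : Finset (Sym2 V)} {a b : V} (h : s(a, b) ∈ S) : Wd S 1 a b := by
  unfold Wd
  rw [Nat.cast_one, SimpleGraph.edist_le_one_iff_adj_or_eq]
  by_cases hab : a = b
  · exact Or.inr hab
  · exact Or.inl (gr_adj.2 ⟨h, hab⟩)

omit [DecidableEq V] in
lemma Wd.rc {S : Finset (Sym2 V)} {r : ℕ} {a b : V} (h : Wd S r a b) : Rc S a b := by
  unfold Wd at h
  refine SimpleGraph.reachable_of_edist_ne_top ?_
  exact ne_top_of_le_ne_top (ENat.natCast_ne_top r) h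

omit [DecidableEq V] in
lemma wd_zero {S : Finset (Sym2 V)} {a b : V} (h : Wd S 0 a b) : a = b := by
  unfold Wd at h
  simpa using h

omit [DecidableEq V] in
lemma wd_of_steps {X : Finset (Sym2 V)} {P : ℕ → V} {j : ℕ}
    (h : ∀ l < j, pe P l ∈ X) : Wd X j (P 0) (P j) := by
  induction j with
  | zero => exact Wd.refl _ _ _
  | succ j ih => exact (ih (fun l hl => h l (by omega))).trans (Wd.of_mem (h j (by omega)))

omit [DecidableEq V] in
/-- a shortest path -/
lemma Rc.exists_path {S : Finset (Sym2 V)} {a b : V} (h : Rc S a b) :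
    ∃ P : ℕ → V, PathIn S P ((gr S).dist a b) ∧ P 0 = a ∧ P ((gr S).dist a b) = b := by
  obtain ⟨p, hp, hl⟩ := SimpleGraph.Reachable.exists_path_of_dist h
  refine ⟨p.getVert, ⟨?_, ?_⟩, p.getVert_zero, ?_⟩
  · intro i hi j hj hij
    exact hp.getVert_injOn (by simpa [hl] using hi) (by simpa [hl] using hj) hij
  · intro j hj
    exact (gr_adj.1 (p.adj_getVert_succ (by omega))).1
  · rw [← hl]; exact p.getVert_length

omit [DecidableEq V] in
lemma Wd.exists_path {S : Finset (Sym2 V)} {r : ℕ} {a b : V} (h : Wd S r a b) :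
    ∃ k ≤ r, ∃ P : ℕ → V, PathIn S P k ∧ P 0 = a ∧ P k = b := by
  obtain ⟨P, h1, h2, h3⟩ := h.rc.exists_path
  refine ⟨_, ?_, P, h1, h2, h3⟩
  have h4 := SimpleGraph.Reachable.coe_dist_eq_edist h.rc
  unfold Wd at h
  rw [← h4] at h
  exact_mod_cast h

omit [DecidableEq V] in
lemma Rc.exists_long_path {S : Finset (Sym2 V)} {r : ℕ} {a b : V} (h : Rc S a b)
    (hn : ¬ Wd S r a b) : ∃ P : ℕ → V, PathIn S P r ∧ P 0 = a := by
  obtain ⟨P, h1, h2, _⟩ := h.exists_path
  refine ⟨P, h1.trunc r ?_, h2⟩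
  have h4 := SimpleGraph.Reachable.coe_dist_eq_edist h
  unfold Wd at hn
  rw [← h4] at hn
  have : ¬ (gr S).dist a b ≤ r := by exact_mod_cast hn
  omega

end Pool.Agent.Lib.MP_1c11af_pr
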