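import Pool.Agent.Lib.MP_1c11af_pr.Num2

-- part Pool.Agent.Lib.MP_1c11af_pr.DS
section

/-!
The geometric scheme: from a level above the window to the whole tree.
-/

namespace Pool.Agent.Lib.MP_1c11af_pr

open Finset MeasureTheory Real
open scoped Classical

set_option linter.unusedSectionVars false

variable {V : Type*} [DecidableEq V] [Fintype V] {L : ℝ}

lemma log_card (hL : (Fintype.card V : ℝ) = exp L) : log (Fintype.card V) = L := by
  rw [hL, log_exp]

lemma nonempty_of_card (hL : (Fintype.card V : ℝ) = exp L) : Nonempty V := by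
  have : (0 : ℝ) < Fintype.card V := hL ▸ exp_pos L
  exact Fintype.card_pos_iff.1 (by exact_mod_cast this)

lemma short_le (hL : (Fintype.card V : ℝ) = exp L) {x x' : ℝ} (k M : ℕ) (hx : 0 < x)
    (hxL : x < L) (hxL' : x' ≤ L)
    (hm : 4 * (M : ℝ) + k + 2 ≤ min x 1 * Fintype.card V / 20)
    (h1 : x' * k + 3 * L ≤ 1.8 * x * k) (h2 : x' * k + 4 * L ≤ 0.4 * x ^ 2 * M) :
    (mu (Sym2 V)).real {U | ∃ P, PathIn (lev U (pl (Fintype.card V) x')) P k ∧
        ∀ j ≤ k, csz (lev U (pl (Fintype.card V) x)) (P j) < M} ≤ 3 * exp (-(2 * L)) := by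
  have := nonempty_of_card hL
  refine (all_small_le k M hx (by rwa [log_card hL]) (by rwa [log_card hL]) hm).trans ?_
  rw [hL]
  have a1 : exp L * exp (x' * k) * exp (-(1.8 * x * (k + 1))) ≤ exp (-(2 * L)) := by
    rw [← exp_add, ← exp_add]
    exact exp_le_exp.2 (by linarith)
  have a2 : exp L * exp (x' * k) * (exp L * exp (-(0.4 * x ^ 2 * M))) ≤ exp (-(2 * L)) := by
    rw [← exp_add, ← exp_add, ← exp_add]
    exact exp_le_exp.2 (by linarith)
  have a3 : exp L * exp (x' * k) * exp (-(0.4 * x ^ 2 * M)) ≤ exp (-(2 * L)) := by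
    rw [← exp_add, ← exp_add]
    exact exp_le_exp.2 (by linarith)
  linarith

lemma merge_le (hL : (Fintype.card V : ℝ) = exp L) {x x' : ℝ} (M : ℕ) (hx : 0 ≤ x)
    (hxx : x ≤ x') (hxL' : x' ≤ L) (h : 4 * L * Fintype.card V ≤ (x' - x) * M ^ 2) :
    (mu (Sym2 V)).real {U | ∃ u v, M ≤ csz (lev U (pl (Fintype.card V) x)) u ∧
        M ≤ csz (lev U (pl (Fintype.card V) x)) v ∧
        ¬ Rc (lev U (pl (Fintype.card V) x')) u v} ≤ exp (-(2 * L)) := by
  have := nonempty_of_card hL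
  have hN' : (0 : ℝ) < Fintype.card V := hL ▸ exp_pos L
  refine le_trans (mreal_mono ?_) ((sprinkle_le (fun u X => cl X {u}) M hx hxx
    (by rwa [log_card hL])).trans ?_)
  · rintro U ⟨u, v, h1, h2, h3⟩
    have hs := lev_mono U (pl_mono hN' hxx)
    refine ⟨u, v, h1, h2, Finset.disjoint_left.2 (fun a ha hb => h3 ?_), fun a ha b hb => ?_⟩
    · exact ((mem_cl_single.1 ha).trans (mem_cl_single.1 hb).symm).mono hs
    · by_contra hn
      exact h3 ((((mem_cl_single.1 ha).mono hs).trans (Rc.of_mem (mem_lev.2 (not_lt.1 hn)))).trans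
        ((mem_cl_single.1 hb).mono hs).symm)
  · have : 4 * L ≤ (x' - x) / Fintype.card V * M ^ 2 := by
      rw [div_mul_eq_mul_div, le_div_iff₀ hN']; exact h
    rw [hL, ← exp_nat_mul, ← exp_add, ← hL]
    exact exp_le_exp.2 (by push_cast; linarith)

lemma am_le (hL : (Fintype.card V : ℝ) = exp L) {γ a b : ℝ} (hγ : 0 ≤ γ)
    (hG : 6 * L ≤ γ * (b - a) * exp (γ * (L - b))) :
    Sm γ (fun (U : Sym2 V → ℝ) S => ¬ AM S (lev U (pl (Fintype.card V) a))
      (lev U (pl (Fintype.card V) b))) (exp (-(2 * L))) := by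
  have := nonempty_of_card hL
  refine (Sm.am (G := 6 * L) hγ (by rwa [log_card hL])).mono (fun _ _ _ h => h) (le_of_eq ?_)
  rw [hL, ← exp_nat_mul, ← exp_add]
  congr 1; push_cast; ring

lemma floor_ge_half {y : ℝ} (hy : 1 ≤ y) : y / 2 ≤ ⌊y⌋₊ := by
  have h1 := Nat.lt_floor_add_one y
  have h2 : (1 : ℝ) ≤ ⌊y⌋₊ := by exact_mod_cast (Nat.one_le_floor_iff y).2 hy
  linarith

lemma ceil_le_two {y : ℝ} (hy : 1 ≤ y) : (⌈y⌉₊ : ℝ) ≤ 2 * y := by
  have := Nat.ceil_lt_add_one (show 0 ≤ y by linarith)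
  linarith

lemma gap_ge {γ g b : ℝ} (hγ : 0 < γ) (hg : 0 < g) (hgb : g ≤ b) (hb : b ≤ 0.8 * L)
    (hA : 200 * L ≤ γ * g * exp (γ * L)) (hB : 66 * L ≤ exp (γ * L / 5)) :
    6 * L ≤ γ * (b / 11) * exp (γ * (L - b)) := by
  have hL0 : 0 < L := by linarith
  rcases le_total (γ * b) 1 with h | h
  · have a1 : exp (γ * L) ≤ exp (γ * (L - b)) * exp 1 := by
      rw [← exp_add]; exact exp_le_exp.2 (by linarith)
    have a2 : exp 1 ≤ 3 := by linarith [exp_one_lt_d9]
    have a3 := exp_pos (γ * (L - b))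
    have a4 : exp (γ * L) ≤ 3 * exp (γ * (L - b)) := by nlinarith
    have a5 : γ * g * exp (γ * L) ≤ γ * b * (3 * exp (γ * (L - b))) :=
      mul_le_mul (mul_le_mul_of_nonneg_left hgb hγ.le) a4 (exp_pos _).le
        (mul_pos hγ (by linarith)).le
    linarith
  · have a1 : exp (γ * L / 5) ≤ exp (γ * (L - b)) :=
      exp_le_exp.2 (by nlinarith [mul_le_mul_of_nonneg_left hb hγ.le])
    have a3 := exp_pos (γ * (L - b))
    nlinarith

theorem ds_main (hL : (Fintype.card V : ℝ) = exp L) {γ g : ℝ} (hγ : 0 < γ) (hg0 : 0 < g)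
    (hg1 : g ≤ 1) (hL1 : 100 ≤ L) (h3 : 2000000 * L ≤ g ^ 3 * Fintype.card V)
    (hA : 200 * L ≤ γ * g * exp (γ * L)) (hB : 66 * L ≤ exp (γ * L / 5)) :
    ∃ R : ℕ, (R : ℝ) ≤ 240 * L / g ∧ Sm γ (fun (U : Sym2 V → ℝ) S => ∃ D,
      (∀ P, ¬ PathIn (S ∩ lev U (pl (Fintype.card V) (g * 1.1 ^ 2))) P D) ∧
        ∃ P, PathIn S P (D + R)) (exp (-(0.08 * L)) + 7 * exp (-L)) := by
  have := nonempty_of_card hL
  have hN' : (0 : ℝ) < Fintype.card V := hL ▸ exp_pos L
  set N : ℝ := (Fintype.card V : ℝ) with hN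
  set x : ℕ → ℝ := fun i => g * 1.1 ^ i with hx
  have hxs : ∀ i, x (i + 1) = 1.1 * x i := fun i => by simp only [hx]; ring
  have hxg : ∀ i, g ≤ x i := fun i =>
    le_mul_of_one_le_right hg0.le (one_le_pow₀ (by norm_num))
  have hxb : ∀ i : ℕ, g * (1 + i / 10) ≤ x i := fun i => by
    have := one_add_mul_le_pow (a := (0.1 : ℝ)) (by norm_num) i
    refine mul_le_mul_of_nonneg_left (le_trans (le_of_eq (by ring)) (this.trans (le_of_eq ?_))) hg0.le
    norm_num
  have hex : ∃ i, 0.6 * L ≤ x i := by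
    refine ⟨⌈6 * L / g⌉₊, le_trans ?_ (hxb _)⟩
    have := Nat.le_ceil (6 * L / g)
    rw [div_le_iff₀ hg0] at this
    nlinarith
  set m := Nat.find hex with hm
  have hm1 : 0.6 * L ≤ x m := Nat.find_spec hex
  have hm2 : ∀ i < m, x i < 0.6 * L := fun i hi => not_le.1 (Nat.find_min hex hi)
  have hm3 : ∀ i ≤ m, x i ≤ 0.66 * L := by
    intro i hi
    cases i with
    | zero => simp only [hx]; norm_num; linarith
    | succ i => rw [hxs]; linarith [hm2 i (by omega)]
  have hm4 : (m : ℝ) ≤ 6 * L / g + 1 := by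
    have : m ≤ ⌈6 * L / g⌉₊ := by
      refine Nat.find_min' hex (le_trans ?_ (hxb _))
      have := Nat.le_ceil (6 * L / g)
      rw [div_le_iff₀ hg0] at this
      nlinarith
    have h2 : (m : ℝ) ≤ ⌈6 * L / g⌉₊ := by exact_mod_cast this
    linarith [Nat.ceil_lt_add_one (show 0 ≤ 6 * L / g by positivity)]
  have hLg : L ≤ L / g := by rw [le_div_iff₀ hg0]; nlinarith
  have hgN : 2000000 * L ≤ g * N := by
    have : g ^ 3 ≤ g := by nlinarith [mul_pos hg0 hg0, mul_le_one₀ hg1 hg0.le hg1]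
    nlinarith
  have hm5 : (m : ℝ) + 1 ≤ N := by
    have : 6 * L / g ≤ N / 2 := by rw [div_le_iff₀ hg0]; nlinarith
    nlinarith
  set M : ℕ → ℕ := fun i => ⌊min (x i) 1 * N / 100⌋₊ with hM
  set k : ℕ → ℕ := fun i => ⌈10 * L / x i⌉₊ with hk
  have hy : ∀ i, g ≤ min (x i) 1 := fun i => le_min (hxg i) hg1
  have hy3 : ∀ i, 2000000 * L ≤ min (x i) 1 ^ 3 * N := fun i =>
    h3.trans (mul_le_mul_of_nonneg_right (pow_le_pow_left₀ hg0.le (hy i) 3) hN'.le)
  have hy1 : ∀ i, 2000000 * L ≤ min (x i) 1 * N := fun i =>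
    hgN.trans (mul_le_mul_of_nonneg_right (hy i) hN'.le)
  have hM1 : ∀ i, (M i : ℝ) ≤ min (x i) 1 * N / 100 := fun i =>
    Nat.floor_le (by linarith [hy1 i])
  have hM2 : ∀ i, min (x i) 1 * N / 200 ≤ M i := fun i =>
    le_trans (le_of_eq (by ring)) (floor_ge_half (by linarith [hy1 i]))
  have hx0 : ∀ i, 0 < x i := fun i => hg0.trans_le (hxg i)
  have hk1 : ∀ i, 10 * L ≤ x i * k i := fun i => by
    have := Nat.le_ceil (10 * L / x i)
    rw [div_le_iff₀ (hx0 i)] at this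
    linarith
  have hk2 : ∀ i, (k i : ℝ) ≤ 10 * L / x i + 1 := fun i =>
    (Nat.ceil_lt_add_one (div_nonneg (by linarith) (hx0 i).le)).le
  have hk3 : ∀ i, x i * k i ≤ 10 * L + x i := fun i => by
    have := mul_le_mul_of_nonneg_left (hk2 i) (hx0 i).le
    rwa [mul_add, mul_div_cancel₀ _ (hx0 i).ne', mul_one] at this
  have hxM : ∀ i, 4000 * L ≤ 0.4 * x i ^ 2 * M i := fun i => by
    have a1 : min (x i) 1 ^ 2 ≤ x i ^ 2 :=
      pow_le_pow_left₀ (hg0.le.trans (hy i)) (min_le_left _ _) 2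
    have a2 : min (x i) 1 ^ 2 * (min (x i) 1 * N / 200) ≤ x i ^ 2 * M i :=
      mul_le_mul a1 (hM2 i) (by linarith [hy1 i]) (sq_nonneg _)
    linarith [hy3 i]
  have hmk : ∀ i, 4 * (M i : ℝ) + k i + 2 ≤ min (x i) 1 * N / 20 := fun i => by
    have a0 : 0 < min (x i) 1 := hg0.trans_le (hy i)
    have a1 : 10 * L / x i ≤ min (x i) 1 * N / 200 := by
      rw [div_le_iff₀ (hx0 i)]
      have b1 : min (x i) 1 ^ 2 ≤ x i := by
        nlinarith [min_le_left (x i) 1, min_le_right (x i) 1]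
      have b2 := mul_le_mul_of_nonneg_left b1 (mul_pos a0 hN').le
      linarith [hy3 i]
    linarith [hM1 i, hk2 i, hy1 i]
  refine ⟨2 * ∑ i ∈ range m, k i, ?_, ?_⟩
  · have a1 : ∀ n, ∑ i ∈ range n, (k i : ℝ) ≤ 110 * L / g - 110 * L / x n + n := by
      intro n
      induction n with
      | zero => simp [hx]
      | succ n ih =>
        rw [Finset.sum_range_succ, hxs]
        have : 110 * L / (1.1 * x n) = 110 * L / x n - 10 * L / x n := by
          have := (hx0 n).ne'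
          field_simp; norm_num
        push_cast
        linarith [hk2 n]
    have a2 := a1 m
    have a3 : 0 ≤ 110 * L / x m := div_nonneg (by linarith) (hx0 m).le
    push_cast
    have e1 : 110 * L / g = 110 * (L / g) := by ring
    have e2 : 6 * L / g = 6 * (L / g) := by ring
    have e3 : 240 * L / g = 240 * (L / g) := by ring
    linarith
  · have s1 := Sm.ex (γ := γ) m (fun i hi => Sm.env (γ := γ) (short_le hL (x := x i)
      (x' := x (i + 3)) (k i) (M i) (hx0 i) (by linarith [hm2 i hi])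
      (by rw [hxs, hxs, hxs]; linarith [hm2 i hi]) (hmk i)
      (by rw [hxs, hxs, hxs]; linarith [hk1 i])
      (by rw [hxs, hxs, hxs]; linarith [hk3 i, hm2 i hi, hxM i])))
    have s2 := Sm.env (γ := γ) (all_small_le (V := V) (x := x m) (x' := 0) 0 (M m) (hx0 m)
      (by rw [log_card hL]; linarith [hm3 m le_rfl]) (by rw [log_card hL]; linarith)
      (by have := hmk m; have : (0 : ℝ) ≤ k m := Nat.cast_nonneg _; push_cast; linarith))
    have s3 := Sm.ex (γ := γ) (m + 1) (fun i hi => Sm.env (γ := γ) (merge_le hL (x := x i)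
      (x' := x (i + 1)) (M i) (hx0 i).le (by rw [hxs]; linarith [hx0 i])
      (by rw [hxs]; linarith [hm3 i (by omega)]) (by
        have a0 : 0 < min (x i) 1 := hg0.trans_le (hy i)
        have a1 : (min (x i) 1 * N / 200) ^ 2 ≤ (M i : ℝ) ^ 2 :=
          pow_le_pow_left₀ (by positivity) (hM2 i) 2
        have a2 : 0.1 * min (x i) 1 ≤ x (i + 1) - x i := by
          rw [hxs]; linarith [min_le_left (x i) 1]
        have a3 := mul_le_mul a2 a1 (by positivity) (by linarith)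
        have a4 := mul_le_mul_of_nonneg_right (hy3 i) hN'.le
        have a5 : 0 ≤ L * N := by positivity
        linarith)))
    have s4 := Sm.ex (γ := γ) (m + 1) (fun i hi => am_le hL (γ := γ) (a := x (i + 1))
      (b := x (i + 2)) hγ.le (by
        have a1 := gap_ge (L := L) (b := x (i + 2)) hγ hg0 (hxg _)
          (by rw [hxs, hxs]; linarith [hm3 i (by omega)]) hA hB
        have a2 : x (i + 2) / 11 = x (i + 2) - x (i + 1) := by rw [hxs (i + 1)]; ring
        rwa [a2] at a1))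
    refine (((s1.or s2).or s3).or s4).mono ?_ ?_
    · rintro U S hS ⟨D, hD, P, hP⟩
      by_contra hcon
      simp only [not_or, not_exists, not_and, not_forall, not_lt, not_not] at hcon
      obtain ⟨⟨⟨c1, c2⟩, c3⟩, c4⟩ := hcon
      refine ds_iter hS (fun i => lev U (pl N (x i))) M k m D (fun i hi P hP => ?_) (fun v => ?_)
        (fun i hi => c3 i (by omega)) (fun i hi => c4 i (by omega)) hD P hP
      · obtain ⟨j, h1, h2⟩ := c1 i hi P hP
        exact ⟨j, h1, h2⟩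
      · obtain ⟨j, _, h2⟩ := c2 (fun _ => v) ⟨fun i hi j hj _ => by omega, fun j hj => by omega⟩
        exact h2
    · have a1 : N * exp (-(2 * L)) = exp (-L) := by
        rw [hL, ← exp_add]; congr 1; ring
      have a2 : N * exp (-(1.8 * x m)) ≤ exp (-(0.08 * L)) := by
        rw [hL, ← exp_add]; exact exp_le_exp.2 (by linarith)
      have a3 : N * (N * exp (-(0.4 * x m ^ 2 * M m))) ≤ exp (-L) := by
        rw [hL, ← exp_add, ← exp_add]; exact exp_le_exp.2 (by linarith [hxM m])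
      have a4 : N * exp (-(0.4 * x m ^ 2 * M m)) ≤ exp (-L) := by
        rw [hL, ← exp_add]; exact exp_le_exp.2 (by linarith [hxM m])
      have a5 := mul_le_mul_of_nonneg_right hm5 (exp_pos (-(2 * L))).le
      have a6 := exp_pos (-(2 * L))
      simp only [Nat.cast_zero, mul_zero, exp_zero, mul_one, zero_add]
      push_cast
      linarith

end Pool.Agent.Lib.MP_1c11af_pr
end

-- part Pool.Agent.Lib.MP_1c11af_pr.Prob
section

/-!
The good event has large probability.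
-/

namespace Pool.Agent.Lib.MP_1c11af_pr

open Finset MeasureTheory Real
open scoped Classical

set_option linter.unusedSectionVars false

variable {V : Type*} [DecidableEq V] [Fintype V] {L : ℝ}

lemma close_le (hL : (Fintype.card V : ℝ) = exp L) (γ : ℝ) {x x' : ℝ} (k l M : ℕ) (hx : 0 < x)
    (hx1 : x ≤ 1 / 10) (hxx : x ≤ x') (hxL' : x' ≤ L) (hL1 : 4 ≤ L) (hM : 2 ≤ M)
    (hMN : (M : ℝ) ≤ x * Fintype.card V / 100) (hl : 25 * L ≤ x * l) (hk : 10 * L ≤ x * k)
    (h : 4 * L * Fintype.card V ≤ (x' - x) * M ^ 2) :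
    Sm γ (fun (U : Sym2 V → ℝ) _ => ∃ u v, M ≤ csz (lev U (pl (Fintype.card V) x)) u ∧
        M ≤ csz (lev U (pl (Fintype.card V) x)) v ∧
        ¬ Wd (lev U (pl (Fintype.card V) x')) (2 * (k + l + 1) + 1) u v) (2 * exp (-(2 * L))) := by
  have := nonempty_of_card hL
  have hN' : (0 : ℝ) < Fintype.card V := hL ▸ exp_pos L
  have s1 := Sm.env (γ := γ) (ball_small_le (V := V) k l M hx hx1 hM hMN (by rwa [log_card hL]))
  have s2 := Sm.env (γ := γ) (sprinkle_le (fun u X => ball X (k + l + 1) ({u} : Finset V)) M hx.le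
    hxx (by rwa [log_card hL]))
  refine (s1.or s2).mono ?_ ?_
  · rintro U _ _ ⟨u, v, h1, h2, h3⟩
    by_contra hcon
    rw [not_or] at hcon
    obtain ⟨c1, c2⟩ := hcon
    set X := lev U (pl (Fintype.card V) x) with hX
    have hs : X ⊆ lev U (pl (Fintype.card V) x') := lev_mono U (pl_mono hN' hxx)
    have key : ∀ u, M ≤ csz X u → M ≤ (ball X (k + l + 1) {u}).card := by
      intro u hu
      by_cases h4 : ∀ z, Rc X u z → Wd X k u z
      · refine hu.trans (Finset.card_le_card (fun z hz => mem_ball.2 ⟨u, Finset.mem_singleton_self _,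
          (h4 z (mem_cl_single.1 hz)).mono (Finset.Subset.refl _) (by omega)⟩))
      · push Not at h4
        obtain ⟨z, h5, h6⟩ := h4
        obtain ⟨P, hP, h7⟩ := h5.exists_long_path h6
        refine le_trans (not_lt.1 (fun h8 => c1 ⟨P, hP, h8⟩)) (Finset.card_le_card (fun a ha => ?_))
        obtain ⟨b, hb, hba⟩ := mem_ball.1 ha
        obtain ⟨j, hj, rfl⟩ := mem_vs.1 hb
        have h9 : Wd X j (P 0) (P j) := wd_of_steps (fun i hi => hP.2 i (by omega))
        rw [h7] at h9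
        exact mem_ball.2 ⟨u, Finset.mem_singleton_self _,
          (h9.trans hba).mono (Finset.Subset.refl _) (by omega)⟩
    have hb : ∀ {u a}, a ∈ ball X (k + l + 1) {u} →
        Wd (lev U (pl (Fintype.card V) x')) (k + l + 1) u a := by
      intro u a ha
      obtain ⟨b, hb, hba⟩ := mem_ball.1 ha
      rw [Finset.mem_singleton.1 hb] at hba
      exact hba.mono hs le_rfl
    refine c2 ⟨u, v, key u h1, key v h2, Finset.disjoint_left.2 (fun a ha ha' => h3 ?_),
      fun a ha b hb' => ?_⟩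
    · exact ((hb ha).trans (hb ha').symm).mono (Finset.Subset.refl _) (by omega)
    · by_contra hn
      exact h3 ((((hb ha).trans (Wd.of_mem (mem_lev.2 (not_lt.1 hn)))).trans (hb hb').symm).mono
        (Finset.Subset.refl _) (by omega))
  · have a0 : 4 * L ≤ (x' - x) / Fintype.card V * M ^ 2 := by
      rw [div_mul_eq_mul_div, le_div_iff₀ hN']; exact h
    have a1 : (Fintype.card V : ℝ) ^ 2 * exp (-((x' - x) / Fintype.card V * M ^ 2)) ≤
        exp (-(2 * L)) := by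
      rw [hL, ← exp_nat_mul, ← exp_add, ← hL]
      exact exp_le_exp.2 (by push_cast; linarith)
    have a2 : (Fintype.card V : ℝ) * exp (2 - 0.35 * x * k) ≤ exp (-(2 * L)) := by
      rw [hL, ← exp_add]
      exact exp_le_exp.2 (by linarith)
    linarith

/-- the levels around the critical window -/
noncomputable def lv (N y : ℝ) (j : ℕ) : ℝ := pl N ((2 * j - 1) * y)

theorem good_prob (hL : (Fintype.card V : ℝ) = exp L) {γ y : ℝ} (hγ : 0 ≤ γ)
    {J M k l h Sz τ b C : ℕ} (hL1 : 100 ≤ L) (hy0 : 0 < y) (hJ : 1 ≤ J)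
    (hT : (2 * J + 1) * y ≤ 1 / 100) (hy3 : 2000000 * L ≤ y ^ 3 * Fintype.card V)
    (hM1 : (M : ℝ) ≤ y * Fintype.card V / 100) (hM2 : y * Fintype.card V / 200 ≤ M)
    (hk1 : 10 * L ≤ y * k) (hk2 : y * k ≤ 11 * L) (hl1 : 25 * L ≤ y * l) (hl2 : y * l ≤ 26 * L)
    (hh : 600 * (2 * J + 1) * L ≤ h) (hSz : 100 * L ≤ y ^ 2 * Sz)
    (hτ : 16 * ((2 * J + 1) * y) * τ ≤ b)
    (hb : 2 * (τ : ℝ) + b + 2 ≤ 2 * ((2 * J + 1) * y) * Fintype.card V) (hb2 : 2 * L ≤ y * b)
    (hC : 0 < C) (ham1 : 6 * L ≤ γ * (2 * J * y) * exp (γ * L))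
    (ham2 : 6 * L ≤ γ * ((2 * J - 4) * y) * exp (γ * (L - (2 * J - 1) * y))) :
    Sm γ (fun (U : Sym2 V → ℝ) S => ¬ Good (lv (Fintype.card V) y)
      (pl (Fintype.card V) (-((2 * J + 1) * y))) J M k h Sz τ b C (2 * (k + l + 1) + 1) U S)
      ((6 * J + 12) * exp (-L) + 32 * ((2 * J + 1) * y) * Fintype.card V / C) := by
  have := nonempty_of_card hL
  have hN' : (0 : ℝ) < Fintype.card V := hL ▸ exp_pos L
  have hlog := log_card hL
  set N : ℝ := (Fintype.card V : ℝ) with hN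
  have hJ' : (1 : ℝ) ≤ J := by exact_mod_cast hJ
  have hJy : 0 ≤ (J : ℝ) * y := by positivity
  have hJy1 : y ≤ J * y := le_mul_of_one_le_left hy0.le hJ'
  have hy1 : y ≤ 1 / 100 := by linarith
  have hy2 : 2000000 * L ≤ y ^ 2 * N := by
    have : y ^ 3 ≤ y ^ 2 := by nlinarith [mul_pos hy0 hy0]
    nlinarith
  have hyN : 2000000 * L ≤ y * N := by
    have : y ^ 2 ≤ y := by nlinarith
    nlinarith
  have hkN : (k : ℝ) ≤ y * N / 1000 := by
    refine le_of_mul_le_mul_left ?_ hy0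
    nlinarith
  have hlN : (l : ℝ) ≤ y * N / 1000 := by
    refine le_of_mul_le_mul_left ?_ hy0
    nlinarith
  have hyM : 10000 * L ≤ y ^ 2 * M := by nlinarith [mul_le_mul_of_nonneg_left hM2 (sq_nonneg y)]
  have hx : ∀ i < J, y ≤ (2 * ((i + 1 : ℕ) : ℝ) - 1) * y ∧
      (2 * ((i + 1 : ℕ) : ℝ) - 1) * y ≤ (2 * J - 1) * y := by
    intro i hi
    have a1 : ((i + 1 : ℕ) : ℝ) ≤ J := by exact_mod_cast hi
    have a2 : (1 : ℝ) ≤ ((i + 1 : ℕ) : ℝ) := by exact_mod_cast Nat.le_add_left 1 i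
    constructor <;> nlinarith
  have s0 := Sm.env (V := V) (γ := γ) (mu_pos (E := Sym2 V)).le
  have s1 := Sm.ex (γ := γ) J (fun i hi => Sm.env (γ := γ) (short_le hL
    (x := (2 * ((i + 1 : ℕ) : ℝ) - 1) * y) (x' := (2 * ((i + 1 : ℕ) : ℝ) - 1) * y) k M
    (by linarith [hx i hi]) (by linarith [hx i hi]) (by linarith [hx i hi])
    (by
      rw [min_eq_left (by linarith [hx i hi])]
      linarith [mul_le_mul_of_nonneg_right (hx i hi).1 hN'.le])
    (by linarith [mul_le_mul_of_nonneg_right (hx i hi).1 (Nat.cast_nonneg (α := ℝ) k)])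
    (by
      obtain ⟨a1, _⟩ := hx i hi
      generalize (2 * ((i + 1 : ℕ) : ℝ) - 1) * y = x at a1
      refine le_of_mul_le_mul_left ?_ hy0
      have a2 : x * (y * k) ≤ x * (11 * L) := mul_le_mul_of_nonneg_left hk2 (by linarith)
      have a3 : y * L ≤ x * L := mul_le_mul_of_nonneg_right a1 (by linarith)
      have a4 : x * (10000 * L) ≤ x * (y ^ 2 * M) := mul_le_mul_of_nonneg_left hyM (by linarith)
      have a5 : x * y * M * y ≤ x * y * M * x :=
        mul_le_mul_of_nonneg_left a1 (mul_nonneg (mul_nonneg (by linarith) hy0.le)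
          (Nat.cast_nonneg _))
      have a6 : 0 ≤ x * L := mul_nonneg (by linarith) (by linarith)
      linarith)))
  have s2 := Sm.env (γ := γ) (window_le (V := V) (2 * (k + l + 1) + 1) h
    (a := -((2 * J + 1) * y)) (b := (2 * ((J + 1 : ℕ) : ℝ) - 1) * y) (by push_cast; linarith)
    (by push_cast; linarith) (by rw [hlog]; push_cast; linarith))
  have s3 := Sm.ex (γ := γ) J (fun i hi => close_le hL γ
    (x := (2 * ((i + 1 : ℕ) : ℝ) - 1) * y) (x' := (2 * ((i + 2 : ℕ) : ℝ) - 1) * y) k l M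
    (by linarith [hx i hi]) (by linarith [hx i hi]) (by push_cast; linarith)
    (by have := hx i hi; push_cast at this ⊢; linarith) (by linarith)
    (by have : (2 : ℝ) ≤ M := by linarith
        exact_mod_cast this)
    (by linarith [mul_le_mul_of_nonneg_right (hx i hi).1 hN'.le])
    (by linarith [mul_le_mul_of_nonneg_right (hx i hi).1 (Nat.cast_nonneg (α := ℝ) l)])
    (by linarith [mul_le_mul_of_nonneg_right (hx i hi).1 (Nat.cast_nonneg (α := ℝ) k)])
    (by
      have a1 : (y * N / 200) ^ 2 ≤ (M : ℝ) ^ 2 := pow_le_pow_left₀ (by positivity) hM2 2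
      have a2 := mul_le_mul_of_nonneg_left a1 hy0.le
      have a3 := mul_le_mul_of_nonneg_right hy3 hN'.le
      have a4 : 0 ≤ L * N := by positivity
      push_cast
      linarith))
  have s4 := Sm.env (γ := γ) (no_path_le (V := V) k (x := (2 * ((0 : ℕ) : ℝ) - 1) * y)
    (by rw [hlog]; push_cast; linarith))
  have s5 := Sm.env (γ := γ) (big_sub_le (V := V) Sz hy0 (by linarith) (by linarith))
  have s6 := Sm.ex (γ := γ) (δ := exp (-L)) J (fun i hi => Sm.env (γ := γ) ((no_middle_le (V := V)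
    (x := (2 * ((i + 1 : ℕ) : ℝ) - 1) * y) Sz M (by linarith [hx i hi])
    (by rw [hlog]; linarith [hx i hi]) (by
      rw [min_eq_left (by linarith [hx i hi])]
      linarith [mul_le_mul_of_nonneg_right (hx i hi).1 hN'.le])).trans (by
      rw [← hN, hL, ← exp_add]
      refine exp_le_exp.2 ?_
      linarith [mul_le_mul_of_nonneg_right (pow_le_pow_left₀ hy0.le (hx i hi).1 2)
        (Nat.cast_nonneg (α := ℝ) Sz)])))
  have s7 := Sm.env (γ := γ) (cl_small_le (V := V) (x := -((2 * J + 1) * y))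
    (x' := (2 * (J : ℝ) - 1) * y) (ξ := 4 * ((2 * J + 1) * y)) b τ (by linarith) (by linarith)
    (by linarith) (by rw [hlog]; linarith) (by linarith) (by rw [hlog]; linarith) (by linarith)
    (by linarith))
  have hC' : (0 : ℝ) < C := by exact_mod_cast hC
  have s8 := Sm.env (γ := γ) (((le_div_iff₀' hC').2 (few_big_le (V := V)
    (x := (2 * (J : ℝ) - 1) * y) (c := C) M (by linarith) (by linarith)
    (by linarith [mul_le_mul_of_nonneg_right (show y ≤ (2 * (J : ℝ) - 1) * y by linarith) hN'.le])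
    (by linarith [mul_le_mul_of_nonneg_right (pow_le_pow_left₀ hy0.le
      (show y ≤ (2 * (J : ℝ) - 1) * y by linarith) 2) (Nat.cast_nonneg (α := ℝ) M)]))))
  have s9 := Sm.env (γ := γ) (degree_le (V := V) h (x := (2 * (J : ℝ) - 1) * y) (by linarith)
    (by rw [hlog]; linarith))
  have s10 := Sm.env (γ := γ) (none_large_le (V := V) (x := (2 * ((1 : ℕ) : ℝ) - 1) * y) k M
    (by push_cast; linarith) (by rw [hlog]; push_cast; linarith) (by
      rw [min_eq_left (by push_cast; linarith)]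
      push_cast
      linarith))
  have s11 := am_le hL (γ := γ) (a := -((2 * J + 1) * y)) (b := (2 * ((0 : ℕ) : ℝ) - 1) * y) hγ (by
    refine ham1.trans (mul_le_mul (le_of_eq (by push_cast; ring)) (exp_le_exp.2 ?_)
      (exp_pos _).le (mul_nonneg hγ (by push_cast; linarith)))
    push_cast
    exact mul_le_mul_of_nonneg_left (by linarith) hγ)
  have s12 := am_le hL (γ := γ) (a := (2 * ((2 : ℕ) : ℝ) - 1) * y) (b := (2 * (J : ℝ) - 1) * y) hγ
    (ham2.trans (le_of_eq (by push_cast; ring)))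
  refine ((((((((((((s0.or s1).or s2).or s3).or s4).or s5).or s6).or s7).or s8).or s9).or
    s10).or s11).or s12).mono ?_ ?_
  · intro U S _ hG
    by_contra hcon
    simp only [not_or] at hcon
    obtain ⟨⟨⟨⟨⟨⟨⟨⟨⟨⟨⟨⟨c0, c1⟩, c2⟩, c3⟩, c4⟩, c5⟩, c6⟩, c7⟩, c8⟩, c9⟩, c10⟩, c11⟩, c12⟩ := hcon
    refine hG ⟨not_not.1 c0, fun i hi P hP => ?_, fun j hj P hP => ?_, fun i hi u v hu hv => ?_,
      fun P hP => c4 ⟨P, hP⟩, fun v => ?_, fun i hi v hv => ?_, fun P hP => ?_, ?_, fun v => ?_,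
      ?_, ?_, not_not.1 c12⟩
    · by_contra h1
      push Not at h1
      exact c1 ⟨i, hi, P, hP, h1⟩
    · exact not_le.1 (fun h1 => c2 ⟨j, hj, P, hP, h1⟩)
    · exact not_not.1 (fun h1 => c3 ⟨i, hi, u, v, hu, hv, h1⟩)
    · have e : lv N y 0 = pl N (-y) := by simp [lv]
      rw [e]
      exact not_le.1 (fun h1 => c5 ⟨v, h1⟩)
    · exact not_le.1 (fun h1 => c6 ⟨i, hi, v, h1, hv.le⟩)
    · exact (not_le.1 (fun h1 => c7 ⟨P, hP, h1⟩)).le
    · exact Nat.cast_le.1 (not_le.1 c8).le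
    · exact not_le.1 (fun h1 => c9 ⟨v, h1⟩)
    · push Not at c10
      exact c10
    · exact not_not.1 c11
  · have e0 := exp_pos (-L)
    have e1 : exp (-(2 * L)) ≤ exp (-L) := exp_le_exp.2 (by linarith)
    have e2 : (J : ℝ) * exp (-(2 * L)) ≤ J * exp (-L) :=
      mul_le_mul_of_nonneg_left e1 (Nat.cast_nonneg _)
    have e3 : (((2 * (k + l + 1) + 1 : ℕ) : ℝ) + 1) * (N * exp ((2 * ((J + 1 : ℕ) : ℝ) - 1) * y *
        ((2 * (k + l + 1) + 1 : ℕ) : ℝ) + 3 * ((2 * (k + l + 1) + 1 : ℕ) : ℝ) *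
          ((2 * ((J + 1 : ℕ) : ℝ) - 1) * y - -((2 * J + 1) * y)) - h)) ≤ exp (-L) := by
      have a1 : ((2 * (k + l + 1) + 1 : ℕ) : ℝ) + 1 ≤ N := by
        push_cast
        nlinarith
      refine (mul_le_mul_of_nonneg_right a1 (by positivity)).trans ?_
      rw [hL, ← exp_add, ← exp_add]
      refine exp_le_exp.2 ?_
      have a2 : y * (2 * (k + l + 1) + 1) ≤ 75 * L := by linarith
      have a3 := mul_le_mul_of_nonneg_left a2 (show 0 ≤ 2 * (J : ℝ) + 1 by linarith)
      have a4 : L ≤ J * L := le_mul_of_one_le_left (by linarith) hJ'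
      push_cast
      linarith
    have e4 : N * exp ((2 * ((0 : ℕ) : ℝ) - 1) * y * k) ≤ exp (-L) := by
      rw [hL, ← exp_add]
      exact exp_le_exp.2 (by push_cast; linarith)
    have e5 : N * exp (-(y ^ 2 * Sz / 32)) ≤ exp (-L) := by
      rw [hL, ← exp_add]
      exact exp_le_exp.2 (by linarith)
    have e7 : N * exp (-(4 * ((2 * J + 1) * y) * b / 4)) ≤ exp (-L) := by
      rw [hL, ← exp_add]
      refine exp_le_exp.2 ?_
      linarith [mul_nonneg hJy (Nat.cast_nonneg (α := ℝ) b)]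
    have e8 : 32 * ((2 * J - 1) * y) * N / C ≤ 32 * ((2 * J + 1) * y) * N / C := by
      gcongr; linarith
    have e9 : N * exp (9 - h) ≤ exp (-L) := by
      rw [hL, ← exp_add]
      refine exp_le_exp.2 ?_
      linarith [mul_nonneg (Nat.cast_nonneg (α := ℝ) J) (show 0 ≤ L by linarith)]
    have e10 : exp (-(1.8 * ((2 * ((1 : ℕ) : ℝ) - 1) * y) * k)) ≤ exp (-L) :=
      exp_le_exp.2 (by push_cast; linarith)
    have e11 : N * exp (-(0.4 * ((2 * ((1 : ℕ) : ℝ) - 1) * y) ^ 2 * M)) ≤ exp (-L) := by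
      rw [hL, ← exp_add]
      exact exp_le_exp.2 (by push_cast; linarith)
    have e12 : exp (-(0.4 * ((2 * ((1 : ℕ) : ℝ) - 1) * y) ^ 2 * M)) ≤ exp (-L) :=
      exp_le_exp.2 (by push_cast; linarith)
    rw [← hN]
    refine le_trans (add_le_add (add_le_add (add_le_add (add_le_add (add_le_add (add_le_add
      (add_le_add (add_le_add (add_le_add (add_le_add (add_le_add le_rfl e3) le_rfl) e4) le_rfl)
        le_rfl) e7) e8) e9) (add_le_add e10 le_rfl)) e1) e1) ?_
    linarith only [e0, e2, e5, e11, e12]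

end Pool.Agent.Lib.MP_1c11af_pr
end

-- part Pool.Agent.Lib.MP_1c11af_pr.Low
section

/-!
The case of a small exponent: choice of the parameters.
-/

namespace Pool.Agent.Lib.MP_1c11af_pr

open Finset MeasureTheory Real
open scoped Classical

set_option linter.unusedSectionVars false

/-- conditions on the parameters -/
structure Cond (γ c L E G s : ℝ) (J : ℕ) : Prop where
  γ0 : 0 < γ
  γ1 : γ ≤ 1 / 3
  c0 : 0 < c
  c1 : c ≤ 1
  J1 : 242 ≤ γ * c * (2 * J - 1)
  L1 : 600 * (2 * J + 1) ≤ L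
  L2 : 2000000 ≤ c ^ 3 * L
  hE : E = exp (γ * L)
  hG : G = exp (c * L)
  s0 : 0 < s
  hs : s ^ 2 * E = exp L
  hEs : E * G ^ 8 ≤ s
  hT : 100 * ((2 * J + 1) * (c * L)) ≤ E
  hB : 66 * L ≤ exp (γ * L / 5)
  G1 : 128 * (2 * J + 1) * L * (L ^ 2 + 2) ^ J ≤ c * G
  G2 : 4800 * (2 * J + 1) * (L ^ 2 + 2) ^ 3 * L ^ 4 ≤ G

variable {γ c L E G s : ℝ} {J : ℕ}

lemma Cond.basic (h : Cond γ c L E G s J) : 3 ≤ J ∧ 600 ≤ L ∧ 2000000 ≤ c * L ∧
    2000000 ≤ c ^ 2 * L ∧ 2000000 ≤ E ∧ 1 ≤ G ∧ E ≤ s := by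
  have c0 := h.c0
  have c1 := h.c1
  have a1 : γ * c ≤ 1 := by nlinarith [h.γ0, h.γ1]
  have a0 : 0 < γ * c := mul_pos h.γ0 c0
  have a2 : (3 : ℝ) ≤ J := by
    by_contra hn
    nlinarith [h.J1]
  have a3 : 600 ≤ L := by nlinarith [h.L1]
  have a4 : 2000000 ≤ c ^ 2 * L := by
    have : c ^ 3 ≤ c ^ 2 := by nlinarith [mul_pos c0 c0]
    nlinarith [h.L2]
  have a5 : 2000000 ≤ c * L := by
    have : c ^ 2 ≤ c := by nlinarith
    nlinarith
  have a6 : 2000000 ≤ E := by nlinarith [h.hT]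
  have a7 : 1 ≤ G := h.hG ▸ one_le_exp (by linarith)
  refine ⟨by exact_mod_cast a2, a3, a5, a4, a6, a7, le_trans ?_ h.hEs⟩
  exact le_mul_of_one_le_right (by linarith) (one_le_pow₀ a7)

variable {V : Type*} [DecidableEq V] [Fintype V]

theorem setup (hL : (Fintype.card V : ℝ) = exp L) (h : Cond γ c L E G s J) :
    ∃ M k hh Sz τ b C len : ℕ,
      Par (wg γ) (lv (Fintype.card V) (c * L / E))
        (pl (Fintype.card V) (-((2 * J + 1) * (c * L / E)))) (3 + hh * G ^ 2) (G ^ 2) J k hh len ∧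
      Sm γ (fun (U : Sym2 V → ℝ) S => ¬ Good (lv (Fintype.card V) (c * L / E))
        (pl (Fintype.card V) (-((2 * J + 1) * (c * L / E)))) J M k hh Sz τ b C len U S)
        ((6 * J + 12) * exp (-L) + 32 * (2 * J + 1) / L) ∧
      c * L * s ^ 2 / 200 ≤ M ∧ c * k ≤ 11 * E ∧ (hh : ℝ) + 1 ≤ L ^ 2 + 2 ∧ 2 ≤ Sz ∧
      (Sz : ℝ) ≤ 2 * E ^ 2 ∧ s * G ^ 4 ≤ b ∧ (b : ℝ) ≤ 2 * (s * G ^ 4) ∧
      s * G ^ 4 * E ≤ 32 * (2 * J + 1) * L * τ ∧ (C : ℝ) ≤ 2 * (L ^ 2 * s ^ 2) ∧ E ≤ len := by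
  obtain ⟨b1, b2, b3, b4, b5, b6, b7⟩ := h.basic
  have hN' : (0 : ℝ) < Fintype.card V := hL ▸ exp_pos L
  have hN : (Fintype.card V : ℝ) = s ^ 2 * E := by rw [hL, h.hs]
  have hJ : (3 : ℝ) ≤ J := by exact_mod_cast b1
  have c0 := h.c0
  have c1 := h.c1
  have s0 := h.s0
  have γ0 := h.γ0
  have γ1 := h.γ1
  have E0 : 0 < E := by linarith
  have L0 : 0 < L := by linarith
  set y := c * L / E with hy
  have y0 : 0 < y := by positivity
  have hyE : y * E = c * L := by rw [hy]; field_simp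
  have hT : (2 * J + 1) * y ≤ 1 / 100 := by
    refine le_of_mul_le_mul_right ?_ E0
    rw [mul_assoc, hyE]; linarith [h.hT]
  have hyT : y ≤ (2 * J + 1) * y := le_mul_of_one_le_left y0.le (by linarith)
  have hyN : y * Fintype.card V = c * L * s ^ 2 := by rw [hN, ← hyE]; ring
  have hs1 : 1 ≤ s := by linarith
  have hs2 : s ≤ s ^ 2 := by nlinarith only [hs1]
  have hG4 : 1 ≤ G ^ 4 := one_le_pow₀ b6
  have hsG : 1 ≤ s * G ^ 4 := one_le_mul_of_one_le_of_one_le hs1 hG4
  have hy3 : 2000000 * L ≤ y ^ 3 * Fintype.card V := by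
    have a1 : y ^ 3 * (E ^ 2 * E) = c ^ 3 * L * L * L := by
      have : y ^ 3 * (E ^ 2 * E) = (y * E) ^ 3 := by ring
      rw [this, hyE]; ring
    have a2 : y ^ 3 * (E ^ 2 * E) ≤ y ^ 3 * (s ^ 2 * E) := by gcongr
    have a3 : 2000000 * L * 1 ≤ c ^ 3 * L * L * L := by
      gcongr
      · exact h.L2
      · linarith
    rw [hN]; linarith
  have hy2 : 2 * (s * G ^ 4) ≤ y ^ 2 * Fintype.card V := by
    refine le_of_mul_le_mul_right ?_ E0
    have a1 : y ^ 2 * Fintype.card V * E = (c ^ 2 * L * L) * (s * s) := by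
      have : y ^ 2 * (s ^ 2 * E) * E = (y * E) ^ 2 * s ^ 2 := by ring
      rw [hN, this, hyE]; ring
    have a2 : E * G ^ 4 ≤ s := le_trans (mul_le_mul_of_nonneg_left
      (pow_le_pow_right₀ b6 (by norm_num)) E0.le) h.hEs
    have a3 : 2 * (s * (E * G ^ 4)) ≤ (c ^ 2 * L * L) * (s * s) := by
      gcongr; nlinarith only [b2, b4]
    rw [a1]; linarith
  set M := ⌊y * Fintype.card V / 100⌋₊ with hM
  set k := ⌈10 * L / y⌉₊ with hk
  set l := ⌈25 * L / y⌉₊ with hl
  set hh := ⌈L ^ 2⌉₊ with hhh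
  set Sz := ⌈E ^ 2⌉₊ with hSz
  set b := ⌈s * G ^ 4⌉₊ with hb
  set τ := ⌊b / (16 * ((2 * J + 1) * y))⌋₊ with hτ
  set C := ⌈L ^ 2 * s ^ 2⌉₊ with hC
  have hM2 : y * Fintype.card V / 200 ≤ M :=
    le_trans (le_of_eq (by ring)) (floor_ge_half (by rw [hyN]; nlinarith only [b3, hs1, hs2]))
  have hceil : ∀ a : ℝ, 0 ≤ a → a ≤ y * ⌈a / y⌉₊ ∧ y * ⌈a / y⌉₊ ≤ a + y := by
    intro a ha
    have a1 := mul_le_mul_of_nonneg_left (Nat.le_ceil (a / y)) y0.le
    have a2 := mul_le_mul_of_nonneg_left (Nat.ceil_lt_add_one (div_nonneg ha y0.le)).le y0.le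
    rw [mul_add, mul_one] at a2
    rw [mul_div_cancel₀ _ y0.ne'] at a1 a2
    exact ⟨a1, a2⟩
  obtain ⟨hk1, hk2⟩ := hceil (10 * L) (by linarith)
  obtain ⟨hl1, hl2⟩ := hceil (25 * L) (by linarith)
  rw [← hk] at hk1 hk2
  rw [← hl] at hl1 hl2
  have hh1 : L ^ 2 ≤ hh := Nat.le_ceil _
  have hh2 : (hh : ℝ) < L ^ 2 + 1 := Nat.ceil_lt_add_one (by positivity)
  have hS1 : E ^ 2 ≤ Sz := Nat.le_ceil _
  have hS2 : (Sz : ℝ) ≤ 2 * E ^ 2 := ceil_le_two (by nlinarith only [b5])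
  have hb1 : s * G ^ 4 ≤ b := Nat.le_ceil _
  have hb2 : (b : ℝ) ≤ 2 * (s * G ^ 4) := ceil_le_two hsG
  have T0 : 0 < (2 * J + 1) * y := by linarith
  have hτ1 : 16 * ((2 * J + 1) * y) * τ ≤ b := by
    have : (τ : ℝ) ≤ b / (16 * ((2 * J + 1) * y)) := Nat.floor_le (by positivity)
    rwa [le_div_iff₀' (by positivity)] at this
  have hτ2 : (b : ℝ) ≤ 32 * ((2 * J + 1) * y) * τ := by
    have := floor_ge_half (y := b / (16 * ((2 * J + 1) * y)))
      ((one_le_div (by positivity)).2 (by linarith))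
    rw [div_div, div_le_iff₀ (by positivity), ← hτ] at this
    linarith
  have hC1 : L ^ 2 * s ^ 2 ≤ C := Nat.le_ceil _
  have hLs : 1 ≤ L ^ 2 * s ^ 2 := one_le_mul_of_one_le_of_one_le (by nlinarith only [b2]) (by linarith)
  have hC2 : (C : ℝ) ≤ 2 * (L ^ 2 * s ^ 2) := ceil_le_two hLs
  have hkE : E ≤ k := by
    refine le_of_mul_le_mul_left ?_ y0
    rw [hyE]; nlinarith only [hk1, c1, L0]
  have hJc : 242 * L ≤ γ * c * (2 * J - 1) * L := mul_le_mul_of_nonneg_right h.J1 L0.le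
  have hγc : γ * c * L ≤ L := by
    have : γ * c ≤ 1 := by nlinarith only [γ0, γ1, c0, c1]
    nlinarith only [this, L0]
  have hγc0 : 0 ≤ γ * c * L := by positivity
  have ham1 : 6 * L ≤ γ * (2 * J * y) * exp (γ * L) := by
    have : γ * (2 * J * y) * E = γ * (2 * J) * (y * E) := by ring
    rw [← h.hE, this, hyE]; linarith
  have hexp : ∀ x, x ≤ 1 → E / 3 ≤ exp (γ * (L - x)) := by
    intro x hx
    have a1 : E ≤ exp (γ * (L - x)) * exp 1 := by
      rw [← exp_add, h.hE]; exact exp_le_exp.2 (by nlinarith only [hx, γ0, γ1])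
    nlinarith only [a1, exp_one_lt_d9, exp_pos (γ * (L - x))]
  refine ⟨M, k, hh, Sz, τ, b, C, 2 * (k + l + 1) + 1, ⟨wg_pos γ, wg_anti γ0.le, ?_, pl_pos hN' _,
    ?_, by omega, by omega, by omega, ?_, ?_, le_rfl⟩, ?_, by rw [← hyN]; exact hM2, ?_,
    by linarith, ?_, hS2, hb1, hb2, ?_, hC2, ?_⟩
  · intro i j hij
    have : (i : ℝ) ≤ j := by exact_mod_cast hij
    exact pl_mono hN' (by nlinarith only [this, y0])
  · exact pl_mono hN' (by push_cast; linarith)
  · intro i _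
    have e : G ^ 2 = exp (2 * (c * L)) := by rw [h.hG, ← exp_nat_mul]; norm_num
    rw [e]
    refine wg_ratio hN' ?_
    rw [log_card hL]
    have a0 : (0 : ℝ) ≤ i := Nat.cast_nonneg _
    have a1 : exp (γ * (L - (2 * i - 1) * y)) ≤ E * exp (1 / 10) := by
      rw [h.hE, ← exp_add]
      refine exp_le_exp.2 ?_
      have : γ * y ≤ 1 / 10 := by nlinarith only [γ0, γ1, y0, hT, hyT]
      linarith only [this, mul_nonneg (mul_pos γ0 y0).le a0]
    have a2 := abs_exp_sub_one_sub_id_le (x := 1 / 10) (by rw [abs_of_pos] <;> norm_num)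
    have a3 := le_abs_self (exp (1 / 10) - 1 - 1 / 10)
    have a4 : exp (γ * (L - (2 * i - 1) * y)) ≤ E * 1.5 := by nlinarith only [a1, a2, a3, E0]
    have a5 : γ * ((2 * ((i + 2 : ℕ) : ℝ) - 1) * y - (2 * i - 1) * y) = γ * (4 * y) := by
      push_cast; ring
    rw [a5]
    have a6 := mul_le_mul_of_nonneg_left a4 (show 0 ≤ γ * (4 * y) by positivity)
    have a7 : γ * (4 * y) * (E * 1.5) = 6 * γ * (y * E) := by ring
    rw [a7, hyE] at a6
    nlinarith only [a6, γ1, b3]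
  · have a1 := wg_gap (γ := γ) (a := -((2 * J + 1) * y)) (b := (2 * ((0 : ℕ) : ℝ) - 1) * y)
      (G := L) hN' (by
        rw [log_card hL]
        refine le_trans (by linarith) (ham1.trans (mul_le_mul (le_of_eq (by push_cast; ring))
          (exp_le_exp.2 ?_) (exp_pos _).le (mul_nonneg γ0.le (by push_cast; linarith))))
        push_cast
        exact mul_le_mul_of_nonneg_left (by linarith) γ0.le)
    have a2 : ((2 * (k + l + 1) + 1 : ℕ) : ℝ) ≤ exp L := by
      rw [← hL]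
      refine le_of_mul_le_mul_left ?_ y0
      rw [hyN]
      push_cast
      have : c * L * E ≤ c * L * s ^ 2 := mul_le_mul_of_nonneg_left (by linarith) (by linarith)
      have a3 : 2000000 * L ≤ y * (c * L * s ^ 2) := by
        rw [← hyN]
        have : y ^ 3 * Fintype.card V ≤ y * (y * Fintype.card V) := by
          have : y ^ 3 * Fintype.card V = y * (y * (y * Fintype.card V)) := by ring
          rw [this]
          exact mul_le_of_le_one_left (by positivity) (by linarith)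
        linarith
      have a4 : y * (c * L * s ^ 2) ≤ c * L * s ^ 2 :=
        mul_le_of_le_one_left (by positivity) (by linarith)
      linarith
    have a3 := mul_le_mul a1 a2 (Nat.cast_nonneg _) (mul_pos (exp_pos _) (wg_pos _ _)).le
    refine a3.trans (le_of_eq ?_)
    rw [mul_right_comm, ← exp_add]; simp
  · refine (good_prob hL γ0.le (by linarith) y0 (by omega) hT hy3 (Nat.floor_le (by positivity))
      hM2 hk1 (by linarith) hl1 (by linarith) (by nlinarith only [h.L1, hh1, L0]) ?_ hτ1 ?_ ?_ ?_ ham1 ?_).mono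
      (fun _ _ _ h => h) ?_
    · have a1 := mul_le_mul_of_nonneg_left hS1 (sq_nonneg y)
      rw [← mul_pow, hyE] at a1
      nlinarith only [a1, b4, L0]
    · have a1 : y ^ 2 * Fintype.card V ≤ ((2 * J + 1) * y) ^ 2 * Fintype.card V := by gcongr
      have a2 : 16 * (τ : ℝ) ≤ (2 * J + 1) * y * Fintype.card V := by
        refine le_of_mul_le_mul_left ?_ T0
        linarith
      have a3 : ((2 * J + 1) * y) ^ 2 * Fintype.card V ≤ (2 * J + 1) * y * Fintype.card V / 100 := by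
        have := mul_le_mul_of_nonneg_left hT (mul_pos T0 hN').le
        linarith
      have a4 : y * Fintype.card V ≤ (2 * J + 1) * y * Fintype.card V := by gcongr
      rw [hyN] at a4
      have a5 : 2000000 ≤ c * L * s ^ 2 := by nlinarith only [b3, hs1, hs2]
      linarith only [a1, a2, a3, a4, a5, hy2, hb2]
    · have a2 : E * G ≤ b := by
        have : E * G ≤ E * G ^ 8 := mul_le_mul_of_nonneg_left (le_self_pow₀ b6 (by norm_num)) E0.le
        nlinarith only [h.hEs, this, hb1, hG4, s0]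
      have a3 := mul_le_mul_of_nonneg_left a2 y0.le
      rw [← mul_assoc, hyE] at a3
      have a4 : 2 ≤ c * G := by
        refine le_trans ?_ h.G1
        have : 1 ≤ (L ^ 2 + 2) ^ J := one_le_pow₀ (by nlinarith only [b2])
        linarith only [mul_le_mul (show (1 : ℝ) ≤ (2 * J + 1) * L by nlinarith only [hJ, b2]) this
          zero_le_one (by positivity)]
      nlinarith only [a3, a4, L0]
    · have : (0 : ℝ) < C := by linarith
      exact_mod_cast this
    · have a1 := mul_le_mul_of_nonneg_left (hexp ((2 * J - 1) * y) (by linarith))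
        (show 0 ≤ γ * ((2 * J - 4) * y) from mul_nonneg γ0.le (mul_nonneg (by linarith) y0.le))
      have a2 : γ * ((2 * J - 4) * y) * (E / 3) = γ * (2 * J - 4) * (y * E) / 3 := by ring
      rw [a2, hyE] at a1
      linarith
    · refine add_le_add le_rfl ?_
      rw [div_le_div_iff₀ (by linarith) L0, mul_assoc 32, mul_assoc _ y, hyN]
      have a1 : c * (L ^ 2 * s ^ 2) ≤ C := le_trans (mul_le_of_le_one_left (by linarith) c1) hC1
      linarith only [mul_le_mul_of_nonneg_left a1 (show 0 ≤ 32 * (2 * (J : ℝ) + 1) by linarith)]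
  · refine le_of_mul_le_mul_left ?_ L0
    have a1 : y * k * E ≤ 11 * L * E := mul_le_mul_of_nonneg_right (by linarith) E0.le
    rw [mul_right_comm, hyE] at a1
    linarith
  · have : (2 : ℝ) ≤ Sz := by nlinarith only [hS1, b5]
    exact_mod_cast this
  · have a1 := mul_le_mul_of_nonneg_right (hb1.trans hτ2) E0.le
    have a2 : 32 * ((2 * J + 1) * y) * τ * E = 32 * (2 * J + 1) * τ * (y * E) := by ring
    rw [a2, hyE] at a1
    have a3 : 32 * (2 * J + 1) * τ * (c * L) ≤ 32 * (2 * J + 1) * τ * L :=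
      mul_le_mul_of_nonneg_left (mul_le_of_le_one_left L0.le c1) (by positivity)
    linarith
  · push_cast
    have : (0 : ℝ) ≤ l := Nat.cast_nonneg _
    linarith

end Pool.Agent.Lib.MP_1c11af_pr
end

-- part Pool.Agent.Lib.MP_1c11af_pr.Low2
section

/-!
The case of a small exponent: upper and lower bounds for a fixed size.
-/

namespace Pool.Agent.Lib.MP_1c11af_pr

open Finset MeasureTheory Real
open scoped Classical

set_option linter.unusedSectionVars false

variable {γ c L E G s : ℝ} {J : ℕ} {V : Type*} [DecidableEq V] [Fintype V]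

theorem low_upper (hL : (Fintype.card V : ℝ) = exp L) (h : Cond γ c L E G s J) (r : ℕ)
    (hr : 3 ≤ 4 * c * r) (hG4 : 2 * r * (J + 1) + 240 / c ≤ G) :
    ∃ K : ℕ, (K : ℝ) ≤ s * G ^ 8 ∧ Ph (wg γ) (fun (_ : Sym2 V → ℝ) S => ∃ P, PathIn S P K) ≤
      ENNReal.ofReal (exp (-(0.08 * L)) + (6 * J + 20) * exp (-L) + 32 * (2 * J + 1) / L) := by
  have := nonempty_of_card hL
  obtain ⟨M, k, hh, Sz, τ, b, C, len, hp, hs, _, p2, p3, p4, p5, p6, p7, p8, p9, _⟩ := setup hL h
  obtain ⟨b1, b2, b3, b4, b5, b6, b7⟩ := h.basic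
  have hN : (Fintype.card V : ℝ) = s ^ 2 * E := by rw [hL, h.hs]
  have hJ : (3 : ℝ) ≤ J := by exact_mod_cast b1
  have c0 := h.c0
  have c1 := h.c1
  have s0 := h.s0
  have E0 : 0 < E := by linarith
  have L0 : 0 < L := by linarith
  have G0 : 0 < G := by linarith
  set y := c * L / E with hy
  have y0 : 0 < y := by positivity
  have hyE : y * E = c * L := by rw [hy]; field_simp
  have hT : (2 * J + 1) * y ≤ 1 / 100 := by
    refine le_of_mul_le_mul_right ?_ E0
    rw [mul_assoc, hyE]; linarith [h.hT]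
  set g := (2 * J - 1) * y / 1.1 ^ 2 with hg
  have hgy : y ≤ g := by
    rw [hg, le_div_iff₀ (by norm_num)]; nlinarith only [hJ, y0]
  have hy3 : 2000000 * L ≤ y ^ 3 * Fintype.card V := by
    have a1 : y ^ 3 * (E ^ 2 * E) = c ^ 3 * L * L * L := by
      have : y ^ 3 * (E ^ 2 * E) = (y * E) ^ 3 := by ring
      rw [this, hyE]; ring
    have a2 : y ^ 3 * (E ^ 2 * E) ≤ y ^ 3 * (s ^ 2 * E) := by gcongr
    have a3 : 2000000 * L * 1 ≤ c ^ 3 * L * L * L := by
      gcongr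
      · exact h.L2
      · linarith
    rw [hN]; linarith
  obtain ⟨R, hR, hds⟩ := ds_main hL (γ := γ) (g := g) h.γ0 (by linarith)
    (by rw [hg, div_le_one (by norm_num)]; linarith) (by linarith)
    (hy3.trans (by gcongr)) (by
      have a1 : γ * g * E = γ * (2 * J - 1) * (y * E) / 1.1 ^ 2 := by rw [hg]; ring
      rw [← h.hE, a1, hyE, le_div_iff₀ (by norm_num)]
      linarith [mul_le_mul_of_nonneg_right h.J1 L0.le]) h.hB
  have hlv : pl (Fintype.card V) (g * 1.1 ^ 2) = lv (Fintype.card V) y J := by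
    rw [lv, hg, div_mul_cancel₀ _ (by norm_num)]
  rw [hlv] at hds
  set Q := L ^ 2 + 2 with hQ
  have Q1 : 1 ≤ Q := by nlinarith only [hQ, b2]
  have hG3 : 1 ≤ G ^ 3 := one_le_pow₀ b6
  set f := ⌊s * G ^ 3 / E⌋₊ with hf
  have f1 : f * E ≤ s * G ^ 3 := by
    have : (f : ℝ) ≤ s * G ^ 3 / E := Nat.floor_le (by positivity)
    rwa [le_div_iff₀ E0] at this
  have f0 : 1 ≤ s * G ^ 3 / E := by
    rw [one_le_div E0]; nlinarith only [b7, hG3, s0]
  have f2 : s * G ^ 3 ≤ 2 * E * f := by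
    have := floor_ge_half f0
    rw [div_div, div_le_iff₀ (by positivity), ← hf] at this
    linarith
  have f3 : 1 ≤ f := (Nat.one_le_floor_iff _).2 f0
  have hH : (((hh + 1) ^ J : ℕ) : ℝ) ≤ Q ^ J := by
    push_cast; exact pow_le_pow_left₀ (by positivity) p3 J
  have QJ : 0 < Q ^ J := by positivity
  have g1 := h.G1
  rw [← hQ] at g1
  have hθ0 : f * (hh + 1) ^ J * k ≤ b := by
    have a1 : (f * E) * (((hh + 1) ^ J : ℕ) : ℝ) * (c * k) ≤ (s * G ^ 3) * Q ^ J * (11 * E) := by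
      gcongr
    have a2 : 11 * Q ^ J ≤ c * G :=
      le_trans (mul_le_mul_of_nonneg_right (by nlinarith only [hJ, b2]) QJ.le) g1
    have a3 := mul_le_mul_of_nonneg_left a2 (show 0 ≤ s * G ^ 3 * E by positivity)
    have a4 := mul_le_mul_of_nonneg_left p6 (show 0 ≤ c * E by positivity)
    have a5 : (f : ℝ) * (((hh + 1) ^ J : ℕ) : ℝ) * k ≤ b := by
      refine le_of_mul_le_mul_left ?_ (show 0 < c * E by positivity)
      linarith only [a1, a3, a4]
    exact_mod_cast a5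
  have hθ1 : 2 * (f * (hh + 1) ^ J * Sz) ≤ τ := by
    have a1 : (f * E) * (((hh + 1) ^ J : ℕ) : ℝ) * Sz ≤ (s * G ^ 3) * Q ^ J * (2 * E ^ 2) := by
      gcongr
    have a2 : 128 * (2 * J + 1) * L * Q ^ J ≤ G := g1.trans (mul_le_of_le_one_left G0.le c1)
    have a3 := mul_le_mul_of_nonneg_left a2 (show 0 ≤ s * G ^ 3 * E ^ 2 by positivity)
    have a4 := mul_le_mul_of_nonneg_left p8 E0.le
    have a6 := mul_le_mul_of_nonneg_left a1 (show 0 ≤ 64 * (2 * J + 1) * L by positivity)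
    have a5 : 2 * ((f : ℝ) * (((hh + 1) ^ J : ℕ) : ℝ) * Sz) ≤ τ := by
      refine le_of_mul_le_mul_left ?_ (show 0 < 32 * (2 * J + 1) * L * E by positivity)
      linarith only [a3, a4, a6]
    exact_mod_cast a5
  have hθ2 : ∀ i < J, f + f * (hh + 1) ^ (J - (i + 1)) * hh ≤ f * (hh + 1) ^ (J - i) := by
    intro i hi
    rw [show J - i = J - (i + 1) + 1 by omega, pow_succ, ← mul_assoc, mul_add, mul_one]
    have : f ≤ f * (hh + 1) ^ (J - (i + 1)) := Nat.le_mul_of_pos_right _ (by positivity)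
    omega
  have hθ3 : ∀ i < J, τ / 2 + f * (hh + 1) ^ (J - (i + 1)) * hh * Sz ≤ τ := by
    intro i hi
    have a1 : f * (hh + 1) ^ (J - i) ≤ f * (hh + 1) ^ J :=
      Nat.mul_le_mul_left _ (Nat.pow_le_pow_right (by omega) (by omega))
    have a2 : f * (hh + 1) ^ (J - (i + 1)) * hh * Sz ≤ f * (hh + 1) ^ J * Sz :=
      Nat.mul_le_mul_right _ (by have := hθ2 i hi; omega)
    omega
  have hτ : τ ≤ 4 * (τ / 2 - hh) ∧ 0 < τ := by
    have a1 : hh + 1 ≤ (hh + 1) ^ J := Nat.le_self_pow (by omega) _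
    have a2 : 1 * (hh + 1) * 2 ≤ f * (hh + 1) ^ J * Sz := by gcongr
    omega
  have hF0 : 0 < f * (τ / 2 - hh) := Nat.mul_pos f3 (by omega)
  have hF : (3 + hh * G ^ 2) * C / ((f * (τ / 2 - hh) : ℕ) : ℝ) ≤ (G ^ 4)⁻¹ := by
    have a0 : (0 : ℝ) < ((f * (τ / 2 - hh) : ℕ) : ℝ) := by exact_mod_cast hF0
    have a1 : (f : ℝ) * τ ≤ 4 * ((f * (τ / 2 - hh) : ℕ) : ℝ) := by
      have := Nat.mul_le_mul_left f hτ.1
      rw [mul_left_comm] at this
      exact_mod_cast this
    generalize ((f * (τ / 2 - hh) : ℕ) : ℝ) = F at a0 a1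
    rw [div_le_iff₀ a0, ← div_eq_inv_mul, le_div_iff₀ (by positivity)]
    have a2 : 3 + hh * G ^ 2 ≤ 4 * Q * G ^ 2 := by
      have : 1 ≤ G ^ 2 := one_le_pow₀ b6
      nlinarith only [this, p3, Q1]
    have a3 : (3 + hh * G ^ 2) * C * G ^ 4 ≤ 4 * Q * G ^ 2 * (2 * (L ^ 2 * s ^ 2)) * G ^ 4 := by
      gcongr
    have a4 : s * G ^ 3 * (s * G ^ 4 * E) ≤ 2 * E * f * (32 * (2 * J + 1) * L * τ) := by gcongr
    have a5 := mul_le_mul_of_nonneg_left a1 (show 0 ≤ 64 * (2 * J + 1) * L * E by positivity)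
    have a6 : 2048 * (2 * J + 1) * Q * L ^ 3 ≤ G := by
      refine le_trans ?_ h.G2
      rw [← hQ]
      gcongr
      · norm_num
      · exact le_self_pow₀ Q1 (by norm_num)
      · linarith
      · norm_num
    have a7 := mul_le_mul_of_nonneg_left a6 (show 0 ≤ s ^ 2 * G ^ 6 * E by positivity)
    refine a3.trans (le_of_mul_le_mul_left ?_ (show 0 < 256 * (2 * J + 1) * L * E by positivity))
    linarith only [a4, a5, a7]
  refine ⟨r * ((J + 1) * b) + R, ?_, ?_⟩
  · have a1 : (R : ℝ) ≤ 240 / c * (s * G ^ 4) := by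
      have a2 : 240 * L / g ≤ 240 * L / y := by gcongr
      have a3 : 240 * L / y = 240 / c * E := by rw [hy]; field_simp
      have a4 : E ≤ s * G ^ 4 := b7.trans (le_mul_of_one_le_right s0.le (one_le_pow₀ b6))
      have a5 : 240 / c * E ≤ 240 / c * (s * G ^ 4) := by gcongr
      linarith only [hR, a2, a3, a5]
    have a2 : (r : ℝ) * ((J + 1) * b) ≤ r * ((J + 1) * (2 * (s * G ^ 4))) := by gcongr
    have a3 := mul_le_mul_of_nonneg_right hG4 (show 0 ≤ s * G ^ 4 by positivity)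
    have a4 : s * G ^ 5 ≤ s * G ^ 8 :=
      mul_le_mul_of_nonneg_left (pow_le_pow_right₀ b6 (by norm_num)) s0.le
    push_cast
    linarith only [a1, a2, a3, a4]
  · have hsw := upper_switch (V := V) (wg_meas γ) hp.w0 hp.anti (p0 := lv (Fintype.card V) y 0)
      (pY := lv (Fintype.card V) y J) (Λ := 3 + hh * G ^ 2) (hp.pm0.le.trans hp.pm1)
      (hp.mono (Nat.zero_le _)) (by positivity) M C _ r hF0
    refine (Ph_le_of_Sm (hds.or hs) ?_).trans ((add_le_add le_rfl hsw).trans ?_)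
    · rintro U S hS ⟨P, hP⟩
      by_cases h1 : ∀ P, ¬ PathIn (S ∩ lev U (lv (Fintype.card V) y J)) P (r * ((J + 1) * b))
      · exact Or.inl (Or.inl ⟨_, h1, P, hP⟩)
      push Not at h1
      obtain ⟨P', hP'⟩ := h1
      by_cases h2 : Good (lv (Fintype.card V) y) (pl (Fintype.card V) (-((2 * J + 1) * y)))
        J M k hh Sz τ b C len U S
      · exact Or.inr (h2.upper hp hS (fun j => f * (hh + 1) ^ (J - j)) hθ0 (by positivity)
          hθ2 hθ3 r hP')
      · exact Or.inl (Or.inr h2)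
    · rw [← ENNReal.ofReal_add (by positivity) (by positivity)]
      refine ENNReal.ofReal_le_ofReal ?_
      have a1 : (Fintype.card V : ℝ) ^ 2 * ((3 + hh * G ^ 2) * C /
          ((f * (τ / 2 - hh) : ℕ) : ℝ)) ^ r ≤ (Fintype.card V : ℝ) ^ 2 * ((G ^ 4)⁻¹) ^ r := by
        gcongr
      have a2 : (Fintype.card V : ℝ) ^ 2 * ((G ^ 4)⁻¹) ^ r ≤ exp (-L) := by
        rw [hL, h.hG, ← exp_nat_mul, ← exp_nat_mul, ← exp_neg, ← exp_nat_mul, ← exp_add]
        refine exp_le_exp.2 ?_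
        push_cast
        linarith only [mul_le_mul_of_nonneg_right hr L0.le]
      linarith only [a1, a2]

theorem low_lower (hL : (Fintype.card V : ℝ) = exp L) (h : Cond γ c L E G s J) (D : ℕ)
    (hD : D * G ^ 8 ≤ s) :
    Ph (wg γ) (fun (_ : Sym2 V → ℝ) S => ∀ u v, Wd S D u v) ≤
      ENNReal.ofReal ((6 * J + 12) * exp (-L) + 32 * (2 * J + 1) / L + exp (-(c * L))) := by
  have := nonempty_of_card hL
  obtain ⟨M, k, hh, Sz, τ, b, C, len, hp, hs, p1, _, p3, _, p5, _, _, _, p9, p10⟩ := setup hL h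
  obtain ⟨b1, b2, b3, b4, b5, b6, b7⟩ := h.basic
  have hJ : (3 : ℝ) ≤ J := by exact_mod_cast b1
  have s0 := h.s0
  have E0 : 0 < E := by linarith
  have L0 : 0 < L := by linarith
  have G0 : 0 < G := by linarith
  set Q := L ^ 2 + 2 with hQ
  have Q1 : 1 ≤ Q := by nlinarith only [hQ, b2]
  have hG8 : G ≤ G ^ 8 := le_self_pow₀ b6 (by norm_num)
  have g2 := h.G2
  rw [← hQ] at g2
  have hQG : Q ≤ G := by
    refine le_trans ?_ g2
    calc Q = 1 * Q ^ 1 * 1 := by ring
      _ ≤ _ := by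
        gcongr
        · linarith
        · norm_num
        · exact one_le_pow₀ (by linarith)
  have hGs : G ≤ s := by nlinarith only [hG8, h.hEs, b5, G0]
  have hDs : (D : ℝ) ≤ s := le_trans (le_mul_of_one_le_right (Nat.cast_nonneg _) (by linarith)) hD
  have hM : 2 * s ^ 2 ≤ M := by nlinarith only [p1, b3, sq_nonneg s]
  have hM' : 10000 * s ^ 2 ≤ M := by nlinarith only [p1, b3, sq_nonneg s]
  have m1 : 2 * Sz ≤ M := by
    have a1 : E ^ 2 ≤ s ^ 2 := by gcongr
    have : 2 * (Sz : ℝ) ≤ M := by nlinarith only [a1, p5, hM', sq_nonneg s]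
    exact_mod_cast this
  have m2 : 2 * ((D + 1) * hh) ≤ M := by
    have a1 : ((D : ℝ) + 1) * hh ≤ (2 * s) * s := by
      gcongr <;> linarith
    have : 2 * (((D : ℝ) + 1) * hh) ≤ M := by nlinarith only [a1, hM', sq_nonneg s]
    exact_mod_cast this
  set B := 2 * ((D / len + 1) * hh) + 1 with hB
  have hB1 : B * (E * G ^ 8) ≤ 5 * Q * s := by
    have a1 : ((D / len : ℕ) : ℝ) * len ≤ D := by exact_mod_cast Nat.div_mul_le_self D len
    have a2 : ((D / len : ℕ) : ℝ) * (E * G ^ 8) ≤ s := by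
      have : ((D / len : ℕ) : ℝ) * E ≤ D := le_trans (by gcongr) a1
      rw [← mul_assoc]
      exact le_trans (by gcongr) hD
    have a3 : (B : ℝ) = 2 * ((((D / len : ℕ) : ℝ) + 1) * hh) + 1 := by rw [hB]; push_cast; ring
    have a4 := mul_le_mul (show (hh : ℝ) ≤ Q by linarith) (add_le_add a2 h.hEs) (by positivity)
      (by linarith)
    have a5 := mul_le_mul Q1 h.hEs (by positivity) (by linarith)
    rw [a3]
    linarith only [a4, a5]
  have hsw := lower_switch (V := V) (wg_meas γ) hp.w0 (lv (Fintype.card V) (c * L / E)) J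
    (Λ := 3 + hh * G ^ 2) (F := s ^ 6) (by positivity) (by positivity) M C B Sz
  refine (Ph_le_of_Sm hs ?_).trans ((add_le_add le_rfl hsw).trans ?_)
  · intro U S hS hW
    by_cases h2 : Good (lv (Fintype.card V) (c * L / E))
      (pl (Fintype.card V) (-((2 * J + 1) * (c * L / E)))) J M k hh Sz τ b C len U S
    · right
      have a1 := h2.lower hp hS hW (le_refl B)
      have a2 : M * M * M ≤ M * (2 * (M - Sz)) * (2 * (M - (D + 1) * hh)) := by
        gcongr <;> omega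
      have a3 : M * M * M ≤ 8 * (univ.filter (GoodT (wg γ) (lv (Fintype.card V) (c * L / E)) J
          (3 + hh * G ^ 2) M C B Sz U S)).card := by
        calc _ ≤ _ := a2
          _ = 4 * (M * (M - Sz) * (M - (D + 1) * hh)) := by ring
          _ ≤ _ := by omega
      have a4 : (M : ℝ) * M * M ≤ 8 * (univ.filter (GoodT (wg γ) (lv (Fintype.card V) (c * L / E)) J
          (3 + hh * G ^ 2) M C B Sz U S)).card := by exact_mod_cast a3
      have a5 : (2 * s ^ 2) * (2 * s ^ 2) * (2 * s ^ 2) ≤ (M : ℝ) * M * M := by gcongr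
      linarith only [a4, a5]
    · exact Or.inl h2
  · rw [← ENNReal.ofReal_add (by positivity) (by positivity)]
    refine ENNReal.ofReal_le_ofReal (add_le_add le_rfl ?_)
    rw [exp_neg, ← h.hG, div_le_iff₀ (by positivity), ← div_eq_inv_mul, le_div_iff₀ G0]
    have a1 : (1 : ℝ) ≤ B := by exact_mod_cast (by omega : 1 ≤ B)
    have a2 : 3 + hh * G ^ 2 ≤ 4 * Q * G ^ 2 := by
      have : 1 ≤ G ^ 2 := one_le_pow₀ b6
      nlinarith only [this, p3, Q1]
    have a3 : (3 + hh * G ^ 2) * ((J : ℝ) * (C * C * (2 * B * ((2 * B + 1) * Sz)))) * G ≤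
        4 * Q * G ^ 2 * ((2 * J + 1) * (2 * (L ^ 2 * s ^ 2) * (2 * (L ^ 2 * s ^ 2)) *
          (2 * B * ((3 * B) * (2 * E ^ 2))))) * G := by
      gcongr <;> linarith
    have a4 : (B * (E * G ^ 8)) ^ 2 ≤ (5 * Q * s) ^ 2 := by gcongr
    have a5 := mul_le_mul_of_nonneg_left a4
      (show 0 ≤ 192 * Q * G ^ 3 * (2 * J + 1) * L ^ 4 * s ^ 4 by positivity)
    have a6 := mul_le_mul_of_nonneg_left g2 (show 0 ≤ G ^ 3 * s ^ 6 by positivity)
    have a7 : G ^ 4 * s ^ 6 ≤ G ^ 16 * s ^ 6 :=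
      mul_le_mul_of_nonneg_right (pow_le_pow_right₀ b6 (by norm_num)) (by positivity)
    push_cast
    refine a3.trans (le_of_mul_le_mul_left ?_ (show 0 < G ^ 16 by positivity))
    linarith only [a5, a6, a7]

end Pool.Agent.Lib.MP_1c11af_pr
end

-- part Pool.Agent.Lib.MP_1c11af_pr.High
section

/-!
The case of a large exponent: the tree behaves like the minimum spanning tree.
-/

namespace Pool.Agent.Lib.MP_1c11af_pr

open Finset MeasureTheory Real
open scoped Classical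

set_option linter.unusedSectionVars false

variable {V : Type*} [DecidableEq V] [Fintype V] {L : ℝ}

lemma high_aux {γ : ℝ} (hγ : 1 / 3 ≤ γ) (hL1 : 30000 ≤ L) :
    L ^ 5 ≤ exp (L / 3) ∧ exp (L / 3) ^ 3 = exp L ∧
      200 * L ≤ γ * (L ^ 2 / exp (L / 3)) * exp (γ * L) ∧ 66 * L ≤ exp (γ * L / 5) := by
  have h1 : 66 * L ≤ exp (L / 15) := by
    have := quadratic_le_exp_of_nonneg (x := L / 15) (by linarith)
    nlinarith
  refine ⟨?_, ?_, ?_, h1.trans (exp_le_exp.2 (by nlinarith))⟩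
  · have h2 : exp (L / 3) = exp (L / 15) ^ 5 := by
      rw [← exp_nat_mul]; congr 1; push_cast; ring
    rw [h2]
    exact pow_le_pow_left₀ (by linarith) (by linarith) 5
  · rw [← exp_nat_mul]; congr 1; push_cast; ring
  · have h2 : exp (L / 3) ≤ exp (γ * L) := exp_le_exp.2 (by nlinarith)
    have h3 := exp_pos (L / 3)
    have h4 : L ^ 2 ≤ L ^ 2 / exp (L / 3) * exp (γ * L) := by
      rw [div_mul_eq_mul_div, le_div_iff₀ h3]
      exact mul_le_mul_of_nonneg_left h2 (sq_nonneg _)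
    rw [mul_assoc]
    nlinarith [mul_le_mul hγ h4 (sq_nonneg _) (by linarith)]

theorem high_upper (hL : (Fintype.card V : ℝ) = exp L) {γ : ℝ} (hγ : 1 / 3 ≤ γ)
    (hL1 : 30000 ≤ L) : ∃ K : ℕ, (K : ℝ) ≤ L ^ 6 * exp (L / 3) ∧
      Sm γ (fun (_ : Sym2 V → ℝ) S => ∃ P, PathIn S P K)
        (exp (-(0.08 * L)) + 8 * exp (-L) + 620 / L) := by
  have := nonempty_of_card hL
  obtain ⟨a1, a2, a3, a4⟩ := high_aux hγ hL1
  set t := exp (L / 3) with ht
  have ht0 : 0 < t := exp_pos _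
  have hL0 : 0 < L := by linarith
  have hN : (Fintype.card V : ℝ) = t ^ 3 := by rw [hL, a2]
  set g := L ^ 2 / t with hg
  have hg0 : 0 < g := by positivity
  have hgt : g * t = L ^ 2 := by rw [hg]; field_simp
  have hL2 : 30000 * L ≤ L ^ 2 := by nlinarith
  have hL3 : 30000 * L ^ 2 ≤ L ^ 3 := by nlinarith
  have hL4 : 30000 * L ^ 3 ≤ L ^ 4 := by nlinarith
  have hL5 : 30000 * L ^ 4 ≤ L ^ 5 := by nlinarith
  have hL6 : 30000 * L ^ 5 ≤ L ^ 6 := by nlinarith
  have hξ1 : L * g ≤ 1 / 1000 := by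
    rw [hg, ← mul_div_assoc, div_le_iff₀ ht0]; nlinarith
  have hg1 : g ≤ 1 / 1000 := by nlinarith
  have hg3 : g ^ 3 * t ^ 3 = L ^ 6 := by rw [← mul_pow, hgt]; ring
  obtain ⟨R, hR, hs⟩ := ds_main hL (γ := γ) (g := g) (by linarith) hg0 (by linarith) (by linarith)
    (by rw [hN, hg3]; linarith) a3 a4
  set ξ := L * g with hξ
  have hξ0 : 0 < ξ := by positivity
  have hξt : ξ * t = L ^ 3 := by rw [hξ, mul_assoc, hgt]; ring
  have ht1 : 1 ≤ t := one_le_exp (by linarith)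
  have hξN : 24 ≤ ξ * t ^ 3 := by
    have : ξ * t ^ 3 = L ^ 3 * t ^ 2 := by rw [← hξt]; ring
    nlinarith [one_le_pow₀ (n := 2) ht1]
  set τ := ⌊ξ * t ^ 3 / 16⌋₊ with hτ
  set k := ⌈ξ ^ 2 * t ^ 3 / 4⌉₊ with hk
  have hτ1 : (τ : ℝ) ≤ ξ * t ^ 3 / 16 := Nat.floor_le (by positivity)
  have hτ2 : ξ * t ^ 3 / 16 < τ + 1 := Nat.lt_floor_add_one _
  have hk1 : ξ ^ 2 * t ^ 3 / 4 ≤ k := Nat.le_ceil _
  have hk2 : (k : ℝ) < ξ ^ 2 * t ^ 3 / 4 + 1 := Nat.ceil_lt_add_one (by positivity)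
  have hk3 : ξ ^ 2 * t ^ 3 = L ^ 6 * t := by
    have : ξ ^ 2 * t ^ 3 = (ξ * t) ^ 2 * t := by ring
    rw [this, hξt]; ring
  refine ⟨k + R, ?_, ?_⟩
  · push_cast
    have b1 : 240 * L / g ≤ t := by
      rw [div_le_iff₀ hg0, mul_comm t, hgt]; linarith
    have b2 : 30000 * t ≤ L ^ 6 * t := mul_le_mul_of_nonneg_right (by linarith) ht0.le
    linarith
  · have s1 := Sm.env (γ := γ) (cl_small_le (V := V) (x := g * 1.1 ^ 2) (x' := g * 1.1 ^ 2) k τ hξ0
      (by linarith) (by linarith) (by rw [log_card hL]; linarith) (by nlinarith)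
      (by rw [log_card hL]; linarith) (by nlinarith) (by
        rw [hN]
        have : ξ ^ 2 * t ^ 3 ≤ ξ * t ^ 3 := by nlinarith
        linarith))
    have b1 := few_big_le (V := V) (x := g * 1.1 ^ 2) (c := ((τ + 1 : ℕ) : ℝ)) (τ + 1)
      (by positivity) (by linarith) (by
        rw [hN]
        have : g * t ^ 3 = L ^ 2 * t ^ 2 := by rw [← hgt]; ring
        nlinarith [one_le_pow₀ (n := 2) ht1]) (by
        push_cast
        have c1 : g ^ 2 * (ξ * t ^ 3 / 16) = L * (g ^ 3 * t ^ 3) / 16 := by rw [hξ]; ring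
        have c2 := mul_le_mul_of_nonneg_left hτ2.le (sq_nonneg g)
        have c3 : 0 ≤ g ^ 2 * (τ + 1) := by positivity
        nlinarith)
    have b2 : (mu (Sym2 V)).real {U | ((τ + 1 : ℕ) : ℝ) ≤
        ((big (lev U (pl (Fintype.card V) (g * 1.1 ^ 2))) (τ + 1)).card : ℝ)} ≤ 620 / L := by
      rw [le_div_iff₀ hL0]
      have c1 := mul_le_mul_of_nonneg_right (show ξ * t ^ 3 / 16 ≤ ((τ + 1 : ℕ) : ℝ) by
        push_cast; linarith) (measureReal_nonneg (μ := mu (Sym2 V)) (s := {U | ((τ + 1 : ℕ) : ℝ) ≤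
        ((big (lev U (pl (Fintype.card V) (g * 1.1 ^ 2))) (τ + 1)).card : ℝ)}))
      have c2 := c1.trans b1
      rw [hN] at c2 ⊢
      refine le_of_mul_le_mul_right ?_ (show 0 < g * t ^ 3 by positivity)
      have c3 : 0 < g * t ^ 3 := by positivity
      rw [hξ] at c2
      linarith
    refine ((hs.or s1).or (Sm.env b2)).mono ?_ ?_
    · rintro U S _ ⟨P, hP⟩
      by_cases h1 : ∀ P, ¬ PathIn (S ∩ lev U (pl (Fintype.card V) (g * 1.1 ^ 2))) P k
      · exact Or.inl (Or.inl ⟨k, h1, P, hP⟩)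
      push Not at h1
      obtain ⟨Q, hQ⟩ := h1
      have hQ' := hQ.mono Finset.inter_subset_right
      rcases le_or_gt (cl (lev U (pl (Fintype.card V) (g * 1.1 ^ 2))) (vs Q k)).card τ with h2 | h2
      · exact Or.inl (Or.inr ⟨Q, hQ', h2⟩)
      · refine Or.inr (Nat.cast_le.2 (le_trans h2 (Finset.card_le_card ?_)))
        have h3 : ∀ z ∈ cl (lev U (pl (Fintype.card V) (g * 1.1 ^ 2))) (vs Q k),
            Rc (lev U (pl (Fintype.card V) (g * 1.1 ^ 2))) (Q 0) z := by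
          intro z hz
          obtain ⟨v, hv, hvz⟩ := mem_cl.1 hz
          obtain ⟨j, hj, rfl⟩ := mem_vs.1 hv
          exact (rc_of_steps (Nat.zero_le j) (fun l _ h4 => hQ'.2 l (by omega))).trans hvz
        intro z hz
        rw [mem_big, ← csz_eq (h3 z hz)]
        exact le_trans h2 (Finset.card_le_card (fun z hz => mem_cl_single.2 (h3 z hz)))
    · have : (Fintype.card V : ℝ) * exp (-(ξ * k / 4)) ≤ exp (-L) := by
        rw [hL, ← exp_add]
        refine exp_le_exp.2 ?_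
        have c1 := mul_le_mul_of_nonneg_left hk1 hξ0.le
        have c2 : ξ * (ξ ^ 2 * t ^ 3 / 4) = L ^ 3 * L ^ 6 / 4 := by rw [hk3, ← hξt]; ring
        nlinarith
      linarith

theorem high_lower (hL : (Fintype.card V : ℝ) = exp L) {γ : ℝ} (hγ : 1 / 3 ≤ γ)
    (hL1 : 30000 ≤ L) (D : ℕ) (hD : (D : ℝ) ≤ exp (L / 3) / L ^ 2) :
    Sm γ (fun (_ : Sym2 V → ℝ) S => ∀ u v, Wd S D u v) (4 * exp (-L) + 320000 / L ^ 6) := by
  have := nonempty_of_card hL
  obtain ⟨a1, a2, a3, a4⟩ := high_aux hγ hL1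
  set t := exp (L / 3) with ht
  have ht0 : 0 < t := exp_pos _
  have hL0 : 0 < L := by linarith
  have hN : (Fintype.card V : ℝ) = t ^ 3 := by rw [hL, a2]
  set g := L ^ 2 / t with hg
  have hg0 : 0 < g := by positivity
  have hgt : g * t = L ^ 2 := by rw [hg]; field_simp
  have hL2 : 30000 * L ≤ L ^ 2 := by nlinarith
  have hL3 : 30000 * L ^ 2 ≤ L ^ 3 := by nlinarith
  have hL4 : 30000 * L ^ 3 ≤ L ^ 4 := by nlinarith
  have hL5 : 30000 * L ^ 4 ≤ L ^ 5 := by nlinarith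
  have hL6 : 30000 * L ^ 5 ≤ L ^ 6 := by nlinarith
  have hg1 : g ≤ 1 / 1000 := by
    rw [hg, div_le_iff₀ ht0]; nlinarith
  have hg3 : g ^ 3 * t ^ 3 = L ^ 6 := by rw [← mul_pow, hgt]; ring
  have ht1 : 1 ≤ t := one_le_exp (by linarith)
  have hgN : g * t ^ 3 = L ^ 2 * t ^ 2 := by rw [← hgt]; ring
  have hgN' : L ^ 2 * t ≤ g * t ^ 3 := by
    rw [hgN]; exact mul_le_mul_of_nonneg_left (by nlinarith) (sq_nonneg _)
  have htL : 30000 * t ≤ L ^ 2 * t := mul_le_mul_of_nonneg_right (by linarith) ht0.le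
  have hgD : g * D ≤ 1 := by
    rw [le_div_iff₀ (by positivity), ← hgt] at hD
    exact le_of_mul_le_mul_right (by linarith) ht0
  set M := ⌊g * t ^ 3 / 100⌋₊ with hM
  have hM1 : (M : ℝ) ≤ g * t ^ 3 / 100 := Nat.floor_le (by positivity)
  have hM2 : g * t ^ 3 / 200 ≤ M :=
    le_trans (le_of_eq (by ring)) (floor_ge_half (by linarith))
  set a := ⌈t⌉₊ with ha
  have ha1 : t ≤ a := Nat.le_ceil _
  have ha2 : (a : ℝ) ≤ 2 * t := ceil_le_two ht1
  have s1 := Sm.env (γ := γ) (none_large_le (V := V) (x := g) a M hg0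
    (by rw [log_card hL]; linarith) (by rw [min_eq_left (by linarith), hN]; linarith))
  have s2 := am_le hL (γ := γ) (a := g) (b := 1.1 * g) (by linarith) (by
    have := gap_ge (L := L) (γ := γ) (b := 1.1 * g) (by linarith) hg0 (by linarith)
      (by linarith) a3 a4
    rwa [show 1.1 * g / 11 = 1.1 * g - g by ring] at this)
  have b1 := close_pairs_le (V := V) D (x := 1.1 * g) (c := (M : ℝ) ^ 2) (by linarith)
    (by rw [log_card hL]; linarith)
  have b2 : (mu (Sym2 V)).real {U | (M : ℝ) ^ 2 ≤ ((univ.filter (fun y : V × V =>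
      Wd (lev U (pl (Fintype.card V) (1.1 * g))) D y.1 y.2)).card : ℝ)} ≤ 320000 / L ^ 6 := by
    rw [le_div_iff₀ (by positivity)]
    have c1 := mul_le_mul_of_nonneg_right (pow_le_pow_left₀ (by positivity) hM2 2)
      (measureReal_nonneg (μ := mu (Sym2 V)) (s := {U | (M : ℝ) ^ 2 ≤
        ((univ.filter (fun y : V × V =>
          Wd (lev U (pl (Fintype.card V) (1.1 * g))) D y.1 y.2)).card : ℝ)}))
    have c2 := mul_le_mul_of_nonneg_left (c1.trans b1) hg0.le
    have c3 : exp (1.1 * g * D) ≤ 4 := by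
      have d1 : exp (1.1 * g * D) ≤ exp 1 * exp 0.1 := by
        rw [← exp_add]; exact exp_le_exp.2 (by linarith)
      have d2 := abs_exp_sub_one_sub_id_le (x := 0.1) (by rw [abs_of_pos] <;> norm_num)
      have d3 := le_abs_self (exp 0.1 - 1 - 0.1)
      nlinarith [exp_one_lt_d9, exp_pos 1, exp_pos 0.1]
    have c4 : g * ((D + 1) * (Fintype.card V * exp (1.1 * g * D))) ≤ 2 * (t ^ 3 * 4) := by
      rw [← mul_assoc, hN]
      exact mul_le_mul (by linarith) (mul_le_mul_of_nonneg_left c3 (by positivity))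
        (by positivity) (by norm_num)
    have c5 := c2.trans c4
    rw [← hg3]
    refine le_of_mul_le_mul_right ?_ (show 0 < t ^ 3 by positivity)
    linarith
  refine ((s1.or s2).or (Sm.env b2)).mono ?_ ?_
  · intro U S hS hW
    by_contra hcon
    simp only [not_or, not_forall, not_lt, not_not, not_le] at hcon
    obtain ⟨⟨⟨v, hv⟩, c2⟩, c3⟩ := hcon
    have h1 : cl (lev U (pl (Fintype.card V) g)) {v} ×ˢ cl (lev U (pl (Fintype.card V) g)) {v} ⊆
        univ.filter (fun y : V × V =>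
          Wd (lev U (pl (Fintype.card V) (1.1 * g))) D y.1 y.2) := by
      rintro ⟨x, y⟩ hxy
      obtain ⟨h2, h3⟩ := Finset.mem_product.1 hxy
      have h4 := (mem_cl_single.1 h2).symm.trans (mem_cl_single.1 h3)
      obtain ⟨m, hm, P, hP, h5, h6⟩ := (hW x y).exists_path
      dsimp only at h4
      subst h5 h6
      refine Finset.mem_filter.2 ⟨Finset.mem_univ _, (wd_of_steps (fun l hl => ?_)).mono
        (Finset.Subset.refl _) hm⟩
      exact c2.rc h4 (hP.2 l hl) (hP.sep hS (Nat.zero_le _) hl le_rfl)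
    have h2 := Finset.card_le_card h1
    rw [Finset.card_product] at h2
    have h3 : M ^ 2 ≤ _ := (by rw [sq]; exact Nat.mul_le_mul hv hv : M ^ 2 ≤ _).trans h2
    exact absurd c3 (not_lt.2 (by exact_mod_cast h3))
  · have c1 : exp (-(1.8 * g * a)) ≤ exp (-L) := by
      refine exp_le_exp.2 ?_
      nlinarith [mul_le_mul_of_nonneg_left ha1 hg0.le]
    have c2 : exp L * exp (-(0.4 * g ^ 2 * M)) ≤ exp (-L) := by
      rw [← exp_add]
      refine exp_le_exp.2 ?_
      nlinarith [mul_le_mul_of_nonneg_left hM2 (sq_nonneg g)]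
    have c3 : exp (-(2 * L)) ≤ exp (-L) := exp_le_exp.2 (by linarith)
    have c4 : 1 ≤ exp L := one_le_exp hL0.le
    have c5 := exp_pos (-(0.4 * g ^ 2 * M))
    rw [hL]
    nlinarith

end Pool.Agent.Lib.MP_1c11af_pr
end
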