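import Pool.Agent.Lib.MP_1c11af_pr.Ball

/-!
The environment: independent uniform variables, level sets, and their laws.
-/

namespace Pool.Agent.Lib.MP_1c11af_pr

open Finset MeasureTheory
open scoped Classical

set_option linter.unusedSectionVars false

/-- indicator of a proposition -/
noncomputable def ind (P : Prop) : ℝ := if P then 1 else 0

lemma ind_pos {P : Prop} (h : P) : ind P = 1 := if_pos h

lemma ind_neg {P : Prop} (h : ¬ P) : ind P = 0 := if_neg h

lemma ind_nonneg (P : Prop) : 0 ≤ ind P := by unfold ind; split_ifs <;> norm_num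

lemma ind_le_one (P : Prop) : ind P ≤ 1 := by unfold ind; split_ifs <;> norm_num

lemma ind_le {P : Prop} {x : ℝ} (h0 : 0 ≤ x) (h1 : P → 1 ≤ x) : ind P ≤ x := by
  by_cases h : P
  · rw [ind_pos h]; exact h1 h
  · rw [ind_neg h]; exact h0

lemma ind_mono {P Q : Prop} (h : P → Q) : ind P ≤ ind Q :=
  ind_le (ind_nonneg _) (fun hp => (ind_pos (h hp)).ge)

/-- the uniform law on the unit interval -/
noncomputable def unif : Measure ℝ := volume.restrict (Set.Icc 0 1)

instance : IsProbabilityMeasure unif := ⟨by simp [unif]⟩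

/-- independent uniform variables -/
noncomputable def mu (E : Type*) [Fintype E] : Measure (E → ℝ) := Measure.pi (fun _ => unif)

instance (E : Type*) [Fintype E] : IsProbabilityMeasure (mu E) := by
  unfold mu; infer_instance

lemma unif_Iic {p : ℝ} (h0 : 0 ≤ p) (h1 : p ≤ 1) : unif.real (Set.Iic p) = p := by
  have : Set.Iic p ∩ Set.Icc 0 1 = Set.Icc 0 p := by
    ext x; simp only [Set.mem_inter_iff, Set.mem_Iic, Set.mem_Icc]
    constructor
    · rintro ⟨a, b, _⟩; exact ⟨b, a⟩
    · rintro ⟨a, b⟩; exact ⟨b, a, b.trans h1⟩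
  rw [measureReal_def, unif, Measure.restrict_apply measurableSet_Iic, this]
  simp [h0]

lemma unif_Ioi {p : ℝ} (h0 : 0 ≤ p) (h1 : p ≤ 1) : unif.real (Set.Ioi p) = 1 - p := by
  rw [← Set.compl_Iic, measureReal_compl measurableSet_Iic, unif_Iic h0 h1]
  simp

lemma unif_Ioc {a b : ℝ} (h : a ≤ b) : unif.real (Set.Ioc a b) ≤ b - a := by
  rw [measureReal_def, unif, Measure.restrict_apply measurableSet_Ioc]
  have h1 : volume (Set.Ioc a b ∩ Set.Icc 0 1) ≤ volume (Set.Ioc a b) :=
    measure_mono Set.inter_subset_left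
  rw [Real.volume_Ioc] at h1
  have := ENNReal.toReal_mono (by simp) h1
  rwa [ENNReal.toReal_ofReal (by linarith)] at this

section E

variable {E : Type*} [Fintype E] [DecidableEq E]

/-- the set of indices whose variable is at most `p` -/
noncomputable def lev (U : E → ℝ) (p : ℝ) : Finset E := univ.filter (fun e => U e ≤ p)

lemma mem_lev {U : E → ℝ} {p : ℝ} {e : E} : e ∈ lev U p ↔ U e ≤ p := by simp [lev]

lemma lev_mono (U : E → ℝ) {p p' : ℝ} (h : p ≤ p') : lev U p ⊆ lev U p' :=
  fun _ he => mem_lev.2 ((mem_lev.1 he).trans h)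

lemma mu_box (J : E → Set ℝ) : (mu E).real (Set.pi Set.univ J) = ∏ e, unif.real (J e) := by
  simp only [measureReal_def, mu, Measure.pi_pi, ENNReal.toReal_prod]

lemma law (D F : Finset E) (hDF : Disjoint D F) (J : E → Set ℝ) (hJ : ∀ e, MeasurableSet (J e))
    {p : ℝ} (hp0 : 0 ≤ p) (hp1 : p ≤ 1) (Q : Finset E → Prop) :
    (mu E).real {U | (∀ e ∈ D, U e ∈ J e) ∧ Q (lev U p ∩ F)} =
      (∏ e ∈ D, unif.real (J e)) * Ex p F (fun S => ind (Q S)) := by
  set Box : Finset E → Set (E → ℝ) := fun S => Set.pi Set.univ (fun e =>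
    if e ∈ D then J e else if e ∈ S then Set.Iic p else if e ∈ F then Set.Ioi p else Set.univ)
    with hBox
  have hmem : ∀ S ⊆ F, ∀ U, U ∈ Box S ↔ (∀ e ∈ D, U e ∈ J e) ∧ lev U p ∩ F = S := by
    intro S hS U
    simp only [hBox, Set.mem_pi, Set.mem_univ, true_imp_iff]
    constructor
    · intro h
      refine ⟨fun e he => by simpa [he] using h e, ?_⟩
      ext e
      rw [Finset.mem_inter, mem_lev]
      have := h e
      constructor
      · rintro ⟨h1, h2⟩
        have hD : e ∉ D := fun hd => Finset.disjoint_left.1 hDF hd h2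
        by_contra hn
        simp only [hD, hn, h2, if_false, if_true, Set.mem_Ioi] at this
        linarith
      · intro h1
        have hD : e ∉ D := fun hd => Finset.disjoint_left.1 hDF hd (hS h1)
        simp only [hD, h1, if_false, if_true, Set.mem_Iic] at this
        exact ⟨this, hS h1⟩
    · rintro ⟨h1, rfl⟩ e
      split_ifs with a b c
      · exact h1 e a
      · exact mem_lev.1 (Finset.mem_inter.1 b).1
      · rw [Set.mem_Ioi]
        by_contra hn
        exact b (Finset.mem_inter.2 ⟨mem_lev.2 (not_lt.1 hn), c⟩)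
      · trivial
  have hset : {U | (∀ e ∈ D, U e ∈ J e) ∧ Q (lev U p ∩ F)} =
      ⋃ S ∈ F.powerset.filter Q, Box S := by
    ext U
    simp only [Set.mem_ofPred_eq, Set.mem_iUnion, Finset.mem_filter, Finset.mem_powerset,
      exists_prop]
    constructor
    · rintro ⟨h1, h2⟩
      exact ⟨_, ⟨Finset.inter_subset_right, h2⟩,
        (hmem _ Finset.inter_subset_right U).2 ⟨h1, rfl⟩⟩
    · rintro ⟨S, ⟨hS, hQ⟩, hU⟩
      obtain ⟨h1, h2⟩ := (hmem S hS U).1 hU
      exact ⟨h1, h2 ▸ hQ⟩
  rw [hset, measureReal_biUnion_finset]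
  · unfold Ex
    rw [Finset.sum_filter, Finset.mul_sum]
    refine Finset.sum_congr rfl (fun S hS => ?_)
    have hSF := Finset.mem_powerset.1 hS
    split_ifs with hQ
    · rw [hBox]
      simp only
      rw [mu_box, ind_pos hQ, mul_one]
      have hSD : Disjoint D S := Finset.disjoint_of_subset_right hSF hDF
      have e1 : ∀ e, unif.real (if e ∈ D then J e else if e ∈ S then Set.Iic p else
          if e ∈ F then Set.Ioi p else Set.univ) =
          (if e ∈ D then unif.real (J e) else 1) * ((if e ∈ S then p else 1) *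
            (if e ∈ F \ S then 1 - p else 1)) := by
        intro e
        by_cases a : e ∈ D
        · have b : e ∉ S := Finset.disjoint_left.1 hSD a
          have c : e ∉ F := Finset.disjoint_left.1 hDF a
          simp [a, b, c]
        · by_cases b : e ∈ S
          · simp [a, b, unif_Iic hp0 hp1]
          · by_cases c : e ∈ F
            · simp [a, b, c, unif_Ioi hp0 hp1]
            · simp [a, b, c]
      simp only [e1, Finset.prod_mul_distrib, Finset.prod_ite_mem, Finset.univ_inter,
        Finset.prod_const, Finset.card_sdiff_of_subset hSF]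
    · simp [ind_neg hQ]
  · intro S hS S' hS' hne
    rw [Function.onFun, Set.disjoint_left]
    intro U hU hU'
    simp only [Finset.coe_filter, Finset.mem_powerset, Set.mem_ofPred_eq] at hS hS'
    exact hne (((hmem S hS.1 U).1 hU).2.symm.trans ((hmem S' hS'.1 U).1 hU').2)
  · intro S _
    refine MeasurableSet.univ_pi (fun e => ?_)
    split_ifs
    · exact hJ e
    · exact measurableSet_Iic
    · exact measurableSet_Ioi
    · exact MeasurableSet.univ

lemma law0 {p : ℝ} (hp0 : 0 ≤ p) (hp1 : p ≤ 1) (F : Finset E) (Q : Finset E → Prop) :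
    (mu E).real {U | Q (lev U p ∩ F)} = Ex p F (fun S => ind (Q S)) := by
  have := law ∅ F (Finset.disjoint_empty_left _) (fun _ => Set.univ)
    (fun _ => MeasurableSet.univ) hp0 hp1 Q
  simpa using this

lemma law1 {p : ℝ} (hp0 : 0 ≤ p) (hp1 : p ≤ 1) (Q : Finset E → Prop) :
    (mu E).real {U | Q (lev U p)} = Ex p univ (fun S => ind (Q S)) := by
  have := law0 hp0 hp1 univ Q
  simpa using this

lemma law_box (D : Finset E) (J : E → Set ℝ) (hJ : ∀ e, MeasurableSet (J e)) :
    (mu E).real {U | ∀ e ∈ D, U e ∈ J e} = ∏ e ∈ D, unif.real (J e) := by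
  have := law D ∅ (Finset.disjoint_empty_right _) J hJ le_rfl zero_le_one (fun _ => True)
  simpa [Ex_empty, ind_pos] using this

lemma measurableSet_lev {ι : Type*} [Fintype ι] (t : ι → ℝ) (Q : (ι → Finset E) → Prop) :
    MeasurableSet {U : E → ℝ | Q (fun i => lev U (t i))} := by
  have : {U : E → ℝ | Q (fun i => lev U (t i))} =
      ⋃ L ∈ (univ : Finset (ι → Finset E)).filter Q, ⋂ i, ⋂ e,
        {U : E → ℝ | U e ≤ t i ↔ e ∈ L i} := by
    ext U
    simp only [Set.mem_ofPred_eq, Set.mem_iUnion, Finset.mem_filter, Finset.mem_univ, true_and,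
      Set.mem_iInter, exists_prop]
    constructor
    · intro h
      exact ⟨_, h, fun i e => mem_lev.symm⟩
    · rintro ⟨L, hL, h⟩
      have : (fun i => lev U (t i)) = L := by
        funext i; ext e; rw [mem_lev]; exact h i e
      rwa [this]
  rw [this]
  refine Finset.measurableSet_biUnion _ (fun L _ => ?_)
  refine MeasurableSet.iInter (fun i => MeasurableSet.iInter (fun e => ?_))
  by_cases h : e ∈ L i
  · simp only [h, iff_true]
    exact measurableSet_le (measurable_pi_apply e) measurable_const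
  · simp only [h, iff_false]
    exact (measurableSet_le (measurable_pi_apply e) measurable_const).compl

lemma measurableSet_lev1 (p : ℝ) (Q : Finset E → Prop) :
    MeasurableSet {U : E → ℝ | Q (lev U p)} :=
  measurableSet_lev (ι := Unit) (fun _ => p) (fun L => Q (L ()))

lemma mu_pos : (mu E).real {U | ¬ ∀ e, 0 < U e} = 0 := by
  have h : {U : E → ℝ | ¬ ∀ e, 0 < U e} = ⋃ e, {U | ∀ e' ∈ ({e} : Finset E), U e' ∈ Set.Iic 0} := by
    ext U; simp
  refine le_antisymm ?_ measureReal_nonneg
  rw [h]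
  refine (measureReal_iUnion_fintype_le _).trans (le_of_eq ?_)
  refine Finset.sum_eq_zero (fun e _ => ?_)
  rw [law_box {e} (fun _ => Set.Iic 0) (fun _ => measurableSet_Iic)]
  simp [unif_Iic le_rfl zero_le_one]

end E

/-- Markov inequality for a count of events -/
lemma markov_count {Ω ι : Type*} [MeasurableSpace Ω] (μ : Measure Ω) [IsProbabilityMeasure μ]
    (I : Finset ι) (A : ι → Set Ω) (hA : ∀ i, MeasurableSet (A i)) (c : ℝ) :
    c * μ.real {ω | c ≤ ((I.filter (fun i => ω ∈ A i)).card : ℝ)} ≤ ∑ i ∈ I, μ.real (A i) := by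
  have hint : ∀ i ∈ I, Integrable ((A i).indicator (fun _ => (1 : ℝ))) μ :=
    fun i _ => (integrable_const 1).indicator (hA i)
  have h1 := mul_meas_ge_le_integral_of_nonneg (μ := μ)
    (f := fun ω => ∑ i ∈ I, (A i).indicator (fun _ => (1 : ℝ)) ω)
    (Filter.Eventually.of_forall (fun ω => Finset.sum_nonneg (fun i _ =>
      Set.indicator_nonneg (fun _ _ => zero_le_one) ω)))
    (integrable_finsetSum _ hint) c
  rw [integral_finsetSum _ hint] at h1
  have h2 : ∀ ω, ∑ i ∈ I, (A i).indicator (fun _ => (1 : ℝ)) ω =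
      ((I.filter (fun i => ω ∈ A i)).card : ℝ) := by
    intro ω
    rw [Finset.card_filter]
    push_cast
    refine Finset.sum_congr rfl (fun i _ => ?_)
    rw [Set.indicator_apply]
  simp only [h2] at h1
  refine h1.trans (le_of_eq (Finset.sum_congr rfl (fun i _ => ?_)))
  rw [integral_indicator_const _ (hA i)]
  simp

/-- union bound over sequences of `k + 1` vertices -/
lemma seq_union {Ω V : Type*} [MeasurableSpace Ω] [Fintype V] (μ : Measure Ω)
    [IsProbabilityMeasure μ] (k : ℕ) (Ev : (ℕ → V) → Set Ω)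
    (hc : ∀ P P' : ℕ → V, (∀ j ≤ k, P j = P' j) → Ev P ⊆ Ev P') {β : ℝ}
    (hβ : ∀ P, μ.real (Ev P) ≤ β) :
    μ.real (⋃ P, Ev P) ≤ (Fintype.card V : ℝ) ^ (k + 1) * β := by
  have h1 : (⋃ P, Ev P) ⊆ ⋃ Q : Fin (k + 1) → V,
      Ev (fun j => Q ⟨min j k, by omega⟩) := by
    intro ω hω
    obtain ⟨P, hP⟩ := Set.mem_iUnion.1 hω
    refine Set.mem_iUnion.2 ⟨fun j => P j, hc P _ ?_ hP⟩
    intro j hj
    simp [min_eq_left hj]
  refine (measureReal_mono h1).trans ((measureReal_iUnion_fintype_le _).trans ?_)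
  refine (Finset.sum_le_card_nsmul _ _ β (fun Q _ => hβ _)).trans (le_of_eq ?_)
  simp

variable {V : Type*} [DecidableEq V] [Fintype V]

/-- the vertex set of a path -/
def vs (P : ℕ → V) (k : ℕ) : Finset V := (range (k + 1)).image P

lemma mem_vs {P : ℕ → V} {k : ℕ} {v : V} : v ∈ vs P k ↔ ∃ j ≤ k, P j = v := by
  simp [vs]

lemma PathIn.card_vs {S : Finset (Sym2 V)} {P : ℕ → V} {k : ℕ} (h : PathIn S P k) :
    (vs P k).card = k + 1 := by
  unfold vs
  rw [Finset.card_image_of_injOn, Finset.card_range]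
  intro i hi j hj hij
  simp only [Finset.coe_range, Set.mem_Iio] at hi hj
  exact h.1 i (by omega) j (by omega) hij

lemma vs_congr {P P' : ℕ → V} {k : ℕ} (h : ∀ j ≤ k, P j = P' j) : vs P k = vs P' k := by
  ext v
  rw [mem_vs, mem_vs]
  constructor
  · rintro ⟨j, hj, rfl⟩; exact ⟨j, hj, (h j hj).symm⟩
  · rintro ⟨j, hj, rfl⟩; exact ⟨j, hj, h j hj⟩

lemma PathIn.congr {S : Finset (Sym2 V)} {P P' : ℕ → V} {k : ℕ} (hP : PathIn S P k)
    (h : ∀ j ≤ k, P j = P' j) : PathIn S P' k := by
  refine ⟨?_, ?_⟩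
  · intro i hi j hj hij
    exact hP.1 i hi j hj (by rw [h i hi, h j hj, hij])
  · intro j hj
    have := hP.2 j hj
    unfold pe at this ⊢
    rwa [← h j (by omega), ← h (j + 1) (by omega)]

/-- the pairs that are not inside `A` -/
noncomputable def out (A : Finset V) : Finset (Sym2 V) := univ.filter (fun e => ¬ ∀ v ∈ e, v ∈ A)

lemma mk_mem_out {A : Finset V} {a b : V} : s(a, b) ∈ out A ↔ a ∉ A ∨ b ∉ A := by
  simp only [out, Finset.mem_filter, Finset.mem_univ, true_and, Sym2.mem_iff]
  constructor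
  · intro h
    by_contra hn
    push Not at hn
    refine h ?_
    rintro v (rfl | rfl)
    · exact hn.1
    · exact hn.2
  · rintro (h | h) h'
    · exact h (h' a (Or.inl rfl))
    · exact h (h' b (Or.inr rfl))

lemma out_deg (A : Finset V) (c : V) : Fintype.card V - A.card - 1 ≤
    (univ.filter (fun c' => c' ≠ c ∧ s(c, c') ∈ out A)).card := by
  have h1 : (insert c A)ᶜ ⊆ univ.filter (fun c' => c' ≠ c ∧ s(c, c') ∈ out A) := by
    intro c' hc'
    rw [Finset.mem_compl, Finset.mem_insert, not_or] at hc'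
    exact Finset.mem_filter.2 ⟨Finset.mem_univ _, hc'.1, mk_mem_out.2 (Or.inr hc'.2)⟩
  have h2 := Finset.card_le_card h1
  rw [Finset.card_compl] at h2
  have h3 := Finset.card_insert_le c A
  omega

/-- first moment bound over paths -/
lemma path_bound (k : ℕ) {p p' β : ℝ} (hp0 : 0 ≤ p) (hp1 : p ≤ 1) (hp0' : 0 ≤ p') (hp1' : p' ≤ 1)
    (Q : Finset V → Finset (Sym2 V) → Prop)
    (hQ : ∀ A : Finset V, A.card = k + 1 → Ex p (out A) (fun S => ind (Q A S)) ≤ β)
    (hβ : 0 ≤ β) :
    (mu (Sym2 V)).real {U | ∃ P, PathIn (lev U p') P k ∧ Q (vs P k) (lev U p ∩ out (vs P k))} ≤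
      (Fintype.card V : ℝ) ^ (k + 1) * (p' ^ k * β) := by
  have h1 : {U : Sym2 V → ℝ | ∃ P, PathIn (lev U p') P k ∧ Q (vs P k) (lev U p ∩ out (vs P k))} =
      ⋃ P, {U | PathIn (lev U p') P k ∧ Q (vs P k) (lev U p ∩ out (vs P k))} := by
    ext U; simp
  rw [h1]
  refine seq_union _ k _ ?_ ?_
  · intro P P' h U hU
    refine ⟨hU.1.congr h, ?_⟩
    rw [← vs_congr h]; exact hU.2
  · intro P
    by_cases hP : PathIn univ P k
    · have h2 : {U : Sym2 V → ℝ | PathIn (lev U p') P k ∧ Q (vs P k) (lev U p ∩ out (vs P k))} ⊆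
          {U | (∀ e ∈ (range k).image (pe P), U e ∈ Set.Iic p') ∧
            Q (vs P k) (lev U p ∩ out (vs P k))} := by
        intro U hU
        refine ⟨?_, hU.2⟩
        intro e he
        obtain ⟨j, hj, rfl⟩ := Finset.mem_image.1 he
        exact mem_lev.1 (hU.1.2 j (Finset.mem_range.1 hj))
      refine (measureReal_mono h2).trans ?_
      rw [law _ _ _ (fun _ => Set.Iic p') (fun _ => measurableSet_Iic) hp0 hp1]
      · rw [Finset.prod_const, unif_Iic hp0' hp1', Finset.card_image_of_injOn, Finset.card_range]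
        · exact mul_le_mul_of_nonneg_left (hQ _ hP.card_vs) (pow_nonneg hp0' _)
        · intro i hi j hj hij
          exact hP.pe_inj (by simpa using hi) (by simpa using hj) hij
      · rw [Finset.disjoint_left]
        intro e he he'
        obtain ⟨j, hj, rfl⟩ := Finset.mem_image.1 he
        have hj' := Finset.mem_range.1 hj
        rcases mk_mem_out.1 he' with h | h
        · exact h (mem_vs.2 ⟨j, by omega, rfl⟩)
        · exact h (mem_vs.2 ⟨j + 1, by omega, rfl⟩)
    · have : {U : Sym2 V → ℝ | PathIn (lev U p') P k ∧ Q (vs P k) (lev U p ∩ out (vs P k))} = ∅ := by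
        ext U
        simp only [Set.mem_ofPred_eq, Set.mem_empty_iff_false, iff_false, not_and]
        intro h
        exact absurd (h.mono (Finset.subset_univ _)) hP
      rw [this, measureReal_empty]
      positivity

end Pool.Agent.Lib.MP_1c11af_pr
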