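import Pool.Agent.Lib.MP_1c11af_pr.Det

-- part Pool.Agent.Lib.MP_1c11af_pr.Good
section

/-!
The good event near the critical window and its consequences.
-/

namespace Pool.Agent.Lib.MP_1c11af_pr

open Finset MeasureTheory
open scoped Classical

set_option linter.unusedSectionVars false

variable {V : Type*} [DecidableEq V] [Fintype V]

/-- the good event -/
structure Good (p : ℕ → ℝ) (pm : ℝ) (J M k h Sz τ b C len : ℕ) (U : Sym2 V → ℝ)
    (S : Finset (Sym2 V)) : Prop where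
  pos : ∀ e, 0 < U e
  short : ∀ i < J, ∀ P, PathIn (lev U (p (i + 1))) P k →
    ∃ j ≤ k, M ≤ csz (lev U (p (i + 1))) (P j)
  window : ∀ j ≤ len, ∀ P, PathIn (lev U (p (J + 1))) P j →
    ((range j).filter (fun l => pm < U (pe P l))).card < h
  close : ∀ i < J, ∀ u v, M ≤ csz (lev U (p (i + 1))) u → M ≤ csz (lev U (p (i + 1))) v →
    Wd (lev U (p (i + 2))) len u v
  nopath : ∀ P, ¬ PathIn (lev U (p 0)) P k
  sub : ∀ v, csz (lev U (p 0)) v < Sz
  middle : ∀ i < J, ∀ v, csz (lev U (p (i + 1))) v < M → csz (lev U (p (i + 1))) v < Sz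
  clo : ∀ P, PathIn (lev U (p J)) P b → τ ≤ (cl (lev U pm) (vs P b)).card
  few : (big (lev U (p J)) M).card ≤ C
  deg : ∀ v, (univ.filter (fun x => U s(x, v) ≤ p J)).card < h
  ex : ∃ v, M ≤ csz (lev U (p 1)) v
  am1 : AM S (lev U pm) (lev U (p 0))
  am2 : AM S (lev U (p 2)) (lev U (p J))

/-- conditions on the levels and the weight function -/
structure Par (w : ℝ → ℝ) (p : ℕ → ℝ) (pm Λ ρ : ℝ) (J k h len : ℕ) : Prop where
  w0 : ∀ x, 0 < w x
  anti : ∀ a b, 0 < a → a ≤ b → w b ≤ w a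
  mono : Monotone p
  pm0 : 0 < pm
  pm1 : pm ≤ p 0
  J0 : 0 < J
  kl : k ≤ len
  l0 : 0 < len
  ratio : ∀ i < J, w (p i) ≤ ρ * w (p (i + 2))
  ratio' : w (p 0) * len ≤ w pm
  lam : 3 + h * ρ ≤ Λ

lemma card_filter_prod_ge {α β : Type*} (A : Finset α) (B : Finset β) (R : α × β → Prop)
    [DecidablePred R] (m : ℕ) (h : ∀ a ∈ A, m ≤ (B.filter (fun b => R (a, b))).card) :
    A.card * m ≤ ((A ×ˢ B).filter R).card := by
  rw [Finset.card_filter, Finset.sum_product, ← smul_eq_mul]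
  refine Finset.card_nsmul_le_sum _ _ _ (fun a ha => ?_)
  rw [← Finset.card_filter]
  exact h a ha

variable {w : ℝ → ℝ} {p : ℕ → ℝ} {pm Λ ρ : ℝ} {J M k h Sz τ b C len : ℕ} {U : Sym2 V → ℝ}
  {S : Finset (Sym2 V)}

lemma Good.res (hp : Par w p pm Λ ρ J k h len) (hG : Good p pm J M k h Sz τ b C len U S)
    {i : ℕ} (hi : i < J) {u v : V} (hu : M ≤ csz (lev U (p (i + 1))) u)
    (hv : M ≤ csz (lev U (p (i + 1))) v) : ∃ (Q : ℕ → V) (m : ℕ), Q 0 = u ∧ Q m = v ∧
      2 + w (p i) * ∑ l ∈ range m, (w (U (pe Q l)))⁻¹ ≤ Λ := by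
  obtain ⟨m, hm, Q, hQ, h0, h1⟩ := (hG.close i hi u v hu hv).exists_path
  refine ⟨Q, m, h0, h1, ?_⟩
  have hw := hG.window m hm Q (hQ.mono (lev_mono U (hp.mono (by omega))))
  have a1 := hp.w0 (p (i + 2))
  have a2 := hp.w0 pm
  have a3 := hp.w0 (p i)
  have h2 : ∀ l ∈ range m, (w (U (pe Q l)))⁻¹ ≤
      (if pm < U (pe Q l) then (w (p (i + 2)))⁻¹ else 0) + (w pm)⁻¹ := by
    intro l hl
    split_ifs with h3
    · have := inv_anti₀ a1 (hp.anti _ _ (hG.pos _) (mem_lev.1 (hQ.2 l (Finset.mem_range.1 hl))))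
      linarith [inv_pos.2 a2]
    · rw [zero_add]
      exact inv_anti₀ a2 (hp.anti _ _ (hG.pos _) (not_lt.1 h3))
  have h3 := Finset.sum_le_sum h2
  rw [Finset.sum_add_distrib, ← Finset.sum_filter, Finset.sum_const, Finset.sum_const,
    Finset.card_range, nsmul_eq_mul, nsmul_eq_mul] at h3
  have h4 : (((range m).filter (fun l => pm < U (pe Q l))).card : ℝ) ≤ h := by exact_mod_cast hw.le
  have h5 : (m : ℝ) ≤ len := by exact_mod_cast hm
  have h6 : w (p i) * (w (p (i + 2)))⁻¹ ≤ ρ := by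
    rw [← div_eq_mul_inv, div_le_iff₀ a1]; exact hp.ratio i hi
  have h7 : w (p i) * len * (w pm)⁻¹ ≤ 1 := by
    rw [← div_eq_mul_inv, div_le_one a2]
    refine le_trans ?_ hp.ratio'
    exact mul_le_mul_of_nonneg_right
      (hp.anti _ _ (hp.pm0.trans_le hp.pm1) (hp.mono (Nat.zero_le _))) (Nat.cast_nonneg _)
  have h8 : ∑ l ∈ range m, (w (U (pe Q l)))⁻¹ ≤ h * (w (p (i + 2)))⁻¹ + len * (w pm)⁻¹ :=
    h3.trans (add_le_add (mul_le_mul_of_nonneg_right h4 (inv_pos.2 a1).le)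
      (mul_le_mul_of_nonneg_right h5 (inv_pos.2 a2).le))
  have h9 := mul_le_mul_of_nonneg_left h8 a3.le
  have h10 := mul_le_mul_of_nonneg_left h6 (Nat.cast_nonneg (α := ℝ) h)
  have := hp.lam
  nlinarith

lemma Good.few_light (hp : Par w p pm Λ ρ J k h len) (hG : Good p pm J M k h Sz τ b C len U S)
    {i : ℕ} (hi : i < J) (P : ℕ → V) (m : ℕ) (hP : PathIn (lev U (p (i + 1))) P m)
    (hs : csz (lev U (p (i + 1))) (P m) < M) :
    ((range m).filter (fun l => pe P l ∉ lev U pm)).card < h := by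
  have hm : m ≤ len := by
    by_contra hcon
    have := hp.kl
    obtain ⟨j, hj, h1⟩ := hG.short i hi P (hP.trunc k (by omega))
    rw [csz_eq (rc_of_steps (X := lev U (p (i + 1))) (P := P) (show j ≤ m by omega)
      (fun l _ h3 => hP.2 l h3))] at h1
    omega
  have := hG.window m hm P (hP.mono (lev_mono U (hp.mono (by omega))))
  simpa only [mem_lev, not_le] using this

lemma Good.superblock (hp : Par w p pm Λ ρ J k h len) (hG : Good p pm J M k h Sz τ b C len U S)
    (hS : IsT S) {f ζ : ℕ} (θ : ℕ → ℕ)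
    (hθ0 : θ 0 * k ≤ b) (hθJ : 0 < θ J) (hf : ∀ i < J, f + θ (i + 1) * h ≤ θ i)
    (hζ : ∀ i < J, ζ + θ (i + 1) * h * Sz ≤ τ) {P : ℕ → V} {K pos pos' : ℕ}
    (hP : PathIn (lev U (p J)) P K) (h1 : pos + (J + 1) * b ≤ pos') (h2 : pos' ≤ K) :
    ∃ Ch : Finset (ℕ × V), f * (ζ - h) ≤ Ch.card ∧
      ∀ c ∈ Ch, Adm w (p 0) (p J) Λ M U S P pos pos' c.1 c.2 := by
  have hb : ∀ t, t ≤ J → ∃ i < J, f ≤ ((range b).filter
        (fun l => pe (fun j => P (pos + t * b + j)) l ∉ lev U (p i) ∧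
          M ≤ csz (lev U (p (i + 1))) (P (pos + t * b + (l + 1))))).card ∧
      ζ ≤ ((cl (lev U pm) (vs (fun j => P (pos + t * b + j)) b)).filter
        (fun z => M ≤ csz (lev U (p (i + 1))) z)).card := by
    intro t ht
    have h3 : t * b + b ≤ (J + 1) * b := by nlinarith
    have hQ := hP.sub (pos + t * b) b (by omega)
    exact block (X := fun i => lev U (p i)) θ
      (fun i => lev_mono U (hp.pm1.trans (hp.mono (Nat.zero_le _))))
      (fun i hi => hG.few_light hp hi) hG.nopath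
      (fun v => (csz_mono (lev_mono U hp.pm1) v).trans (hG.sub v).le) hθ0 hθJ hf hζ hQ
      (hG.clo _ hQ)
  choose! I hI1 hI2 hI3 using hb
  obtain ⟨t, ht, htI⟩ : ∃ t < J, I t ≤ I (t + 1) := by
    by_contra hcon
    push Not at hcon
    have : ∀ t ≤ J, I t + t ≤ I 0 := by
      intro t ht
      induction t with
      | zero => simp
      | succ t ih =>
        have := ih (by omega)
        have := hcon t (by omega)
        omega
    have := this J le_rfl
    have := hI1 0 (by omega)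
    omega
  have a1 := hI1 (t + 1) ht
  have a2 := hI2 (t + 1) ht
  have a3 := hI3 t ht.le
  set i := I (t + 1)
  set o := pos + (t + 1) * b with ho
  have ho1 : o + b ≤ pos' := by
    have : (t + 1) * b + b ≤ (J + 1) * b := by nlinarith
    omega
  have ho2 : pos + t * b + b = o := by rw [ho]; ring
  set Fs := (range b).filter (fun l => pe (fun j => P (o + j)) l ∉ lev U (p i) ∧
    M ≤ csz (lev U (p (i + 1))) (P (o + (l + 1))))
  set Zs := (cl (lev U pm) (vs (fun j => P (pos + t * b + j)) b)).filter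
    (fun z => M ≤ csz (lev U (p (I t + 1))) z)
  refine ⟨((Fs ×ˢ Zs).filter (fun c => p J < U s(c.2, P (o + c.1 + 1)))).image
    (fun c => (o + c.1, c.2)), ?_, ?_⟩
  · rw [Finset.card_image_of_injective]
    · refine le_trans (Nat.mul_le_mul_right _ a2) (card_filter_prod_ge _ _ _ _ (fun l _ => ?_))
      have b1 : Zs ⊆ Zs.filter (fun z => p J < U s(z, P (o + l + 1))) ∪
          univ.filter (fun x => U s(x, P (o + l + 1)) ≤ p J) := by
        intro z hz
        rcases lt_or_ge (p J) (U s(z, P (o + l + 1))) with h3 | h3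
        · exact Finset.mem_union_left _ (Finset.mem_filter.2 ⟨hz, h3⟩)
        · exact Finset.mem_union_right _ (Finset.mem_filter.2 ⟨Finset.mem_univ _, h3⟩)
      have b2 := (Finset.card_le_card b1).trans (Finset.card_union_le _ _)
      have b3 := hG.deg (P (o + l + 1))
      dsimp only
      omega
    · rintro ⟨l, z⟩ ⟨l', z'⟩ h3
      simp only [Prod.mk.injEq] at h3 ⊢
      exact ⟨by omega, h3.2⟩
  · intro c hc
    obtain ⟨⟨l, z⟩, h3, rfl⟩ := Finset.mem_image.1 hc
    obtain ⟨h4, h5⟩ := Finset.mem_filter.1 h3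
    obtain ⟨h6, h7⟩ := Finset.mem_product.1 h4
    obtain ⟨h8, h9, h10⟩ := Finset.mem_filter.1 h6
    obtain ⟨h11, h12⟩ := Finset.mem_filter.1 h7
    have h13 := Finset.mem_range.1 h8
    dsimp only at h5 h9 h10 h11 h12 h13 ⊢
    have h14 : p i < U (pe P (o + l)) := by
      rw [mem_lev, not_le] at h9
      exact h9
    have h15 : M ≤ csz (lev U (p (i + 1))) z :=
      h12.trans (csz_mono (lev_mono U (hp.mono (by omega))) z)
    refine ⟨by omega, ?_, (hp.mono (Nat.zero_le i)).trans_lt h14, h5, ?_, ?_⟩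
    · obtain ⟨v, hv, hvz⟩ := mem_cl.1 h11
      obtain ⟨a, ha, rfl⟩ := mem_vs.1 hv
      refine ⟨pos + t * b + a, by omega, by omega, hS.rc_of_sep (fun e he hn => ?_)⟩
      exact Finset.mem_inter.2 ⟨he, hG.am1.rc hvz he hn⟩
    · obtain ⟨Q, m, q1, q2, q3⟩ := hG.res hp a1 h15 h10
      refine ⟨Q, m, q1, q2, le_trans ?_ q3⟩
      have q4 : w (U (pe P (o + l))) ≤ w (p i) :=
        hp.anti _ _ (hp.pm0.trans_le (hp.pm1.trans (hp.mono (Nat.zero_le _)))) h14.le
      have q5 : 0 ≤ ∑ l ∈ range m, (w (U (pe Q l)))⁻¹ :=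
        Finset.sum_nonneg (fun l _ => (inv_pos.2 (hp.w0 _)).le)
      nlinarith [mul_le_mul_of_nonneg_right q4 q5]
    · rw [mem_big, csz_eq (Rc.of_mem (hP.2 (o + l) (by omega)))]
      exact h10.trans (csz_mono (lev_mono U (hp.mono (by omega))) _)

lemma Good.upper (hp : Par w p pm Λ ρ J k h len) (hG : Good p pm J M k h Sz τ b C len U S)
    (hS : IsT S) {f ζ : ℕ} (θ : ℕ → ℕ)
    (hθ0 : θ 0 * k ≤ b) (hθJ : 0 < θ J) (hf : ∀ i < J, f + θ (i + 1) * h ≤ θ i)
    (hζ : ∀ i < J, ζ + θ (i + 1) * h * Sz ≤ τ) (r : ℕ) {P : ℕ → V}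
    (hP : PathIn (S ∩ lev U (p J)) P (r * ((J + 1) * b))) :
    (big (lev U (p J)) M).card ≤ C ∧ ∃ (P : ℕ → V) (k : ℕ)
      (pos : ℕ → ℕ) (Ch : ℕ → Finset (ℕ × V)), PathIn S P k ∧ PathIn (lev U (p J)) P k ∧
      (∀ t ≤ r, pos t ≤ k) ∧ (∀ t < r, f * (ζ - h) ≤ (Ch t).card) ∧
      ∀ t < r, ∀ c ∈ Ch t, Adm w (p 0) (p J) Λ M U S P (pos t) (pos (t + 1)) c.1 c.2 := by
  have h1 : ∀ t, t < r → ∃ Ch : Finset (ℕ × V), f * (ζ - h) ≤ Ch.card ∧
      ∀ c ∈ Ch, Adm w (p 0) (p J) Λ M U S P (t * ((J + 1) * b)) ((t + 1) * ((J + 1) * b))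
        c.1 c.2 := fun t ht =>
    hG.superblock hp hS θ hθ0 hθJ hf hζ (hP.mono Finset.inter_subset_right)
      (le_of_eq (by ring)) (Nat.mul_le_mul_right _ ht)
  choose! Ch h2 h3 using h1
  exact ⟨hG.few, P, _, fun t => t * ((J + 1) * b), Ch, hP.mono Finset.inter_subset_left,
    hP.mono Finset.inter_subset_right, fun t ht => Nat.mul_le_mul_right _ ht, h2, h3⟩

lemma Good.sep (hp : Par w p pm Λ ρ J k h len) (hG : Good p pm J M k h Sz τ b C len U S)
    {u v : V} (hu : M ≤ csz (lev U (p 1)) u) (hv : M ≤ csz (lev U (p 1)) v) :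
    ∀ e ∈ S, ¬ Rc (S.erase e) u v → e ∈ lev U (p J) :=
  fun _ he hn => hG.am2.rc (hG.close 0 hp.J0 u v hu hv).rc he hn

lemma Good.path (hp : Par w p pm Λ ρ J k h len) (hG : Good p pm J M k h Sz τ b C len U S)
    (hS : IsT S) {P : ℕ → V} {m : ℕ} (hP : PathIn S P m) (hu : M ≤ csz (lev U (p 1)) (P 0))
    (hv : M ≤ csz (lev U (p 1)) (P m)) : PathIn (lev U (p J)) P m :=
  ⟨hP.1, fun j hj => hG.sep hp hu hv _ (hP.2 j hj) (hP.sep hS (Nat.zero_le _) hj le_rfl)⟩

lemma Good.light (hp : Par w p pm Λ ρ J k h len) (hG : Good p pm J M k h Sz τ b C len U S)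
    (hS : IsT S) {D : ℕ} (hD : ∀ u v, Wd S D u v) {u v : V} (hu : M ≤ csz (lev U (p 1)) u)
    (hv : M ≤ csz (lev U (p 1)) v) :
    (Light (lev U (p 0)) S u v).card ≤ (D / len + 1) * h := by
  obtain ⟨m, hm, P, hP, rfl, rfl⟩ := (hD u v).exists_path
  have hP' := (hG.path hp hS hP hu hv).mono (lev_mono U (hp.mono (Nat.le_succ J)))
  have h1 : Light (lev U (p 0)) S (P 0) (P m) ⊆ (range (D / len + 1)).biUnion (fun t =>
      ((range (min len (m - t * len))).filter
        (fun l => pm < U (pe (fun j => P (t * len + j)) l))).image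
          (fun l => pe P (t * len + l))) := by
    intro e he
    obtain ⟨_, e2, e3⟩ := mem_Light.1 he
    obtain ⟨l, _, l2, rfl⟩ := hP.exists_pe (Nat.zero_le _) le_rfl e3
    have l3 := Nat.div_add_mod l len
    have l4 := Nat.mod_lt l hp.l0
    have l5 : l / len ≤ D / len := Nat.div_le_div_right (by omega)
    have l6 : l / len * len + l % len = l := by rw [mul_comm]; exact l3
    refine Finset.mem_biUnion.2 ⟨l / len, Finset.mem_range.2 (by omega), Finset.mem_image.2
      ⟨l % len, Finset.mem_filter.2 ⟨Finset.mem_range.2 (by omega), ?_⟩, by rw [l6]⟩⟩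
    rw [mem_lev, not_le] at e2
    have e : pe (fun j => P (l / len * len + j)) (l % len) = pe P l := by
      show s(P (l / len * len + l % len), P (l / len * len + (l % len + 1))) = s(P l, P (l + 1))
      rw [← add_assoc, l6]
    rw [e]
    exact hp.pm1.trans_lt e2
  refine ((Finset.card_le_card h1).trans Finset.card_biUnion_le).trans ?_
  refine (Finset.sum_le_card_nsmul _ _ h (fun t _ => Finset.card_image_le.trans ?_)).trans
    (by simp)
  by_cases ht : t * len ≤ m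
  · exact (hG.window _ (min_le_left _ _) _ (hP'.sub (t * len) _ (by omega))).le
  · rw [show min len (m - t * len) = 0 by omega]; simp

lemma Good.aux (hp : Par w p pm Λ ρ J k h len) (hG : Good p pm J M k h Sz τ b C len U S)
    (hS : IsT S) {D B : ℕ} (hD : ∀ u v, Wd S D u v) (hB : 2 * ((D / len + 1) * h) + 1 ≤ B)
    {P : ℕ → V} {m a : ℕ} {x : V} (hP : PathIn S P m) (hu : M ≤ csz (lev U (p 1)) (P 0))
    (hv : M ≤ csz (lev U (p 1)) (P m)) (hx : M ≤ csz (lev U (p 1)) x) (ham : a ≤ m)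
    (hA1 : ∀ l, a ≤ l → l < m → Rc (S.erase (pe P l)) x (P l))
    (hA2 : ∀ l < a, Rc (S.erase (pe P l)) x (P (l + 1)))
    (hfar : ∀ l ≤ m, p J < U s(x, P l)) (hnv : ¬ Rc (lev U (p 0)) (P a) (P m)) :
    GoodT w p J Λ M C B Sz U S ((P 0, P m), x) := by
  have hP' := hG.path hp hS hP hu hv
  have hJ := hp.J0
  have hup : ∀ i v, M ≤ csz (lev U (p 1)) v → M ≤ csz (lev U (p (i + 1))) v := fun i v h1 =>
    h1.trans (csz_mono (lev_mono U (hp.mono (by omega))) v)
  have hupJ : ∀ v, M ≤ csz (lev U (p 1)) v → M ≤ csz (lev U (p J)) v := fun v h1 =>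
    h1.trans (csz_mono (lev_mono U (hp.mono (by omega))) v)
  have hJ1 : M ≤ csz (lev U (p (J - 1 + 1))) (P a) := by
    rw [show J - 1 + 1 = J by omega, ← csz_eq (rc_of_steps (X := lev U (p J)) (P := P)
      (Nat.zero_le a) (fun l _ h3 => hP'.2 l (by omega)))]
    exact hupJ _ hu
  have hex : ∃ i, M ≤ csz (lev U (p (i + 1))) (P a) := ⟨_, hJ1⟩
  have i1 := Nat.find_spec hex
  have i2 : Nat.find hex < J := by have := Nat.find_min' hex hJ1; omega
  have i3 : ¬ Rc (lev U (p (Nat.find hex))) (P a) (P m) ∧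
      csz (lev U (p (Nat.find hex))) (P a) < Sz := by
    rcases Nat.eq_zero_or_eq_succ_pred (Nat.find hex) with h0 | h0
    · rw [h0]; exact ⟨hnv, hG.sub _⟩
    · have h1 := not_le.1 (Nat.find_min hex (m := (Nat.find hex).pred) (by omega))
      rw [h0]
      refine ⟨fun h2 => ?_, hG.middle _ (by omega) _ h1⟩
      rw [csz_eq h2] at h1
      exact absurd (hup _ _ hv) (not_le.2 h1)
  refine goodT_of_path hp.w0 hp.anti hS i2 (hp.pm0.trans_le hp.pm1) (hp.mono (Nat.zero_le _))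
    (hp.mono i2.le) hP hP' ham hA1 hA2 i3.1 i3.2 (hG.sep hp hu hx) hfar (fun z hz => ?_) ?_
    (mem_big.2 (hupJ _ hu)) (mem_big.2 (hupJ _ hv)) hG.few
  · refine hG.res hp i2 (hup _ _ hx) ?_
    rw [← csz_eq (hz.mono (lev_mono U (hp.mono (Nat.le_succ _))))]
    exact i1
  · have b1 := hG.light hp hS hD hu hx
    have b2 := hG.light hp hS hD hu hv
    omega

lemma Good.lower (hp : Par w p pm Λ ρ J k h len) (hG : Good p pm J M k h Sz τ b C len U S)
    (hS : IsT S) {D B : ℕ} (hD : ∀ u v, Wd S D u v) (hB : 2 * ((D / len + 1) * h) + 1 ≤ B) :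
    M * (M - Sz) * (M - (D + 1) * h) ≤
      2 * (univ.filter (GoodT w p J Λ M C B Sz U S)).card := by
  choose m hm P hP hP0 hP1 using fun x : V × V => (hD x.1 x.2).exists_path
  set K := big (lev U (p 1)) M with hK
  have hKM : M ≤ K.card := by
    obtain ⟨v, hv⟩ := hG.ex
    refine hv.trans (Finset.card_le_card (fun z hz => ?_))
    rw [hK, mem_big, ← csz_eq (mem_cl_single.1 hz)]
    exact hv
  set A := (K ×ˢ K).filter (fun x => ¬ Rc (lev U (p 0)) x.1 x.2) with hA
  have h1 : K.card * (M - Sz) ≤ A.card := by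
    refine card_filter_prod_ge _ _ _ _ (fun u _ => ?_)
    have b1 : K ⊆ K.filter (fun v => ¬ Rc (lev U (p 0)) u v) ∪ cl (lev U (p 0)) {u} := by
      intro v hv
      rw [Finset.mem_union, Finset.mem_filter, mem_cl_single]
      tauto
    have b2 := (Finset.card_le_card b1).trans (Finset.card_union_le _ _)
    have b3 : (cl (lev U (p 0)) {u}).card < Sz := hG.sub u
    dsimp only
    omega
  set T := (A ×ˢ K).filter (fun t => ∀ l ≤ m t.1, p J < U s(t.2, P t.1 l)) with hT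
  have h2 : A.card * (M - (D + 1) * h) ≤ T.card := by
    refine card_filter_prod_ge _ _ _ _ (fun y _ => ?_)
    have b1 : K ⊆ K.filter (fun x => ∀ l ≤ m y, p J < U s(x, P y l)) ∪
        (range (D + 1)).biUnion (fun l => univ.filter (fun x => U s(x, P y l) ≤ p J)) := by
      intro x hx
      by_cases h3 : ∀ l ≤ m y, p J < U s(x, P y l)
      · exact Finset.mem_union_left _ (Finset.mem_filter.2 ⟨hx, h3⟩)
      · push Not at h3
        obtain ⟨l, h4, h5⟩ := h3
        have := hm y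
        exact Finset.mem_union_right _ (Finset.mem_biUnion.2 ⟨l, Finset.mem_range.2 (by omega),
          Finset.mem_filter.2 ⟨Finset.mem_univ _, h5⟩⟩)
    have b2 := (Finset.card_le_card b1).trans ((Finset.card_union_le _ _).trans
      (Nat.add_le_add_left (Finset.card_biUnion_le.trans
        (Finset.sum_le_card_nsmul _ _ h (fun l _ => (hG.deg (P y l)).le))) _))
    rw [Finset.card_range, smul_eq_mul] at b2
    dsimp only
    omega
  set G := univ.filter (GoodT w p J Λ M C B Sz U S) with hGd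
  have h3 : T ⊆ G ∪ G.image (fun t => ((t.1.2, t.1.1), t.2)) := by
    rintro ⟨y, x⟩ ht
    obtain ⟨t1, t2⟩ := Finset.mem_filter.1 ht
    obtain ⟨t3, t4⟩ := Finset.mem_product.1 t1
    obtain ⟨t5, t6⟩ := Finset.mem_filter.1 t3
    obtain ⟨t7, t8⟩ := Finset.mem_product.1 t5
    dsimp only at t2 t4 t6 t7 t8
    rw [hK, mem_big] at t4 t7 t8
    rw [← hP0 y] at t7
    rw [← hP1 y] at t8
    rw [← hP0 y, ← hP1 y] at t6
    obtain ⟨a, a1, a2, a3⟩ := exists_median hS (hP y) x
    by_cases hc : Rc (lev U (p 0)) (P y a) (P y (m y))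
    · have := hG.aux hp hS hD hB (a := m y - a) (x := x) (hP y).rev (by simpa using t8)
        (by simpa using t7) t4 (by omega) (fun l l1 l2 => by
          rw [pe_rev _ l2, show m y - l = m y - 1 - l + 1 by omega]
          exact a3 _ (by omega)) (fun l l1 => by
          rw [pe_rev _ (by omega), show m y - (l + 1) = m y - 1 - l by omega]
          exact a2 _ (by omega) (by omega)) (fun l _ => t2 _ (by omega)) (by
          rw [show m y - (m y - a) = a by omega, Nat.sub_self]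
          exact fun h4 => t6 (h4.symm.trans hc))
      rw [Nat.sub_zero, Nat.sub_self, hP0, hP1] at this
      exact Finset.mem_union_right _ (Finset.mem_image.2
        ⟨_, Finset.mem_filter.2 ⟨Finset.mem_univ _, this⟩, rfl⟩)
    · have := hG.aux hp hS hD hB (hP y) t7 t8 t4 a1 a2 a3 t2 hc
      rw [hP0, hP1] at this
      exact Finset.mem_union_left _ (Finset.mem_filter.2 ⟨Finset.mem_univ _, this⟩)
  have h4 := (Finset.card_le_card h3).trans ((Finset.card_union_le _ _).trans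
    (Nat.add_le_add_left Finset.card_image_le _))
  calc M * (M - Sz) * (M - (D + 1) * h) ≤ K.card * (M - Sz) * (M - (D + 1) * h) := by gcongr
    _ ≤ A.card * (M - (D + 1) * h) := Nat.mul_le_mul_right _ h1
    _ ≤ _ := by omega

end Pool.Agent.Lib.MP_1c11af_pr
end

-- part Pool.Agent.Lib.MP_1c11af_pr.Num
section

/-!
The probability bounds with explicit parameters.
-/

namespace Pool.Agent.Lib.MP_1c11af_pr

open Finset MeasureTheory Real
open scoped Classical

set_option linter.unusedSectionVars false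

/-- the level with logarithmic mean degree `x` -/
noncomputable def pl (N x : ℝ) : ℝ := exp x / N

lemma pl_pos {N : ℝ} (hN : 0 < N) (x : ℝ) : 0 < pl N x := div_pos (exp_pos x) hN

lemma pl_mono {N : ℝ} (hN : 0 < N) {x y : ℝ} (h : x ≤ y) : pl N x ≤ pl N y :=
  div_le_div_of_nonneg_right (exp_le_exp.2 h) hN.le

lemma pl_le_one {N : ℝ} (hN : 0 < N) {x : ℝ} (h : x ≤ log N) : pl N x ≤ 1 := by
  rw [pl, div_le_one hN]
  exact (exp_le_exp.2 h).trans (exp_log hN).le

lemma pl_lt_one {N : ℝ} (hN : 0 < N) {x : ℝ} (h : x < log N) : pl N x < 1 := by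
  rw [pl, div_lt_one hN]
  exact (exp_lt_exp.2 h).trans_le (exp_log hN).le

lemma pl_pow {N : ℝ} (hN : 0 < N) (x : ℝ) (k : ℕ) :
    N ^ (k + 1) * pl N x ^ k = N * exp (x * k) := by
  rw [pl, div_pow, ← exp_nat_mul, mul_comm (k : ℝ) x]
  field_simp
  ring

lemma pl_mul {N : ℝ} (hN : 0 < N) (x : ℝ) : pl N x * N = exp x := by
  rw [pl]; field_simp

lemma pl_sub {N : ℝ} (hN : 0 < N) {x y : ℝ} (h0 : 0 ≤ x) (h : x ≤ y) :
    (y - x) / N ≤ pl N y - pl N x := by
  rw [pl, pl, ← sub_div]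
  refine div_le_div_of_nonneg_right ?_ hN.le
  have h1 : exp y = exp x * exp (y - x) := by rw [← exp_add]; ring_nf
  have h2 := add_one_le_exp (y - x)
  have h3 := one_le_exp h0
  nlinarith

lemma pm_ge {N t : ℕ} {x : ℝ} (hN : 0 < N) (hx : 0 < x) (ht : (t : ℝ) ≤ min x 1 * N / 20) :
    t ≤ N ∧ exp (0.9 * x) ≤ pl N x * ((N - t : ℕ) : ℝ) := by
  have hN' : (0 : ℝ) < N := by exact_mod_cast hN
  have h1 : min x 1 ≤ 1 := min_le_right _ _
  have h2 : min x 1 ≤ x := min_le_left _ _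
  have h3 : 0 < min x 1 := lt_min hx one_pos
  have htN : t ≤ N := by
    have : (t : ℝ) ≤ N := by nlinarith
    exact_mod_cast this
  refine ⟨htN, ?_⟩
  rw [Nat.cast_sub htN, mul_sub, pl_mul hN']
  have h4 : pl N x * t ≤ exp x * (min x 1 / 20) := by
    have := mul_le_mul_of_nonneg_left ht (pl_pos hN' x).le
    calc _ ≤ _ := this
      _ = pl N x * N * (min x 1 / 20) := by ring
      _ = _ := by rw [pl_mul hN']
  have h5 : exp x = exp (0.9 * x) * exp (0.1 * x) := by rw [← exp_add]; ring_nf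
  have h6 := add_one_le_exp (0.1 * x)
  have h7 := exp_pos (0.9 * x)
  have h8 : 1 ≤ exp (0.1 * x) * (1 - min x 1 / 20) := by nlinarith
  nlinarith

lemma cond1 {a y : ℝ} (ha : 0 ≤ a) (hy : exp a ≤ y) :
    exp (-(y * (1 - exp (-(2 * a))))) ≤ exp (-(2 * a)) := by
  refine exp_le_exp.2 (neg_le_neg ?_)
  have h1 : exp (-(2 * a)) ≤ 1 := exp_le_one_iff.2 (by linarith)
  have h2 : exp a * exp (-(2 * a)) = exp (-a) := by rw [← exp_add]; ring_nf
  have h3 := self_le_sinh_iff.2 ha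
  rw [sinh_eq] at h3
  nlinarith

lemma cond2 {a y : ℝ} (ha : 0 ≤ a) (hy : exp a ≤ y) :
    exp (a ^ 2 / 2) * exp (-(y * (1 - exp (-a)))) ≤ exp (-a) := by
  rw [← exp_add]
  refine exp_le_exp.2 ?_
  have h1 : exp (-a) ≤ 1 := exp_le_one_iff.2 (by linarith)
  have h2 : exp a * exp (-a) = 1 := by rw [← exp_add]; simp
  have h3 := quadratic_le_exp_of_nonneg ha
  nlinarith

lemma inv_exp_pow {x : ℝ} (M : ℕ) (c : ℝ) (hc : 0 ≤ c) :
    c / exp ((0.9 * x) ^ 2 / 2) ^ M ≤ c * exp (-(0.4 * x ^ 2 * M)) := by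
  rw [← exp_nat_mul, div_eq_mul_inv, ← exp_neg]
  refine mul_le_mul_of_nonneg_left (exp_le_exp.2 ?_) hc
  nlinarith [mul_nonneg (sq_nonneg x) (Nat.cast_nonneg (α := ℝ) M)]

variable {V : Type*} [DecidableEq V] [Fintype V]

lemma all_small_le [Nonempty V] {x x' : ℝ} (k M : ℕ) (hx : 0 < x)
    (hxL : x < log (Fintype.card V)) (hxL' : x' ≤ log (Fintype.card V))
    (hm : 4 * (M : ℝ) + k + 2 ≤ min x 1 * Fintype.card V / 20) :
    (mu (Sym2 V)).real {U | ∃ P, PathIn (lev U (pl (Fintype.card V) x')) P k ∧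
        ∀ j ≤ k, csz (lev U (pl (Fintype.card V) x)) (P j) < M} ≤
      Fintype.card V * exp (x' * k) * (exp (-(1.8 * x * (k + 1))) +
        (Fintype.card V + 1) * exp (-(0.4 * x ^ 2 * M))) := by
  have hN : 0 < Fintype.card V := Fintype.card_pos
  have hN' : (0 : ℝ) < Fintype.card V := by exact_mod_cast hN
  obtain ⟨h1, h2⟩ := pm_ge (t := 4 * M + k + 2) hN hx (by push_cast; exact hm)
  have ha : 0 ≤ 0.9 * x := by linarith
  refine (path_all_small k M (Fintype.card V - (4 * M + k + 2)) (pl_pos hN' x).le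
    (pl_lt_one hN' hxL) (pl_pos hN' x').le (pl_le_one hN' hxL') (one_le_exp (by positivity))
    (exp_pos _).le (exp_le_one_iff.2 (by linarith)) (exp_pos _).le
    (exp_le_one_iff.2 (by linarith)) (by omega) (cond1 ha h2) (cond2 ha h2)).trans ?_
  rw [← mul_assoc, pl_pow hN']
  refine mul_le_mul_of_nonneg_left (add_le_add (le_of_eq ?_) (inv_exp_pow _ _ (by positivity)))
    (by positivity)
  rw [← exp_nat_mul]; congr 1; push_cast; ring

lemma none_large_le [Nonempty V] {x : ℝ} (a M : ℕ) (hx : 0 < x)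
    (hxL : x < log (Fintype.card V))
    (hm : 4 * (M : ℝ) + a + 1 ≤ min x 1 * Fintype.card V / 20) :
    (mu (Sym2 V)).real {U | ∀ v, csz (lev U (pl (Fintype.card V) x)) v < M} ≤
      exp (-(1.8 * x * a)) + (Fintype.card V + 1) * exp (-(0.4 * x ^ 2 * M)) := by
  have hN : 0 < Fintype.card V := Fintype.card_pos
  have hN' : (0 : ℝ) < Fintype.card V := by exact_mod_cast hN
  obtain ⟨h1, h2⟩ := pm_ge (t := 4 * M + a + 1) hN hx (by push_cast; exact hm)
  have ha : 0 ≤ 0.9 * x := by linarith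
  refine (none_large a M (Fintype.card V - (4 * M + a + 1)) (pl_pos hN' x).le
    (pl_lt_one hN' hxL) (one_le_exp (by positivity))
    (exp_pos _).le (exp_le_one_iff.2 (by linarith)) (exp_pos _).le
    (exp_le_one_iff.2 (by linarith)) (by omega) (cond1 ha h2) (cond2 ha h2)).trans ?_
  refine add_le_add (le_of_eq ?_) (inv_exp_pow _ _ (by positivity))
  rw [← exp_nat_mul]; congr 1; ring

lemma no_middle_le [Nonempty V] {x : ℝ} (S τ : ℕ) (hx : 0 < x)
    (hxL : x < log (Fintype.card V))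
    (hm : 2 * (τ : ℝ) + 1 ≤ min x 1 * Fintype.card V / 20) :
    (mu (Sym2 V)).real {U | ∃ v, S ≤ csz (lev U (pl (Fintype.card V) x)) v ∧
        csz (lev U (pl (Fintype.card V) x)) v ≤ τ} ≤
      Fintype.card V * exp (-(0.4 * x ^ 2 * S)) := by
  have hN : 0 < Fintype.card V := Fintype.card_pos
  have hN' : (0 : ℝ) < Fintype.card V := by exact_mod_cast hN
  obtain ⟨h1, h2⟩ := pm_ge (t := 2 * τ + 1) hN hx (by push_cast; exact hm)
  have ha : 0 ≤ 0.9 * x := by linarith
  exact (no_middle S τ (Fintype.card V - (2 * τ + 1)) (pl_pos hN' x).le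
    (pl_lt_one hN' hxL) (one_le_exp (by positivity))
    (exp_pos _).le (exp_le_one_iff.2 (by linarith)) (by omega) (cond2 ha h2)).trans
    (inv_exp_pow _ _ hN'.le)

lemma exp_neg_le {y : ℝ} (hy : 0 ≤ y) : exp (-y) ≤ 1 - y + y ^ 2 / 2 := by
  have h1 := quadratic_le_exp_of_nonneg hy
  have h2 : exp y * exp (-y) = 1 := by rw [← exp_add]; simp
  have h3 := exp_pos (-y)
  have h4 : 0 < 1 - y + y ^ 2 / 2 := by nlinarith [sq_nonneg (y - 1)]
  by_contra hcon
  push Not at hcon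
  have h5 : (1 + y + y ^ 2 / 2) * (1 - y + y ^ 2 / 2) ≤ exp y * exp (-y) :=
    mul_le_mul h1 hcon.le h4.le (exp_pos _).le
  have h6 : (1 + y + y ^ 2 / 2) * (1 - y + y ^ 2 / 2) < exp y * exp (-y) :=
    lt_of_le_of_lt (mul_le_mul_of_nonneg_right h1 h4.le)
      (mul_lt_mul_of_pos_left hcon (exp_pos _))
  nlinarith [sq_nonneg (y ^ 2)]

lemma cl_small_le [Nonempty V] {x x' ξ : ℝ} (k τ : ℕ) (hξ : 0 < ξ) (hξ1 : ξ ≤ 1)
    (hx : -(ξ / 4) ≤ x) (hxL : x < log (Fintype.card V)) (hx' : x' ≤ ξ / 4)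
    (hxL' : x' ≤ log (Fintype.card V)) (hτ : 4 * ξ * τ ≤ k)
    (hm : 2 * (τ : ℝ) + k + 2 ≤ ξ * Fintype.card V / 2) :
    (mu (Sym2 V)).real {U | ∃ P, PathIn (lev U (pl (Fintype.card V) x')) P k ∧
        (cl (lev U (pl (Fintype.card V) x)) (vs P k)).card ≤ τ} ≤
      Fintype.card V * exp (-(ξ * k / 4)) := by
  have hN : 0 < Fintype.card V := Fintype.card_pos
  have hN' : (0 : ℝ) < Fintype.card V := by exact_mod_cast hN
  have h1 : 2 * τ + k + 2 ≤ Fintype.card V := by
    have : 2 * (τ : ℝ) + k + 2 ≤ Fintype.card V := by nlinarith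
    exact_mod_cast this
  have h2 : 1 - ξ ≤ pl (Fintype.card V) x * ((Fintype.card V - (2 * τ + k + 2) : ℕ) : ℝ) := by
    rw [Nat.cast_sub h1]
    push_cast
    have a1 : Fintype.card V * (1 - ξ / 2) ≤ Fintype.card V - (2 * (τ : ℝ) + k + 2) := by linarith
    have a2 := mul_le_mul_of_nonneg_left a1 (pl_pos hN' x).le
    rw [← mul_assoc, pl_mul hN'] at a2
    have a3 := add_one_le_exp x
    nlinarith
  refine (path_cl_small k τ (Fintype.card V - (2 * τ + k + 2)) (z := exp (-(2 * ξ ^ 2)))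
    (q := exp (-ξ)) (pl_pos hN' x).le
    (pl_lt_one hN' hxL) (pl_pos hN' x').le (pl_le_one hN' hxL') (exp_pos _)
    (exp_le_one_iff.2 (by nlinarith)) (exp_pos _).le (exp_le_one_iff.2 (by linarith))
    (by omega) ?_).trans ?_
  · rw [← exp_add]
    refine exp_le_exp.2 ?_
    have a1 := exp_neg_le hξ.le
    have a2 : (1 - ξ) * (ξ - ξ ^ 2 / 2) ≤ pl (Fintype.card V) x *
        ((Fintype.card V - (2 * τ + k + 2) : ℕ) : ℝ) * (1 - exp (-ξ)) :=
      mul_le_mul h2 (by linarith) (by nlinarith) (by linarith)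
    nlinarith [pow_pos hξ 3]
  · rw [← mul_assoc, pl_pow hN', ← exp_nat_mul, ← exp_nat_mul, ← exp_sub, mul_assoc, ← exp_add]
    refine mul_le_mul_of_nonneg_left (exp_le_exp.2 ?_) hN'.le
    push_cast
    have a1 := mul_le_mul_of_nonneg_right hx' (Nat.cast_nonneg (α := ℝ) k)
    nlinarith [mul_le_mul_of_nonneg_left hτ hξ.le]

lemma one_sub_ge_exp {y : ℝ} (hy1 : y < 1) : exp (-(y / (1 - y))) ≤ 1 - y := by
  have h1 : 0 < 1 - y := by linarith
  have h2 := add_one_le_exp (y / (1 - y))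
  have h3 : y / (1 - y) + 1 = (1 - y)⁻¹ := by field_simp; ring
  rw [exp_neg, inv_le_comm₀ (exp_pos _) h1, ← h3]
  exact h2

lemma few_big_le [Nonempty V] {x c : ℝ} (M : ℕ) (hx : 0 < x) (hx1 : x ≤ 1 / 100)
    (hp : 4 ≤ x * Fintype.card V) (hM : 1 ≤ 4 * x ^ 2 * M) :
    c * (mu (Sym2 V)).real {U | c ≤ ((big (lev U (pl (Fintype.card V) x)) M).card : ℝ)} ≤
      32 * x * Fintype.card V := by
  have hN : 0 < Fintype.card V := Fintype.card_pos
  have hN' : (0 : ℝ) < Fintype.card V := by exact_mod_cast hN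
  set p := pl (Fintype.card V) x with hpdef
  set q := exp (-(16 * x)) with hq
  have hex : exp x ≤ 1 + x + x ^ 2 := by
    have := abs_exp_sub_one_sub_id_le (x := x) (by rw [abs_of_pos hx]; linarith)
    linarith [le_abs_self (exp x - 1 - x)]
  have hp0 : 0 < p := pl_pos hN' x
  have hpN : p * Fintype.card V = exp x := pl_mul hN' x
  have hp1 : 2 * p ≤ x := by
    by_contra hcon
    push Not at hcon
    nlinarith [mul_lt_mul_of_pos_right hcon hN']
  have hq0 : 0 < q := exp_pos _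
  have hq1 : q ≤ 1 := exp_le_one_iff.2 (by linarith)
  have hq2 : 1 - 16 * x + 64 * x ^ 2 ≤ q := by
    have a1 : q = exp (-(8 * x)) ^ 2 := by rw [hq, ← exp_nat_mul]; congr 1; push_cast; ring
    have a2 := add_one_le_exp (-(8 * x))
    rw [a1]
    nlinarith
  have hpq : p * q < 1 := by nlinarith
  have hpq' : 0 < 1 - p * q := by linarith
  have hg : (1 - p) / (1 - p * q) = 1 - p * (1 - q) / (1 - p * q) := by field_simp; ring
  have h1 := few_big (V := V) M (p := p) (z := exp (-(4 * x ^ 2))) (q := q)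
    (g := (1 - p) / (1 - p * q)) (c := c) hp0.le (by linarith) (exp_pos _).le
    (exp_le_one_iff.2 (by nlinarith)) (div_nonneg (by linarith) hpq'.le)
    ((div_le_one hpq').2 (by nlinarith)) hq0.le (by field_simp) ?_ ?_
  · refine h1.trans ?_
    have := add_one_le_exp (-(16 * x))
    nlinarith
  · have hy1 : p * (1 - q) / (1 - p * q) < 1 := (div_lt_one hpq').2 (by nlinarith)
    have a1 := one_sub_ge_exp hy1
    rw [← hg] at a1
    have a2 : p * (1 - q) / (1 - p * q) / ((1 - p) / (1 - p * q)) = p * (1 - q) / (1 - p) := by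
      have : 1 - p ≠ 0 := by linarith
      field_simp
    rw [a2] at a1
    refine le_trans ?_ (mul_le_mul_of_nonneg_left (pow_le_pow_left₀ (exp_pos _).le a1 _)
      (exp_pos _).le)
    rw [← exp_nat_mul, ← exp_add]
    refine exp_le_exp.2 ?_
    have a3 : (Fintype.card V : ℝ) * (p * (1 - q) / (1 - p)) ≤ 16 * x - 4 * x ^ 2 := by
      rw [← mul_div_assoc, ← mul_assoc, mul_comm _ p, hpN, div_le_iff₀ (by linarith)]
      have b1 : exp x * (1 - q) ≤ (1 + x + x ^ 2) * (16 * x - 64 * x ^ 2) :=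
        mul_le_mul hex (by linarith) (by linarith) (by positivity)
      have b2 : (16 * x - 4 * x ^ 2) * (1 - x / 2) ≤ (16 * x - 4 * x ^ 2) * (1 - p) :=
        mul_le_mul_of_nonneg_left (by linarith) (by nlinarith)
      nlinarith [pow_pos hx 2, pow_pos hx 3, pow_pos hx 4]
    linarith
  · rw [← exp_nat_mul]
    have a1 : exp (M * -(4 * x ^ 2)) ≤ exp (-1) := exp_le_exp.2 (by linarith)
    have a2 := add_one_le_exp (1 : ℝ)
    have a3 : exp 1 * exp (-1) = 1 := by rw [← exp_add]; simp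
    nlinarith [exp_pos (-1)]

lemma big_sub_le [Nonempty V] {x : ℝ} (S : ℕ) (hx : 0 < x) (hx1 : x ≤ 1)
    (hp : 8 ≤ x * Fintype.card V) :
    (mu (Sym2 V)).real {U | ∃ v, S ≤ csz (lev U (pl (Fintype.card V) (-x))) v} ≤
      2 * Fintype.card V * exp (-(x ^ 2 * S / 32)) := by
  have hN : 0 < Fintype.card V := Fintype.card_pos
  have hN' : (0 : ℝ) < Fintype.card V := by exact_mod_cast hN
  set p := pl (Fintype.card V) (-x) with hpdef
  set q := exp (x / 4) with hq
  have hq2 : q ≤ 1 + x / 4 + (x / 4) ^ 2 := by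
    have := abs_exp_sub_one_sub_id_le (x := x / 4) (by rw [abs_of_pos (by linarith)]; linarith)
    linarith [le_abs_self (exp (x / 4) - 1 - x / 4)]
  have hq1 : 1 ≤ q := one_le_exp (by linarith)
  have hp0 : 0 < p := pl_pos hN' _
  have hpN : p * Fintype.card V = exp (-x) := pl_mul hN' _
  have hpq : p * q ≤ x / 8 := by
    have a1 : p * Fintype.card V * q ≤ 1 := by
      rw [hpN, hq, ← exp_add]; exact exp_le_one_iff.2 (by linarith)
    by_contra hcon
    push Not at hcon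
    nlinarith [mul_lt_mul_of_pos_right hcon hN']
  have hpq' : 0 < 1 - p * q := by linarith
  have hg : (1 - p) / (1 - p * q) = p * (q - 1) / (1 - p * q) + 1 := by field_simp; ring
  have h1 := no_big_sub (V := V) S (p := p) (z := exp (x ^ 2 / 32)) (q := q)
    (g := (1 - p) / (1 - p * q)) hp0.le (by nlinarith) (one_le_exp (by positivity))
    ((one_le_div hpq').2 (by nlinarith)) (by field_simp) ?_
  · refine h1.trans ?_
    rw [← exp_nat_mul, div_eq_mul_inv, ← exp_neg, mul_comm 2, mul_assoc]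
    refine mul_le_mul_of_nonneg_left (mul_le_mul (by nlinarith) (le_of_eq ?_) (exp_pos _).le
      (by norm_num)) hN'.le
    congr 1; ring
  · have a1 := add_one_le_exp (p * (q - 1) / (1 - p * q))
    rw [← hg] at a1
    refine le_trans (mul_le_mul_of_nonneg_left (pow_le_pow_left₀
      (div_nonneg (by nlinarith) hpq'.le) a1 _) (exp_pos _).le) ?_
    rw [← exp_nat_mul, ← exp_add]
    refine exp_le_exp.2 ?_
    have a3 : (Fintype.card V : ℝ) * (p * (q - 1) / (1 - p * q)) ≤ x / 4 - x ^ 2 / 32 := by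
      rw [← mul_div_assoc, ← mul_assoc, mul_comm _ p, hpN, div_le_iff₀ hpq']
      have b0 : exp (-x) * (1 + x) ≤ 1 := by
        have c1 := add_one_le_exp x
        have c2 : exp x * exp (-x) = 1 := by rw [← exp_add]; simp
        nlinarith [exp_pos (-x)]
      have b1 : exp (-x) * (q - 1) ≤ exp (-x) * (x / 4 + (x / 4) ^ 2) :=
        mul_le_mul_of_nonneg_left (by linarith) (exp_pos _).le
      have b2 : (x / 4 - x ^ 2 / 32) * (1 - x / 8) ≤ (x / 4 - x ^ 2 / 32) * (1 - p * q) :=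
        mul_le_mul_of_nonneg_left (by linarith) (by nlinarith)
      have b3 : x / 4 + (x / 4) ^ 2 ≤ (1 + x) * ((x / 4 - x ^ 2 / 32) * (1 - x / 8)) := by
        nlinarith [pow_pos hx 2, pow_pos hx 3, pow_pos hx 4]
      have b4 := mul_le_mul_of_nonneg_left b3 (exp_pos (-x)).le
      have b5 : 0 ≤ (x / 4 - x ^ 2 / 32) * (1 - x / 8) :=
        mul_nonneg (by nlinarith) (by linarith)
      nlinarith [mul_le_mul_of_nonneg_right b0 b5]
    linarith

end Pool.Agent.Lib.MP_1c11af_pr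
end
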