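import Pool.Agent.Lib.MP_1c11af_pr.Num

/-!
More probability bounds with explicit parameters, and a calculus of small events.
-/

namespace Pool.Agent.Lib.MP_1c11af_pr

open Finset MeasureTheory Real
open scoped Classical

set_option linter.unusedSectionVars false

variable {V : Type*} [DecidableEq V] [Fintype V]

lemma ball_small_le [Nonempty V] {x : ℝ} (k l s : ℕ) (hx : 0 < x) (hx1 : x ≤ 1 / 10)
    (hs : 2 ≤ s) (hsN : (s : ℝ) ≤ x * Fintype.card V / 100)
    (hl : 25 * log (Fintype.card V) ≤ x * l) :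
    (mu (Sym2 V)).real {U | ∃ P, PathIn (lev U (pl (Fintype.card V) x)) P k ∧
        (ball (lev U (pl (Fintype.card V) x)) (l + 1) (vs P k)).card < s} ≤
      Fintype.card V * exp (2 - 0.35 * x * k) := by
  have hN : 0 < Fintype.card V := Fintype.card_pos
  have hN' : (0 : ℝ) < Fintype.card V := by exact_mod_cast hN
  have hs' : (2 : ℝ) ≤ s := by exact_mod_cast hs
  have hs0 : (0 : ℝ) < s := by linarith
  set p := pl (Fintype.card V) x with hpdef
  have hp0 : 0 < p := pl_pos hN' x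
  have hpN : p * Fintype.card V = exp x := pl_mul hN' x
  have hex : exp x ≤ 1 + x + x ^ 2 := by
    have := abs_exp_sub_one_sub_id_le (x := x) (by rw [abs_of_pos hx]; linarith)
    linarith [le_abs_self (exp x - 1 - x)]
  have hex' := add_one_le_exp x
  have hps : p * s ≤ x / 50 := by
    have a1 := mul_le_mul_of_nonneg_left hsN hp0.le
    have a2 : p * (x * Fintype.card V / 100) = exp x * x / 100 := by rw [← hpN]; ring
    nlinarith
  have hsn : s ≤ Fintype.card V := by
    have : (s : ℝ) ≤ Fintype.card V := by nlinarith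
    exact_mod_cast this
  have hinv : (1 : ℝ) / s ≤ 1 / 2 := one_div_le_one_div_of_le (by norm_num) hs'
  have hinv0 : (0 : ℝ) < 1 / s := by positivity
  set a := 0.9 * x with ha
  have ha0 : 0 < a := by positivity
  set ψ : ℕ → ℝ := fun t => min ((1 + a / 10) ^ t / s) (1.5 * a) with hψ
  have hψ0 : ∀ t, 0 ≤ ψ t := fun t => le_min (by positivity) (by positivity)
  set φ : ℕ → ℝ := fun t => Nat.casesOn t 1 (fun t => exp (-((1 + a) * ψ t))) with hφ
  have h1 := path_ball_small (V := V) k (l + 1) s (p := p) (θ := 1 - 1 / s) (lam := 1 + a) hp0.le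
    (by nlinarith) (by linarith) (by linarith) (by linarith) hsn ?_ φ ψ rfl (fun _ => rfl) ?_ hψ0
  · refine h1.trans ?_
    rw [← mul_assoc, pl_pow hN', mul_assoc]
    refine mul_le_mul_of_nonneg_left ?_ hN'.le
    have a1 : ψ l = 1.5 * a := by
      refine min_eq_right ?_
      rw [le_div_iff₀ hs0]
      have b1 : exp (a / 20) ≤ 1 + a / 10 := by
        have := abs_exp_sub_one_sub_id_le (x := a / 20) (by rw [abs_of_pos (by linarith)]; linarith)
        nlinarith [le_abs_self (exp (a / 20) - 1 - a / 20)]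
      have b2 := pow_le_pow_left₀ (exp_pos _).le b1 l
      rw [← exp_nat_mul] at b2
      have b3 : 0 ≤ log (Fintype.card V) := log_nonneg (by exact_mod_cast hN)
      have b4 : (Fintype.card V : ℝ) ≤ exp (l * (a / 20)) := by
        rw [← exp_log hN']
        exact exp_le_exp.2 (by nlinarith)
      have b5 : (s : ℝ) ≤ Fintype.card V := by exact_mod_cast hsn
      nlinarith
    have a2 : φ (l + 1) = exp (-((1 + a) * (1.5 * a))) := by rw [← a1]
    have a3 : exp (-2) ≤ (1 - 1 / (s : ℝ)) ^ s := by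
      have b1 := one_sub_ge_exp (y := 1 / s) (by linarith)
      refine le_trans ?_ (pow_le_pow_left₀ (exp_pos _).le b1 s)
      rw [← exp_nat_mul]
      refine exp_le_exp.2 ?_
      have b2 : 1 / (s : ℝ) / (1 - 1 / s) ≤ 2 / s := by
        rw [div_le_div_iff₀ (by linarith) hs0]
        have : 1 / (s : ℝ) * s = 1 := by field_simp
        linarith
      have b3 : (s : ℝ) * (2 / s) = 2 := by field_simp
      nlinarith
    rw [a2, ← exp_nat_mul]
    calc exp (x * k) * (exp (((k + 1 : ℕ) : ℝ) * -((1 + a) * (1.5 * a))) / (1 - 1 / s) ^ s)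
        ≤ exp (x * k) * (exp (((k + 1 : ℕ) : ℝ) * -((1 + a) * (1.5 * a))) / exp (-2)) := by
          gcongr
      _ ≤ _ := by
          rw [← exp_sub, ← exp_add]
          refine exp_le_exp.2 ?_
          push_cast
          have b1 : (0 : ℝ) ≤ k := Nat.cast_nonneg _
          nlinarith [mul_nonneg b1 (sq_nonneg a), mul_nonneg b1 ha0.le]
  · have a1 : p * (Fintype.card V - s) = exp x - p * s := by rw [← hpN]; ring
    rw [a1]
    have a2 : (1 + x - x / 50) * (1 - x / 50) ≤ (exp x - p * s) * (1 - p * s) :=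
      mul_le_mul (by linarith) (by linarith) (by linarith) (by linarith)
    nlinarith
  · intro t
    cases t with
    | zero =>
      have : ψ 0 ≤ 1 / s := (min_le_left _ _).trans (by simp)
      have a0 : φ 0 = 1 := rfl
      rw [a0]
      linarith
    | succ t =>
      have a1 : ψ (t + 1) ≤ (1 + a / 10) * ψ t := by
        simp only [hψ]
        rw [mul_min_of_nonneg _ _ (by positivity : 0 ≤ 1 + a / 10)]
        refine min_le_min (le_of_eq (by ring)) (by nlinarith)
      have a2 : ψ t ≤ 1.5 * a := min_le_right _ _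
      have a3 := hψ0 t
      have a4 := exp_neg_le (y := (1 + a) * ψ t) (by positivity)
      have a5 : φ (t + 1) = exp (-((1 + a) * ψ t)) := rfl
      rw [a5]
      have a8 : (1 + a) ^ 2 ≤ 1.2 := by
        have : a ≤ 0.09 := by rw [ha]; linarith
        nlinarith
      have a6 : (1 + a) ^ 2 * ψ t ≤ 1.2 * (1.5 * a) :=
        mul_le_mul a8 a2 a3 (by norm_num)
      have a7 := exp_pos (-((1 + a) * ψ t))
      have a9 := mul_le_mul_of_nonneg_right a6 a3
      have a10 : exp (-((1 + a) * ψ t)) ≤ 1 - ψ (t + 1) := by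
        have e1 : ((1 + a) * ψ t) ^ 2 = (1 + a) ^ 2 * ψ t * ψ t := by ring
        rw [e1] at a4
        linarith
      have a11 := mul_pos hinv0 a7
      linarith

lemma sprinkle_le [Nonempty V] (Γ : V → Finset (Sym2 V) → Finset V) (s : ℕ) {x x' : ℝ}
    (hx : 0 ≤ x) (hxx : x ≤ x') (hxL : x' ≤ log (Fintype.card V)) :
    (mu (Sym2 V)).real {U | ∃ u v, s ≤ (Γ u (lev U (pl (Fintype.card V) x))).card ∧
        s ≤ (Γ v (lev U (pl (Fintype.card V) x))).card ∧
        Disjoint (Γ u (lev U (pl (Fintype.card V) x))) (Γ v (lev U (pl (Fintype.card V) x))) ∧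
        ∀ a ∈ Γ u (lev U (pl (Fintype.card V) x)), ∀ b ∈ Γ v (lev U (pl (Fintype.card V) x)),
          pl (Fintype.card V) x' < U s(a, b)} ≤
      (Fintype.card V : ℝ) ^ 2 * exp (-((x' - x) / Fintype.card V * s ^ 2)) := by
  have hN' : (0 : ℝ) < Fintype.card V := by exact_mod_cast Fintype.card_pos
  refine (sprinkle Γ s (pl_pos hN' x).le (pl_mono hN' hxx) (pl_le_one hN' hxL)).trans ?_
  have := pl_sub hN' hx hxx
  gcongr

lemma choose_le_exp (j h : ℕ) {y : ℝ} (hy : 0 ≤ y) :
    (j.choose h : ℝ) * y ^ h ≤ exp (3 * j * y - h) := by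
  have h1 : (j.choose h : ℝ) ≤ (j : ℝ) ^ h / h.factorial := by
    exact_mod_cast Nat.choose_le_pow_div h j (α := ℝ)
  have h2 := pow_div_factorial_le_exp (exp 1 * (j * y)) (by positivity) h
  have h3 : exp 1 ≤ 3 := by linarith [exp_one_lt_d9]
  have h4 : exp (exp 1 * (j * y)) ≤ exp (3 * j * y) := exp_le_exp.2 (by
    nlinarith [mul_nonneg (Nat.cast_nonneg (α := ℝ) j) hy])
  rw [exp_sub, le_div_iff₀ (exp_pos _)]
  calc (j.choose h : ℝ) * y ^ h * exp h ≤ (j : ℝ) ^ h / h.factorial * y ^ h * exp h := by gcongr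
    _ = (exp 1 * (j * y)) ^ h / h.factorial := by
        rw [mul_pow, mul_pow, ← exp_nat_mul, mul_one]; ring
    _ ≤ _ := h2.trans h4

lemma window_le [Nonempty V] (k h : ℕ) {a b : ℝ} (hab : a ≤ b) (hb : 0 ≤ b)
    (hbL : b ≤ log (Fintype.card V)) :
    (mu (Sym2 V)).real {U | ∃ j ≤ k, ∃ P, PathIn (lev U (pl (Fintype.card V) b)) P j ∧
        h ≤ ((range j).filter (fun l => pl (Fintype.card V) a < U (pe P l))).card} ≤
      (k + 1) * (Fintype.card V * exp (b * k + 3 * k * (b - a) - h)) := by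
  have hN' : (0 : ℝ) < Fintype.card V := by exact_mod_cast Fintype.card_pos
  have h0 : {U : Sym2 V → ℝ | ∃ j ≤ k, ∃ P, PathIn (lev U (pl (Fintype.card V) b)) P j ∧
        h ≤ ((range j).filter (fun l => pl (Fintype.card V) a < U (pe P l))).card} ⊆
      ⋃ j ∈ range (k + 1), {U | ∃ P, PathIn (lev U (pl (Fintype.card V) b)) P j ∧
        h ≤ ((range j).filter (fun l => pl (Fintype.card V) a < U (pe P l))).card} := by
    rintro U ⟨j, hj, hU⟩
    simp only [Set.mem_iUnion, exists_prop]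
    exact ⟨j, Finset.mem_range.2 (by omega), hU⟩
  refine (mreal_mono h0).trans ((measureReal_biUnion_finset_le _ _).trans ?_)
  refine (Finset.sum_le_card_nsmul _ _ (Fintype.card V * exp (b * k + 3 * k * (b - a) - h))
    (fun j hj => ?_)).trans (le_of_eq (by simp))
  have hjk : (j : ℝ) ≤ k := by
    have := Finset.mem_range.1 hj
    exact_mod_cast (by omega : j ≤ k)
  refine (window_count j h (pl_mono hN' hab) (pl_pos hN' b).le (pl_le_one hN' hbL)).trans ?_
  rcases lt_or_ge j h with hjh | hjh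
  · rw [Nat.choose_eq_zero_of_lt hjh]
    simp only [Nat.cast_zero, zero_mul, mul_zero]
    positivity
  have h1 : pl (Fintype.card V) b - pl (Fintype.card V) a ≤ pl (Fintype.card V) b * (b - a) := by
    have a1 : pl (Fintype.card V) a = pl (Fintype.card V) b * exp (a - b) := by
      rw [pl, pl, div_mul_eq_mul_div, ← exp_add]; congr 2; ring
    have a2 := add_one_le_exp (a - b)
    have a3 := pl_pos hN' b
    rw [a1]
    nlinarith
  have h2 : 0 ≤ pl (Fintype.card V) b - pl (Fintype.card V) a := sub_nonneg.2 (pl_mono hN' hab)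
  have h3 := pl_pos hN' b
  calc (Fintype.card V : ℝ) ^ (j + 1) * (j.choose h * (pl (Fintype.card V) b ^ (j - h) *
        (pl (Fintype.card V) b - pl (Fintype.card V) a) ^ h))
      ≤ (Fintype.card V : ℝ) ^ (j + 1) * (j.choose h * (pl (Fintype.card V) b ^ (j - h) *
        (pl (Fintype.card V) b * (b - a)) ^ h)) := by gcongr
    _ = (Fintype.card V : ℝ) ^ (j + 1) * pl (Fintype.card V) b ^ j *
          (j.choose h * (b - a) ^ h) := by
        rw [mul_pow, ← mul_assoc (pl _ b ^ (j - h)), ← pow_add, Nat.sub_add_cancel hjh]; ring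
    _ ≤ Fintype.card V * exp (b * j) * exp (3 * j * (b - a) - h) := by
        rw [pl_pow hN']
        exact mul_le_mul_of_nonneg_left (choose_le_exp j h (by linarith)) (by positivity)
    _ ≤ _ := by
        rw [mul_assoc, ← exp_add]
        refine mul_le_mul_of_nonneg_left (exp_le_exp.2 ?_) hN'.le
        nlinarith [mul_le_mul_of_nonneg_left hjk hb,
          mul_le_mul_of_nonneg_left hjk (sub_nonneg.2 hab)]

lemma degree_le [Nonempty V] (h : ℕ) {x : ℝ} (hx : x ≤ 1) (hxL : x ≤ log (Fintype.card V)) :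
    (mu (Sym2 V)).real {U | ∃ v,
        h ≤ (univ.filter (fun w => U s(w, v) ≤ pl (Fintype.card V) x)).card} ≤
      Fintype.card V * exp (9 - h) := by
  have hN' : (0 : ℝ) < Fintype.card V := by exact_mod_cast Fintype.card_pos
  refine (degree_bound h (pl_pos hN' x).le (pl_le_one hN' hxL)).trans ?_
  refine mul_le_mul_of_nonneg_left ((choose_le_exp _ h (pl_pos hN' x).le).trans
    (exp_le_exp.2 ?_)) hN'.le
  have h1 := pl_mul hN' x
  have h2 := exp_le_exp.2 hx
  nlinarith [exp_one_lt_d9]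

lemma no_path_le [Nonempty V] (k : ℕ) {x : ℝ} (hxL : x ≤ log (Fintype.card V)) :
    (mu (Sym2 V)).real {U | ∃ P, PathIn (lev U (pl (Fintype.card V) x)) P k} ≤
      Fintype.card V * exp (x * k) := by
  have hN' : (0 : ℝ) < Fintype.card V := by exact_mod_cast Fintype.card_pos
  exact (no_path k (pl_pos hN' x).le (pl_le_one hN' hxL)).trans (pl_pow hN' x k).le

lemma close_pairs_le [Nonempty V] (D : ℕ) {x c : ℝ} (hx : 0 ≤ x)
    (hxL : x ≤ log (Fintype.card V)) :
    c * (mu (Sym2 V)).real {U | c ≤ ((univ.filter (fun y : V × V =>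
        Wd (lev U (pl (Fintype.card V) x)) D y.1 y.2)).card : ℝ)} ≤
      (D + 1) * (Fintype.card V * exp (x * D)) := by
  have hN' : (0 : ℝ) < Fintype.card V := by exact_mod_cast Fintype.card_pos
  refine (close_pairs D (pl_pos hN' x).le (pl_le_one hN' hxL)).trans ?_
  refine (Finset.sum_le_card_nsmul _ _ (Fintype.card V * exp (x * D))
    (fun j hj => ?_)).trans (le_of_eq (by simp))
  rw [pl_pow hN']
  have hjk : (j : ℝ) ≤ D := by
    have := Finset.mem_range.1 hj
    exact_mod_cast (by omega : j ≤ D)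
  gcongr

/-- the weight function -/
noncomputable def wg (γ u : ℝ) : ℝ := exp (u ^ (-γ))

lemma wg_pos (γ u : ℝ) : 0 < wg γ u := exp_pos _

lemma wg_meas (γ : ℝ) : Measurable (wg γ) :=
  measurable_exp.comp (measurable_id.pow_const _)

lemma wg_anti {γ : ℝ} (hγ : 0 ≤ γ) (a b : ℝ) (ha : 0 < a) (hab : a ≤ b) : wg γ b ≤ wg γ a :=
  exp_le_exp.2 (rpow_le_rpow_of_nonpos ha hab (by linarith))

lemma wg_pl {N : ℝ} (hN : 0 < N) (γ x : ℝ) : wg γ (pl N x) = exp (exp (γ * (log N - x))) := by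
  have : pl N x = exp (x - log N) := by rw [exp_sub, exp_log hN, pl]
  rw [wg, this, ← exp_mul]
  congr 2; ring

lemma wg_gap {N : ℝ} (hN : 0 < N) {γ a b G : ℝ} (hG : G ≤ γ * (b - a) * exp (γ * (log N - b))) :
    wg γ (pl N b) ≤ exp (-G) * wg γ (pl N a) := by
  rw [wg_pl hN, wg_pl hN, ← exp_add]
  refine exp_le_exp.2 ?_
  have h1 : exp (γ * (log N - a)) = exp (γ * (log N - b)) * exp (γ * (b - a)) := by
    rw [← exp_add]; congr 1; ring
  have h2 := add_one_le_exp (γ * (b - a))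
  have h3 := exp_pos (γ * (log N - b))
  nlinarith

lemma wg_ratio {N : ℝ} (hN : 0 < N) {γ a b G : ℝ} (hG : γ * (b - a) * exp (γ * (log N - a)) ≤ G) :
    wg γ (pl N a) ≤ exp G * wg γ (pl N b) := by
  rw [wg_pl hN, wg_pl hN, ← exp_add]
  refine exp_le_exp.2 ?_
  have h1 : exp (γ * (log N - b)) = exp (γ * (log N - a)) * exp (-(γ * (b - a))) := by
    rw [← exp_add]; congr 1; ring
  have h2 := add_one_le_exp (-(γ * (b - a)))
  have h3 := exp_pos (γ * (log N - a))
  nlinarith

/-- an event of the pair (environment, tree) that has small probability -/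
def Sm (γ : ℝ) (B : (Sym2 V → ℝ) → Finset (Sym2 V) → Prop) (δ : ℝ) : Prop :=
  ∃ (E : Set (Sym2 V → ℝ)) (ρ : ℝ), 0 ≤ ρ ∧ (mu (Sym2 V)).real E + ρ ≤ δ ∧
    ∀ U, U ∉ E → Pq (fun e => wg γ (U e)) (B U) ≤ ρ

lemma Sm.env {γ δ : ℝ} {Q : (Sym2 V → ℝ) → Prop} (h : (mu (Sym2 V)).real {U | Q U} ≤ δ) :
    Sm γ (fun U _ => Q U) δ :=
  ⟨_, 0, le_rfl, by rw [add_zero]; exact h, fun U hU => (Pq_eq_zero _ (fun _ _ h => hU h)).le⟩

lemma Sm.mono {γ δ δ' : ℝ} {B C : (Sym2 V → ℝ) → Finset (Sym2 V) → Prop} (h : Sm γ C δ)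
    (hB : ∀ U S, IsT S → B U S → C U S) (hδ : δ ≤ δ') : Sm γ B δ' := by
  obtain ⟨E, ρ, h1, h2, h3⟩ := h
  exact ⟨E, ρ, h1, h2.trans hδ, fun U hU =>
    (Pq_mono (fun _ => wg_pos _ _) _ _ (hB U)).trans (h3 U hU)⟩

lemma Sm.or {γ δ δ' : ℝ} {B C : (Sym2 V → ℝ) → Finset (Sym2 V) → Prop} (h : Sm γ B δ)
    (h' : Sm γ C δ') : Sm γ (fun U S => B U S ∨ C U S) (δ + δ') := by
  obtain ⟨E, ρ, h1, h2, h3⟩ := h
  obtain ⟨E', ρ', h1', h2', h3'⟩ := h'
  refine ⟨E ∪ E', ρ + ρ', by linarith, ?_, fun U hU => ?_⟩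
  · linarith [measureReal_union_le (μ := mu (Sym2 V)) E E']
  · rw [Set.mem_union, not_or] at hU
    exact (Pq_le_add (fun _ => wg_pos _ _) _ (B U) (C U) (fun _ _ h => h)).trans
      (add_le_add (h3 U hU.1) (h3' U hU.2))

lemma Sm.ex {γ δ : ℝ} {C : ℕ → (Sym2 V → ℝ) → Finset (Sym2 V) → Prop} (m : ℕ)
    (h : ∀ i < m, Sm γ (C i) δ) : Sm γ (fun U S => ∃ i < m, C i U S) (m * δ) := by
  induction m with
  | zero =>
    refine (Sm.env (Q := fun _ => False) (δ := 0) (by simp)).mono ?_ (by simp)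
    rintro U S _ ⟨i, hi, _⟩
    omega
  | succ m ih =>
    refine ((ih (fun i hi => h i (by omega))).or (h m (by omega))).mono ?_
      (le_of_eq (by push_cast; ring))
    rintro U S _ ⟨i, hi, hC⟩
    rcases Nat.lt_succ_iff_lt_or_eq.1 hi with h1 | h1
    · exact Or.inl ⟨i, h1, hC⟩
    · exact Or.inr (h1 ▸ hC)

lemma Sm.am [Nonempty V] {γ a b G : ℝ} (hγ : 0 ≤ γ)
    (hG : G ≤ γ * (b - a) * exp (γ * (log (Fintype.card V) - b))) :
    Sm γ (fun (U : Sym2 V → ℝ) S => ¬ AM S (lev U (pl (Fintype.card V) a))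
      (lev U (pl (Fintype.card V) b))) ((Fintype.card V : ℝ) ^ 4 * exp (-G)) := by
  have hN' : (0 : ℝ) < Fintype.card V := by exact_mod_cast Fintype.card_pos
  refine ⟨{U | ¬ ∀ e, 0 < U e}, (Fintype.card V : ℝ) ^ 4 * exp (-G), by positivity,
    by rw [mu_pos, zero_add], fun U hU => ?_⟩
  have hU' : ∀ e, 0 < U e := not_not.1 hU
  refine Pq_not_AM (fun _ => wg_pos _ _) _ _ (exp_pos _).le (fun f hf e he => ?_)
  rw [mem_lev] at hf he
  exact (wg_anti hγ _ _ (pl_pos hN' b) (not_le.1 he).le).trans ((wg_gap hN' hG).trans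
    (mul_le_mul_of_nonneg_left (wg_anti hγ _ _ (hU' f) hf) (exp_pos _).le))

lemma Ph_le_of_Sm {γ δ : ℝ} {B C B' : (Sym2 V → ℝ) → Finset (Sym2 V) → Prop} (h : Sm γ C δ)
    (hB : ∀ U S, IsT S → B U S → C U S ∨ B' U S) :
    Ph (wg γ) B ≤ ENNReal.ofReal δ + Ph (wg γ) B' := by
  obtain ⟨E, ρ, h1, h2, h3⟩ := h
  set E' := toMeasurable (mu (Sym2 V)) E
  have hm : MeasurableSet E' := measurableSet_toMeasurable _ _
  have hpt : ∀ U, ENNReal.ofReal (Pq (fun e => wg γ (U e)) (B U)) ≤
      (E'.indicator 1 U + ENNReal.ofReal ρ) + ENNReal.ofReal (Pq (fun e => wg γ (U e)) (B' U)) := by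
    intro U
    by_cases hU : U ∈ E
    · rw [Set.indicator_of_mem (subset_toMeasurable _ _ hU)]
      refine le_trans ?_ ((le_self_add).trans le_self_add)
      exact ENNReal.ofReal_le_one.2 (Pq_le_one (fun _ => wg_pos _ _) _)
    · refine le_trans ?_ (add_le_add le_add_self le_rfl)
      rw [← ENNReal.ofReal_add h1 (Pq_nonneg (fun _ => wg_pos _ _) _)]
      exact ENNReal.ofReal_le_ofReal ((Pq_le_add (fun _ => wg_pos _ _) _ (C U) (B' U)
        (hB U)).trans (add_le_add (h3 U hU) le_rfl))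
  refine (lintegral_mono hpt).trans ?_
  have hm' : Measurable (fun U : Sym2 V → ℝ => E'.indicator 1 U + ENNReal.ofReal ρ) :=
    (measurable_one.indicator hm).add measurable_const
  rw [lintegral_add_left hm',
    lintegral_add_right _ measurable_const, lintegral_indicator_one hm, lintegral_const,
    measure_univ, mul_one, measure_toMeasurable]
  refine add_le_add ?_ le_rfl
  rw [← ofReal_measureReal, ← ENNReal.ofReal_add measureReal_nonneg h1]
  exact ENNReal.ofReal_le_ofReal h2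

end Pool.Agent.Lib.MP_1c11af_pr
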