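import Pool.Agent.Lib.MP_1c11af_pr.Events

/-!
Weighted spanning trees: partition function, exchange inequalities and the switching lemma.
-/

namespace Pool.Agent.Lib.MP_1c11af_pr

open Finset MeasureTheory
open scoped Classical

set_option linter.unusedSectionVars false

variable {V : Type*} [DecidableEq V] [Fintype V]

/-- all spanning trees, as edge sets -/
noncomputable def trees (V : Type*) [DecidableEq V] [Fintype V] : Finset (Finset (Sym2 V)) :=
  univ.filter IsT

lemma mem_trees {S : Finset (Sym2 V)} : S ∈ trees V ↔ IsT S := by simp [trees]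

/-- weight of an edge set -/
noncomputable def Wt (W : Sym2 V → ℝ) (S : Finset (Sym2 V)) : ℝ := ∏ e ∈ S, W e

/-- partition function -/
noncomputable def Zf (W : Sym2 V → ℝ) : ℝ := ∑ S ∈ trees V, Wt W S

/-- probability of an event under the weighted spanning tree law -/
noncomputable def Pq (W : Sym2 V → ℝ) (B : Finset (Sym2 V) → Prop) : ℝ :=
  (∑ S ∈ trees V, ind (B S) * Wt W S) / Zf W

lemma gr_edgeFinset (T : SimpleGraph V) : gr T.edgeFinset = T := by
  simp [gr]

lemma isT_edgeFinset {T : SimpleGraph V} (hT : T.IsTree) : IsT T.edgeFinset := by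
  refine ⟨fun a b => ?_, hT.card_edgeFinset⟩
  unfold Rc
  rw [gr_edgeFinset]
  exact hT.connected.preconnected a b

lemma trees_nonempty [Nonempty V] : (trees V).Nonempty := by
  obtain ⟨T, _, hT⟩ := (SimpleGraph.connected_top (V := V)).exists_isTree_le
  exact ⟨_, mem_trees.2 (isT_edgeFinset hT)⟩

lemma Wt_pos {W : Sym2 V → ℝ} (hW : ∀ e, 0 < W e) (S : Finset (Sym2 V)) : 0 < Wt W S :=
  Finset.prod_pos (fun e _ => hW e)

lemma Zf_pos [Nonempty V] {W : Sym2 V → ℝ} (hW : ∀ e, 0 < W e) : 0 < Zf W :=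
  Finset.sum_pos (fun S _ => Wt_pos hW S) trees_nonempty

lemma Zf_nonneg {W : Sym2 V → ℝ} (hW : ∀ e, 0 < W e) : 0 ≤ Zf W :=
  Finset.sum_nonneg (fun S _ => (Wt_pos hW S).le)

lemma Zf_mono {W W' : Sym2 V → ℝ} (hW : ∀ e, 0 < W e) (h : ∀ e, W e ≤ W' e) : Zf W ≤ Zf W' :=
  Finset.sum_le_sum (fun _ _ => Finset.prod_le_prod (fun e _ => (hW e).le) (fun e _ => h e))

lemma Pq_nonneg {W : Sym2 V → ℝ} (hW : ∀ e, 0 < W e) (B : Finset (Sym2 V) → Prop) :
    0 ≤ Pq W B :=
  div_nonneg (Finset.sum_nonneg (fun S _ => mul_nonneg (ind_nonneg _) (Wt_pos hW S).le))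
    (Zf_nonneg hW)

lemma Pq_le_one {W : Sym2 V → ℝ} (hW : ∀ e, 0 < W e) (B : Finset (Sym2 V) → Prop) :
    Pq W B ≤ 1 :=
  div_le_one_of_le₀ (Finset.sum_le_sum (fun S _ =>
    mul_le_of_le_one_left (Wt_pos hW S).le (ind_le_one _))) (Zf_nonneg hW)

lemma Pq_le_sum {W : Sym2 V → ℝ} (hW : ∀ e, 0 < W e) {ι : Type*} (I : Finset ι)
    (B : Finset (Sym2 V) → Prop) (C : ι → Finset (Sym2 V) → Prop)
    (h : ∀ S, IsT S → B S → ∃ i ∈ I, C i S) : Pq W B ≤ ∑ i ∈ I, Pq W (C i) := by
  unfold Pq
  rw [← Finset.sum_div, Finset.sum_comm]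
  refine div_le_div_of_nonneg_right (Finset.sum_le_sum (fun S hS => ?_)) (Zf_nonneg hW)
  rw [← Finset.sum_mul]
  refine mul_le_mul_of_nonneg_right ?_ (Wt_pos hW S).le
  refine ind_le (Finset.sum_nonneg (fun _ _ => ind_nonneg _)) (fun hB => ?_)
  obtain ⟨i, hi, hC⟩ := h S (mem_trees.1 hS) hB
  exact (ind_pos hC).ge.trans
    (Finset.single_le_sum (f := fun i => ind (C i S)) (fun _ _ => ind_nonneg _) hi)

lemma Pq_le_add {W : Sym2 V → ℝ} (hW : ∀ e, 0 < W e) (B C C' : Finset (Sym2 V) → Prop)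
    (h : ∀ S, IsT S → B S → C S ∨ C' S) : Pq W B ≤ Pq W C + Pq W C' := by
  have := Pq_le_sum hW (univ : Finset Bool) B (fun b => if b then C else C') (by
    intro S hS hB
    rcases h S hS hB with h | h
    · exact ⟨true, Finset.mem_univ _, by simpa using h⟩
    · exact ⟨false, Finset.mem_univ _, by simpa using h⟩)
  simpa using this

lemma Pq_mono {W : Sym2 V → ℝ} (hW : ∀ e, 0 < W e) (B C : Finset (Sym2 V) → Prop)
    (h : ∀ S, IsT S → B S → C S) : Pq W B ≤ Pq W C := by
  have := Pq_le_sum hW (univ : Finset Unit) B (fun _ => C)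
    (fun S hS hB => ⟨(), Finset.mem_univ _, h S hS hB⟩)
  simpa using this

lemma Pq_eq_zero {W : Sym2 V → ℝ} (B : Finset (Sym2 V) → Prop)
    (h : ∀ S, IsT S → ¬ B S) : Pq W B = 0 := by
  unfold Pq
  rw [Finset.sum_eq_zero, zero_div]
  intro S hS
  rw [ind_neg (h S (mem_trees.1 hS)), zero_mul]

/-- the basic exchange inequality -/
lemma exchange_sum {W : Sym2 V → ℝ} (hW : ∀ e, 0 < W e) (f : Sym2 V) (c d : V) :
    ∑ S ∈ trees V, ind (f ∈ S ∧ ¬ Rc (S.erase f) c d) * Wt W (S.erase f) ≤ Zf W / W s(c, d) := by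
  rw [le_div_iff₀ (hW _), Finset.sum_mul]
  set I := (trees V).filter (fun S => f ∈ S ∧ ¬ Rc (S.erase f) c d) with hI
  have h1 : ∑ S ∈ trees V, ind (f ∈ S ∧ ¬ Rc (S.erase f) c d) * Wt W (S.erase f) * W s(c, d) =
      ∑ S ∈ I, Wt W (insert s(c, d) (S.erase f)) := by
    rw [hI, Finset.sum_filter]
    refine Finset.sum_congr rfl (fun S _ => ?_)
    split_ifs with h
    · rw [ind_pos h, one_mul]
      unfold Wt
      rw [Finset.prod_insert (notMem_of_not_rc h.2), mul_comm]
    · rw [ind_neg h]; ring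
  have hinj : Set.InjOn (fun S : Finset (Sym2 V) => insert s(c, d) (S.erase f)) (I : Set _) := by
    intro S hS S' hS' h
    simp only [hI, Finset.coe_filter, Set.mem_ofPred_eq] at hS hS'
    have h2 : S.erase f = S'.erase f := by
      have := congrArg (fun X => Finset.erase X s(c, d)) h
      simpa only [Finset.erase_insert (notMem_of_not_rc hS.2.2),
        Finset.erase_insert (notMem_of_not_rc hS'.2.2)] using this
    rw [← Finset.insert_erase hS.2.1, h2, Finset.insert_erase hS'.2.1]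
  rw [h1, ← Finset.sum_image hinj]
  refine Finset.sum_le_sum_of_subset_of_nonneg ?_ (fun S _ _ => (Wt_pos hW S).le)
  intro S' hS'
  obtain ⟨S, hS, rfl⟩ := Finset.mem_image.1 hS'
  rw [hI, Finset.mem_filter] at hS
  exact mem_trees.2 ((mem_trees.1 hS.1).exchange hS.2.1 hS.2.2)

/-- raising the weight of one pair -/
lemma Zf_raise {W : Sym2 V → ℝ} (hW : ∀ e, 0 < W e) {c : ℝ} (hc : 0 ≤ c) (P : ℕ → V) (k : ℕ) :
    Zf (fun e => W e + if e = s(P 0, P k) then c else 0) ≤
      Zf W * (1 + c * ∑ l ∈ range k, (W (pe P l))⁻¹) := by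
  set f := s(P 0, P k) with hf
  have h1 : ∀ S ∈ trees V, Wt (fun e => W e + if e = f then c else 0) S ≤
      Wt W S + c * ∑ l ∈ range k,
        ind (f ∈ S ∧ ¬ Rc (S.erase f) (P l) (P (l + 1))) * Wt W (S.erase f) := by
    intro S hS
    have hnn : ∀ l ∈ range k,
        0 ≤ ind (f ∈ S ∧ ¬ Rc (S.erase f) (P l) (P (l + 1))) * Wt W (S.erase f) :=
      fun l _ => mul_nonneg (ind_nonneg _) (Wt_pos hW _).le
    by_cases hfS : f ∈ S
    · have e1 : Wt (fun e => W e + if e = f then c else 0) S =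
          Wt W S + c * Wt W (S.erase f) := by
        unfold Wt
        rw [← Finset.mul_prod_erase S _ hfS, ← Finset.mul_prod_erase S W hfS, if_pos rfl,
          Finset.prod_congr rfl (g := W)]
        · ring
        · intro e he
          rw [if_neg (Finset.ne_of_mem_erase he), add_zero]
      rw [e1]
      refine add_le_add le_rfl (mul_le_mul_of_nonneg_left ?_ hc)
      have hex : ∃ l ∈ range k, ¬ Rc (S.erase f) (P l) (P (l + 1)) := by
        by_contra hcon
        push Not at hcon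
        have : ∀ j ≤ k, Rc (S.erase f) (P 0) (P j) := by
          intro j hj
          induction j with
          | zero => exact Rc.refl _ _
          | succ j ih => exact (ih (by omega)).trans (hcon j (Finset.mem_range.2 (by omega)))
        exact (mem_trees.1 hS).bridge hfS (this k le_rfl)
      obtain ⟨l, hl, hn⟩ := hex
      refine le_trans ?_ (Finset.single_le_sum hnn hl)
      rw [ind_pos ⟨hfS, hn⟩, one_mul]
    · have e1 : Wt (fun e => W e + if e = f then c else 0) S = Wt W S := by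
        unfold Wt
        refine Finset.prod_congr rfl (fun e he => ?_)
        simp only [if_neg (fun (h : e = f) => hfS (h ▸ he)), add_zero]
      rw [e1]
      have := mul_nonneg hc (Finset.sum_nonneg hnn)
      linarith
  refine (Finset.sum_le_sum h1).trans ?_
  rw [Finset.sum_add_distrib, ← Finset.mul_sum, Finset.sum_comm, mul_add, mul_one]
  refine add_le_add le_rfl ?_
  rw [mul_left_comm, Finset.mul_sum (range k) _ (Zf W)]
  refine mul_le_mul_of_nonneg_left (Finset.sum_le_sum (fun l _ => ?_)) hc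
  rw [← div_eq_mul_inv]
  exact exchange_sum hW f (P l) (P (l + 1))

/-- approximate minimality: a tree edge separating the ends of a pair of `X` lies in `Y` -/
def AM (S X Y : Finset (Sym2 V)) : Prop :=
  ∀ u v e, s(u, v) ∈ X → e ∈ S → ¬ Rc (S.erase e) u v → e ∈ Y

lemma AM.rc {S X Y : Finset (Sym2 V)} (h : AM S X Y) {u v : V} {e : Sym2 V} (huv : Rc X u v)
    (he : e ∈ S) (hn : ¬ Rc (S.erase e) u v) : e ∈ Y := by
  by_contra hY
  refine hn (huv.induct (fun w => Rc (S.erase e) u w) (Rc.refl _ _) ?_)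
  intro c d hc hcd
  refine hc.trans ?_
  by_contra hn'
  exact hY (h c d e hcd he hn')

lemma card_sym2_le : Fintype.card (Sym2 V) ≤ Fintype.card V ^ 2 := by
  have := Fintype.card_le_of_surjective (fun x : V × V => s(x.1, x.2)) (by
    intro e
    induction e using Sym2.ind with
    | _ a b => exact ⟨(a, b), rfl⟩)
  simpa [sq] using this

lemma Pq_not_AM [Nonempty V] {W : Sym2 V → ℝ} (hW : ∀ e, 0 < W e) (X Y : Finset (Sym2 V)) {ρ : ℝ}
    (hρ : 0 ≤ ρ) (h : ∀ f ∈ X, ∀ e, e ∉ Y → W e ≤ ρ * W f) :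
    Pq W (fun S => ¬ AM S X Y) ≤ (Fintype.card V : ℝ) ^ 4 * ρ := by
  have hZ := Zf_pos hW
  refine (Pq_le_sum hW (univ : Finset (V × V × Sym2 V)) _
    (fun x S => s(x.1, x.2.1) ∈ X ∧ x.2.2 ∉ Y ∧ x.2.2 ∈ S ∧ ¬ Rc (S.erase x.2.2) x.1 x.2.1)
    ?_).trans ?_
  · intro S _ hB
    unfold AM at hB
    push Not at hB
    obtain ⟨u, v, e, h1, h2, h3, h4⟩ := hB
    exact ⟨(u, v, e), Finset.mem_univ _, h1, h4, h2, h3⟩
  · refine (Finset.sum_le_card_nsmul _ _ ρ ?_).trans ?_
    · rintro ⟨u, v, e⟩ _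
      by_cases h1 : s(u, v) ∈ X ∧ e ∉ Y
      · unfold Pq
        rw [div_le_iff₀ hZ]
        have h2 := exchange_sum hW e u v
        have h3 : ∀ S ∈ trees V, ind (s(u, v) ∈ X ∧ e ∉ Y ∧ e ∈ S ∧ ¬ Rc (S.erase e) u v) *
            Wt W S = W e * (ind (e ∈ S ∧ ¬ Rc (S.erase e) u v) * Wt W (S.erase e)) := by
          intro S _
          by_cases h4 : e ∈ S ∧ ¬ Rc (S.erase e) u v
          · rw [ind_pos h4, ind_pos ⟨h1.1, h1.2, h4⟩]
            unfold Wt
            rw [← Finset.mul_prod_erase S W h4.1]; ring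
          · rw [ind_neg h4, ind_neg (fun h5 => h4 h5.2.2)]; ring
        rw [Finset.sum_congr rfl h3, ← Finset.mul_sum]
        refine (mul_le_mul_of_nonneg_left h2 (hW e).le).trans ?_
        rw [mul_div_assoc', div_le_iff₀ (hW _)]
        nlinarith [mul_le_mul_of_nonneg_right (h _ h1.1 e h1.2) hZ.le]
      · rw [Pq_eq_zero]
        · exact hρ
        · intro S _ h2
          exact h1 ⟨h2.1, h2.2.1⟩
    · rw [nsmul_eq_mul]
      refine mul_le_mul_of_nonneg_right ?_ hρ
      have := card_sym2_le (V := V)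
      simp only [Finset.card_univ, Fintype.card_prod]
      have h2 : Fintype.card V * (Fintype.card V * Fintype.card (Sym2 V)) ≤
          Fintype.card V ^ 4 := by
        calc _ ≤ Fintype.card V * (Fintype.card V * Fintype.card V ^ 2) := by gcongr
          _ = _ := by ring
      exact_mod_cast h2

/-- action of a permutation of the pairs on edge sets -/
def actS (σ : Equiv.Perm (Sym2 V)) (S : Finset (Sym2 V)) : Finset (Sym2 V) :=
  S.map σ.symm.toEmbedding

lemma mem_actS {σ : Equiv.Perm (Sym2 V)} {S : Finset (Sym2 V)} {e : Sym2 V} :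
    e ∈ actS σ S ↔ σ e ∈ S := by
  simp [actS, Finset.mem_map_equiv]

lemma Wt_actS (σ : Equiv.Perm (Sym2 V)) (W : Sym2 V → ℝ) (S : Finset (Sym2 V)) :
    Wt (fun e => W (σ e)) (actS σ S) = Wt W S := by
  simp [Wt, actS]

lemma actS_injective (σ : Equiv.Perm (Sym2 V)) : Function.Injective (actS σ) :=
  Finset.map_injective _

lemma actS_swap {S : Finset (Sym2 V)} {f f' : Sym2 V} (hf : f ∈ S) (hf' : f' ∉ S) :
    actS (Equiv.swap f f') S = insert f' (S.erase f) := by
  ext e
  rw [mem_actS, Finset.mem_insert, Finset.mem_erase]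
  by_cases h1 : e = f
  · subst h1
    have : e ≠ f' := fun h => hf' (h ▸ hf)
    simp [hf', this]
  · by_cases h2 : e = f'
    · subst h2; simp [hf]
    · rw [Equiv.swap_apply_of_ne_of_ne h1 h2]; simp [h1, h2]

lemma lev_comp (σ : Equiv.Perm (Sym2 V)) (U : Sym2 V → ℝ) (p : ℝ) :
    lev (fun e => U (σ e)) p = actS σ (lev U p) := by
  ext e; rw [mem_actS, mem_lev, mem_lev]

lemma mp_comp {E : Type*} [Fintype E] (σ : Equiv.Perm E) :
    MeasurePreserving (fun (U : E → ℝ) e => U (σ e)) (mu E) (mu E) := by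
  have hm : Measurable (fun (U : E → ℝ) e => U (σ e)) :=
    measurable_pi_lambda _ (fun e => measurable_pi_apply _)
  refine ⟨hm, ?_⟩
  unfold mu
  refine (Measure.pi_eq (fun s hs => ?_)).symm
  rw [Measure.map_apply hm (MeasurableSet.univ_pi hs)]
  have : (fun (U : E → ℝ) e => U (σ e)) ⁻¹' Set.pi Set.univ s =
      Set.pi Set.univ (fun e => s (σ.symm e)) := by
    ext U
    simp only [Set.mem_preimage, Set.mem_pi, Set.mem_univ, true_imp_iff]
    constructor
    · intro h e
      simpa using h (σ.symm e)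
    · intro h e
      simpa using h (σ e)
  rw [this, Measure.pi_pi]
  exact Equiv.prod_comp σ.symm (fun e => unif (s e))

lemma measurable_Pq {w : ℝ → ℝ} (hw : Measurable w) (B : (Sym2 V → ℝ) → Finset (Sym2 V) → Prop)
    (hB : ∀ S, MeasurableSet {U | B U S}) :
    Measurable (fun U : Sym2 V → ℝ => Pq (fun e => w (U e)) (B U)) := by
  have hW : ∀ S : Finset (Sym2 V), Measurable (fun U : Sym2 V → ℝ => Wt (fun e => w (U e)) S) :=
    fun S => Finset.measurable_prod _ (fun e _ => hw.comp (measurable_pi_apply e))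
  refine Measurable.div (Finset.measurable_sum _ (fun S _ => Measurable.mul ?_ (hW S)))
    (Finset.measurable_sum _ (fun S _ => hW S))
  exact Measurable.ite (hB S) measurable_const measurable_const

/-- averaged probability -/
noncomputable def Ph (w : ℝ → ℝ) (B : (Sym2 V → ℝ) → Finset (Sym2 V) → Prop) : ENNReal :=
  ∫⁻ U, ENNReal.ofReal (Pq (fun e => w (U e)) (B U)) ∂(mu (Sym2 V))

/-- the switching lemma for the joint law of the environment and the tree -/
lemma switching [Nonempty V] {w : ℝ → ℝ} (hw : Measurable w) (hw0 : ∀ x, 0 < w x) {δ : Type*}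
    (I : Finset δ) (σ : δ → Equiv.Perm (Sym2 V))
    (valid : δ → (Sym2 V → ℝ) → Finset (Sym2 V) → Prop)
    (hmeas : ∀ d S, MeasurableSet {U | valid d U S})
    (B : (Sym2 V → ℝ) → Finset (Sym2 V) → Prop) {F Λ C : ℝ} (hF : 0 < F) (hΛ : 0 ≤ Λ)
    (h1 : ∀ U S, IsT S → B U S → F ≤ ((I.filter (fun d =>
      valid d (fun e => U (σ d e)) (actS (σ d) S) ∧ IsT (actS (σ d) S) ∧
        Zf (fun e => w (U (σ d e))) ≤ Λ * Zf (fun e => w (U e)))).card : ℝ))
    (h3 : ∀ U S, IsT S → ((I.filter (fun d => valid d U S)).card : ℝ) ≤ C) :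
    Ph w B ≤ ENNReal.ofReal (Λ * C / F) := by
  set G : δ → (Sym2 V → ℝ) → ℝ := fun d U => Pq (fun e => w (U e)) (valid d U) with hG
  have hGm : ∀ d, Measurable (G d) := fun d => measurable_Pq hw _ (hmeas d)
  have hG0 : ∀ d U, 0 ≤ G d U := fun d U => Pq_nonneg (fun _ => hw0 _) _
  have hG1 : ∀ d U, G d U ≤ 1 := fun d U => Pq_le_one (fun _ => hw0 _) _
  have hGi : ∀ d, Integrable (G d) (mu (Sym2 V)) := fun d =>
    Integrable.of_bound (hGm d).aestronglyMeasurable 1
      (Filter.Eventually.of_forall (fun U => by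
        rw [Real.norm_eq_abs, abs_of_nonneg (hG0 d U)]; exact hG1 d U))
  have hGi' : ∀ d, Integrable (fun U : Sym2 V → ℝ => G d (fun e => U (σ d e))) (mu (Sym2 V)) :=
    fun d => (mp_comp (σ d)).integrable_comp_of_integrable (hGi d)
  have hpt : ∀ U : Sym2 V → ℝ, Pq (fun e => w (U e)) (B U) ≤
      Λ / F * ∑ d ∈ I, G d (fun e => U (σ d e)) := by
    intro U
    have hZ : 0 < Zf (fun e => w (U e)) := Zf_pos (fun _ => hw0 _)
    have hZ' : ∀ d, 0 < Zf (fun e => w (U (σ d e))) := fun d => Zf_pos (fun _ => hw0 _)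
    have e1 : ∀ S ∈ trees V, F * (ind (B U S) * Wt (fun e => w (U e)) S) / Zf (fun e => w (U e)) ≤
        Λ * ∑ d ∈ I, ind (valid d (fun e => U (σ d e)) (actS (σ d) S) ∧ IsT (actS (σ d) S)) *
          Wt (fun e => w (U (σ d e))) (actS (σ d) S) / Zf (fun e => w (U (σ d e))) := by
      intro S hS
      have hWS : 0 < Wt (fun e => w (U e)) S := Wt_pos (fun _ => hw0 _) S
      have hnn : ∀ d ∈ I, 0 ≤ ind (valid d (fun e => U (σ d e)) (actS (σ d) S) ∧
          IsT (actS (σ d) S)) * Wt (fun e => w (U (σ d e))) (actS (σ d) S) /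
            Zf (fun e => w (U (σ d e))) := fun d _ =>
        div_nonneg (mul_nonneg (ind_nonneg _) (Wt_pos (fun _ => hw0 _) _).le) (hZ' d).le
      by_cases hB : B U S
      · rw [ind_pos hB, one_mul, mul_div_assoc]
        refine (mul_le_mul_of_nonneg_right (h1 U S (mem_trees.1 hS) hB) (by positivity)).trans ?_
        rw [← nsmul_eq_mul, ← Finset.sum_const, Finset.mul_sum]
        refine le_trans (Finset.sum_le_sum ?_) (Finset.sum_le_sum_of_subset_of_nonneg
          (Finset.filter_subset _ I) (fun d hd _ => mul_nonneg hΛ (hnn d hd)))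
        intro d hd
        obtain ⟨_, a1, a2, a3⟩ := Finset.mem_filter.1 hd
        rw [ind_pos ⟨a1, a2⟩, one_mul, Wt_actS (σ d) (fun e => w (U e)) S, mul_div_assoc',
          div_le_div_iff₀ hZ (hZ' d)]
        nlinarith [mul_le_mul_of_nonneg_left a3 hWS.le]
      · rw [ind_neg hB, zero_mul, mul_zero, zero_div]
        exact mul_nonneg hΛ (Finset.sum_nonneg hnn)
    have e2 := Finset.sum_le_sum e1
    rw [← Finset.sum_div, ← Finset.mul_sum, ← Finset.mul_sum, Finset.sum_comm] at e2
    have e3 : ∀ d ∈ I, ∑ S ∈ trees V, ind (valid d (fun e => U (σ d e)) (actS (σ d) S) ∧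
        IsT (actS (σ d) S)) * Wt (fun e => w (U (σ d e))) (actS (σ d) S) /
          Zf (fun e => w (U (σ d e))) ≤ G d (fun e => U (σ d e)) := by
      intro d _
      rw [← Finset.sum_div]
      refine div_le_div_of_nonneg_right ?_ (hZ' d).le
      rw [← Finset.sum_image (s := trees V) (g := actS (σ d))
        (f := fun S' => ind (valid d (fun e => U (σ d e)) S' ∧ IsT S') *
          Wt (fun e => w (U (σ d e))) S') (actS_injective _).injOn]
      calc _ ≤ ∑ S' ∈ univ, ind (valid d (fun e => U (σ d e)) S' ∧ IsT S') *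
            Wt (fun e => w (U (σ d e))) S' :=
            Finset.sum_le_sum_of_subset_of_nonneg (Finset.subset_univ _) (fun S' _ _ =>
              mul_nonneg (ind_nonneg _) (Wt_pos (fun _ => hw0 _) _).le)
        _ = _ := by
            unfold trees
            rw [Finset.sum_filter]
            refine Finset.sum_congr rfl (fun S' _ => ?_)
            split_ifs with h
            · simp [h]
            · rw [ind_neg (fun h' => h h'.2), zero_mul]
    have e4 := e2.trans (mul_le_mul_of_nonneg_left (Finset.sum_le_sum e3) hΛ)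
    rw [div_mul_eq_mul_div, le_div_iff₀ hF]
    unfold Pq
    rw [mul_div_assoc] at e4
    linarith
  have hint : Integrable (fun U : Sym2 V → ℝ => Λ / F * ∑ d ∈ I, G d (fun e => U (σ d e)))
      (mu (Sym2 V)) := (integrable_finsetSum _ (fun d _ => hGi' d)).const_mul _
  calc Ph w B ≤ ∫⁻ U, ENNReal.ofReal (Λ / F * ∑ d ∈ I, G d (fun e => U (σ d e))) ∂(mu (Sym2 V)) :=
        lintegral_mono (fun U => ENNReal.ofReal_le_ofReal (hpt U))
    _ = ENNReal.ofReal (∫ U, Λ / F * ∑ d ∈ I, G d (fun e => U (σ d e)) ∂(mu (Sym2 V))) :=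
        (ofReal_integral_eq_lintegral_ofReal hint (Filter.Eventually.of_forall (fun U =>
          mul_nonneg (by positivity) (Finset.sum_nonneg (fun d _ => hG0 d _))))).symm
    _ ≤ _ := by
        refine ENNReal.ofReal_le_ofReal ?_
        rw [integral_const_mul, integral_finsetSum _ (fun d _ => hGi' d)]
        have e1 : ∀ d ∈ I, ∫ U, G d (fun e => U (σ d e)) ∂(mu (Sym2 V)) =
            ∫ U, G d U ∂(mu (Sym2 V)) := by
          intro d _
          have := integral_map (μ := mu (Sym2 V)) (mp_comp (σ d)).measurable.aemeasurable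
            (f := G d) (hGm d).aestronglyMeasurable
          rw [(mp_comp (σ d)).map_eq] at this
          exact this.symm
        rw [Finset.sum_congr rfl e1, ← integral_finsetSum _ (fun d _ => hGi d)]
        have e2 : ∫ U, ∑ d ∈ I, G d U ∂(mu (Sym2 V)) ≤ C := by
          refine (integral_mono (integrable_finsetSum _ (fun d _ => hGi d)) (integrable_const C)
            (fun U => ?_)).trans (by simp)
          have hZ : 0 < Zf (fun e => w (U e)) := Zf_pos (fun _ => hw0 _)
          simp only [hG, Pq]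
          rw [← Finset.sum_div, div_le_iff₀ hZ, Finset.sum_comm]
          unfold Zf
          rw [Finset.mul_sum]
          refine Finset.sum_le_sum (fun S hS => ?_)
          rw [← Finset.sum_mul]
          refine mul_le_mul_of_nonneg_right ?_ (Wt_pos (fun _ => hw0 _) _).le
          refine le_trans (le_of_eq ?_) (h3 U S (mem_trees.1 hS))
          rw [Finset.card_filter]
          push_cast
          rfl
        calc Λ / F * ∫ U, ∑ d ∈ I, G d U ∂(mu (Sym2 V)) ≤ Λ / F * C :=
              mul_le_mul_of_nonneg_left e2 (by positivity)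
          _ = _ := by ring

end Pool.Agent.Lib.MP_1c11af_pr
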